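import Pool.Agent.H50.K4.Fix

/-! # Certificate for the case `(12, 26)` -/

set_option maxRecDepth 40000

namespace Pool.Agent.H50.K4.C1226

open Pool.Agent.H50.K4

def dj : List (List (List (ℕ × ℤ))) := (List.range 12).map low

def t : Tr := (.keep [1] (.node (.cons (.keep [4,5] (.node (.cons (.keep [2,6,7] (.node (.cons (.keep [2,4,5,6] (.node (.cons (.keep
[2,9] (.spl 5 (.cons (.leaf 1 [(2,5),(0,1)]) (.cons (.leaf 1 [(2,5),(1,1),(0,1)]) .nil)))) (.cons (.leaf 1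
[(3,2),(2,1),(8,2)]) (.cons (.keep [2,3,7,8,9] (.node (.cons (.leaf 2 [(10,5),(2,1)]) (.cons (.leaf 1
[(2,4),(7,3),(9,3)]) (.cons (.leaf 1 [(6,1),(2,1),(10,2)]) (.cons (.leaf 1 [(4,5)]) (.cons (.leaf 1 [(10,3)]) (.cons
(.keep [0,8,9,10] (.node (.cons (.leaf 2 [(8,1),(9,4)]) (.cons (.leaf 1 [(7,3),(2,1)]) (.cons (.leaf 1 [(9,3),(2,1)])
(.cons (.leaf 3 [(8,1),(9,7)]) (.cons (.leaf 1 [(6,1),(9,5)]) (.cons (.leaf 1 [(9,5),(0,1)]) .nil)))))))) .nil))))))))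
(.cons (.keep [1,9] (.spl 5 (.cons (.leaf 1 [(2,5),(0,1),(1,1)]) (.cons (.leaf 1 [(2,5),(0,1)]) .nil)))) (.cons (.leaf
1 [(8,2),(3,2)]) (.cons (.keep [1,6,7,9] (.node (.cons (.leaf 1 [(2,1),(4,2)]) (.cons (.leaf 1 [(2,1)]) (.cons (.leaf
1 [(2,1),(4,2)]) (.cons (.leaf 2 [(9,5),(6,1)]) (.cons (.leaf 1 [(9,3)]) (.cons (.keep [4,6,7,8,9] (.node (.cons
(.leaf 2 [(9,3),(6,4)]) (.cons (.leaf 1 [(2,1),(9,3)]) (.cons (.leaf 1 [(2,1),(10,3)]) (.cons (.leaf 3 [(8,1),(10,8)])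
(.cons (.leaf 1 [(8,1),(10,3)]) (.cons (.leaf 1 [(7,1),(0,1),(10,5)]) .nil)))))))) .nil)))))))) .nil)))))))) (.cons
(.keep [3,5,6,7,8] (.node (.cons (.leaf 2 [(10,3),(6,3)]) (.cons (.leaf 1 [(6,1),(2,1),(10,1)]) (.cons (.keep
[2,3,6,8,10] (.node (.cons (.leaf 1 [(2,1),(7,1),(10,1)]) (.cons (.leaf 2 [(7,1),(2,3),(10,3)]) (.cons (.leaf 1
[(8,1),(6,1),(2,1),(10,1)]) (.cons (.leaf 4 [(8,3),(10,5)]) (.cons (.leaf 2 [(7,1),(10,3)]) (.cons (.keep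
[1,6,7,8,9,10] (.node (.cons (.leaf 4 [(11,3),(7,3),(8,2)]) (.cons (.leaf 1 [(2,1),(10,1)]) (.cons (.leaf 2
[(8,1),(11,3),(2,3)]) (.cons (.leaf 5 [(6,3),(11,6),(8,1)]) (.cons (.leaf 1 [(11,1)]) (.cons (.leaf 2
[(11,5),(9,3),(0,2)]) .nil)))))))) .nil)))))))) (.cons (.leaf 2 [(6,3),(1,2),(10,3)]) (.cons (.leaf 1 [(10,1),(6,1)])
(.cons (.keep [1,3,6,7,8,9,10] (.node (.cons (.leaf 1 [(2,1),(7,1),(12,1)]) (.cons (.leaf 1 [(2,3),(9,2),(7,2)])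
(.cons (.leaf 1 [(8,1),(2,1),(12,1)]) (.cons (.leaf 4 [(8,3),(6,2),(12,5)]) (.cons (.leaf 2 [(8,1),(12,3)]) (.cons
(.keep [4,6,7,8,9,10,11,12] (.node (.cons (.leaf 2 [(10,1),(6,3),(8,1)]) (.cons (.leaf 1 [(2,1),(11,1)]) (.cons (.leaf
2 [(13,3),(9,1),(2,2)]) (.cons (.leaf 3 [(12,5),(11,2)]) (.cons (.leaf 1 [(13,1)]) (.cons (.leaf 2
[(7,2),(13,5),(9,3),(0,2)]) .nil)))))))) .nil)))))))) .nil)))))))) (.cons (.keep [2,3,4,6,8] (.node (.cons (.leaf 2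
[(7,3),(10,3),(2,2)]) (.cons (.leaf 1 [(7,1),(10,1),(2,1)]) (.cons (.keep [2,3,7,8,9,10] (.node (.cons (.leaf 4
[(8,3),(2,2),(11,5)]) (.cons (.leaf 1 [(6,1),(2,3),(7,2)]) (.cons (.leaf 1 [(6,1),(8,1),(2,1),(11,1)]) (.cons (.leaf 4
[(8,3),(11,5)]) (.cons (.leaf 2 [(8,1),(11,3)]) (.cons (.keep [3,7,8,9,10,11] (.node (.cons (.leaf 2 [(6,3),(10,1)])
(.cons (.leaf 2 [(8,1),(2,2),(11,3)]) (.cons (.leaf 2 [(2,2),(8,1),(11,3)]) (.cons (.leaf 4 [(7,5),(9,5),(10,6)])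
(.cons (.leaf 1 [(9,1),(11,1)]) (.cons (.leaf 2 [(0,2),(8,3),(11,5)]) .nil)))))))) .nil)))))))) (.cons (.leaf 2
[(10,3),(7,3)]) (.cons (.leaf 1 [(10,1),(7,1)]) (.cons (.keep [1,3,6,7,10] (.node (.cons (.leaf 2
[(7,1),(6,3),(10,3)]) (.cons (.leaf 1 [(2,3),(7,2)]) (.cons (.leaf 1 [(9,1),(2,1),(10,1)]) (.cons (.leaf 4
[(9,3),(6,2),(10,5)]) (.cons (.leaf 2 [(7,1),(10,3)]) (.cons (.keep [3,6,7,8,9,10] (.node (.cons (.leaf 4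
[(10,3),(4,2),(11,5)]) (.cons (.leaf 2 [(6,1),(2,4),(11,3)]) (.cons (.leaf 2 [(8,1),(11,3),(2,3)]) (.cons (.leaf 3
[(10,2),(9,1),(11,4)]) (.cons (.leaf 1 [(7,1),(11,1)]) (.cons (.leaf 1 [(10,2),(0,1),(11,3),(9,1)]) .nil))))))))
.nil)))))))) .nil)))))))) (.cons (.keep [0,4,5,8] (.node (.cons (.leaf 1 [(9,1)]) (.cons (.leaf 1 [(8,1),(7,1)])
(.cons (.keep [7,8,9] (.node (.cons (.leaf 2 [(8,1),(2,1),(6,3)]) (.cons (.leaf 1 [(7,2),(2,2),(3,1)]) (.cons (.leaf 1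
[(7,3),(2,3),(0,1),(3,1)]) (.cons (.leaf 2 [(8,1),(6,3)]) (.cons (.leaf 1 [(8,2),(3,1)]) (.cons (.keep [6,7,8] (.node
(.cons (.leaf 2 [(2,2),(4,1),(8,3)]) (.cons (.leaf 1 [(6,3),(2,1)]) (.cons (.leaf 2 [(4,1),(8,3),(2,2)]) (.cons (.leaf
4 [(7,3),(4,5),(8,3)]) (.cons (.leaf 1 [(6,3)]) (.cons (.leaf 1 [(6,3),(8,1),(0,1)]) .nil)))))))) .nil)))))))) (.cons
(.leaf 1 [(9,1),(1,1)]) (.cons (.leaf 1 [(7,2)]) (.cons (.keep [1,6,7,9] (.node (.cons (.leaf 1 [(8,2),(2,1)]) (.cons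
(.leaf 1 [(8,2),(2,1)]) (.cons (.leaf 1 [(8,2),(2,1)]) (.cons (.leaf 2 [(8,3),(6,1),(9,1)]) (.cons (.leaf 2
[(7,1),(3,1),(9,5)]) (.cons (.keep [6,8,9] (.node (.cons (.leaf 4 [(4,5),(8,5)]) (.cons (.leaf 1 [(2,1),(7,3)]) (.cons
(.leaf 2 [(2,2),(8,3),(4,1)]) (.cons (.leaf 1 [(8,1),(4,2)]) (.cons (.leaf 1 [(7,3)]) (.cons (.leaf 1
[(0,1),(8,1),(7,3),(6,1)]) .nil)))))))) .nil)))))))) .nil)))))))) (.cons (.keep [1,6] (.node (.cons (.leaf 1 [(6,1)])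
(.cons (.leaf 1 [(2,1)]) (.cons (.keep [2,7] (.node (.cons (.leaf 2 [(2,1),(7,1)]) (.cons (.leaf 1 [(2,1),(6,1)])
(.cons (.leaf 1 [(2,1),(6,1)]) (.cons (.leaf 1 [(4,1)]) (.cons (.leaf 1 [(7,1)]) (.cons (.keep [0,6,7] (.node (.cons
(.leaf 2 [(4,1),(7,1),(8,1)]) (.cons (.leaf 1 [(2,1),(8,1)]) (.cons (.leaf 1 [(2,1),(8,1)]) (.cons (.leaf 3
[(7,1),(6,1),(8,2)]) (.cons (.leaf 1 [(6,1),(8,1)]) (.cons (.leaf 1 [(8,1),(0,1)]) .nil)))))))) .nil)))))))) (.cons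
(.leaf 1 [(6,1),(1,1)]) (.cons (.leaf 1 []) (.cons (.keep [1,7] (.node (.cons (.leaf 1 [(2,1)]) (.cons (.leaf 1
[(2,1)]) (.cons (.leaf 1 [(2,1)]) (.cons (.leaf 2 [(7,1),(6,1)]) (.cons (.leaf 1 [(7,1)]) (.cons (.keep [0,6,7] (.node
(.cons (.leaf 2 [(4,1),(8,1)]) (.cons (.leaf 1 [(2,1),(8,1)]) (.cons (.leaf 1 [(2,1),(8,1)]) (.cons (.leaf 3
[(7,1),(6,1),(8,2)]) (.cons (.leaf 1 [(7,1),(6,1),(8,1)]) (.cons (.leaf 1 [(0,1),(8,1),(7,1)]) .nil))))))))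
.nil)))))))) .nil)))))))) (.cons (.keep [1,3,4,6,8] (.node (.cons (.leaf 1 [(10,1),(7,1)]) (.cons (.leaf 1 [(8,1)])
(.cons (.keep [7,8,9,10] (.node (.cons (.leaf 1 [(7,1),(2,1)]) (.cons (.leaf 1 [(3,1),(2,2)]) (.cons (.leaf 1
[(0,1),(6,1),(2,3),(3,1)]) (.cons (.leaf 2 [(7,3),(9,1)]) (.cons (.leaf 1 [(7,2),(8,1)]) (.cons (.keep [0,6,7,8,9]
(.node (.cons (.leaf 2 [(7,1),(4,2),(10,2)]) (.cons (.leaf 2 [(7,1),(2,2),(10,3)]) (.cons (.leaf 2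
[(7,1),(2,2),(10,3),(4,1)]) (.cons (.leaf 3 [(9,2),(6,1),(8,7)]) (.cons (.leaf 1 [(8,3),(6,1),(10,1)]) (.cons (.leaf 1
[(9,1),(0,1),(8,4)]) .nil)))))))) .nil)))))))) (.cons (.leaf 1 [(1,3),(6,1)]) (.cons (.leaf 1 [(1,2)]) (.cons (.keep
[1,7,10] (.node (.cons (.leaf 1 [(6,2),(2,1)]) (.cons (.leaf 1 [(3,2),(2,3)]) (.cons (.leaf 1 [(6,2),(2,1)]) (.cons
(.leaf 2 [(6,4),(8,1)]) (.cons (.leaf 2 [(3,1),(8,3)]) (.cons (.keep [0,3,6,7,8] (.node (.cons (.leaf 4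
[(9,3),(4,5),(10,5)]) (.cons (.leaf 2 [(7,1),(2,4),(10,3)]) (.cons (.leaf 2 [(7,1),(2,4),(10,3)]) (.cons (.leaf 3
[(8,7),(10,2),(6,1)]) (.cons (.leaf 1 [(8,4),(6,1),(10,1)]) (.cons (.leaf 1 [(10,1),(0,1),(8,4)]) .nil))))))))
.nil)))))))) .nil)))))))) .nil)))))))) (.cons (.leaf 1 [(3,1),(7,1)]) (.cons (.keep [2,3,6,7] (.node (.cons (.leaf 1
[(2,1),(7,1),(9,1)]) (.cons (.leaf 1 [(2,1),(9,1),(7,1)]) (.cons (.leaf 1 [(7,1),(9,1),(2,1)]) (.cons (.leaf 1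
[(4,2)]) (.cons (.keep [6,8,9] (.node (.cons (.leaf 2 [(7,1),(6,1)]) (.cons (.leaf 1 [(2,1),(7,1)]) (.cons (.keep
[2,6,7,8] (.node (.cons (.leaf 2 [(7,1),(2,1),(8,2)]) (.cons (.leaf 1 [(6,1),(2,1),(8,1)]) (.cons (.leaf 1
[(0,1),(2,1),(8,1),(7,1)]) (.cons (.leaf 2 [(9,1),(8,1)]) (.cons (.leaf 1 [(7,1),(8,1)]) (.cons (.leaf 1
[(0,1),(8,1),(7,1)]) .nil)))))))) (.cons (.leaf 2 [(8,1),(1,1)]) (.cons (.leaf 1 [(7,1)]) (.cons (.keep [1,7,8] (.node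
(.cons (.leaf 1 [(7,1),(2,1)]) (.cons (.leaf 1 [(7,1),(2,1)]) (.cons (.leaf 1 [(0,1),(6,1),(2,1),(8,1)]) (.cons (.leaf
2 [(7,1),(6,1),(8,1)]) (.cons (.leaf 1 [(8,1)]) (.cons (.leaf 1 [(6,1),(0,1),(8,1)]) .nil)))))))) .nil)))))))) (.cons
(.keep [4,6,7,8,9] (.node (.cons (.leaf 2 [(10,1),(6,2)]) (.cons (.leaf 1 [(9,1)]) (.cons (.keep [6,7,9,10] (.node
(.cons (.leaf 1 [(8,1),(2,1)]) (.cons (.leaf 1 [(8,1),(2,1)]) (.cons (.leaf 1 [(8,1),(2,1)]) (.cons (.leaf 2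
[(8,1),(6,2),(9,1)]) (.cons (.leaf 1 [(8,1),(6,1),(7,1)]) (.cons (.leaf 1 [(6,2),(0,1),(9,1)]) .nil)))))))) (.cons
(.leaf 2 [(10,1),(1,3)]) (.cons (.leaf 1 [(9,1),(1,1)]) (.cons (.keep [1,8,9,10] (.node (.cons (.leaf 1
[(8,1),(6,1),(2,1)]) (.cons (.leaf 1 [(8,1),(3,1),(2,2)]) (.cons (.leaf 1 [(0,1),(6,3),(2,1),(9,1)]) (.cons (.leaf 2
[(8,1),(6,3),(9,1)]) (.cons (.leaf 2 [(3,1),(7,1),(9,3)]) (.cons (.leaf 1 [(6,3),(0,1),(9,1)]) .nil))))))))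
.nil)))))))) .nil)))))))) (.cons (.keep [1,6,7] (.node (.cons (.keep [2,4,5,8] (.node (.cons (.keep [2,9] (.spl 5
(.cons (.leaf 1 [(2,3),(0,1)]) (.cons (.leaf 1 [(2,3),(1,1),(0,1)]) .nil)))) (.cons (.leaf 1 [(3,1),(2,1),(8,1)])
(.cons (.keep [2,3,7,8,9] (.node (.cons (.leaf 2 [(10,3),(2,1)]) (.cons (.leaf 1 [(2,3),(7,2),(9,2)]) (.cons (.leaf 1
[(6,1),(2,1),(10,1)]) (.cons (.leaf 1 [(4,3)]) (.cons (.leaf 1 [(10,2)]) (.cons (.keep [0,8,9,10] (.node (.cons (.leaf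
2 [(8,1),(9,2)]) (.cons (.leaf 1 [(7,2),(2,1)]) (.cons (.leaf 1 [(9,2),(2,1)]) (.cons (.leaf 3 [(8,1),(9,4)]) (.cons
(.leaf 1 [(6,1),(9,3)]) (.cons (.leaf 1 [(9,3),(0,1)]) .nil)))))))) .nil)))))))) (.cons (.keep [1,9] (.spl 5 (.cons
(.leaf 1 [(2,3),(0,1),(1,1)]) (.cons (.leaf 1 [(2,3),(0,1)]) .nil)))) (.cons (.leaf 1 [(8,1),(3,1)]) (.cons (.keep
[1,6,7,9] (.node (.cons (.leaf 1 [(2,1),(4,1)]) (.cons (.leaf 1 [(2,1)]) (.cons (.leaf 1 [(2,1),(4,1)]) (.cons (.leaf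
2 [(9,3),(6,1)]) (.cons (.leaf 1 [(9,2)]) (.cons (.keep [4,6,7,8,9] (.node (.cons (.leaf 1 [(9,1),(6,1)]) (.cons
(.leaf 1 [(2,1),(9,2)]) (.cons (.leaf 1 [(2,1),(10,2)]) (.cons (.leaf 3 [(8,1),(10,5)]) (.cons (.leaf 1
[(8,1),(10,2)]) (.cons (.leaf 1 [(7,1),(0,1),(10,3)]) .nil)))))))) .nil)))))))) .nil)))))))) (.cons (.keep [3,5,8]
(.node (.cons (.leaf 1 [(8,2),(6,1)]) (.cons (.leaf 1 [(2,2),(6,1),(3,1)]) (.cons (.keep [2,3,6,8] (.node (.cons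
(.leaf 1 [(2,1),(4,1),(7,2)]) (.cons (.leaf 1 [(2,3),(6,2),(7,2)]) (.cons (.leaf 1 [(8,1),(6,2),(7,1),(2,2)]) (.cons
(.leaf 2 [(8,1),(9,3)]) (.cons (.leaf 1 [(9,2)]) (.cons (.keep [1,6,7,8,9] (.node (.cons (.leaf 1 [(7,1),(8,1)])
(.cons (.leaf 1 [(2,1)]) (.cons (.leaf 1 [(10,2),(2,1)]) (.cons (.leaf 2 [(10,3),(6,1)]) (.cons (.leaf 1 [(1,1)])
(.cons (.leaf 1 [(10,3),(9,1),(0,1)]) .nil)))))))) .nil)))))))) (.cons (.leaf 1 [(8,2),(6,1),(1,1)]) (.cons (.leaf 1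
[(7,1),(6,1),(3,1)]) (.cons (.keep [1,3,6,7,8] (.node (.cons (.leaf 1 [(2,1),(4,1),(7,2)]) (.cons (.leaf 1
[(2,3),(9,2),(7,2)]) (.cons (.leaf 1 [(8,1),(9,1),(7,1),(2,2)]) (.cons (.leaf 2 [(8,1),(6,1),(10,3)]) (.cons (.leaf 1
[(10,2)]) (.cons (.keep [6,7,8,9,10] (.node (.cons (.leaf 1 [(9,1),(7,1)]) (.cons (.leaf 1 [(2,1)]) (.cons (.leaf 1
[(10,2),(2,1)]) (.cons (.leaf 3 [(10,4),(8,1)]) (.cons (.leaf 1 [(1,1)]) (.cons (.leaf 1 [(6,1),(10,3),(8,1),(0,1)])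
.nil)))))))) .nil)))))))) .nil)))))))) (.cons (.keep [2,3,4,8] (.node (.cons (.leaf 1 [(9,2),(2,1),(7,1)]) (.cons
(.leaf 1 [(3,1),(2,1),(7,1)]) (.cons (.keep [2,3,6,7,8,9] (.node (.cons (.leaf 2 [(2,4),(9,1),(7,3)]) (.cons (.leaf 1
[(2,3),(7,2)]) (.cons (.leaf 1 [(6,1),(9,1),(7,1),(2,2)]) (.cons (.leaf 2 [(9,1),(11,3)]) (.cons (.leaf 1 [(11,2)])
(.cons (.keep [3,8,9,10,11] (.node (.cons (.leaf 2 [(8,1),(6,2)]) (.cons (.leaf 1 [(2,1),(9,2)]) (.cons (.leaf 1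
[(2,1),(10,2)]) (.cons (.leaf 3 [(8,1),(10,4)]) (.cons (.leaf 1 [(7,1),(10,2)]) (.cons (.leaf 1 [(8,1),(0,1),(10,3)])
.nil)))))))) .nil)))))))) (.cons (.leaf 1 [(9,2),(7,1)]) (.cons (.leaf 1 [(3,1),(7,1)]) (.cons (.keep [1,3,7,9] (.node
(.cons (.leaf 1 [(2,2),(6,1),(7,2)]) (.cons (.leaf 1 [(2,3),(7,2)]) (.cons (.leaf 1 [(8,1),(7,1),(2,2)]) (.cons (.leaf
2 [(8,1),(6,1),(9,3)]) (.cons (.leaf 1 [(9,2)]) (.cons (.keep [3,6,8,9] (.node (.cons (.leaf 2 [(8,1),(4,1),(6,3)])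
(.cons (.leaf 1 [(2,1),(7,2)]) (.cons (.leaf 1 [(2,1),(9,2)]) (.cons (.leaf 3 [(8,1),(7,1),(9,4)]) (.cons (.leaf 1
[(7,1),(9,1)]) (.cons (.leaf 1 [(8,1),(0,1),(9,3),(7,1)]) .nil)))))))) .nil)))))))) .nil)))))))) (.cons (.keep
[4,5,6,7] (.node (.cons (.leaf 1 [(6,1)]) (.cons (.leaf 1 [(7,1),(9,1)]) (.cons (.keep [6,7,8,9] (.node (.cons (.leaf
1 [(9,1),(2,1),(7,1)]) (.cons (.leaf 1 [(7,1),(2,1),(9,1)]) (.cons (.leaf 1 [(7,1),(2,1),(9,1)]) (.cons (.leaf 2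
[(8,1),(6,4)]) (.cons (.leaf 1 [(6,2)]) (.cons (.keep [3,6,7,8] (.node (.cons (.leaf 2 [(4,4),(6,2),(8,3)]) (.cons
(.leaf 1 [(7,2),(2,1)]) (.cons (.leaf 1 [(7,2),(2,1)]) (.cons (.leaf 1 [(4,2),(8,1)]) (.cons (.leaf 1 [(7,3),(9,1)])
(.cons (.leaf 1 [(7,4),(0,1),(9,1)]) .nil)))))))) .nil)))))))) (.cons (.leaf 1 [(6,1),(1,1)]) (.cons (.leaf 1
[(9,1),(6,1)]) (.cons (.keep [1,6,8] (.node (.cons (.leaf 1 [(8,1),(2,1),(7,2)]) (.cons (.leaf 1 [(7,2),(2,1)]) (.cons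
(.leaf 1 [(8,1),(7,2),(2,1)]) (.cons (.leaf 2 [(8,1),(6,1),(7,4)]) (.cons (.leaf 1 [(7,2)]) (.cons (.keep [6,7,8]
(.node (.cons (.leaf 1 [(7,2),(2,1)]) (.cons (.leaf 1 [(2,1),(7,2)]) (.cons (.leaf 1 [(7,2),(2,1)]) (.cons (.leaf 3
[(7,7),(8,2)]) (.cons (.leaf 1 [(7,3),(8,1)]) (.cons (.leaf 1 [(6,1),(7,4),(0,1),(8,1)]) .nil)))))))) .nil))))))))
.nil)))))))) (.cons (.keep [3,6] (.node (.cons (.leaf 1 [(6,1)]) (.cons (.leaf 1 [(7,1),(2,1)]) (.cons (.keep [2,7]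
(.node (.cons (.leaf 2 [(2,1),(7,1)]) (.cons (.leaf 1 [(2,1)]) (.cons (.leaf 1 [(2,1),(7,1),(6,1)]) (.cons (.leaf 2
[(7,1)]) (.cons (.leaf 1 []) (.cons (.keep [0,6,7] (.node (.cons (.leaf 2 [(8,1),(7,1),(4,1)]) (.cons (.leaf 1
[(2,1)]) (.cons (.leaf 1 [(2,1)]) (.cons (.leaf 3 [(8,2),(7,1),(6,1)]) (.cons (.leaf 1 [(8,1),(6,1)]) (.cons (.leaf 1
[(0,1),(8,1)]) .nil)))))))) .nil)))))))) (.cons (.leaf 1 [(1,1),(6,1)]) (.cons (.leaf 1 [(7,1)]) (.cons (.keep [1,7]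
(.node (.cons (.leaf 1 [(6,1)]) (.cons (.leaf 1 [(2,1)]) (.cons (.leaf 1 [(7,1),(2,1)]) (.cons (.leaf 2 [(6,1),(7,1)])
(.cons (.leaf 1 []) (.cons (.keep [0,6,7] (.node (.cons (.leaf 1 [(2,1)]) (.cons (.leaf 1 [(2,1)]) (.cons (.leaf 1
[(2,1)]) (.cons (.leaf 3 [(7,1),(8,2),(6,1)]) (.cons (.leaf 1 [(7,1),(8,1),(6,1)]) (.cons (.leaf 1
[(8,1),(0,1),(7,1)]) .nil)))))))) .nil)))))))) .nil)))))))) (.cons (.keep [1,4,6,7] (.node (.cons (.leaf 1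
[(9,1),(7,1),(6,1)]) (.cons (.leaf 1 [(9,1)]) (.cons (.keep [7,9] (.node (.cons (.leaf 1 [(2,1),(7,1)]) (.cons (.leaf
1 [(3,2),(2,3)]) (.cons (.leaf 1 [(7,1),(2,1)]) (.cons (.leaf 2 [(6,3),(7,1)]) (.cons (.leaf 1 [(6,2)]) (.cons (.keep
[0,3,6,7] (.node (.cons (.leaf 2 [(7,2),(4,3),(9,1)]) (.cons (.leaf 1 [(2,1),(8,2)]) (.cons (.leaf 1 [(8,2),(2,1)])
(.cons (.leaf 3 [(8,5),(9,2),(6,1)]) (.cons (.leaf 1 [(8,3),(9,1),(6,1)]) (.cons (.leaf 1 [(9,1),(0,1),(8,3)])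
.nil)))))))) .nil)))))))) (.cons (.leaf 1 [(9,1),(1,2),(6,1)]) (.cons (.leaf 1 [(9,1),(1,1)]) (.cons (.keep [1,8,9]
(.node (.cons (.leaf 2 [(2,3),(8,3)]) (.cons (.leaf 1 [(3,2),(2,3)]) (.cons (.leaf 2 [(3,1),(8,3),(2,3)]) (.cons
(.leaf 2 [(6,4),(8,1)]) (.cons (.leaf 1 [(6,2)]) (.cons (.keep [0,6,7,8] (.node (.cons (.leaf 2 [(8,1),(7,4),(4,1)])
(.cons (.leaf 1 [(2,1),(7,2)]) (.cons (.leaf 1 [(7,2),(2,1)]) (.cons (.leaf 3 [(7,7),(9,2),(6,1)]) (.cons (.leaf 1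
[(7,4),(9,1),(6,1)]) (.cons (.leaf 1 [(9,1),(0,1),(7,4)]) .nil)))))))) .nil)))))))) .nil)))))))) .nil)))))))) (.cons
(.leaf 1 [(7,1),(3,1)]) (.cons (.keep [1,6,7] (.node (.cons (.leaf 1 [(4,1)]) (.cons (.leaf 1 []) (.cons (.leaf 1
[(4,1)]) (.cons (.leaf 1 [(4,2),(6,1)]) (.cons (.keep [6,7,8] (.node (.cons (.leaf 2 [(6,1),(8,1)]) (.cons (.leaf 1
[(2,1),(7,1)]) (.cons (.keep [0,7,8] (.node (.cons (.leaf 2 [(6,1),(2,1),(7,2)]) (.cons (.leaf 1 [(7,1),(2,1),(6,1)])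
(.cons (.leaf 1 [(2,1),(7,1),(0,1)]) (.cons (.leaf 2 [(8,1),(7,1)]) (.cons (.leaf 1 [(6,1),(7,1)]) (.cons (.leaf 1
[(7,1),(0,1)]) .nil)))))))) (.cons (.leaf 2 [(7,1),(1,1)]) (.cons (.leaf 1 [(7,1)]) (.cons (.keep [0,1,7,8] (.node
(.cons (.leaf 1 [(2,1),(8,1)]) (.cons (.leaf 1 [(8,1),(2,1)]) (.cons (.leaf 1 [(8,1),(2,1)]) (.cons (.leaf 2
[(9,1),(7,1),(8,1)]) (.cons (.leaf 1 [(6,1),(7,1),(8,1)]) (.cons (.leaf 1 [(7,1),(8,1),(0,1)]) .nil))))))))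
.nil)))))))) (.cons (.keep [3,4,7] (.node (.cons (.leaf 2 [(8,1),(7,2)]) (.cons (.leaf 1 [(8,1)]) (.cons (.keep
[0,7,8] (.node (.cons (.leaf 1 [(2,1),(8,1)]) (.cons (.leaf 1 [(8,1),(2,1)]) (.cons (.leaf 1 [(8,1),(2,1)]) (.cons
(.leaf 2 [(6,1),(7,3),(8,2)]) (.cons (.leaf 1 [(6,1),(7,2),(8,1)]) (.cons (.leaf 1 [(7,2),(8,1),(0,1)]) .nil))))))))
(.cons (.leaf 2 [(8,1),(1,3)]) (.cons (.leaf 1 [(8,1),(1,1)]) (.cons (.keep [0,1,6,8] (.node (.cons (.leaf 2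
[(2,4),(8,1),(9,3)]) (.cons (.leaf 1 [(9,1),(3,1),(2,2)]) (.cons (.leaf 2 [(3,1),(8,1),(9,3),(2,4)]) (.cons (.leaf 2
[(6,1),(7,5),(9,2)]) (.cons (.leaf 1 [(6,1),(7,3),(9,1)]) (.cons (.leaf 1 [(7,3),(9,1),(0,1)]) .nil))))))))
.nil)))))))) .nil)))))))) .nil)))))))) (.cons (.keep [3,5] (.node (.cons (.keep [2] (.node (.cons (.keep [2,4,5,6]
(.node (.cons (.keep [2,9] (.spl 5 (.cons (.leaf 1 [(2,3),(0,1)]) (.cons (.leaf 1 [(2,3),(1,1),(0,1)]) .nil)))) (.cons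
(.leaf 1 [(3,1),(2,1),(8,1)]) (.cons (.keep [2,3,7,8,9] (.node (.cons (.leaf 2 [(10,3),(2,1)]) (.cons (.leaf 1
[(2,3),(7,2),(9,2)]) (.cons (.leaf 1 [(6,1),(2,1),(10,1)]) (.cons (.leaf 1 [(4,3)]) (.cons (.leaf 1 [(10,2)]) (.cons
(.keep [0,8,9,10] (.node (.cons (.leaf 2 [(8,1),(9,2)]) (.cons (.leaf 1 [(7,2),(2,1)]) (.cons (.leaf 1 [(9,2),(2,1)])
(.cons (.leaf 3 [(8,1),(9,4)]) (.cons (.leaf 1 [(6,1),(9,3)]) (.cons (.leaf 1 [(9,3),(0,1)]) .nil)))))))) .nil))))))))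
(.cons (.keep [1,9] (.spl 5 (.cons (.leaf 1 [(2,3),(0,1),(1,1)]) (.cons (.leaf 1 [(2,3),(0,1)]) .nil)))) (.cons (.leaf
1 [(8,1),(3,1)]) (.cons (.keep [1,6,7,9] (.node (.cons (.leaf 1 [(2,1),(4,1)]) (.cons (.leaf 1 [(2,1)]) (.cons (.leaf
1 [(2,1),(4,1)]) (.cons (.leaf 2 [(9,3),(6,1)]) (.cons (.leaf 1 [(9,2)]) (.cons (.keep [4,6,7,8,9] (.node (.cons
(.leaf 1 [(9,1),(6,1)]) (.cons (.leaf 1 [(2,1),(9,2)]) (.cons (.leaf 1 [(2,1),(10,2)]) (.cons (.leaf 3 [(8,1),(10,5)])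
(.cons (.leaf 1 [(8,1),(10,2)]) (.cons (.leaf 1 [(7,1),(0,1),(10,3)]) .nil)))))))) .nil)))))))) .nil)))))))) (.cons
(.keep [3,5,6] (.node (.cons (.leaf 1 [(8,2),(6,2)]) (.cons (.leaf 1 [(3,1),(2,2)]) (.cons (.keep [2,3,6,8] (.node
(.cons (.leaf 1 [(2,1),(7,1),(9,1)]) (.cons (.leaf 1 [(2,2),(6,2),(7,1)]) (.cons (.leaf 1 [(7,1),(6,2),(2,2)]) (.cons
(.leaf 1 [(7,1),(4,2)]) (.cons (.leaf 1 [(7,1),(9,2)]) (.cons (.keep [6,7,8,9] (.node (.cons (.leaf 3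
[(9,2),(6,2),(7,1)]) (.cons (.leaf 1 [(2,1),(9,1)]) (.cons (.leaf 1 [(2,2),(7,1),(9,2)]) (.cons (.leaf 2
[(6,1),(9,2),(7,1)]) (.cons (.leaf 1 [(9,1)]) (.cons (.leaf 1 [(9,3),(8,2),(0,1)]) .nil)))))))) .nil)))))))) (.cons
(.leaf 1 [(6,2),(1,1),(8,2)]) (.cons (.leaf 1 [(7,1),(3,1)]) (.cons (.keep [1,3,6,7,8] (.node (.cons (.leaf 1
[(7,1),(2,1),(4,1)]) (.cons (.leaf 1 [(8,1),(2,1)]) (.cons (.leaf 1 [(7,1),(2,2),(9,1)]) (.cons (.leaf 1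
[(7,1),(10,1)]) (.cons (.leaf 1 [(8,1),(10,2)]) (.cons (.keep [6,7,8,9,10] (.node (.cons (.leaf 3
[(10,2),(9,1),(7,1)]) (.cons (.leaf 1 [(2,1),(10,1)]) (.cons (.leaf 1 [(10,2),(8,1),(2,1)]) (.cons (.leaf 2
[(10,2),(9,1),(7,1)]) (.cons (.leaf 1 [(10,1)]) (.cons (.leaf 1 [(6,1),(10,3),(8,2),(0,1)]) .nil)))))))) .nil))))))))
.nil)))))))) (.cons (.keep [3,4,6] (.node (.cons (.leaf 1 [(6,2),(8,2),(2,1)]) (.cons (.leaf 1 [(2,1),(3,1)]) (.cons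
(.keep [2,3,6,7,8] (.node (.cons (.leaf 2 [(7,2),(2,3),(10,1)]) (.cons (.leaf 1 [(6,1),(2,2),(7,1)]) (.cons (.leaf 1
[(6,1),(2,2),(7,1)]) (.cons (.leaf 1 [(8,1),(4,3)]) (.cons (.leaf 1 [(8,1),(10,2)]) (.cons (.keep [3,7,8,9,10] (.node
(.cons (.leaf 2 [(6,1),(10,1)]) (.cons (.leaf 1 [(2,1),(10,1),(9,1)]) (.cons (.leaf 1 [(2,2),(9,1),(7,1),(10,2)])
(.cons (.leaf 2 [(7,1),(9,1),(10,2)]) (.cons (.leaf 1 [(9,1),(10,1)]) (.cons (.leaf 1 [(0,1),(8,2),(10,3)])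
.nil)))))))) .nil)))))))) (.cons (.leaf 1 [(8,2),(6,2)]) (.cons (.leaf 1 [(3,1)]) (.cons (.keep [1,3,6,8] (.node
(.cons (.leaf 1 [(7,1),(2,2)]) (.cons (.leaf 1 [(2,2),(7,1)]) (.cons (.leaf 1 [(2,2),(7,1)]) (.cons (.leaf 1
[(7,1),(6,1),(9,1)]) (.cons (.leaf 1 [(7,1),(9,2)]) (.cons (.keep [3,6,7,8,9] (.node (.cons (.leaf 2
[(6,2),(4,1),(10,1)]) (.cons (.leaf 1 [(6,1),(2,3),(10,2)]) (.cons (.leaf 1 [(8,1),(10,2),(2,2)]) (.cons (.leaf 1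
[(6,1),(10,1)]) (.cons (.leaf 1 [(7,1),(10,1)]) (.cons (.leaf 1 [(9,2),(0,1),(10,3),(7,1)]) .nil)))))))) .nil))))))))
.nil)))))))) (.cons (.keep [1,4,5,6] (.node (.cons (.leaf 1 [(9,1)]) (.cons (.leaf 1 [(8,1)]) (.cons (.keep [6,7,8,9]
(.node (.cons (.leaf 2 [(9,1),(2,1),(7,2)]) (.cons (.leaf 1 [(2,1),(8,1)]) (.cons (.leaf 1 [(2,1),(8,1)]) (.cons
(.leaf 2 [(6,1),(7,3)]) (.cons (.leaf 1 [(9,1),(7,1)]) (.cons (.keep [7,8,9] (.node (.cons (.leaf 2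
[(7,1),(4,2),(8,2)]) (.cons (.leaf 1 [(6,2),(2,1)]) (.cons (.leaf 1 [(4,1),(8,2),(2,1)]) (.cons (.leaf 3
[(7,2),(4,3),(8,2)]) (.cons (.leaf 1 [(6,2)]) (.cons (.leaf 1 [(6,2),(8,1),(0,1)]) .nil)))))))) .nil)))))))) (.cons
(.leaf 1 [(6,1),(7,1),(1,1)]) (.cons (.leaf 1 [(7,1)]) (.cons (.keep [1,6,7] (.node (.cons (.leaf 1 [(8,1),(2,1)])
(.cons (.leaf 1 [(8,1),(2,1)]) (.cons (.leaf 1 [(8,1),(2,1)]) (.cons (.leaf 2 [(8,3),(6,1),(7,1)]) (.cons (.leaf 1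
[(8,2),(7,1)]) (.cons (.keep [6,7,8] (.node (.cons (.leaf 2 [(8,3)]) (.cons (.leaf 1 [(2,1),(8,2)]) (.cons (.leaf 1
[(2,1),(7,1),(8,2)]) (.cons (.leaf 3 [(7,1),(8,5)]) (.cons (.leaf 1 [(8,2)]) (.cons (.leaf 1
[(6,1),(7,1),(0,1),(8,3)]) .nil)))))))) .nil)))))))) .nil)))))))) (.cons (.keep [1,6] (.node (.cons (.leaf 1 [(6,1)])
(.cons (.leaf 1 [(2,1)]) (.cons (.keep [2,7] (.node (.cons (.leaf 2 [(2,1),(7,1)]) (.cons (.leaf 1 [(2,1),(6,1)])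
(.cons (.leaf 1 [(2,1),(6,1)]) (.cons (.leaf 1 [(4,1)]) (.cons (.leaf 1 [(7,1)]) (.cons (.keep [0,6,7] (.node (.cons
(.leaf 2 [(4,1),(7,1),(8,1)]) (.cons (.leaf 1 [(2,1),(8,1)]) (.cons (.leaf 1 [(2,1),(8,1)]) (.cons (.leaf 3
[(7,1),(6,1),(8,2)]) (.cons (.leaf 1 [(6,1),(8,1)]) (.cons (.leaf 1 [(8,1),(0,1)]) .nil)))))))) .nil)))))))) (.cons
(.leaf 1 [(6,1),(1,1)]) (.cons (.leaf 1 []) (.cons (.keep [1,7] (.node (.cons (.leaf 1 [(2,1)]) (.cons (.leaf 1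
[(2,1)]) (.cons (.leaf 1 [(2,1)]) (.cons (.leaf 2 [(7,1),(6,1)]) (.cons (.leaf 1 [(7,1)]) (.cons (.keep [0,6,7] (.node
(.cons (.leaf 2 [(4,1),(8,1)]) (.cons (.leaf 1 [(2,1),(8,1)]) (.cons (.leaf 1 [(2,1),(8,1)]) (.cons (.leaf 3
[(7,1),(6,1),(8,2)]) (.cons (.leaf 1 [(7,1),(6,1),(8,1)]) (.cons (.leaf 1 [(0,1),(8,1),(7,1)]) .nil))))))))
.nil)))))))) .nil)))))))) (.cons (.keep [1,4,6] (.node (.cons (.leaf 1 [(7,1),(6,1)]) (.cons (.leaf 1 []) (.cons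
(.keep [7,8] (.node (.cons (.leaf 1 [(2,1)]) (.cons (.leaf 1 [(2,1)]) (.cons (.leaf 1 [(2,1)]) (.cons (.leaf 1
[(6,1),(4,1)]) (.cons (.leaf 1 [(7,1),(6,1)]) (.cons (.keep [0,3,6,7] (.node (.cons (.leaf 2 [(4,2),(9,1),(7,1)])
(.cons (.leaf 1 [(2,1),(9,1),(8,1)]) (.cons (.leaf 1 [(2,1),(9,1),(8,1)]) (.cons (.leaf 3 [(8,3),(6,1),(9,2)]) (.cons
(.leaf 1 [(8,2),(6,1),(9,1)]) (.cons (.leaf 1 [(0,1),(9,1),(8,2)]) .nil)))))))) .nil)))))))) (.cons (.leaf 1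
[(1,2),(6,1)]) (.cons (.leaf 1 [(1,1)]) (.cons (.keep [1,8] (.node (.cons (.leaf 1 [(6,1),(2,1)]) (.cons (.leaf 1
[(3,1),(2,2)]) (.cons (.leaf 1 [(6,1),(2,1)]) (.cons (.leaf 2 [(6,3),(7,1)]) (.cons (.leaf 1 [(6,1),(7,1)]) (.cons
(.keep [0,3,6,7] (.node (.cons (.leaf 2 [(7,2),(4,3),(9,1)]) (.cons (.leaf 1 [(7,1),(2,3),(9,2)]) (.cons (.leaf 1
[(7,1),(2,3),(9,2)]) (.cons (.leaf 3 [(9,2),(6,1),(8,5)]) (.cons (.leaf 1 [(8,3),(6,1),(9,1)]) (.cons (.leaf 1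
[(9,1),(0,1),(8,3)]) .nil)))))))) .nil)))))))) .nil)))))))) .nil)))))))) (.cons (.leaf 1 [(2,1),(3,1)]) (.cons (.keep
[2,3] (.node (.cons (.leaf 1 [(4,1),(7,1)]) (.cons (.leaf 1 [(2,1),(6,1),(7,1)]) (.cons (.leaf 1 [(2,1),(6,1),(7,1)])
(.cons (.leaf 1 [(7,1),(4,1)]) (.cons (.keep [6,7] (.node (.cons (.leaf 2 [(6,1),(7,1)]) (.cons (.leaf 1 [(2,1)])
(.cons (.keep [2,6,7] (.node (.cons (.leaf 2 [(2,1),(7,1)]) (.cons (.leaf 1 [(2,1),(6,1)]) (.cons (.leaf 1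
[(2,1),(6,1)]) (.cons (.leaf 1 [(4,1)]) (.cons (.leaf 1 [(7,1)]) (.cons (.leaf 1 [(8,1),(0,1),(7,1)]) .nil))))))))
(.cons (.leaf 2 [(6,1),(7,1),(1,1)]) (.cons (.leaf 1 []) (.cons (.keep [1,6,7] (.node (.cons (.leaf 1 [(2,1)]) (.cons
(.leaf 1 [(2,1)]) (.cons (.leaf 1 [(2,1)]) (.cons (.leaf 2 [(7,1),(6,1)]) (.cons (.leaf 1 [(7,1)]) (.cons (.leaf 1
[(8,1),(6,1),(0,1),(7,1)]) .nil)))))))) .nil)))))))) (.cons (.keep [4,6,7] (.node (.cons (.leaf 2 [(6,1),(7,1),(8,1)])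
(.cons (.leaf 1 []) (.cons (.keep [6,7,8] (.node (.cons (.leaf 1 [(2,1)]) (.cons (.leaf 1 [(2,1)]) (.cons (.leaf 1
[(2,1)]) (.cons (.leaf 1 [(6,1),(4,1)]) (.cons (.leaf 1 [(7,1),(6,1)]) (.cons (.leaf 1 [(0,1),(8,1),(6,1),(7,1)])
.nil)))))))) (.cons (.leaf 2 [(7,1),(1,2),(8,1)]) (.cons (.leaf 1 [(1,1)]) (.cons (.keep [1,7,8] (.node (.cons (.leaf
1 [(6,1),(2,1)]) (.cons (.leaf 1 [(3,1),(2,2)]) (.cons (.leaf 1 [(6,1),(2,1)]) (.cons (.leaf 2 [(6,3),(7,1)]) (.cons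
(.leaf 1 [(6,1),(7,1)]) (.cons (.leaf 1 [(6,2),(8,1),(0,1),(7,1)]) .nil)))))))) .nil)))))))) .nil)))))))) (.cons
(.keep [6,7] (.node (.cons (.keep [2,4,5,7] (.node (.cons (.keep [2,9] (.spl 5 (.cons (.leaf 1 [(2,3),(0,1)]) (.cons
(.leaf 1 [(2,3),(1,1),(0,1)]) .nil)))) (.cons (.leaf 1 [(3,1),(2,1),(8,1)]) (.cons (.keep [2,3,7,8,9] (.node (.cons
(.leaf 2 [(10,3),(2,1)]) (.cons (.leaf 1 [(2,3),(7,2),(9,2)]) (.cons (.leaf 1 [(6,1),(2,1),(10,1)]) (.cons (.leaf 1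
[(4,3)]) (.cons (.leaf 1 [(10,2)]) (.cons (.keep [0,8,9,10] (.node (.cons (.leaf 2 [(8,1),(9,2)]) (.cons (.leaf 1
[(7,2),(2,1)]) (.cons (.leaf 1 [(9,2),(2,1)]) (.cons (.leaf 3 [(8,1),(9,4)]) (.cons (.leaf 1 [(6,1),(9,3)]) (.cons
(.leaf 1 [(9,3),(0,1)]) .nil)))))))) .nil)))))))) (.cons (.keep [1,9] (.spl 5 (.cons (.leaf 1 [(2,3),(0,1),(1,1)])
(.cons (.leaf 1 [(2,3),(0,1)]) .nil)))) (.cons (.leaf 1 [(8,1),(3,1)]) (.cons (.keep [1,6,7,9] (.node (.cons (.leaf 1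
[(2,1),(4,1)]) (.cons (.leaf 1 [(2,1)]) (.cons (.leaf 1 [(2,1),(4,1)]) (.cons (.leaf 2 [(9,3),(6,1)]) (.cons (.leaf 1
[(9,2)]) (.cons (.keep [4,6,7,8,9] (.node (.cons (.leaf 1 [(9,1),(6,1)]) (.cons (.leaf 1 [(2,1),(9,2)]) (.cons (.leaf
1 [(2,1),(10,2)]) (.cons (.leaf 3 [(8,1),(10,5)]) (.cons (.leaf 1 [(8,1),(10,2)]) (.cons (.leaf 1
[(7,1),(0,1),(10,3)]) .nil)))))))) .nil)))))))) .nil)))))))) (.cons (.keep [3,5,6,7] (.node (.cons (.leaf 1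
[(9,2),(6,2)]) (.cons (.leaf 1 [(3,1),(2,2)]) (.cons (.keep [2,3,6,8,9] (.node (.cons (.leaf 1 [(2,1),(7,1),(10,1)])
(.cons (.leaf 1 [(2,2),(6,2),(7,1)]) (.cons (.leaf 1 [(7,1),(6,2),(2,2)]) (.cons (.leaf 1 [(7,1),(4,2)]) (.cons (.leaf
1 [(7,1),(10,2)]) (.cons (.keep [6,7,8,9,10] (.node (.cons (.leaf 3 [(10,2),(6,2),(7,1)]) (.cons (.leaf 1
[(2,1),(9,1)]) (.cons (.leaf 1 [(2,2),(7,1),(10,2)]) (.cons (.leaf 2 [(6,1),(10,2),(7,1)]) (.cons (.leaf 1 [(10,1)])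
(.cons (.leaf 1 [(10,3),(8,2),(0,1)]) .nil)))))))) .nil)))))))) (.cons (.leaf 1 [(6,2),(1,1),(9,2)]) (.cons (.leaf 1
[(7,1),(3,1)]) (.cons (.keep [1,3,6,7,8,9] (.node (.cons (.leaf 1 [(7,1),(2,1),(4,1)]) (.cons (.leaf 1 [(8,1),(2,1)])
(.cons (.leaf 1 [(7,1),(2,2),(9,1)]) (.cons (.leaf 1 [(7,1),(11,1)]) (.cons (.leaf 1 [(8,1),(11,2)]) (.cons (.keep
[6,7,8,9,10,11] (.node (.cons (.leaf 3 [(11,2),(9,1),(7,1)]) (.cons (.leaf 1 [(2,1),(10,1)]) (.cons (.leaf 1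
[(11,2),(8,1),(2,1)]) (.cons (.leaf 2 [(11,2),(9,1),(7,1)]) (.cons (.leaf 1 [(11,1)]) (.cons (.leaf 1
[(6,1),(11,3),(8,2),(0,1)]) .nil)))))))) .nil)))))))) .nil)))))))) (.cons (.keep [3,4,6,7] (.node (.cons (.leaf 1
[(6,2),(9,2),(2,1)]) (.cons (.leaf 1 [(2,1),(3,1)]) (.cons (.keep [2,3,6,7,8,9] (.node (.cons (.leaf 2
[(7,2),(2,3),(11,1)]) (.cons (.leaf 1 [(6,1),(2,2),(7,1)]) (.cons (.leaf 1 [(6,1),(2,2),(7,1)]) (.cons (.leaf 1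
[(8,1),(4,3)]) (.cons (.leaf 1 [(8,1),(11,2)]) (.cons (.keep [3,7,8,9,10,11] (.node (.cons (.leaf 2 [(6,1),(11,1)])
(.cons (.leaf 1 [(2,1),(10,1),(9,2)]) (.cons (.leaf 1 [(2,2),(9,1),(7,1),(11,2)]) (.cons (.leaf 2
[(7,1),(9,1),(11,2)]) (.cons (.leaf 1 [(9,1),(11,1)]) (.cons (.leaf 1 [(0,1),(8,2),(11,3)]) .nil)))))))) .nil))))))))
(.cons (.leaf 1 [(9,2),(6,2)]) (.cons (.leaf 1 [(3,1)]) (.cons (.keep [1,3,6,9] (.node (.cons (.leaf 1 [(7,1),(2,2)])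
(.cons (.leaf 1 [(2,2),(7,1)]) (.cons (.leaf 1 [(2,2),(7,1)]) (.cons (.leaf 1 [(7,1),(6,1),(9,1)]) (.cons (.leaf 1
[(7,1),(9,2)]) (.cons (.keep [3,6,7,8,9] (.node (.cons (.leaf 2 [(6,2),(4,1),(10,1)]) (.cons (.leaf 1
[(6,1),(2,3),(10,2)]) (.cons (.leaf 1 [(8,1),(10,2),(2,2)]) (.cons (.leaf 1 [(6,1),(10,1)]) (.cons (.leaf 1
[(7,1),(10,1)]) (.cons (.leaf 1 [(9,2),(0,1),(10,3),(7,1)]) .nil)))))))) .nil)))))))) .nil)))))))) (.cons (.keep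
[1,4,5,7] (.node (.cons (.leaf 1 [(9,1)]) (.cons (.leaf 1 [(8,1)]) (.cons (.keep [6,7,8,9] (.node (.cons (.leaf 2
[(9,1),(2,1),(7,2)]) (.cons (.leaf 1 [(2,1),(8,1)]) (.cons (.leaf 1 [(2,1),(8,1)]) (.cons (.leaf 2 [(6,1),(7,3)])
(.cons (.leaf 1 [(9,1),(7,1)]) (.cons (.keep [7,8,9] (.node (.cons (.leaf 2 [(7,1),(4,2),(8,2)]) (.cons (.leaf 1
[(6,2),(2,1)]) (.cons (.leaf 1 [(4,1),(8,2),(2,1)]) (.cons (.leaf 3 [(7,2),(4,3),(8,2)]) (.cons (.leaf 1 [(6,2)])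
(.cons (.leaf 1 [(6,2),(8,1),(0,1)]) .nil)))))))) .nil)))))))) (.cons (.leaf 1 [(6,1),(7,1),(1,1)]) (.cons (.leaf 1
[(7,1)]) (.cons (.keep [1,6,7] (.node (.cons (.leaf 1 [(8,1),(2,1)]) (.cons (.leaf 1 [(8,1),(2,1)]) (.cons (.leaf 1
[(8,1),(2,1)]) (.cons (.leaf 2 [(8,3),(6,1),(7,1)]) (.cons (.leaf 1 [(8,2),(7,1)]) (.cons (.keep [6,7,8] (.node (.cons
(.leaf 2 [(8,3)]) (.cons (.leaf 1 [(2,1),(8,2)]) (.cons (.leaf 1 [(2,1),(7,1),(8,2)]) (.cons (.leaf 3 [(7,1),(8,5)])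
(.cons (.leaf 1 [(8,2)]) (.cons (.leaf 1 [(6,1),(7,1),(0,1),(8,3)]) .nil)))))))) .nil)))))))) .nil)))))))) (.cons
(.keep [1,6] (.node (.cons (.leaf 1 [(6,1)]) (.cons (.leaf 1 [(2,1)]) (.cons (.keep [2,7] (.node (.cons (.leaf 2
[(2,1),(7,1)]) (.cons (.leaf 1 [(2,1),(6,1)]) (.cons (.leaf 1 [(2,1),(6,1)]) (.cons (.leaf 1 [(4,1)]) (.cons (.leaf 1
[(7,1)]) (.cons (.keep [0,6,7] (.node (.cons (.leaf 2 [(4,1),(7,1),(8,1)]) (.cons (.leaf 1 [(2,1),(8,1)]) (.cons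
(.leaf 1 [(2,1),(8,1)]) (.cons (.leaf 3 [(7,1),(6,1),(8,2)]) (.cons (.leaf 1 [(6,1),(8,1)]) (.cons (.leaf 1
[(8,1),(0,1)]) .nil)))))))) .nil)))))))) (.cons (.leaf 1 [(6,1),(1,1)]) (.cons (.leaf 1 []) (.cons (.keep [1,7] (.node
(.cons (.leaf 1 [(2,1)]) (.cons (.leaf 1 [(2,1)]) (.cons (.leaf 1 [(2,1)]) (.cons (.leaf 2 [(7,1),(6,1)]) (.cons
(.leaf 1 [(7,1)]) (.cons (.keep [0,6,7] (.node (.cons (.leaf 2 [(4,1),(8,1)]) (.cons (.leaf 1 [(2,1),(8,1)]) (.cons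
(.leaf 1 [(2,1),(8,1)]) (.cons (.leaf 3 [(7,1),(6,1),(8,2)]) (.cons (.leaf 1 [(7,1),(6,1),(8,1)]) (.cons (.leaf 1
[(0,1),(8,1),(7,1)]) .nil)))))))) .nil)))))))) .nil)))))))) (.cons (.keep [1,4,6,7] (.node (.cons (.leaf 1
[(7,1),(6,1)]) (.cons (.leaf 1 []) (.cons (.keep [7,8,9] (.node (.cons (.leaf 1 [(2,1)]) (.cons (.leaf 1 [(2,1)])
(.cons (.leaf 1 [(2,1)]) (.cons (.leaf 2 [(7,1),(6,3)]) (.cons (.leaf 1 [(7,1),(6,2)]) (.cons (.keep [0,3,6,7,8]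
(.node (.cons (.leaf 2 [(4,3),(9,1),(7,2)]) (.cons (.leaf 1 [(2,1),(9,1),(8,2)]) (.cons (.leaf 1 [(2,1),(9,1),(8,2)])
(.cons (.leaf 3 [(8,3),(6,1),(10,2)]) (.cons (.leaf 1 [(8,2),(6,1),(10,1)]) (.cons (.leaf 1 [(0,1),(10,1),(8,2)])
.nil)))))))) .nil)))))))) (.cons (.leaf 1 [(1,2),(6,1)]) (.cons (.leaf 1 [(1,1)]) (.cons (.keep [1,8,9] (.node (.cons
(.leaf 1 [(6,1),(2,1)]) (.cons (.leaf 1 [(3,1),(2,2)]) (.cons (.leaf 1 [(6,1),(2,1)]) (.cons (.leaf 2 [(6,3),(8,1)])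
(.cons (.leaf 1 [(6,2),(7,1)]) (.cons (.keep [0,3,6,7,8] (.node (.cons (.leaf 2 [(7,2),(4,3),(10,1)]) (.cons (.leaf 1
[(7,1),(2,3),(10,2)]) (.cons (.leaf 1 [(7,1),(2,3),(10,2)]) (.cons (.leaf 3 [(9,2),(6,1),(8,7)]) (.cons (.leaf 1
[(8,3),(6,1),(10,1)]) (.cons (.leaf 1 [(9,1),(0,1),(8,4)]) .nil)))))))) .nil)))))))) .nil)))))))) .nil)))))))) (.cons
(.leaf 1 [(7,1),(3,1)]) (.cons (.keep [3,6,7] (.node (.cons (.leaf 1 [(4,1),(6,1)]) (.cons (.leaf 1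
[(2,1),(8,1),(6,1)]) (.cons (.leaf 1 [(2,1),(8,1),(6,1)]) (.cons (.leaf 1 [(6,1),(4,1)]) (.cons (.keep [6,7,8] (.node
(.cons (.leaf 2 [(8,1),(6,1)]) (.cons (.leaf 1 [(2,1)]) (.cons (.keep [0,7] (.node (.cons (.leaf 2
[(7,1),(2,1),(6,1)]) (.cons (.leaf 1 [(7,1),(2,1),(6,1)]) (.cons (.leaf 1 [(2,1),(0,1),(7,1)]) (.cons (.leaf 2
[(7,1),(6,1)]) (.cons (.leaf 1 [(7,1),(6,1)]) (.cons (.leaf 1 [(0,1),(7,1)]) .nil)))))))) (.cons (.leaf 2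
[(7,1),(1,1)]) (.cons (.leaf 1 []) (.cons (.keep [0,1,7] (.node (.cons (.leaf 1 [(2,1)]) (.cons (.leaf 1 [(2,1)])
(.cons (.leaf 1 [(2,1)]) (.cons (.leaf 2 [(8,1),(7,2),(6,1)]) (.cons (.leaf 1 [(8,1),(7,1),(6,1)]) (.cons (.leaf 1
[(0,1),(7,1),(8,1)]) .nil)))))))) .nil)))))))) (.cons (.keep [4,6,7,8] (.node (.cons (.leaf 2 [(6,1),(9,1),(7,1)])
(.cons (.leaf 1 []) (.cons (.keep [0,6,8] (.node (.cons (.leaf 1 [(2,1)]) (.cons (.leaf 1 [(2,1)]) (.cons (.leaf 1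
[(2,1)]) (.cons (.leaf 2 [(8,1),(7,3),(6,1)]) (.cons (.leaf 1 [(8,1),(7,2),(6,1)]) (.cons (.leaf 1
[(0,1),(7,2),(8,1)]) .nil)))))))) (.cons (.leaf 2 [(9,1),(1,2),(7,1)]) (.cons (.leaf 1 [(1,1)]) (.cons (.keep
[0,1,7,8,9] (.node (.cons (.leaf 1 [(7,1),(2,1)]) (.cons (.leaf 1 [(3,1),(2,2)]) (.cons (.leaf 1 [(7,1),(2,1)]) (.cons
(.leaf 2 [(7,5),(9,1),(6,1)]) (.cons (.leaf 1 [(7,3),(9,1),(6,1)]) (.cons (.leaf 1 [(7,2),(8,1),(0,1),(10,1)])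
.nil)))))))) .nil)))))))) .nil)))))))) .nil)))))))) (.cons (.keep [2,3,4,6] (.node (.cons (.keep [2,6,7,8] (.node
(.cons (.keep [2,4,5,6] (.node (.cons (.keep [2,9] (.spl 5 (.cons (.leaf 1 [(2,1),(0,1)]) (.cons (.leaf 1
[(2,1),(1,1),(0,1)]) .nil)))) (.cons (.leaf 1 [(2,1)]) (.cons (.keep [2,7,8,9] (.node (.cons (.leaf 2 [(2,1),(9,1)])
(.cons (.leaf 1 [(6,1),(2,1)]) (.cons (.leaf 1 [(6,1),(2,1)]) (.cons (.leaf 1 [(4,1)]) (.cons (.leaf 1 [(9,1)]) (.cons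
(.keep [0,6,7,8,9] (.node (.cons (.leaf 2 [(4,1),(7,1),(10,1)]) (.cons (.leaf 1 [(2,1),(8,1)]) (.cons (.leaf 1
[(10,1),(2,1)]) (.cons (.leaf 3 [(9,1),(10,1)]) (.cons (.leaf 1 [(6,1),(10,1)]) (.cons (.leaf 1 [(10,1),(0,1)])
.nil)))))))) .nil)))))))) (.cons (.keep [1,9] (.spl 5 (.cons (.leaf 1 [(2,1),(0,1),(1,1)]) (.cons (.leaf 1
[(2,1),(0,1)]) .nil)))) (.cons (.leaf 1 []) (.cons (.keep [1,6,7,9] (.node (.cons (.leaf 1 [(2,1)]) (.cons (.leaf 1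
[(2,1)]) (.cons (.leaf 1 [(2,1)]) (.cons (.leaf 2 [(9,1),(6,1)]) (.cons (.leaf 1 [(9,1)]) (.cons (.keep [6,7,8,9]
(.node (.cons (.leaf 2 [(8,1)]) (.cons (.leaf 1 [(2,1),(8,1)]) (.cons (.leaf 1 [(2,1),(9,1)]) (.cons (.leaf 3
[(7,1),(9,2)]) (.cons (.leaf 1 [(7,1),(9,1)]) (.cons (.leaf 1 [(6,1),(0,1),(9,1)]) .nil)))))))) .nil))))))))
.nil)))))))) (.cons (.keep [3,5,6,8,9] (.node (.cons (.leaf 1 [(6,2),(8,1)]) (.cons (.leaf 1 [(2,1),(6,1)]) (.cons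
(.keep [2,3,6,8,9] (.node (.cons (.leaf 1 [(2,1),(7,1)]) (.cons (.leaf 1 [(6,1),(2,2),(7,1)]) (.cons (.leaf 1
[(6,1),(2,1),(8,1)]) (.cons (.leaf 1 [(7,1)]) (.cons (.leaf 1 [(9,1),(7,1)]) (.cons (.keep [6,7,8,9,10] (.node (.cons
(.leaf 4 [(6,3),(10,1),(7,2)]) (.cons (.leaf 1 [(2,1)]) (.cons (.leaf 1 [(9,1),(2,2),(7,1)]) (.cons (.leaf 2
[(6,1),(7,1)]) (.cons (.leaf 1 []) (.cons (.leaf 1 [(0,1),(8,2),(9,1)]) .nil)))))))) .nil)))))))) (.cons (.leaf 1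
[(6,2),(8,1),(1,1)]) (.cons (.leaf 1 [(6,1)]) (.cons (.keep [1,3,6,7,8,10] (.node (.cons (.leaf 1 [(2,1),(7,1)])
(.cons (.leaf 1 [(8,1),(2,1)]) (.cons (.leaf 1 [(2,1),(8,1)]) (.cons (.leaf 1 [(7,1)]) (.cons (.leaf 1 [(8,1),(10,1)])
(.cons (.keep [6,7,8,9,10,11] (.node (.cons (.leaf 3 [(9,1),(11,1),(7,1)]) (.cons (.leaf 1 [(2,1)]) (.cons (.leaf 1
[(8,1),(10,1),(2,1)]) (.cons (.leaf 3 [(8,2),(10,1)]) (.cons (.leaf 1 []) (.cons (.leaf 1 [(6,1),(8,2),(10,1),(0,1)])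
.nil)))))))) .nil)))))))) .nil)))))))) (.cons (.keep [3,4,6] (.node (.cons (.leaf 1 [(6,2),(2,1),(8,1)]) (.cons (.leaf
1 [(2,1),(6,1)]) (.cons (.keep [2,3,6,7,8] (.node (.cons (.leaf 2 [(2,2),(8,1),(7,1)]) (.cons (.leaf 1 [(2,2),(7,1)])
(.cons (.leaf 1 [(6,1),(2,1),(8,1)]) (.cons (.leaf 1 [(4,1),(8,1)]) (.cons (.leaf 1 [(10,1),(8,1)]) (.cons (.keep
[0,8,9,10] (.node (.cons (.leaf 2 [(7,1)]) (.cons (.leaf 1 [(8,1),(2,1)]) (.cons (.leaf 1 [(2,1),(9,1),(7,1)]) (.cons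
(.leaf 3 [(9,1),(7,2)]) (.cons (.leaf 1 [(6,1),(7,2),(9,1)]) (.cons (.leaf 1 [(0,1),(9,1),(7,2)]) .nil))))))))
.nil)))))))) (.cons (.leaf 1 [(6,2),(8,1)]) (.cons (.leaf 1 [(6,1)]) (.cons (.keep [1,3,6,8] (.node (.cons (.leaf 1
[(2,1),(6,1),(7,1)]) (.cons (.leaf 1 [(2,2),(7,1)]) (.cons (.leaf 1 [(2,1),(8,1)]) (.cons (.leaf 1 [(7,1),(6,1)])
(.cons (.leaf 1 [(9,1),(7,1)]) (.cons (.keep [3,6,7,8,9] (.node (.cons (.leaf 1 [(2,1),(6,1)]) (.cons (.leaf 1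
[(2,1),(7,1)]) (.cons (.leaf 1 [(10,1),(2,2),(8,1)]) (.cons (.leaf 1 [(6,1)]) (.cons (.leaf 1 [(7,1)]) (.cons (.leaf 1
[(0,1),(9,2),(10,1),(7,1)]) .nil)))))))) .nil)))))))) .nil)))))))) (.cons (.keep [4,5,8,9] (.node (.cons (.leaf 1 [])
(.cons (.leaf 1 [(7,1),(9,1)]) (.cons (.keep [2,6,7,8] (.node (.cons (.leaf 2 [(7,3),(9,1),(2,1)]) (.cons (.leaf 1
[(8,1),(2,2),(3,1)]) (.cons (.leaf 1 [(6,1),(9,1),(2,1),(7,2)]) (.cons (.leaf 2 [(7,3),(9,1)]) (.cons (.leaf 1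
[(7,1)]) (.cons (.keep [6,7,8,9] (.node (.cons (.leaf 2 [(4,2),(6,1),(7,1)]) (.cons (.leaf 1 [(2,1),(7,1)]) (.cons
(.leaf 1 [(2,1),(7,1)]) (.cons (.leaf 4 [(4,5),(9,1),(8,3)]) (.cons (.leaf 1 [(9,1),(7,3)]) (.cons (.leaf 1
[(0,1),(7,3),(9,1)]) .nil)))))))) .nil)))))))) (.cons (.leaf 1 [(1,1)]) (.cons (.leaf 1 [(8,1),(6,2)]) (.cons (.keep
[1,6,8,9] (.node (.cons (.leaf 1 [(8,1),(2,1),(7,2)]) (.cons (.leaf 1 [(7,1),(2,1)]) (.cons (.leaf 1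
[(8,1),(7,2),(2,1)]) (.cons (.leaf 2 [(7,3),(6,1),(8,1)]) (.cons (.leaf 1 [(7,1)]) (.cons (.keep [6,7,8,9] (.node
(.cons (.leaf 1 [(7,1),(2,1)]) (.cons (.leaf 1 [(2,1),(7,1)]) (.cons (.leaf 1 [(7,1),(2,1)]) (.cons (.leaf 3
[(9,2),(7,4)]) (.cons (.leaf 1 [(8,1),(7,3)]) (.cons (.leaf 1 [(0,1),(8,1),(7,3),(6,1)]) .nil)))))))) .nil))))))))
.nil)))))))) (.cons (.keep [3,7,8] (.node (.cons (.leaf 1 [(6,1)]) (.cons (.leaf 1 [(8,1),(2,1)]) (.cons (.keep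
[2,7,8] (.node (.cons (.leaf 2 [(2,1),(8,1)]) (.cons (.leaf 1 [(2,1)]) (.cons (.leaf 1 [(2,1),(8,1),(6,1)]) (.cons
(.leaf 1 [(7,1)]) (.cons (.leaf 1 []) (.cons (.keep [0,6,8] (.node (.cons (.leaf 2 [(8,1),(7,1),(4,1)]) (.cons (.leaf
1 [(2,1)]) (.cons (.leaf 1 [(2,1)]) (.cons (.leaf 3 [(8,2),(7,1),(6,1)]) (.cons (.leaf 1 [(8,1),(6,1)]) (.cons (.leaf
1 [(0,1),(8,1)]) .nil)))))))) .nil)))))))) (.cons (.leaf 1 [(1,1),(6,1)]) (.cons (.leaf 1 [(8,1)]) (.cons (.keep [1,8]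
(.node (.cons (.leaf 1 [(6,1)]) (.cons (.leaf 1 [(2,1)]) (.cons (.leaf 1 [(7,1),(2,1)]) (.cons (.leaf 2 [(6,1),(7,1)])
(.cons (.leaf 1 []) (.cons (.keep [0,6,7] (.node (.cons (.leaf 1 [(2,1)]) (.cons (.leaf 1 [(2,1)]) (.cons (.leaf 1
[(2,1)]) (.cons (.leaf 3 [(7,1),(8,2),(6,1)]) (.cons (.leaf 1 [(7,1),(8,1),(6,1)]) (.cons (.leaf 1
[(8,1),(0,1),(7,1)]) .nil)))))))) .nil)))))))) .nil)))))))) (.cons (.keep [1,3,4,8,9] (.node (.cons (.leaf 1 [(7,1)])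
(.cons (.leaf 1 [(10,1)]) (.cons (.keep [8,10] (.node (.cons (.leaf 1 [(2,1),(7,1)]) (.cons (.leaf 1 [(3,1),(2,2)])
(.cons (.leaf 1 [(7,1),(2,1)]) (.cons (.leaf 2 [(6,2),(7,1)]) (.cons (.leaf 1 [(6,1)]) (.cons (.keep [0,6,7] (.node
(.cons (.leaf 2 [(7,1),(8,1),(4,1)]) (.cons (.leaf 1 [(7,1),(2,1)]) (.cons (.leaf 1 [(2,1),(7,1)]) (.cons (.leaf 3
[(7,3),(8,2),(6,1)]) (.cons (.leaf 1 [(7,2),(8,1),(6,1)]) (.cons (.leaf 1 [(8,1),(0,1),(7,2)]) .nil))))))))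
.nil)))))))) (.cons (.leaf 1 [(6,1),(9,1),(1,3)]) (.cons (.leaf 1 [(9,1),(1,2)]) (.cons (.keep [1,9,10] (.node (.cons
(.leaf 1 [(6,2)]) (.cons (.leaf 1 [(3,1),(2,2)]) (.cons (.leaf 1 [(6,2),(7,1),(2,1)]) (.cons (.leaf 2 [(6,3),(8,1)])
(.cons (.leaf 1 [(6,1)]) (.cons (.keep [0,6,7,8] (.node (.cons (.leaf 1 [(2,1),(7,1)]) (.cons (.leaf 1 [(2,1),(7,1)])
(.cons (.leaf 1 [(2,1),(7,1)]) (.cons (.leaf 3 [(7,7),(8,2),(6,1)]) (.cons (.leaf 1 [(7,3),(9,1),(6,1)]) (.cons (.leaf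
1 [(8,1),(0,1),(7,4)]) .nil)))))))) .nil)))))))) .nil)))))))) .nil)))))))) (.cons (.leaf 1 [(3,1)]) (.cons (.keep
[0,3,7,8] (.node (.cons (.leaf 1 [(2,1),(7,1)]) (.cons (.leaf 1 [(2,1),(7,1)]) (.cons (.leaf 1 [(7,1),(2,1)]) (.cons
(.leaf 1 [(8,1),(4,2)]) (.cons (.keep [3,6,8,9] (.node (.cons (.leaf 1 [(6,1)]) (.cons (.leaf 1 [(9,1),(2,1)]) (.cons
(.keep [7,8,9] (.node (.cons (.leaf 2 [(2,1),(8,1)]) (.cons (.leaf 1 [(2,1)]) (.cons (.leaf 1 [(2,1),(7,1),(0,1)])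
(.cons (.leaf 1 [(6,1),(7,1)]) (.cons (.leaf 1 []) (.cons (.leaf 1 [(7,1),(0,1)]) .nil)))))))) (.cons (.leaf 2
[(1,1),(8,1)]) (.cons (.leaf 1 [(9,1)]) (.cons (.keep [1,8,9] (.node (.cons (.leaf 1 [(6,1)]) (.cons (.leaf 1 [(2,1)])
(.cons (.leaf 1 [(2,1),(6,1),(7,1),(0,1)]) (.cons (.leaf 2 [(6,1),(8,1)]) (.cons (.leaf 1 []) (.cons (.leaf 1
[(7,1),(6,1),(0,1)]) .nil)))))))) .nil)))))))) (.cons (.keep [3,4,7,8,9] (.node (.cons (.leaf 1 [(6,1)]) (.cons (.leaf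
1 [(10,1)]) (.cons (.keep [7,8,10] (.node (.cons (.leaf 1 [(2,1),(8,1)]) (.cons (.leaf 1 [(3,1),(2,2)]) (.cons (.leaf
1 [(8,1),(2,1)]) (.cons (.leaf 2 [(6,2),(8,1)]) (.cons (.leaf 1 [(6,1)]) (.cons (.leaf 1 [(6,1),(7,1),(8,1),(0,1)])
.nil)))))))) (.cons (.leaf 2 [(8,1),(10,1),(1,2)]) (.cons (.leaf 1 [(10,1),(1,1)]) (.cons (.keep [1,8,9,10] (.node
(.cons (.leaf 1 [(6,2)]) (.cons (.leaf 1 [(3,1),(2,2)]) (.cons (.leaf 1 [(6,3),(2,1),(8,1),(0,1)]) (.cons (.leaf 2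
[(6,3),(9,1)]) (.cons (.leaf 1 [(6,1)]) (.cons (.leaf 1 [(9,1),(6,2),(7,1),(0,1)]) .nil)))))))) .nil))))))))
.nil)))))))) (.cons (.keep [1,9] (.node (.cons (.keep [4,5] (.node (.cons (.keep [2,7] (.node (.cons (.keep [2,4,5,6]
(.node (.cons (.keep [2,9] (.spl 7 (.cons (.leaf 1 [(2,3),(0,1)]) (.cons (.leaf 1 [(2,3),(1,1),(0,1)]) .nil)))) (.cons
(.leaf 1 [(3,1),(2,1),(8,1)]) (.cons (.keep [2,3,7,8,9] (.node (.cons (.leaf 2 [(10,3),(2,1)]) (.cons (.leaf 1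
[(2,3),(7,2),(9,2)]) (.cons (.leaf 1 [(6,1),(2,1),(10,1)]) (.cons (.leaf 1 [(4,3)]) (.cons (.leaf 1 [(10,2)]) (.cons
(.keep [0,8,9,10] (.node (.cons (.leaf 2 [(8,1),(9,2)]) (.cons (.leaf 1 [(7,2),(2,1)]) (.cons (.leaf 1 [(9,2),(2,1)])
(.cons (.leaf 3 [(8,1),(9,4)]) (.cons (.leaf 1 [(6,1),(9,3)]) (.cons (.leaf 1 [(9,3),(0,1)]) .nil)))))))) .nil))))))))
(.cons (.keep [1,9] (.spl 7 (.cons (.leaf 1 [(2,3),(0,1),(1,1)]) (.cons (.leaf 1 [(2,3),(0,1)]) .nil)))) (.cons (.leaf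
1 [(8,1),(3,1)]) (.cons (.keep [1,6,7,9] (.node (.cons (.leaf 1 [(2,1),(4,1)]) (.cons (.leaf 1 [(2,1)]) (.cons (.leaf
1 [(2,1),(4,1)]) (.cons (.leaf 2 [(9,3),(6,1)]) (.cons (.leaf 1 [(9,2)]) (.cons (.keep [4,6,7,8,9] (.node (.cons
(.leaf 1 [(9,1),(6,1)]) (.cons (.leaf 1 [(2,1),(9,2)]) (.cons (.leaf 1 [(2,1),(10,2)]) (.cons (.leaf 3 [(8,1),(10,5)])
(.cons (.leaf 1 [(8,1),(10,2)]) (.cons (.leaf 1 [(7,1),(0,1),(10,3)]) .nil)))))))) .nil)))))))) .nil)))))))) (.cons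
(.keep [3,5,6,7] (.node (.cons (.leaf 1 [(9,1),(6,1)]) (.cons (.leaf 2 [(9,1),(6,1),(2,2)]) (.cons (.keep [2,6,8,9]
(.node (.cons (.leaf 4 [(7,1),(9,3),(2,2)]) (.cons (.leaf 1 [(2,1),(9,1)]) (.cons (.leaf 2 [(7,1),(6,2),(2,2),(9,1)])
(.cons (.leaf 4 [(7,1),(9,3)]) (.cons (.leaf 1 [(9,1)]) (.cons (.keep [0,1,6,7,8,9] (.node (.cons (.leaf 2
[(8,1),(11,1)]) (.cons (.leaf 1 [(2,1),(10,1)]) (.cons (.leaf 1 [(11,1),(2,1)]) (.cons (.leaf 4 [(6,1),(11,4),(7,2)])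
(.cons (.leaf 2 [(6,1),(11,2)]) (.cons (.leaf 2 [(11,3),(9,1),(0,2)]) .nil)))))))) .nil)))))))) (.cons (.leaf 1
[(9,1),(6,1),(1,1)]) (.cons (.leaf 2 [(9,1),(6,1)]) (.cons (.keep [1,3,6,7,8,9] (.node (.cons (.leaf 2
[(11,1),(7,1),(2,2)]) (.cons (.leaf 1 [(8,1),(2,1)]) (.cons (.leaf 2 [(8,1),(2,2),(11,1)]) (.cons (.leaf 4
[(8,1),(6,2),(11,3)]) (.cons (.leaf 1 [(11,1)]) (.cons (.keep [0,6,7,8,9,10,11] (.node (.cons (.leaf 3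
[(11,2),(10,1),(8,1)]) (.cons (.leaf 1 [(2,1),(11,1)]) (.cons (.leaf 1 [(12,1),(2,1)]) (.cons (.leaf 2
[(11,2),(10,1),(8,1)]) (.cons (.leaf 2 [(7,1),(6,1),(12,2)]) (.cons (.leaf 2 [(9,1),(7,2),(12,3),(0,2)]) .nil))))))))
.nil)))))))) .nil)))))))) (.cons (.keep [2,3,4,6,7] (.node (.cons (.leaf 1 [(10,1),(2,1),(7,1)]) (.cons (.leaf 2
[(10,1),(2,2),(7,1)]) (.cons (.keep [2,3,7,8,9,10] (.node (.cons (.leaf 4 [(11,3),(8,1),(2,2)]) (.cons (.leaf 1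
[(6,1),(2,2),(7,1)]) (.cons (.leaf 2 [(6,2),(8,1),(2,2),(11,1)]) (.cons (.leaf 4 [(8,1),(11,3)]) (.cons (.leaf 1
[(11,1)]) (.cons (.keep [0,3,7,8,9,10,11] (.node (.cons (.leaf 2 [(7,1),(11,1)]) (.cons (.leaf 1 [(2,1),(12,1)])
(.cons (.leaf 1 [(12,1),(2,1)]) (.cons (.leaf 2 [(8,1),(10,1),(11,2)]) (.cons (.leaf 2 [(9,1),(6,2),(12,3)]) (.cons
(.leaf 2 [(9,1),(12,3),(0,2)]) .nil)))))))) .nil)))))))) (.cons (.leaf 1 [(10,1),(7,1)]) (.cons (.leaf 2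
[(10,1),(7,1)]) (.cons (.keep [3,6,7,10] (.node (.cons (.leaf 2 [(9,1),(8,1),(2,2)]) (.cons (.leaf 1 [(2,2),(6,1)])
(.cons (.leaf 2 [(8,1),(2,2),(9,1)]) (.cons (.leaf 2 [(9,2),(8,1),(7,1)]) (.cons (.leaf 1 [(9,1)]) (.cons (.keep
[7,8,9] (.node (.cons (.leaf 4 [(7,1),(4,2),(8,3)]) (.cons (.leaf 1 [(2,1),(8,1)]) (.cons (.leaf 1 [(2,1),(8,1)])
(.cons (.leaf 6 [(7,1),(6,2),(8,5)]) (.cons (.leaf 1 [(6,1),(8,1)]) (.cons (.leaf 1 [(7,1),(0,1),(8,2),(6,1)])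
.nil)))))))) .nil)))))))) .nil)))))))) (.cons (.keep [0,1,4,5,7] (.node (.cons (.leaf 2 [(10,1),(7,1)]) (.cons (.leaf
1 [(9,1)]) (.cons (.keep [8,9,10] (.node (.cons (.leaf 2 [(8,1),(2,1),(6,1)]) (.cons (.leaf 1 [(2,1),(7,1)]) (.cons
(.leaf 1 [(2,1),(7,1)]) (.cons (.leaf 2 [(8,1),(6,1)]) (.cons (.leaf 1 [(8,1)]) (.cons (.keep [0,6,7,8] (.node (.cons
(.leaf 1 [(2,1),(9,1)]) (.cons (.leaf 1 [(7,2),(2,1)]) (.cons (.leaf 1 [(9,1),(2,1)]) (.cons (.leaf 2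
[(8,1),(4,1),(9,1)]) (.cons (.leaf 1 [(6,2),(9,2)]) (.cons (.leaf 1 [(4,1),(9,2),(0,2)]) .nil)))))))) .nil))))))))
(.cons (.leaf 2 [(10,1),(1,2),(7,1)]) (.cons (.leaf 1 [(8,1)]) (.cons (.keep [1,6,8,10] (.node (.cons (.leaf 1
[(8,1),(2,1)]) (.cons (.leaf 1 [(8,1),(2,1)]) (.cons (.leaf 1 [(8,1),(2,1)]) (.cons (.leaf 2 [(7,1),(6,3),(9,2)])
(.cons (.leaf 1 [(9,1)]) (.cons (.keep [6,8,9] (.node (.cons (.leaf 4 [(4,3),(8,3)]) (.cons (.leaf 1 [(2,1),(7,2)])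
(.cons (.leaf 1 [(2,1),(8,1)]) (.cons (.leaf 3 [(8,2),(4,3)]) (.cons (.leaf 1 [(7,2)]) (.cons (.leaf 1
[(0,2),(8,2),(4,1),(6,2)]) .nil)))))))) .nil)))))))) .nil)))))))) (.cons (.keep [1,6] (.node (.cons (.leaf 1 [(6,1)])
(.cons (.leaf 1 [(2,1)]) (.cons (.keep [2,7] (.node (.cons (.leaf 2 [(2,1),(7,1)]) (.cons (.leaf 1 [(2,1),(6,1)])
(.cons (.leaf 1 [(2,1),(6,1)]) (.cons (.leaf 1 [(4,1)]) (.cons (.leaf 1 [(7,1)]) (.cons (.keep [0,6,7] (.node (.cons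
(.leaf 2 [(4,1),(7,1),(8,1)]) (.cons (.leaf 1 [(2,1),(8,1)]) (.cons (.leaf 1 [(2,1),(8,1)]) (.cons (.leaf 3
[(7,1),(6,1),(8,2)]) (.cons (.leaf 1 [(6,1),(8,1)]) (.cons (.leaf 1 [(8,1),(0,1)]) .nil)))))))) .nil)))))))) (.cons
(.leaf 1 [(6,1),(1,1)]) (.cons (.leaf 1 []) (.cons (.keep [1,7] (.node (.cons (.leaf 1 [(2,1)]) (.cons (.leaf 1
[(2,1)]) (.cons (.leaf 1 [(2,1)]) (.cons (.leaf 2 [(7,1),(6,1)]) (.cons (.leaf 1 [(7,1)]) (.cons (.keep [0,6,7] (.node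
(.cons (.leaf 2 [(4,1),(8,1)]) (.cons (.leaf 1 [(2,1),(8,1)]) (.cons (.leaf 1 [(2,1),(8,1)]) (.cons (.leaf 3
[(7,1),(6,1),(8,2)]) (.cons (.leaf 1 [(7,1),(6,1),(8,1)]) (.cons (.leaf 1 [(0,1),(8,1),(7,1)]) .nil))))))))
.nil)))))))) .nil)))))))) (.cons (.keep [1,3,4,6,7] (.node (.cons (.leaf 1 [(8,1),(6,1)]) (.cons (.leaf 1 []) (.cons
(.keep [7,8,9,10] (.node (.cons (.leaf 1 [(2,1)]) (.cons (.leaf 1 [(2,1)]) (.cons (.leaf 1 [(2,1)]) (.cons (.leaf 2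
[(9,1),(7,1)]) (.cons (.leaf 1 [(8,1),(7,1)]) (.cons (.keep [0,6,7,9] (.node (.cons (.leaf 2 [(4,1),(9,1)]) (.cons
(.leaf 1 [(2,1),(9,1)]) (.cons (.leaf 1 [(2,1),(9,1)]) (.cons (.leaf 3 [(8,1),(6,1),(9,2)]) (.cons (.leaf 1
[(7,1),(6,2),(9,2)]) (.cons (.leaf 1 [(0,1),(9,1),(8,1)]) .nil)))))))) .nil)))))))) (.cons (.leaf 1 [(1,2),(6,1)])
(.cons (.leaf 1 [(1,1)]) (.cons (.keep [1,7,10] (.node (.cons (.leaf 1 [(6,1),(2,1)]) (.cons (.leaf 1 [(3,1),(2,2)])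
(.cons (.leaf 1 [(6,1),(2,1)]) (.cons (.leaf 2 [(6,2),(8,1)]) (.cons (.leaf 1 [(8,1)]) (.cons (.keep [0,6,7,8] (.node
(.cons (.leaf 4 [(8,1),(4,3),(9,3)]) (.cons (.leaf 1 [(2,1),(9,1)]) (.cons (.leaf 1 [(2,1),(9,1)]) (.cons (.leaf 3
[(7,3),(9,2),(6,1)]) (.cons (.leaf 1 [(7,2),(6,1),(9,1)]) (.cons (.leaf 1 [(9,1),(0,1),(7,2)]) .nil))))))))
.nil)))))))) .nil)))))))) .nil)))))))) (.cons (.leaf 1 [(2,1)]) (.cons (.keep [2,3,6,7] (.node (.cons (.leaf 2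
[(7,1),(2,2),(9,1)]) (.cons (.leaf 1 [(6,1),(2,1)]) (.cons (.leaf 1 [(6,1),(2,1)]) (.cons (.leaf 1 [(4,1)]) (.cons
(.keep [6,8,9] (.node (.cons (.leaf 2 [(7,1),(6,1)]) (.cons (.leaf 1 [(2,1),(7,1)]) (.cons (.keep [2,6,7,8] (.node
(.cons (.leaf 2 [(7,1),(2,1),(8,2)]) (.cons (.leaf 1 [(6,1),(2,1),(8,1)]) (.cons (.leaf 1 [(0,1),(2,1),(8,1),(7,1)])
(.cons (.leaf 2 [(9,1),(8,1)]) (.cons (.leaf 1 [(7,1),(8,1)]) (.cons (.leaf 1 [(0,1),(8,1),(7,1)]) .nil)))))))) (.cons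
(.leaf 2 [(8,1),(1,1)]) (.cons (.leaf 1 [(7,1)]) (.cons (.keep [1,7,8] (.node (.cons (.leaf 1 [(7,1),(2,1)]) (.cons
(.leaf 1 [(7,1),(2,1)]) (.cons (.leaf 1 [(0,1),(6,1),(2,1),(8,1)]) (.cons (.leaf 2 [(7,1),(6,1),(8,1)]) (.cons (.leaf
1 [(8,1)]) (.cons (.leaf 1 [(6,1),(0,1),(8,1)]) .nil)))))))) .nil)))))))) (.cons (.keep [6,8,9] (.node (.cons (.leaf 2
[(7,1),(6,1)]) (.cons (.leaf 1 [(2,1),(7,1)]) (.cons (.keep [2,6,7,8] (.node (.cons (.leaf 2 [(7,1),(2,1),(8,2)])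
(.cons (.leaf 1 [(6,1),(2,1),(8,1)]) (.cons (.leaf 1 [(0,1),(2,1),(8,1),(7,1)]) (.cons (.leaf 2 [(9,1),(8,1)]) (.cons
(.leaf 1 [(7,1),(8,1)]) (.cons (.leaf 1 [(0,1),(8,1),(7,1)]) .nil)))))))) (.cons (.leaf 2 [(8,1),(1,1)]) (.cons (.leaf
1 [(7,1)]) (.cons (.keep [1,7,8] (.node (.cons (.leaf 1 [(7,1),(2,1)]) (.cons (.leaf 1 [(7,1),(2,1)]) (.cons (.leaf 1
[(0,1),(6,1),(2,1),(8,1)]) (.cons (.leaf 2 [(7,1),(6,1),(8,1)]) (.cons (.leaf 1 [(8,1)]) (.cons (.leaf 1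
[(6,1),(0,1),(8,1)]) .nil)))))))) .nil)))))))) .nil)))))))) (.cons (.keep [1,6,7] (.node (.cons (.keep [2,4,5,8]
(.node (.cons (.keep [2,9] (.spl 7 (.cons (.leaf 1 [(2,1),(0,1)]) (.cons (.leaf 1 [(2,1),(1,1),(0,1)]) .nil)))) (.cons
(.leaf 1 [(2,1)]) (.cons (.keep [2,7,8,9] (.node (.cons (.leaf 2 [(2,1),(9,1)]) (.cons (.leaf 1 [(6,1),(2,1)]) (.cons
(.leaf 1 [(6,1),(2,1)]) (.cons (.leaf 1 [(4,1)]) (.cons (.leaf 1 [(9,1)]) (.cons (.keep [0,6,7,8,9] (.node (.cons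
(.leaf 2 [(4,1),(7,1),(10,1)]) (.cons (.leaf 1 [(2,1),(8,1)]) (.cons (.leaf 1 [(10,1),(2,1)]) (.cons (.leaf 3
[(9,1),(10,1)]) (.cons (.leaf 1 [(6,1),(10,1)]) (.cons (.leaf 1 [(10,1),(0,1)]) .nil)))))))) .nil)))))))) (.cons
(.keep [1,9] (.spl 7 (.cons (.leaf 1 [(2,1),(0,1),(1,1)]) (.cons (.leaf 1 [(2,1),(0,1)]) .nil)))) (.cons (.leaf 1 [])
(.cons (.keep [1,6,7,9] (.node (.cons (.leaf 1 [(2,1)]) (.cons (.leaf 1 [(2,1)]) (.cons (.leaf 1 [(2,1)]) (.cons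
(.leaf 2 [(9,1),(6,1)]) (.cons (.leaf 1 [(9,1)]) (.cons (.keep [6,7,8,9] (.node (.cons (.leaf 2 [(8,1)]) (.cons (.leaf
1 [(2,1),(8,1)]) (.cons (.leaf 1 [(2,1),(9,1)]) (.cons (.leaf 3 [(7,1),(9,2)]) (.cons (.leaf 1 [(7,1),(9,1)]) (.cons
(.leaf 1 [(6,1),(0,1),(9,1)]) .nil)))))))) .nil)))))))) .nil)))))))) (.cons (.keep [3,5,6,8] (.node (.cons (.leaf 1
[(6,1),(9,1)]) (.cons (.leaf 1 [(2,1),(6,1)]) (.cons (.keep [2,3,6,8,9] (.node (.cons (.leaf 1 [(2,1),(7,1)]) (.cons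
(.leaf 1 [(6,1),(2,2),(7,1)]) (.cons (.leaf 1 [(6,1),(2,1),(8,1)]) (.cons (.leaf 1 [(7,1)]) (.cons (.leaf 1 [(10,1)])
(.cons (.keep [6,7,8,9,10] (.node (.cons (.leaf 3 [(6,2),(9,1),(7,1)]) (.cons (.leaf 1 [(2,1)]) (.cons (.leaf 1
[(10,1),(2,1)]) (.cons (.leaf 2 [(6,1),(7,1)]) (.cons (.leaf 1 []) (.cons (.leaf 1 [(8,1),(10,1),(0,1)]) .nil))))))))
.nil)))))))) (.cons (.leaf 1 [(6,1),(9,1),(1,1)]) (.cons (.leaf 1 [(6,1)]) (.cons (.keep [1,3,6,7,8,9] (.node (.cons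
(.leaf 1 [(2,1),(7,1)]) (.cons (.leaf 1 [(8,1),(2,1)]) (.cons (.leaf 1 [(2,1),(8,1)]) (.cons (.leaf 1 [(7,1)]) (.cons
(.leaf 1 [(11,1)]) (.cons (.keep [6,7,8,9,10,11] (.node (.cons (.leaf 3 [(9,1),(10,1),(7,1)]) (.cons (.leaf 1 [(2,1)])
(.cons (.leaf 1 [(11,1),(2,1)]) (.cons (.leaf 3 [(8,1),(11,1)]) (.cons (.leaf 1 []) (.cons (.leaf 1
[(6,1),(8,1),(11,1),(0,1)]) .nil)))))))) .nil)))))))) .nil)))))))) (.cons (.keep [3,4,8] (.node (.cons (.leaf 1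
[(6,1),(2,1),(8,1)]) (.cons (.leaf 1 [(2,1),(6,1)]) (.cons (.keep [2,3,6,7,8] (.node (.cons (.leaf 2
[(2,2),(8,1),(7,1)]) (.cons (.leaf 1 [(2,2),(7,1)]) (.cons (.leaf 1 [(6,1),(2,1),(8,1)]) (.cons (.leaf 2
[(10,1),(8,1)]) (.cons (.leaf 1 [(10,1)]) (.cons (.keep [0,8,9,10] (.node (.cons (.leaf 2 [(7,1)]) (.cons (.leaf 1
[(8,1),(2,1)]) (.cons (.leaf 1 [(2,1),(9,1)]) (.cons (.leaf 3 [(9,1),(7,1)]) (.cons (.leaf 1 [(6,1),(7,1),(9,1)])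
(.cons (.leaf 1 [(0,1),(9,1),(7,1)]) .nil)))))))) .nil)))))))) (.cons (.leaf 1 [(6,1),(8,1)]) (.cons (.leaf 1 [(6,1)])
(.cons (.keep [1,3,6,8] (.node (.cons (.leaf 1 [(2,1),(6,1),(7,1)]) (.cons (.leaf 1 [(2,2),(7,1)]) (.cons (.leaf 1
[(2,1),(8,1)]) (.cons (.leaf 1 [(7,1),(6,1)]) (.cons (.leaf 1 [(9,1)]) (.cons (.keep [3,6,8,9] (.node (.cons (.leaf 1
[(2,1),(6,1)]) (.cons (.leaf 1 [(2,1),(7,1)]) (.cons (.leaf 1 [(9,1),(2,1)]) (.cons (.leaf 1 [(6,1)]) (.cons (.leaf 1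
[(7,1)]) (.cons (.leaf 1 [(0,1),(8,1),(9,1),(7,1)]) .nil)))))))) .nil)))))))) .nil)))))))) (.cons (.keep [4,5,6,7]
(.node (.cons (.leaf 1 []) (.cons (.leaf 1 [(2,1),(9,1)]) (.cons (.keep [2,6,7,8,9] (.node (.cons (.leaf 3
[(10,2),(2,2),(8,1)]) (.cons (.leaf 2 [(8,1),(2,2),(10,1)]) (.cons (.leaf 1 [(6,1),(9,1),(2,1),(7,1)]) (.cons (.leaf 2
[(7,2),(9,1)]) (.cons (.leaf 1 [(7,1)]) (.cons (.keep [6,7,8,9] (.node (.cons (.leaf 2 [(4,2),(6,1),(7,1)]) (.cons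
(.leaf 1 [(2,1),(7,1)]) (.cons (.leaf 1 [(2,1),(7,1)]) (.cons (.leaf 3 [(4,3),(9,1),(8,2)]) (.cons (.leaf 1
[(9,1),(7,2)]) (.cons (.leaf 1 [(0,1),(7,2),(9,1)]) .nil)))))))) .nil)))))))) (.cons (.leaf 1 [(1,1)]) (.cons (.leaf 1
[(9,1)]) (.cons (.keep [1,6,8,9] (.node (.cons (.leaf 1 [(8,1),(2,1),(7,1)]) (.cons (.leaf 1 [(7,1),(2,1)]) (.cons
(.leaf 1 [(8,1),(7,1),(2,1)]) (.cons (.leaf 2 [(7,1),(6,1),(9,1)]) (.cons (.leaf 1 [(7,1)]) (.cons (.keep [6,7,8,9]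
(.node (.cons (.leaf 1 [(7,1),(2,1)]) (.cons (.leaf 1 [(2,1),(7,1)]) (.cons (.leaf 1 [(7,1),(2,1)]) (.cons (.leaf 3
[(9,2),(7,2)]) (.cons (.leaf 1 [(8,1),(7,2)]) (.cons (.leaf 1 [(6,1),(9,1),(0,1),(7,1)]) .nil)))))))) .nil))))))))
.nil)))))))) (.cons (.keep [3,6] (.node (.cons (.leaf 1 [(6,1)]) (.cons (.leaf 1 [(7,1),(2,1)]) (.cons (.keep [2,7]
(.node (.cons (.leaf 2 [(2,1),(7,1)]) (.cons (.leaf 1 [(2,1)]) (.cons (.leaf 1 [(2,1),(7,1),(6,1)]) (.cons (.leaf 2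
[(7,1)]) (.cons (.leaf 1 []) (.cons (.keep [0,6,7] (.node (.cons (.leaf 2 [(8,1),(7,1),(4,1)]) (.cons (.leaf 1
[(2,1)]) (.cons (.leaf 1 [(2,1)]) (.cons (.leaf 3 [(8,2),(7,1),(6,1)]) (.cons (.leaf 1 [(8,1),(6,1)]) (.cons (.leaf 1
[(0,1),(8,1)]) .nil)))))))) .nil)))))))) (.cons (.leaf 1 [(1,1),(6,1)]) (.cons (.leaf 1 [(7,1)]) (.cons (.keep [1,7]
(.node (.cons (.leaf 1 [(6,1)]) (.cons (.leaf 1 [(2,1)]) (.cons (.leaf 1 [(7,1),(2,1)]) (.cons (.leaf 2 [(6,1),(7,1)])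
(.cons (.leaf 1 []) (.cons (.keep [0,6,7] (.node (.cons (.leaf 1 [(2,1)]) (.cons (.leaf 1 [(2,1)]) (.cons (.leaf 1
[(2,1)]) (.cons (.leaf 3 [(7,1),(8,2),(6,1)]) (.cons (.leaf 1 [(7,1),(8,1),(6,1)]) (.cons (.leaf 1
[(8,1),(0,1),(7,1)]) .nil)))))))) .nil)))))))) .nil)))))))) (.cons (.keep [1,4,7] (.node (.cons (.leaf 1
[(8,1),(6,1)]) (.cons (.leaf 1 [(2,1),(8,1)]) (.cons (.keep [2,7,8] (.node (.cons (.leaf 3 [(2,2),(8,2)]) (.cons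
(.leaf 1 [(3,1),(2,2)]) (.cons (.leaf 1 [(2,1),(8,1),(6,1)]) (.cons (.leaf 2 [(7,1),(8,1)]) (.cons (.leaf 1 [(7,1)])
(.cons (.keep [0,7,8] (.node (.cons (.leaf 2 [(8,1),(4,1)]) (.cons (.leaf 1 [(7,1),(2,1)]) (.cons (.leaf 1
[(2,1),(7,1)]) (.cons (.leaf 3 [(7,1),(8,2),(6,1)]) (.cons (.leaf 1 [(7,1),(8,1),(6,1)]) (.cons (.leaf 1
[(0,1),(7,1),(8,1)]) .nil)))))))) .nil)))))))) (.cons (.leaf 1 [(8,1),(1,1),(6,1)]) (.cons (.leaf 1 [(8,1)]) (.cons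
(.keep [1,8] (.node (.cons (.leaf 1 [(2,1),(7,1)]) (.cons (.leaf 1 [(3,1),(2,2)]) (.cons (.leaf 1 [(7,1),(2,1)])
(.cons (.leaf 2 [(6,2),(7,1)]) (.cons (.leaf 1 [(6,1)]) (.cons (.keep [0,6,7] (.node (.cons (.leaf 2
[(7,1),(8,1),(4,1)]) (.cons (.leaf 1 [(2,1),(7,1)]) (.cons (.leaf 1 [(2,1),(7,1)]) (.cons (.leaf 3
[(7,3),(8,2),(6,1)]) (.cons (.leaf 1 [(7,2),(8,1),(6,1)]) (.cons (.leaf 1 [(8,1),(0,1),(7,2)]) .nil))))))))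
.nil)))))))) .nil)))))))) .nil)))))))) (.cons (.leaf 1 []) (.cons (.keep [1,6,7] (.node (.cons (.leaf 1 [(2,1)])
(.cons (.leaf 1 [(2,1)]) (.cons (.leaf 1 [(2,1)]) (.cons (.leaf 1 [(4,1),(6,1)]) (.cons (.keep [6,7,8] (.node (.cons
(.leaf 2 [(6,1),(8,1)]) (.cons (.leaf 1 [(2,1),(7,1)]) (.cons (.keep [0,7,8] (.node (.cons (.leaf 2
[(6,1),(2,1),(7,2)]) (.cons (.leaf 1 [(7,1),(2,1),(6,1)]) (.cons (.leaf 1 [(2,1),(7,1),(0,1)]) (.cons (.leaf 2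
[(8,1),(7,1)]) (.cons (.leaf 1 [(6,1),(7,1)]) (.cons (.leaf 1 [(7,1),(0,1)]) .nil)))))))) (.cons (.leaf 2
[(7,1),(1,1)]) (.cons (.leaf 1 [(7,1)]) (.cons (.keep [0,1,7,8] (.node (.cons (.leaf 1 [(2,1),(8,1)]) (.cons (.leaf 1
[(8,1),(2,1)]) (.cons (.leaf 1 [(8,1),(2,1)]) (.cons (.leaf 2 [(9,1),(7,1),(8,1)]) (.cons (.leaf 1
[(6,1),(7,1),(8,1)]) (.cons (.leaf 1 [(7,1),(8,1),(0,1)]) .nil)))))))) .nil)))))))) (.cons (.keep [7,8] (.node (.cons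
(.leaf 2 [(6,1)]) (.cons (.leaf 1 [(2,1),(6,1)]) (.cons (.keep [0,6,7] (.node (.cons (.leaf 2 [(6,1),(2,1),(7,2)])
(.cons (.leaf 1 [(7,1),(2,1),(6,1)]) (.cons (.leaf 1 [(2,1),(7,1),(0,1)]) (.cons (.leaf 2 [(8,1),(7,1)]) (.cons (.leaf
1 [(6,1),(7,1)]) (.cons (.leaf 1 [(7,1),(0,1)]) .nil)))))))) (.cons (.leaf 2 [(6,1),(1,1)]) (.cons (.leaf 1 [(6,1)])
(.cons (.keep [0,1,6,7] (.node (.cons (.leaf 1 [(2,1),(8,1)]) (.cons (.leaf 1 [(8,1),(2,1)]) (.cons (.leaf 1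
[(8,1),(2,1)]) (.cons (.leaf 2 [(9,1),(7,1),(8,1)]) (.cons (.leaf 1 [(6,1),(7,1),(8,1)]) (.cons (.leaf 1
[(7,1),(8,1),(0,1)]) .nil)))))))) .nil)))))))) .nil)))))))) .nil)))))))) (.cons (.keep [3,5,6,7] (.node (.cons (.keep
[2,5,8] (.node (.cons (.keep [2,4,5,6] (.node (.cons (.keep [2,9] (.spl 7 (.cons (.leaf 1 [(2,1),(0,1)]) (.cons (.leaf
1 [(2,1),(1,1),(0,1)]) .nil)))) (.cons (.leaf 1 [(2,1)]) (.cons (.keep [2,7,8,9] (.node (.cons (.leaf 2 [(2,1),(9,1)])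
(.cons (.leaf 1 [(6,1),(2,1)]) (.cons (.leaf 1 [(6,1),(2,1)]) (.cons (.leaf 1 [(4,1)]) (.cons (.leaf 1 [(9,1)]) (.cons
(.keep [0,6,7,8,9] (.node (.cons (.leaf 2 [(4,1),(7,1),(10,1)]) (.cons (.leaf 1 [(2,1),(8,1)]) (.cons (.leaf 1
[(10,1),(2,1)]) (.cons (.leaf 3 [(9,1),(10,1)]) (.cons (.leaf 1 [(6,1),(10,1)]) (.cons (.leaf 1 [(10,1),(0,1)])
.nil)))))))) .nil)))))))) (.cons (.keep [1,9] (.spl 7 (.cons (.leaf 1 [(2,1),(0,1),(1,1)]) (.cons (.leaf 1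
[(2,1),(0,1)]) .nil)))) (.cons (.leaf 1 []) (.cons (.keep [1,6,7,9] (.node (.cons (.leaf 1 [(2,1)]) (.cons (.leaf 1
[(2,1)]) (.cons (.leaf 1 [(2,1)]) (.cons (.leaf 2 [(9,1),(6,1)]) (.cons (.leaf 1 [(9,1)]) (.cons (.keep [6,7,8,9]
(.node (.cons (.leaf 2 [(8,1)]) (.cons (.leaf 1 [(2,1),(8,1)]) (.cons (.leaf 1 [(2,1),(9,1)]) (.cons (.leaf 3
[(7,1),(9,2)]) (.cons (.leaf 1 [(7,1),(9,1)]) (.cons (.leaf 1 [(6,1),(0,1),(9,1)]) .nil)))))))) .nil))))))))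
.nil)))))))) (.cons (.keep [2,3,6,7] (.node (.cons (.leaf 1 [(8,1),(7,1)]) (.cons (.leaf 1 [(2,1)]) (.cons (.keep
[2,8,9] (.node (.cons (.leaf 2 [(2,1),(7,1)]) (.cons (.leaf 1 [(2,1),(6,1)]) (.cons (.leaf 1 [(2,1),(6,1)]) (.cons
(.leaf 1 [(4,1)]) (.cons (.leaf 1 [(7,1)]) (.cons (.keep [0,6,7,8] (.node (.cons (.leaf 3 [(9,1),(7,2),(8,1)]) (.cons
(.leaf 1 [(2,1),(8,1)]) (.cons (.leaf 1 [(2,1),(8,1)]) (.cons (.leaf 5 [(7,2),(9,1),(8,3)]) (.cons (.leaf 1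
[(6,1),(8,1)]) (.cons (.leaf 1 [(8,1),(0,1)]) .nil)))))))) .nil)))))))) (.cons (.leaf 1 [(8,1),(7,1),(1,1)]) (.cons
(.leaf 1 []) (.cons (.keep [1,6,8,9] (.node (.cons (.leaf 1 [(2,1)]) (.cons (.leaf 1 [(2,1)]) (.cons (.leaf 1 [(2,1)])
(.cons (.leaf 2 [(8,1),(6,1)]) (.cons (.leaf 1 [(8,1)]) (.cons (.keep [6,7,8,9] (.node (.cons (.leaf 3 [(9,1),(8,1)])
(.cons (.leaf 1 [(2,1),(8,1)]) (.cons (.leaf 1 [(2,1),(8,1)]) (.cons (.leaf 5 [(9,1),(8,3)]) (.cons (.leaf 1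
[(7,1),(8,1)]) (.cons (.leaf 1 [(6,1),(0,1),(8,1)]) .nil)))))))) .nil)))))))) .nil)))))))) (.cons (.keep [2,3,6,7,8]
(.node (.cons (.leaf 1 [(8,1),(2,1),(7,1)]) (.cons (.leaf 1 [(2,1)]) (.cons (.keep [2,8,9,10] (.node (.cons (.leaf 2
[(2,1),(7,1)]) (.cons (.leaf 1 [(2,1),(6,1)]) (.cons (.leaf 1 [(6,1),(2,1)]) (.cons (.leaf 1 [(4,1)]) (.cons (.leaf 1
[(7,1)]) (.cons (.keep [0,6,7,8,9] (.node (.cons (.leaf 3 [(9,1),(7,1),(8,1)]) (.cons (.leaf 1 [(2,1),(8,1)]) (.cons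
(.leaf 1 [(8,1),(2,1)]) (.cons (.leaf 5 [(10,1),(8,4)]) (.cons (.leaf 1 [(6,1),(8,1)]) (.cons (.leaf 1 [(8,1),(0,1)])
.nil)))))))) .nil)))))))) (.cons (.leaf 1 [(8,1),(7,1)]) (.cons (.leaf 1 []) (.cons (.keep [1,6,8] (.node (.cons
(.leaf 1 [(2,1)]) (.cons (.leaf 1 [(2,1)]) (.cons (.leaf 1 [(2,1)]) (.cons (.leaf 2 [(8,1),(6,1)]) (.cons (.leaf 1
[(8,1)]) (.cons (.keep [6,7,8] (.node (.cons (.leaf 2 [(4,1),(8,1)]) (.cons (.leaf 1 [(2,1),(8,1)]) (.cons (.leaf 1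
[(2,1),(8,1)]) (.cons (.leaf 3 [(7,1),(8,2)]) (.cons (.leaf 1 [(7,1),(8,1)]) (.cons (.leaf 1 [(6,1),(0,1),(8,1)])
.nil)))))))) .nil)))))))) .nil)))))))) (.cons (.keep [1,4,5,6] (.node (.cons (.leaf 1 [(6,1)]) (.cons (.leaf 1
[(2,1)]) (.cons (.keep [2,6,7,8,9] (.node (.cons (.leaf 2 [(2,1),(10,1)]) (.cons (.leaf 2 [(7,1),(2,2),(9,1)]) (.cons
(.leaf 1 [(6,1),(2,1)]) (.cons (.leaf 2 [(7,1),(8,1)]) (.cons (.leaf 1 [(10,1)]) (.cons (.keep [0,6,7,8,9,10] (.node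
(.cons (.leaf 2 [(4,1),(7,1),(11,1)]) (.cons (.leaf 1 [(2,1),(9,1)]) (.cons (.leaf 1 [(2,1),(8,1),(9,1)]) (.cons
(.leaf 3 [(10,1),(11,1)]) (.cons (.leaf 1 [(6,1),(11,1)]) (.cons (.leaf 1 [(11,1),(0,1)]) .nil)))))))) .nil))))))))
(.cons (.leaf 1 [(6,1),(1,1)]) (.cons (.leaf 1 []) (.cons (.keep [1,6,7,9] (.node (.cons (.leaf 1 [(2,1)]) (.cons
(.leaf 1 [(2,1)]) (.cons (.leaf 1 [(2,1)]) (.cons (.leaf 2 [(9,1),(6,1)]) (.cons (.leaf 1 [(9,1)]) (.cons (.keep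
[6,7,8,9] (.node (.cons (.leaf 2 [(8,1)]) (.cons (.leaf 1 [(2,1),(8,1)]) (.cons (.leaf 1 [(2,1),(7,1),(8,1)]) (.cons
(.leaf 3 [(8,1),(9,1)]) (.cons (.leaf 1 [(8,1)]) (.cons (.leaf 1 [(6,1),(0,1),(9,1)]) .nil)))))))) .nil))))))))
.nil)))))))) (.cons (.keep [1,6] (.node (.cons (.leaf 1 [(6,1)]) (.cons (.leaf 1 [(2,1)]) (.cons (.keep [2,7] (.node
(.cons (.leaf 2 [(2,1),(7,1)]) (.cons (.leaf 1 [(2,1),(6,1)]) (.cons (.leaf 1 [(2,1),(6,1)]) (.cons (.leaf 1 [(4,1)])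
(.cons (.leaf 1 [(7,1)]) (.cons (.keep [0,6,7] (.node (.cons (.leaf 2 [(4,1),(7,1),(8,1)]) (.cons (.leaf 1
[(2,1),(8,1)]) (.cons (.leaf 1 [(2,1),(8,1)]) (.cons (.leaf 3 [(7,1),(6,1),(8,2)]) (.cons (.leaf 1 [(6,1),(8,1)])
(.cons (.leaf 1 [(8,1),(0,1)]) .nil)))))))) .nil)))))))) (.cons (.leaf 1 [(6,1),(1,1)]) (.cons (.leaf 1 []) (.cons
(.keep [1,7] (.node (.cons (.leaf 1 [(2,1)]) (.cons (.leaf 1 [(2,1)]) (.cons (.leaf 1 [(2,1)]) (.cons (.leaf 2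
[(7,1),(6,1)]) (.cons (.leaf 1 [(7,1)]) (.cons (.keep [0,6,7] (.node (.cons (.leaf 2 [(4,1),(8,1)]) (.cons (.leaf 1
[(2,1),(8,1)]) (.cons (.leaf 1 [(2,1),(8,1)]) (.cons (.leaf 3 [(7,1),(6,1),(8,2)]) (.cons (.leaf 1
[(7,1),(6,1),(8,1)]) (.cons (.leaf 1 [(0,1),(8,1),(7,1)]) .nil)))))))) .nil)))))))) .nil)))))))) (.cons (.keep [1,6,8]
(.node (.cons (.leaf 1 [(6,1)]) (.cons (.leaf 1 [(2,1)]) (.cons (.keep [2,7,8] (.node (.cons (.leaf 2 [(2,1),(7,1)])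
(.cons (.leaf 1 [(2,1),(6,1)]) (.cons (.leaf 1 [(2,1),(6,1)]) (.cons (.leaf 1 [(4,1)]) (.cons (.leaf 1 [(7,1)]) (.cons
(.keep [0,7,8] (.node (.cons (.leaf 3 [(4,2),(8,1),(7,2)]) (.cons (.leaf 1 [(2,1),(7,1)]) (.cons (.leaf 1
[(2,1),(7,1)]) (.cons (.leaf 5 [(8,1),(6,2),(7,4)]) (.cons (.leaf 1 [(6,1),(7,1)]) (.cons (.leaf 1 [(7,1),(0,1)])
.nil)))))))) .nil)))))))) (.cons (.leaf 1 [(6,1),(1,1)]) (.cons (.leaf 1 []) (.cons (.keep [1,7] (.node (.cons (.leaf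
1 [(2,1)]) (.cons (.leaf 1 [(2,1)]) (.cons (.leaf 1 [(2,1)]) (.cons (.leaf 2 [(7,1),(6,1)]) (.cons (.leaf 1 [(7,1)])
(.cons (.keep [0,6,7] (.node (.cons (.leaf 2 [(4,1),(8,1)]) (.cons (.leaf 1 [(2,1),(8,1)]) (.cons (.leaf 1
[(2,1),(8,1)]) (.cons (.leaf 3 [(7,1),(6,1),(8,2)]) (.cons (.leaf 1 [(7,1),(6,1),(8,1)]) (.cons (.leaf 1
[(0,1),(8,1),(7,1)]) .nil)))))))) .nil)))))))) .nil)))))))) .nil)))))))) (.cons (.leaf 1 [(2,1),(6,1)]) (.cons (.keep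
[2,3,6,8] (.node (.cons (.leaf 1 [(2,1),(7,1)]) (.cons (.leaf 1 [(6,1),(2,2),(7,1)]) (.cons (.leaf 1
[(6,1),(2,1),(8,1)]) (.cons (.leaf 1 [(7,1)]) (.cons (.keep [6,7] (.node (.cons (.leaf 2 [(6,1),(7,1)]) (.cons (.leaf
1 [(2,1)]) (.cons (.keep [2,6,7] (.node (.cons (.leaf 2 [(2,1),(7,1)]) (.cons (.leaf 1 [(2,1),(6,1)]) (.cons (.leaf 1
[(2,1),(6,1)]) (.cons (.leaf 1 [(4,1)]) (.cons (.leaf 1 [(7,1)]) (.cons (.leaf 1 [(8,1),(0,1),(7,1)]) .nil))))))))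
(.cons (.leaf 2 [(6,1),(7,1),(1,1)]) (.cons (.leaf 1 []) (.cons (.keep [1,6,7] (.node (.cons (.leaf 1 [(2,1)]) (.cons
(.leaf 1 [(2,1)]) (.cons (.leaf 1 [(2,1)]) (.cons (.leaf 2 [(7,1),(6,1)]) (.cons (.leaf 1 [(7,1)]) (.cons (.leaf 1
[(8,1),(6,1),(0,1),(7,1)]) .nil)))))))) .nil)))))))) (.cons (.keep [6,7,9] (.node (.cons (.leaf 3 [(6,2),(8,1),(7,1)])
(.cons (.leaf 1 [(2,1)]) (.cons (.keep [2,6,7] (.node (.cons (.leaf 2 [(2,1),(7,1)]) (.cons (.leaf 1 [(2,1),(6,1)])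
(.cons (.leaf 1 [(2,1),(6,1)]) (.cons (.leaf 1 [(4,1)]) (.cons (.leaf 1 [(7,1)]) (.cons (.leaf 1
[(6,1),(8,1),(0,1),(7,1)]) .nil)))))))) (.cons (.leaf 2 [(6,1),(7,1)]) (.cons (.leaf 1 []) (.cons (.keep [1,6,7]
(.node (.cons (.leaf 1 [(2,1)]) (.cons (.leaf 1 [(2,1)]) (.cons (.leaf 1 [(2,1)]) (.cons (.leaf 2 [(7,1),(6,1)])
(.cons (.leaf 1 [(7,1)]) (.cons (.leaf 1 [(8,1),(0,1),(7,1)]) .nil)))))))) .nil)))))))) .nil)))))))) (.cons (.keep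
[5,6,7,8,9] (.node (.cons (.keep [2,4,5,8] (.node (.cons (.keep [2,9] (.spl 7 (.cons (.leaf 1 [(2,1),(0,1)]) (.cons
(.leaf 1 [(2,1),(1,1),(0,1)]) .nil)))) (.cons (.leaf 1 [(2,1)]) (.cons (.keep [2,7,8,9] (.node (.cons (.leaf 2
[(2,1),(9,1)]) (.cons (.leaf 1 [(6,1),(2,1)]) (.cons (.leaf 1 [(6,1),(2,1)]) (.cons (.leaf 1 [(4,1)]) (.cons (.leaf 1
[(9,1)]) (.cons (.keep [0,6,7,8,9] (.node (.cons (.leaf 2 [(4,1),(7,1),(10,1)]) (.cons (.leaf 1 [(2,1),(8,1)]) (.cons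
(.leaf 1 [(10,1),(2,1)]) (.cons (.leaf 3 [(9,1),(10,1)]) (.cons (.leaf 1 [(6,1),(10,1)]) (.cons (.leaf 1
[(10,1),(0,1)]) .nil)))))))) .nil)))))))) (.cons (.keep [1,9] (.spl 7 (.cons (.leaf 1 [(2,1),(0,1),(1,1)]) (.cons
(.leaf 1 [(2,1),(0,1)]) .nil)))) (.cons (.leaf 1 []) (.cons (.keep [1,6,7,9] (.node (.cons (.leaf 1 [(2,1)]) (.cons
(.leaf 1 [(2,1)]) (.cons (.leaf 1 [(2,1)]) (.cons (.leaf 2 [(9,1),(6,1)]) (.cons (.leaf 1 [(9,1)]) (.cons (.keep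
[6,7,8,9] (.node (.cons (.leaf 2 [(8,1)]) (.cons (.leaf 1 [(2,1),(8,1)]) (.cons (.leaf 1 [(2,1),(9,1)]) (.cons (.leaf
3 [(7,1),(9,2)]) (.cons (.leaf 1 [(7,1),(9,1)]) (.cons (.leaf 1 [(6,1),(0,1),(9,1)]) .nil)))))))) .nil))))))))
.nil)))))))) (.cons (.keep [2,3,6,7,8,10] (.node (.cons (.leaf 1 [(10,1),(7,1)]) (.cons (.leaf 1 [(2,1)]) (.cons
(.keep [2,8,9,10,11] (.node (.cons (.leaf 2 [(2,1),(9,1)]) (.cons (.leaf 1 [(2,1),(6,1)]) (.cons (.leaf 1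
[(2,1),(6,1)]) (.cons (.leaf 2 [(10,1),(8,1)]) (.cons (.leaf 1 [(9,1)]) (.cons (.keep [0,6,7,8,9,10] (.node (.cons
(.leaf 3 [(8,1),(7,2),(10,1)]) (.cons (.leaf 1 [(2,1),(9,1)]) (.cons (.leaf 1 [(2,1),(11,1),(9,1)]) (.cons (.leaf 5
[(7,2),(8,1),(10,3)]) (.cons (.leaf 1 [(6,1),(10,1)]) (.cons (.leaf 1 [(10,1),(0,1)]) .nil)))))))) .nil)))))))) (.cons
(.leaf 1 [(10,1),(7,1),(1,1)]) (.cons (.leaf 1 []) (.cons (.keep [1,6,8,9,10] (.node (.cons (.leaf 1 [(2,1)]) (.cons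
(.leaf 1 [(2,1)]) (.cons (.leaf 1 [(2,1)]) (.cons (.leaf 2 [(10,1),(6,1)]) (.cons (.leaf 1 [(10,1)]) (.cons (.keep
[6,7,8,9,10] (.node (.cons (.leaf 3 [(8,1),(10,1)]) (.cons (.leaf 1 [(2,1),(9,1)]) (.cons (.leaf 1 [(2,1),(10,1)])
(.cons (.leaf 5 [(8,1),(10,3)]) (.cons (.leaf 1 [(7,1),(10,1)]) (.cons (.leaf 1 [(6,1),(0,1),(10,1)]) .nil))))))))
.nil)))))))) .nil)))))))) (.cons (.keep [2,3,4,6,7,8,9,10] (.node (.cons (.leaf 1 [(11,1),(2,1),(7,1)]) (.cons (.leaf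
1 [(2,1)]) (.cons (.keep [2,8,9,10,11,12,13] (.node (.cons (.leaf 2 [(2,1),(10,1)]) (.cons (.leaf 1 [(6,1),(2,1)])
(.cons (.leaf 1 [(6,1),(2,1)]) (.cons (.leaf 2 [(12,1),(9,1)]) (.cons (.leaf 1 [(10,1)]) (.cons (.keep
[0,6,7,8,9,10,11] (.node (.cons (.leaf 3 [(9,1),(7,1),(11,1)]) (.cons (.leaf 1 [(8,1),(2,1),(10,1)]) (.cons (.leaf 1
[(11,1),(2,1)]) (.cons (.leaf 5 [(12,1),(11,3)]) (.cons (.leaf 1 [(6,1),(11,1)]) (.cons (.leaf 1 [(11,1),(0,1)])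
.nil)))))))) .nil)))))))) (.cons (.leaf 1 [(11,1),(7,1)]) (.cons (.leaf 1 []) (.cons (.keep [1,6,11] (.node (.cons
(.leaf 1 [(2,1)]) (.cons (.leaf 1 [(2,1)]) (.cons (.leaf 1 [(2,1)]) (.cons (.leaf 2 [(8,1),(6,1)]) (.cons (.leaf 1
[(8,1)]) (.cons (.keep [6,7,8] (.node (.cons (.leaf 2 [(4,1),(8,1)]) (.cons (.leaf 1 [(2,1),(8,1)]) (.cons (.leaf 1
[(2,1),(8,1)]) (.cons (.leaf 3 [(7,1),(8,2)]) (.cons (.leaf 1 [(7,1),(8,1)]) (.cons (.leaf 1 [(6,1),(0,1),(8,1)])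
.nil)))))))) .nil)))))))) .nil)))))))) (.cons (.keep [1,4,5,8] (.node (.cons (.leaf 1 [(6,1)]) (.cons (.leaf 1
[(2,1)]) (.cons (.keep [2,6,7,8,9] (.node (.cons (.leaf 2 [(2,1),(10,1)]) (.cons (.leaf 2 [(7,1),(2,2),(9,1)]) (.cons
(.leaf 1 [(6,1),(2,1)]) (.cons (.leaf 2 [(7,1),(8,1)]) (.cons (.leaf 1 [(10,1)]) (.cons (.keep [0,6,7,8,9,10] (.node
(.cons (.leaf 2 [(4,1),(7,1),(11,1)]) (.cons (.leaf 1 [(2,1),(9,1)]) (.cons (.leaf 1 [(2,1),(8,1),(9,1)]) (.cons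
(.leaf 3 [(10,1),(11,1)]) (.cons (.leaf 1 [(6,1),(11,1)]) (.cons (.leaf 1 [(11,1),(0,1)]) .nil)))))))) .nil))))))))
(.cons (.leaf 1 [(6,1),(1,1)]) (.cons (.leaf 1 []) (.cons (.keep [1,6,7,9] (.node (.cons (.leaf 1 [(2,1)]) (.cons
(.leaf 1 [(2,1)]) (.cons (.leaf 1 [(2,1)]) (.cons (.leaf 2 [(9,1),(6,1)]) (.cons (.leaf 1 [(9,1)]) (.cons (.keep
[6,7,8,9] (.node (.cons (.leaf 2 [(8,1)]) (.cons (.leaf 1 [(2,1),(8,1)]) (.cons (.leaf 1 [(2,1),(7,1),(8,1)]) (.cons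
(.leaf 3 [(8,1),(9,1)]) (.cons (.leaf 1 [(8,1)]) (.cons (.leaf 1 [(6,1),(0,1),(9,1)]) .nil)))))))) .nil))))))))
.nil)))))))) (.cons (.keep [1,7] (.node (.cons (.leaf 1 [(6,1)]) (.cons (.leaf 1 [(2,1)]) (.cons (.keep [2,7] (.node
(.cons (.leaf 2 [(2,1),(7,1)]) (.cons (.leaf 1 [(2,1),(6,1)]) (.cons (.leaf 1 [(2,1),(6,1)]) (.cons (.leaf 1 [(4,1)])
(.cons (.leaf 1 [(7,1)]) (.cons (.keep [0,6,7] (.node (.cons (.leaf 2 [(4,1),(7,1),(8,1)]) (.cons (.leaf 1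
[(2,1),(8,1)]) (.cons (.leaf 1 [(2,1),(8,1)]) (.cons (.leaf 3 [(7,1),(6,1),(8,2)]) (.cons (.leaf 1 [(6,1),(8,1)])
(.cons (.leaf 1 [(8,1),(0,1)]) .nil)))))))) .nil)))))))) (.cons (.leaf 1 [(6,1),(1,1)]) (.cons (.leaf 1 []) (.cons
(.keep [1,7] (.node (.cons (.leaf 1 [(2,1)]) (.cons (.leaf 1 [(2,1)]) (.cons (.leaf 1 [(2,1)]) (.cons (.leaf 2
[(7,1),(6,1)]) (.cons (.leaf 1 [(7,1)]) (.cons (.keep [0,6,7] (.node (.cons (.leaf 2 [(4,1),(8,1)]) (.cons (.leaf 1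
[(2,1),(8,1)]) (.cons (.leaf 1 [(2,1),(8,1)]) (.cons (.leaf 3 [(7,1),(6,1),(8,2)]) (.cons (.leaf 1
[(7,1),(6,1),(8,1)]) (.cons (.leaf 1 [(0,1),(8,1),(7,1)]) .nil)))))))) .nil)))))))) .nil)))))))) (.cons (.keep
[1,4,7,8,9] (.node (.cons (.leaf 1 [(6,1)]) (.cons (.leaf 1 [(2,1)]) (.cons (.keep [2,7,8,9,10] (.node (.cons (.leaf 3
[(2,2),(8,1)]) (.cons (.leaf 2 [(2,3),(10,1)]) (.cons (.leaf 1 [(6,1),(2,1)]) (.cons (.leaf 2 [(8,1),(7,1)]) (.cons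
(.leaf 1 [(8,1),(7,1)]) (.cons (.keep [0,7,8,9,10] (.node (.cons (.leaf 3 [(9,1),(4,2),(10,1)]) (.cons (.leaf 1
[(7,1),(2,1),(8,1)]) (.cons (.leaf 1 [(7,1),(2,1),(8,1)]) (.cons (.leaf 3 [(6,1),(7,1),(8,2)]) (.cons (.leaf 1
[(6,1),(9,1)]) (.cons (.leaf 1 [(7,1),(8,1),(0,1)]) .nil)))))))) .nil)))))))) (.cons (.leaf 1 [(1,1),(6,1)]) (.cons
(.leaf 1 []) (.cons (.keep [1,8,9] (.node (.cons (.leaf 1 [(2,1)]) (.cons (.leaf 1 [(2,1)]) (.cons (.leaf 1 [(2,1)])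
(.cons (.leaf 2 [(8,1),(6,1)]) (.cons (.leaf 1 [(7,1),(6,1)]) (.cons (.keep [0,6,8] (.node (.cons (.leaf 2
[(4,1),(8,1)]) (.cons (.leaf 1 [(2,1),(8,1)]) (.cons (.leaf 1 [(2,1),(8,1)]) (.cons (.leaf 3 [(7,1),(6,1),(8,2)])
(.cons (.leaf 1 [(7,1),(6,1),(8,1)]) (.cons (.leaf 1 [(0,1),(8,1),(7,1)]) .nil)))))))) .nil)))))))) .nil))))))))
.nil)))))))) (.cons (.leaf 1 [(6,1)]) (.cons (.keep [3,6,7,8] (.node (.cons (.leaf 1 [(2,1),(6,1)]) (.cons (.leaf 1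
[(7,1),(2,1)]) (.cons (.leaf 1 [(2,1),(7,1)]) (.cons (.leaf 1 [(6,1)]) (.cons (.keep [6,7,8] (.node (.cons (.leaf 2
[(8,1),(6,1)]) (.cons (.leaf 1 [(2,1)]) (.cons (.keep [0,7] (.node (.cons (.leaf 2 [(7,1),(2,1),(6,1)]) (.cons (.leaf
1 [(7,1),(2,1),(6,1)]) (.cons (.leaf 1 [(2,1),(0,1),(7,1)]) (.cons (.leaf 2 [(7,1),(6,1)]) (.cons (.leaf 1
[(7,1),(6,1)]) (.cons (.leaf 1 [(0,1),(7,1)]) .nil)))))))) (.cons (.leaf 2 [(7,1),(1,1)]) (.cons (.leaf 1 []) (.cons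
(.keep [0,1,7] (.node (.cons (.leaf 1 [(2,1)]) (.cons (.leaf 1 [(2,1)]) (.cons (.leaf 1 [(2,1)]) (.cons (.leaf 2
[(8,1),(7,2),(6,1)]) (.cons (.leaf 1 [(8,1),(7,1),(6,1)]) (.cons (.leaf 1 [(0,1),(7,1),(8,1)]) .nil))))))))
.nil)))))))) (.cons (.keep [6,7,8,9] (.node (.cons (.leaf 3 [(8,1),(9,1),(6,1)]) (.cons (.leaf 1 [(2,1)]) (.cons
(.keep [0,7] (.node (.cons (.leaf 2 [(7,1),(2,1),(6,1)]) (.cons (.leaf 1 [(7,1),(2,1),(6,1)]) (.cons (.leaf 1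
[(2,1),(0,1),(7,1)]) (.cons (.leaf 2 [(7,1),(6,1)]) (.cons (.leaf 1 [(7,1),(6,1)]) (.cons (.leaf 1 [(0,1),(7,1)])
.nil)))))))) (.cons (.leaf 2 [(7,1),(1,1)]) (.cons (.leaf 1 []) (.cons (.keep [0,1,7] (.node (.cons (.leaf 1 [(2,1)])
(.cons (.leaf 1 [(2,1)]) (.cons (.leaf 1 [(2,1)]) (.cons (.leaf 2 [(8,1),(7,2),(6,1)]) (.cons (.leaf 1
[(8,1),(7,1),(6,1)]) (.cons (.leaf 1 [(0,1),(7,1),(8,1)]) .nil)))))))) .nil)))))))) .nil)))))))) .nil)))))))) (.cons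
(.keep [2,3,4,6] (.node (.cons (.keep [5,6,7,8,9] (.node (.cons (.keep [2,6,7,8,10] (.node (.cons (.keep [2,9] (.spl 7
(.cons (.leaf 2 [(2,1),(0,2)]) (.cons (.leaf 2 [(2,1),(1,2),(0,2)]) .nil)))) (.cons (.leaf 2 [(2,2),(9,1)]) (.cons
(.keep [2,3,6,7,9,10] (.node (.cons (.leaf 5 [(2,3),(11,1)]) (.cons (.leaf 1 [(2,1)]) (.cons (.leaf 2
[(2,2),(10,1),(6,2)]) (.cons (.leaf 2 [(9,1),(7,1)]) (.cons (.leaf 1 []) (.cons (.keep [6,8,11] (.node (.cons (.leaf 5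
[(8,1),(6,3),(4,3)]) (.cons (.leaf 1 [(2,1)]) (.cons (.leaf 1 [(2,1)]) (.cons (.leaf 8 [(8,1),(6,3),(7,3)]) (.cons
(.leaf 1 [(7,1)]) (.cons (.leaf 2 [(0,3),(8,1)]) .nil)))))))) .nil)))))))) (.cons (.keep [1,9] (.spl 7 (.cons (.leaf 2
[(2,1),(0,2),(1,2)]) (.cons (.leaf 2 [(2,1),(0,2)]) .nil)))) (.cons (.leaf 1 [(8,1)]) (.cons (.keep [1,6,9,10] (.node
(.cons (.leaf 2 [(2,2),(8,1)]) (.cons (.leaf 1 [(2,1)]) (.cons (.leaf 2 [(8,1),(2,2)]) (.cons (.leaf 4 [(6,2),(8,1)])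
(.cons (.leaf 1 []) (.cons (.keep [6,7,8,9] (.node (.cons (.leaf 4 [(8,1),(4,2)]) (.cons (.leaf 1 [(2,1)]) (.cons
(.leaf 1 [(2,1)]) (.cons (.leaf 8 [(7,3),(9,1)]) (.cons (.leaf 1 [(7,1)]) (.cons (.leaf 2 [(6,2),(8,1),(0,2)])
.nil)))))))) .nil)))))))) .nil)))))))) (.cons (.keep [3,5,8,10] (.node (.cons (.leaf 1 [(6,1)]) (.cons (.leaf 2
[(8,1),(2,2),(6,1)]) (.cons (.keep [2,6,8,9] (.node (.cons (.leaf 5 [(2,3),(7,2),(9,1)]) (.cons (.leaf 1 [(2,1)])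
(.cons (.leaf 2 [(7,1),(2,2),(8,1),(6,2)]) (.cons (.leaf 5 [(9,1),(7,2)]) (.cons (.leaf 1 []) (.cons (.keep
[0,6,7,8,9] (.node (.cons (.leaf 2 [(9,1),(7,1)]) (.cons (.leaf 1 [(2,1)]) (.cons (.leaf 1 [(2,1)]) (.cons (.leaf 7
[(10,2),(8,1),(7,3)]) (.cons (.leaf 2 [(9,1),(6,1)]) (.cons (.leaf 2 [(8,1),(0,2),(9,1)]) .nil)))))))) .nil))))))))
(.cons (.leaf 1 [(6,1),(1,1)]) (.cons (.leaf 2 [(8,1),(6,1)]) (.cons (.keep [1,3,6,7,8,9] (.node (.cons (.leaf 1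
[(6,1)]) (.cons (.leaf 1 [(2,1)]) (.cons (.leaf 2 [(8,1),(10,1),(2,2)]) (.cons (.leaf 5 [(11,1),(6,3),(8,2)]) (.cons
(.leaf 1 []) (.cons (.keep [0,6,7,8,9,10,11] (.node (.cons (.leaf 3 [(12,2),(8,1),(10,1)]) (.cons (.leaf 1 [(2,1)])
(.cons (.leaf 1 [(2,1)]) (.cons (.leaf 7 [(12,2),(9,1)]) (.cons (.leaf 2 [(7,1),(11,1),(6,1)]) (.cons (.leaf 2
[(7,2),(9,1),(0,2),(11,1)]) .nil)))))))) .nil)))))))) .nil)))))))) (.cons (.keep [2,3,4,8,9,10] (.node (.cons (.leaf 1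
[(2,1),(7,1)]) (.cons (.leaf 2 [(9,1),(2,2),(7,1)]) (.cons (.keep [2,7,8,9,10,11] (.node (.cons (.leaf 4
[(2,2),(7,1),(9,1)]) (.cons (.leaf 1 [(2,1)]) (.cons (.leaf 2 [(6,2),(7,1),(9,1),(2,2)]) (.cons (.leaf 4
[(7,1),(9,1)]) (.cons (.leaf 1 []) (.cons (.keep [0,7,8,9,10,11] (.node (.cons (.leaf 3 [(10,1),(11,1)]) (.cons (.leaf
1 [(2,1)]) (.cons (.leaf 1 [(2,1)]) (.cons (.leaf 5 [(10,1),(11,1)]) (.cons (.leaf 2 [(8,1),(9,1),(6,1)]) (.cons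
(.leaf 2 [(7,1),(0,2),(9,1)]) .nil)))))))) .nil)))))))) (.cons (.leaf 1 [(7,1)]) (.cons (.leaf 2 [(9,1),(7,1)]) (.cons
(.keep [1,6,7,9,11] (.node (.cons (.leaf 2 [(7,1),(2,1),(8,1)]) (.cons (.leaf 1 [(2,1)]) (.cons (.leaf 2
[(8,1),(9,1),(2,2)]) (.cons (.leaf 2 [(7,1),(8,1)]) (.cons (.leaf 1 []) (.cons (.keep [0,6,7,8,9,10] (.node (.cons
(.leaf 4 [(9,1),(10,1),(4,2)]) (.cons (.leaf 1 [(2,1)]) (.cons (.leaf 1 [(2,1)]) (.cons (.leaf 8 [(8,3),(9,2),(11,1)])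
(.cons (.leaf 2 [(7,2),(10,1),(6,1)]) (.cons (.leaf 1 [(9,1),(0,1),(8,1)]) .nil)))))))) .nil)))))))) .nil))))))))
(.cons (.keep [0,1,4,8,9] (.node (.cons (.leaf 2 [(9,1),(7,1)]) (.cons (.leaf 1 [(8,1),(2,1),(9,1)]) (.cons (.keep
[2,8,9] (.node (.cons (.leaf 2 [(7,1),(2,1),(8,1)]) (.cons (.leaf 1 [(2,1)]) (.cons (.leaf 1
[(6,1),(2,2),(8,1),(0,1)]) (.cons (.leaf 2 [(7,1),(8,1)]) (.cons (.leaf 1 []) (.cons (.keep [0,6,8] (.node (.cons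
(.leaf 4 [(8,1),(7,2),(4,3)]) (.cons (.leaf 1 [(2,1)]) (.cons (.leaf 1 [(2,1)]) (.cons (.leaf 3 [(8,1),(7,2),(4,3)])
(.cons (.leaf 1 [(8,1),(6,2)]) (.cons (.leaf 1 [(0,2),(4,1),(8,1)]) .nil)))))))) .nil)))))))) (.cons (.leaf 2
[(1,2),(9,1),(7,1)]) (.cons (.leaf 1 [(8,1),(9,1)]) (.cons (.keep [1,6,9,10] (.node (.cons (.leaf 1 [(6,1)]) (.cons
(.leaf 1 [(2,1)]) (.cons (.leaf 1 [(2,2),(6,1),(8,1),(0,1)]) (.cons (.leaf 2 [(7,1),(6,3),(8,1)]) (.cons (.leaf 1 [])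
(.cons (.keep [0,6,8,9] (.node (.cons (.leaf 1 [(2,1)]) (.cons (.leaf 1 [(2,1)]) (.cons (.leaf 1 [(2,1)]) (.cons
(.leaf 3 [(7,1),(9,2),(6,1)]) (.cons (.leaf 1 [(7,2),(8,1),(6,2)]) (.cons (.leaf 1 [(0,2),(8,1),(4,1),(7,2)])
.nil)))))))) .nil)))))))) .nil)))))))) (.cons (.keep [3,7,8] (.node (.cons (.leaf 1 [(6,1)]) (.cons (.leaf 1
[(8,1),(2,1)]) (.cons (.keep [2,7,8] (.node (.cons (.leaf 2 [(2,1),(8,1)]) (.cons (.leaf 1 [(2,1)]) (.cons (.leaf 1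
[(2,1),(8,1),(6,1)]) (.cons (.leaf 1 [(7,1)]) (.cons (.leaf 1 []) (.cons (.keep [0,6,8] (.node (.cons (.leaf 2
[(8,1),(7,1),(4,1)]) (.cons (.leaf 1 [(2,1)]) (.cons (.leaf 1 [(2,1)]) (.cons (.leaf 3 [(8,2),(7,1),(6,1)]) (.cons
(.leaf 1 [(8,1),(6,1)]) (.cons (.leaf 1 [(0,1),(8,1)]) .nil)))))))) .nil)))))))) (.cons (.leaf 1 [(1,1),(6,1)]) (.cons
(.leaf 1 [(8,1)]) (.cons (.keep [1,8] (.node (.cons (.leaf 1 [(6,1)]) (.cons (.leaf 1 [(2,1)]) (.cons (.leaf 1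
[(7,1),(2,1)]) (.cons (.leaf 2 [(6,1),(7,1)]) (.cons (.leaf 1 []) (.cons (.keep [0,6,7] (.node (.cons (.leaf 1
[(2,1)]) (.cons (.leaf 1 [(2,1)]) (.cons (.leaf 1 [(2,1)]) (.cons (.leaf 3 [(7,1),(8,2),(6,1)]) (.cons (.leaf 1
[(7,1),(8,1),(6,1)]) (.cons (.leaf 1 [(8,1),(0,1),(7,1)]) .nil)))))))) .nil)))))))) .nil)))))))) (.cons (.keep
[1,3,8,9,10] (.node (.cons (.leaf 2 [(8,1),(6,1),(7,1)]) (.cons (.leaf 1 [(8,1)]) (.cons (.keep [8,9,10] (.node (.cons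
(.leaf 2 [(2,1),(7,1)]) (.cons (.leaf 1 [(2,1)]) (.cons (.leaf 1 [(6,1),(2,1)]) (.cons (.leaf 2 [(7,1)]) (.cons (.leaf
1 []) (.cons (.keep [0,7,8] (.node (.cons (.leaf 3 [(7,1),(8,1),(4,2)]) (.cons (.leaf 1 [(2,1)]) (.cons (.leaf 1
[(2,1)]) (.cons (.leaf 5 [(7,3),(8,1),(6,2)]) (.cons (.leaf 1 [(7,1),(6,1)]) (.cons (.leaf 1 [(0,1),(7,1)])
.nil)))))))) .nil)))))))) (.cons (.leaf 1 [(7,1)]) (.cons (.leaf 1 [(1,1),(8,1)]) (.cons (.keep [1,8,9] (.node (.cons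
(.leaf 1 [(6,1)]) (.cons (.leaf 1 [(2,1)]) (.cons (.leaf 1 [(2,1),(7,1),(6,1)]) (.cons (.leaf 2 [(6,1),(8,1)]) (.cons
(.leaf 1 []) (.cons (.keep [0,6,7,8] (.node (.cons (.leaf 1 [(2,1)]) (.cons (.leaf 1 [(2,1)]) (.cons (.leaf 1 [(2,1)])
(.cons (.leaf 3 [(7,3),(8,2),(6,1)]) (.cons (.leaf 1 [(7,1),(9,1),(6,1)]) (.cons (.leaf 1 [(8,1),(0,1),(7,2)])
.nil)))))))) .nil)))))))) .nil)))))))) .nil)))))))) (.cons (.leaf 1 [(2,1),(7,1)]) (.cons (.keep [0,2,3,7,8] (.node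
(.cons (.leaf 2 [(2,2),(9,1),(8,1)]) (.cons (.leaf 1 [(2,2),(8,1)]) (.cons (.leaf 1 [(7,1),(2,1),(9,1)]) (.cons (.leaf
1 [(4,1),(9,1)]) (.cons (.keep [3,6,9,10] (.node (.cons (.leaf 1 [(6,1)]) (.cons (.leaf 1 [(9,1),(2,1)]) (.cons (.keep
[7,8,9] (.node (.cons (.leaf 2 [(2,1),(8,1)]) (.cons (.leaf 1 [(2,1)]) (.cons (.leaf 1 [(2,1),(7,1),(0,1)]) (.cons
(.leaf 1 [(6,1),(7,1)]) (.cons (.leaf 1 []) (.cons (.leaf 1 [(7,1),(0,1)]) .nil)))))))) (.cons (.leaf 2 [(1,1),(8,1)])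
(.cons (.leaf 1 [(9,1)]) (.cons (.keep [1,8,9] (.node (.cons (.leaf 1 [(6,1)]) (.cons (.leaf 1 [(2,1)]) (.cons (.leaf
1 [(2,1),(6,1),(7,1),(0,1)]) (.cons (.leaf 2 [(6,1),(8,1)]) (.cons (.leaf 1 []) (.cons (.leaf 1 [(7,1),(6,1),(0,1)])
.nil)))))))) .nil)))))))) (.cons (.keep [9,10] (.node (.cons (.leaf 2 [(6,1)]) (.cons (.leaf 1 [(7,1),(2,1)]) (.cons
(.keep [6,7] (.node (.cons (.leaf 2 [(2,1),(7,1)]) (.cons (.leaf 1 [(2,1)]) (.cons (.leaf 1 [(2,1),(6,1),(0,1)])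
(.cons (.leaf 2 [(7,1)]) (.cons (.leaf 1 []) (.cons (.leaf 1 [(6,1),(0,1)]) .nil)))))))) (.cons (.leaf 2
[(1,1),(6,1)]) (.cons (.leaf 1 [(7,1)]) (.cons (.keep [1,6,7] (.node (.cons (.leaf 1 [(6,1)]) (.cons (.leaf 1 [(2,1)])
(.cons (.leaf 1 [(2,1),(6,1),(7,1),(0,1)]) (.cons (.leaf 2 [(6,1),(8,1)]) (.cons (.leaf 1 []) (.cons (.leaf 1
[(7,1),(6,1),(0,1)]) .nil)))))))) .nil)))))))) .nil)))))))) (.cons (.keep [1,5,6,9] (.node (.cons (.keep [2,6,7,8]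
(.node (.cons (.keep [2,7] (.spl 7 (.cons (.leaf 1 [(2,1),(0,1)]) (.cons (.leaf 1 [(2,1),(1,1),(0,1)]) .nil)))) (.cons
(.leaf 1 [(2,1),(7,1)]) (.cons (.keep [2,3,6,7,8,9] (.node (.cons (.leaf 3 [(2,2),(11,1)]) (.cons (.leaf 1 [(2,1)])
(.cons (.leaf 1 [(2,1),(9,1),(6,1)]) (.cons (.leaf 2 [(10,1),(7,1)]) (.cons (.leaf 1 []) (.cons (.keep [6,8,11] (.node
(.cons (.leaf 3 [(8,1),(6,2),(4,2)]) (.cons (.leaf 1 [(2,1)]) (.cons (.leaf 1 [(2,1)]) (.cons (.leaf 5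
[(8,1),(6,2),(7,2)]) (.cons (.leaf 1 [(7,1)]) (.cons (.leaf 1 [(0,2),(8,1)]) .nil)))))))) .nil)))))))) (.cons (.keep
[1,7] (.spl 7 (.cons (.leaf 1 [(2,1),(0,1),(1,1)]) (.cons (.leaf 1 [(2,1),(0,1)]) .nil)))) (.cons (.leaf 1 [(7,1)])
(.cons (.keep [1,6,7,9] (.node (.cons (.leaf 1 [(6,1)]) (.cons (.leaf 1 [(2,1)]) (.cons (.leaf 1 [(8,1),(2,1)]) (.cons
(.leaf 3 [(6,2),(9,1)]) (.cons (.leaf 1 []) (.cons (.keep [6,7,8,9] (.node (.cons (.leaf 1 [(2,1)]) (.cons (.leaf 1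
[(2,1)]) (.cons (.leaf 1 [(2,1)]) (.cons (.leaf 5 [(7,2),(9,1)]) (.cons (.leaf 1 [(7,1)]) (.cons (.leaf 1
[(6,1),(8,1),(0,1)]) .nil)))))))) .nil)))))))) .nil)))))))) (.cons (.keep [2,3,6,7,8] (.node (.cons (.leaf 1 [(7,1)])
(.cons (.leaf 1 [(6,1),(2,1),(7,1)]) (.cons (.keep [2,7,8,9,10] (.node (.cons (.leaf 3 [(2,2),(7,1),(10,1)]) (.cons
(.leaf 1 [(2,1)]) (.cons (.leaf 1 [(2,1),(8,1),(6,1)]) (.cons (.leaf 3 [(10,1),(7,1)]) (.cons (.leaf 1 []) (.cons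
(.keep [0,6,8,9,10] (.node (.cons (.leaf 3 [(8,2),(7,2),(9,1)]) (.cons (.leaf 1 [(2,1)]) (.cons (.leaf 1 [(2,1)])
(.cons (.leaf 2 [(10,1),(7,1)]) (.cons (.leaf 1 [(8,1),(6,1)]) (.cons (.leaf 1 [(0,1),(8,1)]) .nil))))))))
.nil)))))))) (.cons (.leaf 1 [(1,1),(7,1)]) (.cons (.leaf 1 [(6,1),(7,1)]) (.cons (.keep [1,6,8,9] (.node (.cons
(.leaf 1 [(6,1)]) (.cons (.leaf 1 [(2,1)]) (.cons (.leaf 1 [(8,1),(2,1)]) (.cons (.leaf 2 [(6,1),(8,1)]) (.cons (.leaf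
1 []) (.cons (.keep [6,7,8,9] (.node (.cons (.leaf 1 [(2,1)]) (.cons (.leaf 1 [(2,1)]) (.cons (.leaf 1 [(2,1)]) (.cons
(.leaf 5 [(9,1),(8,2)]) (.cons (.leaf 1 [(7,1)]) (.cons (.leaf 1 [(6,1),(8,1),(0,1)]) .nil)))))))) .nil))))))))
.nil)))))))) (.cons (.keep [2,3,6,8,9] (.node (.cons (.leaf 1 [(2,1),(7,1)]) (.cons (.leaf 1 [(6,1),(2,2),(7,1)])
(.cons (.keep [2,8,10] (.node (.cons (.leaf 2 [(2,1),(7,1)]) (.cons (.leaf 1 [(2,1)]) (.cons (.leaf 1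
[(2,1),(7,1),(6,1)]) (.cons (.leaf 2 [(7,1)]) (.cons (.leaf 1 []) (.cons (.keep [0,7,8] (.node (.cons (.leaf 3
[(7,2),(8,1)]) (.cons (.leaf 1 [(2,1)]) (.cons (.leaf 1 [(2,1)]) (.cons (.leaf 5 [(7,2),(8,1)]) (.cons (.leaf 1
[(7,1),(6,1)]) (.cons (.leaf 1 [(0,1),(7,1)]) .nil)))))))) .nil)))))))) (.cons (.leaf 1 [(7,1)]) (.cons (.leaf 1
[(8,1)]) (.cons (.keep [1,6,7,8,9] (.node (.cons (.leaf 2 [(7,1),(2,1),(8,1)]) (.cons (.leaf 1 [(2,1)]) (.cons (.leaf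
1 [(9,1),(2,1)]) (.cons (.leaf 2 [(7,1),(8,1)]) (.cons (.leaf 1 []) (.cons (.keep [6,7,8,9,10] (.node (.cons (.leaf 1
[(2,1)]) (.cons (.leaf 1 [(2,1)]) (.cons (.leaf 1 [(2,1)]) (.cons (.leaf 5 [(7,2),(8,1),(10,1)]) (.cons (.leaf 1
[(7,1)]) (.cons (.leaf 1 [(6,1),(9,1),(0,1)]) .nil)))))))) .nil)))))))) .nil)))))))) (.cons (.keep [1,6] (.node (.cons
(.leaf 1 [(7,1),(6,1)]) (.cons (.leaf 1 [(2,1),(7,1)]) (.cons (.keep [2,7] (.node (.cons (.leaf 2 [(2,1),(7,1)])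
(.cons (.leaf 1 [(2,1)]) (.cons (.leaf 1 [(2,1),(7,1),(6,1)]) (.cons (.leaf 2 [(7,1)]) (.cons (.leaf 1 []) (.cons
(.keep [0,6,7] (.node (.cons (.leaf 2 [(8,1),(7,1),(4,1)]) (.cons (.leaf 1 [(2,1)]) (.cons (.leaf 1 [(2,1)]) (.cons
(.leaf 3 [(8,2),(7,1),(6,1)]) (.cons (.leaf 1 [(8,1),(6,1)]) (.cons (.leaf 1 [(0,1),(8,1)]) .nil)))))))) .nil))))))))
(.cons (.leaf 1 [(7,1),(6,1),(1,1)]) (.cons (.leaf 1 [(7,1)]) (.cons (.keep [1,7] (.node (.cons (.leaf 1 [(6,1)])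
(.cons (.leaf 1 [(2,1)]) (.cons (.leaf 1 [(7,1),(2,1)]) (.cons (.leaf 2 [(6,1),(7,1)]) (.cons (.leaf 1 []) (.cons
(.keep [0,6,7] (.node (.cons (.leaf 1 [(2,1)]) (.cons (.leaf 1 [(2,1)]) (.cons (.leaf 1 [(2,1)]) (.cons (.leaf 3
[(7,1),(8,2),(6,1)]) (.cons (.leaf 1 [(7,1),(8,1),(6,1)]) (.cons (.leaf 1 [(8,1),(0,1),(7,1)]) .nil))))))))
.nil)))))))) .nil)))))))) (.cons (.keep [3,6] (.node (.cons (.leaf 1 [(6,1)]) (.cons (.leaf 1 [(7,1),(2,1)]) (.cons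
(.keep [2,7] (.node (.cons (.leaf 2 [(2,1),(7,1)]) (.cons (.leaf 1 [(2,1)]) (.cons (.leaf 1 [(2,1),(7,1),(6,1)])
(.cons (.leaf 2 [(7,1)]) (.cons (.leaf 1 []) (.cons (.keep [0,6,7] (.node (.cons (.leaf 2 [(8,1),(7,1),(4,1)]) (.cons
(.leaf 1 [(2,1)]) (.cons (.leaf 1 [(2,1)]) (.cons (.leaf 3 [(8,2),(7,1),(6,1)]) (.cons (.leaf 1 [(8,1),(6,1)]) (.cons
(.leaf 1 [(0,1),(8,1)]) .nil)))))))) .nil)))))))) (.cons (.leaf 1 [(1,1),(6,1)]) (.cons (.leaf 1 [(7,1)]) (.cons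
(.keep [1,7] (.node (.cons (.leaf 1 [(6,1)]) (.cons (.leaf 1 [(2,1)]) (.cons (.leaf 1 [(7,1),(2,1)]) (.cons (.leaf 2
[(6,1),(7,1)]) (.cons (.leaf 1 []) (.cons (.keep [0,6,7] (.node (.cons (.leaf 1 [(2,1)]) (.cons (.leaf 1 [(2,1)])
(.cons (.leaf 1 [(2,1)]) (.cons (.leaf 3 [(7,1),(8,2),(6,1)]) (.cons (.leaf 1 [(7,1),(8,1),(6,1)]) (.cons (.leaf 1
[(8,1),(0,1),(7,1)]) .nil)))))))) .nil)))))))) .nil)))))))) (.cons (.keep [3,6,9] (.node (.cons (.leaf 1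
[(2,1),(6,1)]) (.cons (.leaf 1 [(7,1),(2,1)]) (.cons (.keep [2,7,8] (.node (.cons (.leaf 2 [(2,1),(7,1)]) (.cons
(.leaf 1 [(2,1)]) (.cons (.leaf 1 [(2,1),(7,1),(6,1)]) (.cons (.leaf 2 [(7,1)]) (.cons (.leaf 1 []) (.cons (.keep
[0,7,8] (.node (.cons (.leaf 3 [(7,2),(8,1),(4,2)]) (.cons (.leaf 1 [(2,1)]) (.cons (.leaf 1 [(2,1)]) (.cons (.leaf 5
[(7,4),(8,1),(6,2)]) (.cons (.leaf 1 [(7,1),(6,1)]) (.cons (.leaf 1 [(0,1),(7,1)]) .nil)))))))) .nil)))))))) (.cons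
(.leaf 1 [(6,1)]) (.cons (.leaf 1 [(7,1)]) (.cons (.keep [1,7] (.node (.cons (.leaf 1 [(6,1)]) (.cons (.leaf 1
[(2,1)]) (.cons (.leaf 1 [(7,1),(2,1)]) (.cons (.leaf 2 [(6,1),(7,1)]) (.cons (.leaf 1 []) (.cons (.keep [0,6,7]
(.node (.cons (.leaf 1 [(2,1)]) (.cons (.leaf 1 [(2,1)]) (.cons (.leaf 1 [(2,1)]) (.cons (.leaf 3 [(7,1),(8,2),(6,1)])
(.cons (.leaf 1 [(7,1),(8,1),(6,1)]) (.cons (.leaf 1 [(8,1),(0,1),(7,1)]) .nil)))))))) .nil)))))))) .nil))))))))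
.nil)))))))) (.cons (.leaf 1 [(7,1)]) (.cons (.keep [1,3,7] (.node (.cons (.leaf 1 [(2,1),(6,1),(7,1)]) (.cons (.leaf
1 [(2,2),(7,1)]) (.cons (.leaf 1 [(2,1),(8,1)]) (.cons (.leaf 1 [(7,1),(6,1)]) (.cons (.keep [3,6,7] (.node (.cons
(.leaf 1 [(6,1)]) (.cons (.leaf 1 [(7,1),(2,1)]) (.cons (.keep [2,7,8] (.node (.cons (.leaf 2 [(2,1),(7,1)]) (.cons
(.leaf 1 [(2,1)]) (.cons (.leaf 1 [(2,1),(7,1),(6,1)]) (.cons (.leaf 2 [(7,1)]) (.cons (.leaf 1 []) (.cons (.leaf 1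
[(8,1),(7,1),(0,1)]) .nil)))))))) (.cons (.leaf 1 [(1,1),(6,1)]) (.cons (.leaf 1 [(7,1)]) (.cons (.keep [1,7,8] (.node
(.cons (.leaf 1 [(6,1)]) (.cons (.leaf 1 [(2,1)]) (.cons (.leaf 1 [(7,1),(2,1)]) (.cons (.leaf 2 [(6,1),(7,1)]) (.cons
(.leaf 1 []) (.cons (.leaf 1 [(8,1),(6,1),(7,1),(0,1)]) .nil)))))))) .nil)))))))) (.cons (.keep [3,6,7] (.node (.cons
(.leaf 1 [(2,1),(6,1)]) (.cons (.leaf 1 [(2,1),(7,1)]) (.cons (.keep [2,7,8] (.node (.cons (.leaf 2 [(2,1),(7,1)])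
(.cons (.leaf 1 [(2,1)]) (.cons (.leaf 1 [(2,1),(7,1),(6,1)]) (.cons (.leaf 2 [(7,1)]) (.cons (.leaf 1 []) (.cons
(.leaf 1 [(6,1),(8,1),(7,1),(0,1)]) .nil)))))))) (.cons (.leaf 1 [(6,1)]) (.cons (.leaf 1 [(7,1)]) (.cons (.keep
[1,7,8] (.node (.cons (.leaf 1 [(6,1)]) (.cons (.leaf 1 [(2,1)]) (.cons (.leaf 1 [(7,1),(2,1)]) (.cons (.leaf 2
[(6,1),(7,1)]) (.cons (.leaf 1 []) (.cons (.leaf 1 [(8,1),(7,1),(0,1)]) .nil)))))))) .nil)))))))) .nil))))))))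
.nil)))))))) (.cons (.keep [4,5,6] (.node (.cons (.leaf 1 []) (.cons (.leaf 1 [(7,1),(8,1)]) (.cons (.keep [2,6,7,8]
(.node (.cons (.leaf 2 [(7,2),(9,1),(2,1)]) (.cons (.leaf 1 [(8,1),(2,2),(3,1)]) (.cons (.leaf 1
[(6,1),(9,1),(2,1),(7,1)]) (.cons (.leaf 2 [(7,2),(9,1)]) (.cons (.leaf 1 [(7,1)]) (.cons (.keep [6,7,8,9] (.node
(.cons (.leaf 2 [(4,2),(6,1),(7,1)]) (.cons (.leaf 1 [(2,1),(7,1)]) (.cons (.leaf 1 [(2,1),(7,1)]) (.cons (.leaf 3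
[(4,3),(9,1),(8,2)]) (.cons (.leaf 1 [(9,1),(7,2)]) (.cons (.leaf 1 [(0,1),(7,2),(9,1)]) .nil)))))))) .nil))))))))
(.cons (.leaf 1 [(1,1)]) (.cons (.leaf 1 [(8,1),(6,1)]) (.cons (.keep [1,6,8] (.node (.cons (.leaf 1
[(8,1),(2,1),(7,1)]) (.cons (.leaf 1 [(7,1),(2,1)]) (.cons (.leaf 1 [(8,1),(7,1),(2,1)]) (.cons (.leaf 2
[(7,2),(6,1),(8,1)]) (.cons (.leaf 1 [(7,1)]) (.cons (.keep [6,7,8] (.node (.cons (.leaf 1 [(7,1),(2,1)]) (.cons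
(.leaf 1 [(2,1),(7,1)]) (.cons (.leaf 1 [(7,1),(2,1)]) (.cons (.leaf 3 [(8,2),(7,4)]) (.cons (.leaf 1 [(8,1),(7,2)])
(.cons (.leaf 1 [(0,1),(8,1),(7,2),(6,1)]) .nil)))))))) .nil)))))))) .nil)))))))) (.cons (.keep [3,6] (.node (.cons
(.leaf 1 [(6,1)]) (.cons (.leaf 1 [(7,1),(2,1)]) (.cons (.keep [2,7] (.node (.cons (.leaf 2 [(2,1),(7,1)]) (.cons
(.leaf 1 [(2,1)]) (.cons (.leaf 1 [(2,1),(7,1),(6,1)]) (.cons (.leaf 2 [(7,1)]) (.cons (.leaf 1 []) (.cons (.keep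
[0,6,7] (.node (.cons (.leaf 2 [(8,1),(7,1),(4,1)]) (.cons (.leaf 1 [(2,1)]) (.cons (.leaf 1 [(2,1)]) (.cons (.leaf 3
[(8,2),(7,1),(6,1)]) (.cons (.leaf 1 [(8,1),(6,1)]) (.cons (.leaf 1 [(0,1),(8,1)]) .nil)))))))) .nil)))))))) (.cons
(.leaf 1 [(1,1),(6,1)]) (.cons (.leaf 1 [(7,1)]) (.cons (.keep [1,7] (.node (.cons (.leaf 1 [(6,1)]) (.cons (.leaf 1
[(2,1)]) (.cons (.leaf 1 [(7,1),(2,1)]) (.cons (.leaf 2 [(6,1),(7,1)]) (.cons (.leaf 1 []) (.cons (.keep [0,6,7]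
(.node (.cons (.leaf 1 [(2,1)]) (.cons (.leaf 1 [(2,1)]) (.cons (.leaf 1 [(2,1)]) (.cons (.leaf 3 [(7,1),(8,2),(6,1)])
(.cons (.leaf 1 [(7,1),(8,1),(6,1)]) (.cons (.leaf 1 [(8,1),(0,1),(7,1)]) .nil)))))))) .nil)))))))) .nil))))))))
(.cons (.keep [1,3,4,6] (.node (.cons (.leaf 1 [(7,1)]) (.cons (.leaf 1 [(9,1)]) (.cons (.keep [8,9] (.node (.cons
(.leaf 1 [(2,1),(7,1)]) (.cons (.leaf 1 [(3,1),(2,2)]) (.cons (.leaf 1 [(7,1),(2,1)]) (.cons (.leaf 2 [(6,2),(7,1)])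
(.cons (.leaf 1 [(6,1)]) (.cons (.keep [0,6,7] (.node (.cons (.leaf 2 [(7,1),(8,1),(4,1)]) (.cons (.leaf 1
[(7,1),(2,1)]) (.cons (.leaf 1 [(2,1),(7,1)]) (.cons (.leaf 3 [(7,3),(8,2),(6,1)]) (.cons (.leaf 1
[(7,2),(8,1),(6,1)]) (.cons (.leaf 1 [(8,1),(0,1),(7,2)]) .nil)))))))) .nil)))))))) (.cons (.leaf 1
[(6,1),(9,1),(1,2)]) (.cons (.leaf 1 [(9,1),(1,1)]) (.cons (.keep [1,9] (.node (.cons (.leaf 1 [(6,2)]) (.cons (.leaf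
1 [(3,1),(2,2)]) (.cons (.leaf 1 [(6,1),(7,1),(2,1)]) (.cons (.leaf 2 [(6,3),(7,1)]) (.cons (.leaf 1 [(6,1)]) (.cons
(.keep [0,6,7] (.node (.cons (.leaf 1 [(2,1),(7,1)]) (.cons (.leaf 1 [(2,1),(7,1)]) (.cons (.leaf 1 [(2,1),(7,1)])
(.cons (.leaf 3 [(7,5),(8,2),(6,1)]) (.cons (.leaf 1 [(7,3),(8,1),(6,1)]) (.cons (.leaf 1 [(8,1),(0,1),(7,3)])
.nil)))))))) .nil)))))))) .nil)))))))) .nil)))))))) (.cons (.leaf 1 [(3,1)]) (.cons (.keep [1,3] (.node (.cons (.leaf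
1 [(2,1),(7,1)]) (.cons (.leaf 1 [(2,1),(7,1)]) (.cons (.leaf 1 [(7,1),(2,1)]) (.cons (.leaf 1 [(7,1),(6,1),(4,1)])
(.cons (.keep [3,6,7] (.node (.cons (.leaf 1 [(6,1)]) (.cons (.leaf 1 [(7,1),(2,1)]) (.cons (.keep [2,7,8] (.node
(.cons (.leaf 2 [(2,1),(7,1)]) (.cons (.leaf 1 [(2,1)]) (.cons (.leaf 1 [(2,1),(7,1),(6,1)]) (.cons (.leaf 2 [(7,1)])
(.cons (.leaf 1 []) (.cons (.leaf 1 [(8,1),(7,1),(0,1)]) .nil)))))))) (.cons (.leaf 1 [(1,1),(6,1)]) (.cons (.leaf 1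
[(7,1)]) (.cons (.keep [1,7,8] (.node (.cons (.leaf 1 [(6,1)]) (.cons (.leaf 1 [(2,1)]) (.cons (.leaf 1 [(7,1),(2,1)])
(.cons (.leaf 2 [(6,1),(7,1)]) (.cons (.leaf 1 []) (.cons (.leaf 1 [(8,1),(6,1),(7,1),(0,1)]) .nil))))))))
.nil)))))))) (.cons (.keep [3,4,6,7] (.node (.cons (.leaf 1 [(6,1)]) (.cons (.leaf 1 [(8,1)]) (.cons (.keep [7,8,9]
(.node (.cons (.leaf 1 [(2,1),(7,1)]) (.cons (.leaf 1 [(3,1),(2,2)]) (.cons (.leaf 1 [(7,1),(2,1)]) (.cons (.leaf 2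
[(6,2),(7,1)]) (.cons (.leaf 1 [(6,1)]) (.cons (.leaf 1 [(6,1),(8,1),(7,1),(0,1)]) .nil)))))))) (.cons (.leaf 2
[(9,1),(8,1),(1,2)]) (.cons (.leaf 1 [(8,1),(1,1)]) (.cons (.keep [1,8,9] (.node (.cons (.leaf 1 [(6,2)]) (.cons
(.leaf 1 [(3,1),(2,2)]) (.cons (.leaf 1 [(6,1),(7,1),(2,1)]) (.cons (.leaf 2 [(6,3),(7,1)]) (.cons (.leaf 1 [(6,1)])
(.cons (.leaf 1 [(7,1),(6,2),(8,1),(0,1)]) .nil)))))))) .nil)))))))) .nil)))))))) .nil)))))))) (.cons (.leaf 1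
[(4,1)]) (.cons (.leaf 1 []) (.cons (.leaf 1 [(4,1)]) .nil))))))))

theorem chk : ok4 12 26 dj t = true := by decide +kernel

end Pool.Agent.H50.K4.C1226
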