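import Pool.Agent.H50.K4.Sec

/-! # Certificate for the case `(4, 18)` -/

set_option maxRecDepth 40000

namespace Pool.Agent.H50.K4.C418

open Pool.Agent.H50.K4

def dj : List (List (List (ℕ × ℤ))) := (List.range 16).map low ++ [sec [1] 0 1, sec [1] 2 1]

def t : Tr := (.keep [1] (.node (.cons (.keep [3] (.node (.cons (.keep [4] (.node (.cons (.keep [3,4] (.node (.cons (.keep [4,5]
(.node (.cons (.keep [5] (.spl 5 (.cons (.leaf 2 [(0,2),(1,5)]) (.cons (.leaf 2 [(0,1),(1,4)]) .nil)))) (.cons (.keep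
[4,5] (.node (.cons (.keep [4,5] (.node (.cons (.leaf 4 [(5,5),(4,1)]) (.cons (.keep [4,5] (.node (.cons (.keep [4,5]
(.node (.cons (.leaf 4 [(4,3),(5,4)]) (.cons (.keep [2,4,5] (.spl 16 (.cons (.leaf 8 [(0,3),(3,14),(1,1)]) (.cons
(.leaf 4 [(0,1),(3,5),(2,3)]) (.cons (.leaf 8 [(0,3),(3,14),(1,4)]) .nil))))) .nil)))) (.cons (.keep [0,2,4,5] (.node
(.cons (.leaf 6 [(6,4),(7,9),(4,2)]) (.cons (.keep [2,4,5,6,7] (.spl 16 (.cons (.leaf 8 [(3,1),(5,14),(0,3),(1,1)])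
(.cons (.leaf 6 [(0,2),(5,11),(2,2),(4,4)]) (.cons (.leaf 14 [(0,2),(5,21),(2,2),(4,6)]) .nil))))) .nil)))) .nil))))
.nil)))) (.cons (.keep [0,4,5] (.node (.cons (.leaf 2 [(6,4),(4,1)]) (.cons (.keep [5,6] (.node (.cons (.leaf 2
[(4,1),(5,2)]) (.cons (.leaf 2 [(5,5),(0,2)]) .nil)))) .nil)))) .nil)))) .nil)))) (.cons (.keep [0,2,4,5] (.node
(.cons (.keep [3,4,5,7] (.node (.cons (.leaf 4 [(5,2),(7,7)]) (.cons (.keep [4,6,7] (.node (.cons (.keep [4,5,6]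
(.node (.cons (.keep [3,4,5] (.node (.cons (.keep [4,6] (.node (.cons (.leaf 2 [(4,4),(5,3)]) (.cons (.leaf 2
[(4,4),(2,4),(5,3)]) .nil)))) (.cons (.keep [2,4,5,6] (.node (.cons (.leaf 2 [(7,3),(5,4),(4,4)]) (.cons (.leaf 2
[(2,1),(5,1),(6,6),(4,1)]) .nil)))) .nil)))) (.cons (.keep [0,5,6] (.node (.cons (.keep [4,5,6] (.node (.cons (.keep
[3,6] (.node (.cons (.keep [4,5] (.node (.cons (.leaf 4 [(4,3),(5,3)]) (.cons (.leaf 4 [(4,3),(5,3),(2,3)]) .nil))))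
(.cons (.keep [2,4,5] (.node (.cons (.leaf 4 [(4,3),(5,3),(6,3)]) (.cons (.leaf 4 [(2,3),(5,3),(6,3),(4,3)]) .nil))))
.nil)))) (.cons (.keep [4,5,6] (.node (.cons (.keep [4,5,6] (.node (.cons (.leaf 2 [(5,3),(4,2)]) (.cons (.leaf 2
[(2,2),(6,3),(4,2)]) .nil)))) (.cons (.keep [0,2,6] (.node (.cons (.leaf 2 [(5,4),(4,2),(6,3)]) (.cons (.leaf 2
[(2,2),(4,2),(6,3),(5,4)]) .nil)))) .nil)))) .nil)))) (.cons (.keep [2,6] (.node (.cons (.keep [4,5] (.node (.cons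
(.leaf 2 [(5,3),(4,1)]) (.cons (.leaf 2 [(0,6),(4,4),(5,9)]) .nil)))) (.cons (.keep [2,4,5] (.node (.cons (.leaf 2
[(6,3),(5,1),(4,1)]) (.cons (.leaf 2 [(0,6),(5,4),(4,4),(6,9)]) .nil)))) .nil)))) .nil)))) .nil)))) (.cons (.keep
[2,5,6] (.node (.cons (.keep [3,4,5,6] (.node (.cons (.keep [4,6] (.node (.cons (.leaf 2 [(4,3),(5,2)]) (.cons (.leaf
2 [(4,3),(2,3),(5,2)]) .nil)))) (.cons (.keep [4,5,7] (.node (.cons (.leaf 6 [(5,1),(4,3),(6,7)]) (.cons (.leaf 6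
[(2,3),(4,3),(6,7),(5,1)]) .nil)))) .nil)))) (.cons (.keep [4,6] (.node (.cons (.keep [4,5] (.node (.cons (.leaf 2
[(4,1),(5,3)]) (.cons (.leaf 2 [(4,1),(5,3),(2,1)]) .nil)))) (.cons (.keep [0,4,5] (.node (.cons (.leaf 2
[(5,1),(4,2),(6,5)]) (.cons (.leaf 2 [(5,1),(4,2),(6,5),(2,1)]) .nil)))) .nil)))) .nil)))) .nil)))) .nil)))) (.cons
(.keep [2,6,7] (.node (.cons (.leaf 2 [(5,1),(6,2)]) (.cons (.keep [2,4,5,6] (.node (.cons (.keep [4,5,6,7] (.node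
(.cons (.keep [3,4,6] (.node (.cons (.keep [4,5] (.node (.cons (.leaf 2 [(4,3),(5,2)]) (.cons (.leaf 2
[(4,3),(2,3),(5,2)]) .nil)))) (.cons (.keep [2,4,5,6] (.node (.cons (.leaf 2 [(6,2),(5,3),(4,3)]) (.cons (.leaf 2
[(2,1),(5,1),(7,2),(4,1)]) .nil)))) .nil)))) (.cons (.keep [5,7] (.node (.cons (.keep [4,5] (.node (.cons (.leaf 2
[(4,1),(5,3)]) (.cons (.leaf 2 [(4,1),(5,3),(2,1)]) .nil)))) (.cons (.keep [2,4,5] (.node (.cons (.leaf 2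
[(5,1),(6,3),(4,1)]) (.cons (.leaf 2 [(5,1),(6,3),(4,1),(2,1)]) .nil)))) .nil)))) .nil)))) (.cons (.keep [2,7] (.node
(.cons (.keep [3,4,5] (.node (.cons (.keep [4,5] (.node (.cons (.leaf 2 [(5,2),(4,1)]) (.cons (.leaf 2
[(5,2),(4,1),(2,1)]) .nil)))) (.cons (.keep [2,4,6] (.node (.cons (.leaf 2 [(6,2),(5,1),(4,1)]) (.cons (.leaf 2
[(6,2),(5,1),(4,1),(2,1)]) .nil)))) .nil)))) (.cons (.keep [0,5] (.node (.cons (.keep [4,5] (.node (.cons (.leaf 2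
[(5,5),(4,2)]) (.cons (.leaf 2 [(5,5),(4,2),(2,2)]) .nil)))) (.cons (.keep [4,5] (.node (.cons (.leaf 2 [(5,5),(4,2)])
(.cons (.leaf 2 [(5,5),(4,2),(2,2)]) .nil)))) .nil)))) .nil)))) .nil)))) .nil)))) .nil)))) .nil)))) (.cons (.keep
[2,4] (.node (.cons (.keep [4,5] (.node (.cons (.leaf 2 [(4,2),(5,3)]) (.cons (.keep [2,4,5] (.node (.cons (.keep
[3,4,6] (.node (.cons (.leaf 2 [(6,2),(5,1)]) (.cons (.keep [4,5,6] (.node (.cons (.keep [5,6] (.node (.cons (.leaf 6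
[(5,5),(4,1)]) (.cons (.keep [4,5] (.spl 16 (.cons (.leaf 2 [(0,1),(1,1),(2,3)]) (.cons (.leaf 6 [(0,2),(1,1),(2,7)])
(.cons (.leaf 10 [(0,2),(1,3),(2,11)]) .nil))))) .nil)))) (.cons (.keep [4,5,6] (.node (.cons (.leaf 2 [(6,2),(4,1)])
(.cons (.keep [4,5,6] (.spl 16 (.cons (.leaf 2 [(2,1),(3,3),(0,1)]) (.cons (.leaf 2 [(0,1),(3,3),(1,1)]) (.cons (.leaf
4 [(0,1),(2,1),(3,5),(1,1)]) .nil))))) .nil)))) .nil)))) .nil)))) (.cons (.keep [0,2,4,5,6] (.node (.cons (.leaf 2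
[(8,4),(7,2),(4,1)]) (.cons (.keep [2,5,6,7,8] (.node (.cons (.leaf 2 [(6,1),(5,1),(4,1)]) (.cons (.leaf 2
[(7,3),(8,5),(0,2)]) .nil)))) .nil)))) .nil)))) .nil)))) (.cons (.keep [2,4,5] (.node (.cons (.keep [3,4,5,6] (.node
(.cons (.leaf 2 [(7,1),(5,1)]) (.cons (.keep [4,5,6,7] (.node (.cons (.keep [4,5,6,7] (.node (.cons (.keep [3,4,5]
(.node (.cons (.keep [4,6] (.node (.cons (.leaf 2 [(4,2),(5,1)]) (.cons (.leaf 2 [(4,2),(2,2),(5,1)]) .nil)))) (.cons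
(.keep [2,4,5,6] (.node (.cons (.leaf 2 [(7,1),(5,2),(4,2)]) (.cons (.leaf 2 [(2,1),(5,1),(6,2),(4,1)]) .nil))))
.nil)))) (.cons (.keep [6,7] (.node (.cons (.keep [4,5] (.node (.cons (.leaf 2 [(4,4),(5,3)]) (.cons (.leaf 2
[(4,4),(5,3),(2,1)]) .nil)))) (.cons (.keep [2,4,5] (.node (.cons (.leaf 2 [(5,4),(6,3),(4,1)]) (.cons (.leaf 2
[(5,4),(6,3),(4,1),(2,1)]) .nil)))) .nil)))) .nil)))) (.cons (.keep [2,4,5,6,7] (.node (.cons (.keep [3,5,6,8] (.node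
(.cons (.keep [4,6] (.node (.cons (.leaf 2 [(4,3),(5,2)]) (.cons (.leaf 2 [(4,3),(2,3),(5,2)]) .nil)))) (.cons (.keep
[4,5,6,7] (.node (.cons (.leaf 2 [(6,1),(4,2),(7,1)]) (.cons (.leaf 2 [(5,1),(4,1),(7,1),(2,1)]) .nil)))) .nil))))
(.cons (.keep [4,7,8] (.node (.cons (.keep [4,6] (.node (.cons (.leaf 2 [(4,1),(5,3)]) (.cons (.leaf 2
[(4,1),(5,3),(2,1)]) .nil)))) (.cons (.keep [4,5,6] (.node (.cons (.leaf 2 [(4,1),(5,3),(6,3)]) (.cons (.leaf 2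
[(4,1),(5,3),(6,3),(2,1)]) .nil)))) .nil)))) .nil)))) .nil)))) .nil)))) (.cons (.keep [2,5,6] (.node (.cons (.leaf 2
[(6,2),(5,1)]) (.cons (.keep [4,5,6] (.node (.cons (.keep [4,6] (.node (.cons (.keep [3,4] (.node (.cons (.keep [4,5]
(.node (.cons (.leaf 2 [(5,2),(4,1)]) (.cons (.leaf 2 [(5,2),(4,1),(2,1)]) .nil)))) (.cons (.keep [2,4,5] (.node
(.cons (.leaf 2 [(4,1),(5,1),(6,2)]) (.cons (.leaf 2 [(4,1),(5,1),(6,2),(2,1)]) .nil)))) .nil)))) (.cons (.keep [4,5]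
(.node (.cons (.keep [4,5] (.node (.cons (.leaf 2 [(4,2),(5,3)]) (.cons (.leaf 2 [(4,2),(5,3),(2,1)]) .nil)))) (.cons
(.keep [2,4,5] (.node (.cons (.leaf 2 [(4,1),(6,3),(5,2)]) (.cons (.leaf 2 [(4,1),(6,3),(5,2),(2,1)]) .nil))))
.nil)))) .nil)))) (.cons (.keep [2,4,5,6] (.node (.cons (.keep [3,4,5] (.node (.cons (.keep [4,5] (.node (.cons (.leaf
2 [(5,2),(4,1)]) (.cons (.leaf 2 [(5,2),(4,1),(2,1)]) .nil)))) (.cons (.keep [4,5,6] (.node (.cons (.leaf 2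
[(6,1),(5,1),(4,1)]) (.cons (.leaf 2 [(6,1),(4,1),(2,1),(5,1)]) .nil)))) .nil)))) (.cons (.keep [0,6,7] (.node (.cons
(.keep [4,6] (.node (.cons (.leaf 2 [(5,5),(4,2)]) (.cons (.leaf 2 [(5,5),(4,2),(2,2)]) .nil)))) (.cons (.keep [4,5,6]
(.node (.cons (.leaf 2 [(5,3),(6,5),(4,2)]) (.cons (.leaf 2 [(2,2),(5,3),(4,2),(6,5)]) .nil)))) .nil)))) .nil))))
.nil)))) .nil)))) .nil)))) .nil)))) .nil)))) (.cons (.keep [2,4] (.node (.cons (.keep [3,4,5] (.node (.cons (.leaf 2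
[(6,2),(5,1)]) (.cons (.keep [2,4,5] (.node (.cons (.keep [3,4,5,6] (.node (.cons (.leaf 2 [(6,3)]) (.cons (.keep
[4,5,7] (.node (.cons (.keep [4,5,6] (.node (.cons (.keep [3,4,5] (.node (.cons (.keep [4,6] (.node (.cons (.leaf 2
[(4,2),(5,1)]) (.cons (.leaf 2 [(4,2),(2,2),(5,1)]) .nil)))) (.cons (.keep [2,4,5,6] (.node (.cons (.leaf 2
[(7,1),(5,2),(4,2)]) (.cons (.leaf 2 [(2,1),(5,1),(6,2),(4,1)]) .nil)))) .nil)))) (.cons (.keep [6] (.node (.cons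
(.keep [4] (.node (.cons (.leaf 2 [(4,1)]) (.cons (.leaf 2 [(4,1),(2,1)]) .nil)))) (.cons (.keep [2,4] (.node (.cons
(.leaf 2 [(4,1),(5,1)]) (.cons (.leaf 2 [(2,1),(5,1),(4,1)]) .nil)))) .nil)))) .nil)))) (.cons (.keep [2,6] (.node
(.cons (.keep [3] (.node (.cons (.keep [4] (.node (.cons (.leaf 2 [(4,1)]) (.cons (.leaf 2 [(4,1),(2,1)]) .nil))))
(.cons (.keep [2,4] (.node (.cons (.leaf 2 [(5,1),(4,3)]) (.cons (.leaf 2 [(5,1),(4,3),(2,1)]) .nil)))) .nil))))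
(.cons (.keep [2,4,5] (.node (.cons (.keep [5,6] (.node (.cons (.leaf 2 [(4,1),(5,1)]) (.cons (.leaf 2
[(4,1),(5,1),(2,1)]) .nil)))) (.cons (.keep [4,5,6] (.node (.cons (.leaf 4 [(5,3),(6,3),(4,1)]) (.cons (.leaf 4
[(5,3),(6,3),(4,1),(2,2)]) .nil)))) .nil)))) .nil)))) .nil)))) .nil)))) (.cons (.keep [2,5,6] (.node (.cons (.leaf 2
[(5,3),(4,2)]) (.cons (.keep [4,6] (.node (.cons (.keep [4,5] (.node (.cons (.keep [3] (.node (.cons (.keep [4] (.node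
(.cons (.leaf 2 [(4,1)]) (.cons (.leaf 2 [(4,1),(2,1)]) .nil)))) (.cons (.keep [2,4] (.node (.cons (.leaf 2
[(5,1),(4,1)]) (.cons (.leaf 2 [(5,1),(4,1),(2,1)]) .nil)))) .nil)))) (.cons (.keep [4,5] (.node (.cons (.keep [4,5]
(.node (.cons (.leaf 2 [(4,1),(5,1)]) (.cons (.leaf 2 [(4,1),(5,1),(2,1)]) .nil)))) (.cons (.keep [2,4,5] (.node
(.cons (.leaf 2 [(5,1),(6,1),(4,1)]) (.cons (.leaf 2 [(5,1),(6,1),(4,1),(2,1)]) .nil)))) .nil)))) .nil)))) (.cons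
(.keep [2,5] (.node (.cons (.keep [3,4] (.node (.cons (.keep [4,5] (.node (.cons (.leaf 2 [(5,2),(4,1)]) (.cons (.leaf
2 [(5,2),(4,1),(2,1)]) .nil)))) (.cons (.keep [2,4,5] (.node (.cons (.leaf 2 [(4,1),(5,1),(6,2)]) (.cons (.leaf 2
[(4,1),(5,1),(6,2),(2,1)]) .nil)))) .nil)))) (.cons (.keep [4,5] (.node (.cons (.keep [4,5] (.node (.cons (.leaf 2
[(4,2),(5,1)]) (.cons (.leaf 2 [(4,2),(5,1),(2,1)]) .nil)))) (.cons (.keep [4,5] (.node (.cons (.leaf 2 [(4,2),(5,1)])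
(.cons (.leaf 2 [(4,2),(5,1),(2,1)]) .nil)))) .nil)))) .nil)))) .nil)))) .nil)))) .nil)))) .nil)))) (.cons (.keep
[2,4,5] (.node (.cons (.leaf 2 [(6,2),(5,1),(4,1)]) (.cons (.keep [4,5,6] (.node (.cons (.keep [4,5,6] (.node (.cons
(.leaf 2 [(6,1)]) (.cons (.keep [4,5] (.node (.cons (.keep [4,5] (.node (.cons (.keep [3] (.node (.cons (.keep [4]
(.node (.cons (.leaf 2 [(4,1)]) (.cons (.leaf 2 [(4,1),(2,1)]) .nil)))) (.cons (.keep [2,4] (.node (.cons (.leaf 2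
[(5,1),(4,1)]) (.cons (.leaf 2 [(5,1),(4,1),(2,1)]) .nil)))) .nil)))) (.cons (.keep [4,5] (.node (.cons (.keep [4,5]
(.node (.cons (.leaf 2 [(4,1),(5,1)]) (.cons (.leaf 2 [(4,1),(5,1),(2,1)]) .nil)))) (.cons (.keep [2,4,5] (.node
(.cons (.leaf 2 [(5,1),(6,1),(4,1)]) (.cons (.leaf 2 [(5,1),(6,1),(4,1),(2,1)]) .nil)))) .nil)))) .nil)))) (.cons
(.keep [2,5] (.node (.cons (.keep [3] (.node (.cons (.keep [4] (.node (.cons (.leaf 2 [(4,1)]) (.cons (.leaf 2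
[(4,1),(2,1)]) .nil)))) (.cons (.keep [2,4] (.node (.cons (.leaf 2 [(5,1),(4,1)]) (.cons (.leaf 2 [(5,1),(4,1),(2,1)])
.nil)))) .nil)))) (.cons (.keep [4,5] (.node (.cons (.keep [4,5] (.node (.cons (.leaf 2 [(4,1),(5,1)]) (.cons (.leaf 2
[(4,1),(5,1),(2,1)]) .nil)))) (.cons (.keep [4,5] (.node (.cons (.leaf 2 [(4,1),(5,1)]) (.cons (.leaf 2
[(4,1),(5,1),(2,1)]) .nil)))) .nil)))) .nil)))) .nil)))) .nil)))) (.cons (.keep [2,5,6] (.node (.cons (.leaf 2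
[(4,1),(6,1)]) (.cons (.keep [4,5] (.node (.cons (.keep [4,5] (.node (.cons (.keep [3,4] (.node (.cons (.keep [4,5]
(.node (.cons (.leaf 2 [(5,2),(4,1)]) (.cons (.leaf 2 [(5,2),(4,1),(2,1)]) .nil)))) (.cons (.keep [2,4,5] (.node
(.cons (.leaf 2 [(4,1),(5,1),(6,2)]) (.cons (.leaf 2 [(4,1),(5,1),(6,2),(2,1)]) .nil)))) .nil)))) (.cons (.keep [4,5]
(.node (.cons (.keep [4,5] (.node (.cons (.leaf 2 [(4,2),(5,1)]) (.cons (.leaf 2 [(4,2),(5,1),(2,1)]) .nil)))) (.cons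
(.keep [2,4,5] (.node (.cons (.leaf 2 [(4,1),(5,2),(6,1)]) (.cons (.leaf 2 [(4,1),(5,2),(6,1),(2,1)]) .nil))))
.nil)))) .nil)))) (.cons (.keep [2,4,5] (.node (.cons (.keep [3,4,5] (.node (.cons (.keep [4,5] (.node (.cons (.leaf 2
[(5,2),(4,1)]) (.cons (.leaf 2 [(5,2),(4,1),(2,1)]) .nil)))) (.cons (.keep [4,5,6] (.node (.cons (.leaf 2
[(6,1),(5,1),(4,1)]) (.cons (.leaf 2 [(6,1),(4,1),(2,1),(5,1)]) .nil)))) .nil)))) (.cons (.keep [4,5,6] (.node (.cons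
(.keep [4,6] (.node (.cons (.leaf 2 [(4,2),(5,1)]) (.cons (.leaf 2 [(4,2),(5,1),(2,1)]) .nil)))) (.cons (.keep [2,5,6]
(.node (.cons (.leaf 2 [(4,1),(5,2),(6,1)]) (.cons (.leaf 2 [(4,1),(5,2),(6,1),(2,1)]) .nil)))) .nil)))) .nil))))
.nil)))) .nil)))) .nil)))) .nil)))) .nil)))) .nil)))) (.cons (.keep [2,4] (.node (.cons (.keep [4,5] (.node (.cons
(.keep [3,4] (.node (.cons (.keep [4] (.node (.cons (.keep [3,4] (.node (.cons (.keep [4,5] (.node (.cons (.keep [5]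
(.spl 7 (.cons (.leaf 2 [(0,2),(1,3)]) (.cons (.leaf 4 [(0,2),(1,5)]) .nil)))) (.cons (.keep [4,5] (.node (.cons
(.keep [4,5] (.node (.cons (.leaf 4 [(5,3),(4,1)]) (.cons (.keep [4,5] (.node (.cons (.keep [4,5] (.node (.cons (.leaf
4 [(4,3),(5,2)]) (.cons (.keep [0,2,5] (.spl 17 (.cons (.leaf 4 [(1,2),(3,7),(0,2)]) (.cons (.leaf 8
[(0,3),(3,10),(2,1)]) (.cons (.leaf 6 [(3,6),(0,1)]) .nil))))) .nil)))) (.cons (.keep [0,2,4,5] (.node (.cons (.leaf 6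
[(6,4),(7,5),(4,2)]) (.cons (.keep [0,2,5,7] (.spl 17 (.cons (.leaf 4 [(4,7),(1,2),(0,2)]) (.cons (.leaf 8
[(3,1),(4,10),(0,3),(2,1)]) (.cons (.leaf 6 [(4,6),(0,1)]) .nil))))) .nil)))) .nil)))) .nil)))) (.cons (.keep [0,4,5]
(.node (.cons (.leaf 4 [(6,5),(4,2)]) (.cons (.keep [5,6] (.node (.cons (.leaf 2 [(4,1),(5,1)]) (.cons (.leaf 2
[(5,3),(0,2)]) .nil)))) .nil)))) .nil)))) .nil)))) (.cons (.keep [0,2,4,5] (.node (.cons (.keep [3,4,5,7] (.node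
(.cons (.leaf 2 [(5,1),(7,2)]) (.cons (.keep [2,4,6,7] (.node (.cons (.keep [4,5,6,7] (.node (.cons (.keep [3,5,6]
(.node (.cons (.keep [4,6] (.node (.cons (.leaf 4 [(4,5),(5,3)]) (.cons (.leaf 4 [(4,5),(2,5),(5,3)]) .nil)))) (.cons
(.keep [2,4,5,6] (.node (.cons (.leaf 4 [(7,3),(5,5),(4,5)]) (.cons (.leaf 2 [(2,1),(5,1),(6,3),(4,1)]) .nil))))
.nil)))) (.cons (.keep [0,4,6,7] (.node (.cons (.keep [4,5,6,7] (.node (.cons (.keep [3,5,7] (.node (.cons (.keep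
[4,5,6] (.node (.cons (.leaf 4 [(4,5),(5,1)]) (.cons (.leaf 4 [(6,1),(4,3),(2,3)]) .nil)))) (.cons (.keep [2,4,6]
(.node (.cons (.leaf 4 [(4,3),(5,3),(6,1)]) (.cons (.leaf 4 [(2,3),(5,3),(6,1),(4,3)]) .nil)))) .nil)))) (.cons (.keep
[4,6,7] (.node (.cons (.keep [4,5,6] (.node (.cons (.leaf 2 [(4,2),(5,1)]) (.cons (.leaf 2 [(2,2),(6,1),(4,2)])
.nil)))) (.cons (.keep [0,2,6] (.node (.cons (.leaf 2 [(5,4),(4,2),(6,1)]) (.cons (.leaf 2 [(2,2),(4,2),(6,1),(5,4)])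
.nil)))) .nil)))) .nil)))) (.cons (.keep [2,7] (.node (.cons (.keep [4,5] (.node (.cons (.leaf 2 [(5,2),(4,1)]) (.cons
(.leaf 2 [(0,6),(4,4),(5,5)]) .nil)))) (.cons (.keep [2,4,5] (.node (.cons (.leaf 2 [(6,2),(5,1),(4,1)]) (.cons (.leaf
2 [(0,6),(5,4),(4,4),(6,5)]) .nil)))) .nil)))) .nil)))) .nil)))) (.cons (.keep [2,5,6,7] (.node (.cons (.keep
[0,3,4,5,6,7] (.node (.cons (.keep [4,5,7,8] (.node (.cons (.leaf 2 [(4,2),(6,1)]) (.cons (.leaf 2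
[(5,2),(7,1),(2,2)]) .nil)))) (.cons (.keep [5,6,9] (.node (.cons (.leaf 6 [(5,1),(4,3),(6,4)]) (.cons (.leaf 6
[(2,3),(4,3),(6,4),(5,1)]) .nil)))) .nil)))) (.cons (.keep [4,7] (.node (.cons (.keep [4,5] (.node (.cons (.leaf 2
[(4,1),(5,2)]) (.cons (.leaf 2 [(4,1),(5,2),(2,1)]) .nil)))) (.cons (.keep [0,4,5] (.node (.cons (.leaf 2
[(5,1),(4,2),(6,3)]) (.cons (.leaf 2 [(5,1),(4,2),(6,3),(2,1)]) .nil)))) .nil)))) .nil)))) .nil)))) .nil)))) (.cons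
(.keep [2,6,7] (.node (.cons (.leaf 2 [(5,1),(6,1)]) (.cons (.keep [2,4,5,6] (.node (.cons (.keep [3,4,5,6,7] (.node
(.cons (.keep [0,3,4,5,7] (.node (.cons (.keep [4,5,6,7] (.node (.cons (.leaf 2 [(4,2),(6,1)]) (.cons (.leaf 2
[(5,2),(7,1),(2,2)]) .nil)))) (.cons (.keep [2,5,7,8] (.node (.cons (.leaf 2 [(4,2),(5,2),(6,1)]) (.cons (.leaf 2
[(2,1),(5,1),(7,1),(4,1)]) .nil)))) .nil)))) (.cons (.keep [6,8] (.node (.cons (.keep [4,5] (.node (.cons (.leaf 2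
[(4,1),(5,2)]) (.cons (.leaf 2 [(4,1),(5,2),(2,1)]) .nil)))) (.cons (.keep [2,4,5] (.node (.cons (.leaf 2
[(5,1),(6,2),(4,1)]) (.cons (.leaf 2 [(5,1),(6,2),(4,1),(2,1)]) .nil)))) .nil)))) .nil)))) (.cons (.keep [2,7] (.node
(.cons (.keep [3,4,5] (.node (.cons (.keep [4,5] (.node (.cons (.leaf 2 [(5,1),(4,1)]) (.cons (.leaf 2
[(5,1),(4,1),(2,1)]) .nil)))) (.cons (.keep [2,4,6] (.node (.cons (.leaf 2 [(6,1),(5,1),(4,1)]) (.cons (.leaf 2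
[(6,1),(5,1),(4,1),(2,1)]) .nil)))) .nil)))) (.cons (.keep [0,5] (.node (.cons (.keep [4,5] (.node (.cons (.leaf 2
[(5,3),(4,2)]) (.cons (.leaf 2 [(5,3),(4,2),(2,2)]) .nil)))) (.cons (.keep [4,5] (.node (.cons (.leaf 2 [(5,3),(4,2)])
(.cons (.leaf 2 [(5,3),(4,2),(2,2)]) .nil)))) .nil)))) .nil)))) .nil)))) .nil)))) .nil)))) .nil)))) (.cons (.keep
[2,4] (.node (.cons (.keep [4,5] (.node (.cons (.leaf 2 [(4,1),(5,2)]) (.cons (.keep [4,5] (.node (.cons (.keep [4,5]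
(.node (.cons (.leaf 4 [(5,3)]) (.cons (.keep [4,5] (.spl 17 (.cons (.leaf 2 [(0,1),(1,1),(2,3)]) (.cons (.leaf 4
[(0,1),(2,4)]) (.cons (.leaf 6 [(0,1),(1,1),(2,6)]) .nil))))) .nil)))) (.cons (.keep [0,4,5] (.node (.cons (.leaf 4
[(6,5),(5,1),(4,2)]) (.cons (.keep [4,5,6] (.spl 17 (.cons (.leaf 2 [(2,1),(0,1),(3,3)]) (.cons (.leaf 4
[(0,2),(2,1),(1,2),(3,7)]) (.cons (.leaf 8 [(0,2),(2,3),(1,2),(3,11)]) .nil))))) .nil)))) .nil)))) .nil)))) (.cons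
(.keep [2,4,5] (.node (.cons (.keep [3,4,5,6] (.node (.cons (.leaf 2 [(7,1)]) (.cons (.keep [4,5,6,7] (.node (.cons
(.keep [4,5,6,7] (.node (.cons (.keep [0,3,4,5] (.node (.cons (.keep [4,5,7] (.node (.cons (.leaf 4 [(4,6),(6,1)])
(.cons (.leaf 4 [(5,3),(6,1),(2,3)]) .nil)))) (.cons (.keep [2,5,6,7] (.node (.cons (.leaf 4 [(4,3),(5,3),(7,1)])
(.cons (.leaf 2 [(2,1),(5,1),(6,1),(4,1)]) .nil)))) .nil)))) (.cons (.keep [6,7] (.node (.cons (.keep [4,5] (.node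
(.cons (.leaf 2 [(4,3),(5,2)]) (.cons (.leaf 2 [(4,3),(5,2),(2,1)]) .nil)))) (.cons (.keep [2,4,5] (.node (.cons
(.leaf 2 [(5,3),(6,2),(4,1)]) (.cons (.leaf 2 [(5,3),(6,2),(4,1),(2,1)]) .nil)))) .nil)))) .nil)))) (.cons (.keep
[2,4,5,6,7] (.node (.cons (.keep [0,3,5,6,8] (.node (.cons (.keep [4,5,6,7] (.node (.cons (.leaf 2 [(4,2),(6,1)])
(.cons (.leaf 2 [(5,2),(7,1),(2,2)]) .nil)))) (.cons (.keep [2,5,7,8] (.node (.cons (.leaf 2 [(4,1),(5,2),(6,1)])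
(.cons (.leaf 2 [(2,1),(5,1),(7,1)]) .nil)))) .nil)))) (.cons (.keep [4,7,8] (.node (.cons (.keep [4,6] (.node (.cons
(.leaf 2 [(4,1),(5,2)]) (.cons (.leaf 2 [(4,1),(5,2),(2,1)]) .nil)))) (.cons (.keep [4,5,6] (.node (.cons (.leaf 2
[(4,1),(5,2),(6,2)]) (.cons (.leaf 2 [(4,1),(5,2),(6,2),(2,1)]) .nil)))) .nil)))) .nil)))) .nil)))) .nil)))) (.cons
(.keep [2,5,6] (.node (.cons (.leaf 2 [(6,1)]) (.cons (.keep [4,5,6] (.node (.cons (.keep [4,6] (.node (.cons (.keep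
[3,4] (.node (.cons (.keep [4,5] (.node (.cons (.leaf 2 [(5,1),(4,1)]) (.cons (.leaf 2 [(5,1),(4,1),(2,1)]) .nil))))
(.cons (.keep [2,4,5] (.node (.cons (.leaf 2 [(4,1),(5,1),(6,1)]) (.cons (.leaf 2 [(4,1),(5,1),(6,1),(2,1)]) .nil))))
.nil)))) (.cons (.keep [4,5] (.node (.cons (.keep [4,5] (.node (.cons (.leaf 2 [(4,1),(5,2)]) (.cons (.leaf 2
[(4,1),(5,2),(2,1)]) .nil)))) (.cons (.keep [2,4,5] (.node (.cons (.leaf 2 [(5,1),(4,1),(6,2)]) (.cons (.leaf 2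
[(5,1),(4,1),(6,2),(2,1)]) .nil)))) .nil)))) .nil)))) (.cons (.keep [2,5,6] (.node (.cons (.keep [3,4] (.node (.cons
(.keep [4,5] (.node (.cons (.leaf 2 [(5,1),(4,1)]) (.cons (.leaf 2 [(5,1),(4,1),(2,1)]) .nil)))) (.cons (.keep [4,5]
(.node (.cons (.leaf 2 [(5,1),(4,1)]) (.cons (.leaf 2 [(5,1),(4,1),(2,1)]) .nil)))) .nil)))) (.cons (.keep [0,5,6]
(.node (.cons (.keep [4,6] (.node (.cons (.leaf 2 [(5,3),(4,2)]) (.cons (.leaf 2 [(5,3),(4,2),(2,2)]) .nil)))) (.cons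
(.keep [4,5,6] (.node (.cons (.leaf 2 [(6,3),(4,2),(5,1)]) (.cons (.leaf 2 [(6,3),(4,2),(5,1),(2,2)]) .nil))))
.nil)))) .nil)))) .nil)))) .nil)))) .nil)))) .nil)))) .nil)))) (.cons (.keep [4,5] (.node (.cons (.keep [4,5] (.node
(.cons (.leaf 2 [(4,1)]) (.cons (.keep [5] (.node (.cons (.keep [4] (.node (.cons (.keep [3] (.node (.cons (.keep [4]
(.node (.cons (.leaf 2 [(4,1)]) (.cons (.leaf 2 [(4,1),(2,1)]) .nil)))) (.cons (.keep [2,4] (.node (.cons (.leaf 2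
[(5,1),(4,1)]) (.cons (.leaf 2 [(5,1),(4,1),(2,1)]) .nil)))) .nil)))) (.cons (.keep [0,4] (.node (.cons (.keep [4,5]
(.node (.cons (.keep [3,5] (.node (.cons (.keep [4,5] (.node (.cons (.leaf 4 [(5,1),(4,3)]) (.cons (.leaf 4
[(5,1),(4,3),(2,3)]) .nil)))) (.cons (.keep [2,4,5] (.node (.cons (.leaf 4 [(4,3),(5,3),(6,1)]) (.cons (.leaf 4
[(4,3),(5,3),(6,1),(2,3)]) .nil)))) .nil)))) (.cons (.keep [4,5] (.node (.cons (.keep [4,5] (.node (.cons (.leaf 2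
[(4,2),(5,1)]) (.cons (.leaf 2 [(4,2),(5,1),(2,2)]) .nil)))) (.cons (.keep [0,2,5] (.node (.cons (.leaf 2
[(4,2),(6,1),(5,4)]) (.cons (.leaf 2 [(4,2),(6,1),(5,4),(2,2)]) .nil)))) .nil)))) .nil)))) (.cons (.keep [2] (.node
(.cons (.keep [3,4] (.node (.cons (.keep [4,5] (.node (.cons (.leaf 2 [(5,1),(4,1)]) (.cons (.leaf 2
[(5,1),(4,1),(2,1)]) .nil)))) (.cons (.keep [4,5] (.node (.cons (.leaf 2 [(5,1),(4,1)]) (.cons (.leaf 2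
[(5,1),(4,1),(2,1)]) .nil)))) .nil)))) (.cons (.keep [4] (.node (.cons (.keep [4] (.node (.cons (.leaf 2 [(4,1)])
(.cons (.leaf 2 [(4,1),(2,1)]) .nil)))) (.cons (.keep [4] (.node (.cons (.leaf 2 [(4,1)]) (.cons (.leaf 2
[(4,1),(2,1)]) .nil)))) .nil)))) .nil)))) .nil)))) .nil)))) (.cons (.keep [2] (.node (.cons (.keep [3] (.node (.cons
(.keep [4] (.node (.cons (.leaf 2 [(4,1)]) (.cons (.leaf 2 [(4,1),(2,1)]) .nil)))) (.cons (.keep [2,4] (.node (.cons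
(.leaf 2 [(5,1),(4,1)]) (.cons (.leaf 2 [(5,1),(4,1),(2,1)]) .nil)))) .nil)))) (.cons (.keep [4] (.node (.cons (.keep
[4] (.node (.cons (.keep [3,4] (.node (.cons (.keep [4,5] (.node (.cons (.leaf 2 [(5,1),(4,1)]) (.cons (.leaf 2
[(5,1),(4,1),(2,1)]) .nil)))) (.cons (.keep [2,4,5] (.node (.cons (.leaf 2 [(4,1),(5,1),(6,1)]) (.cons (.leaf 2
[(4,1),(5,1),(6,1),(2,1)]) .nil)))) .nil)))) (.cons (.keep [4] (.node (.cons (.keep [4] (.node (.cons (.leaf 2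
[(4,1)]) (.cons (.leaf 2 [(4,1),(2,1)]) .nil)))) (.cons (.keep [2,4] (.node (.cons (.leaf 2 [(5,1),(4,1)]) (.cons
(.leaf 2 [(5,1),(4,1),(2,1)]) .nil)))) .nil)))) .nil)))) (.cons (.keep [2] (.node (.cons (.keep [3,4] (.node (.cons
(.keep [4,5] (.node (.cons (.leaf 2 [(5,1),(4,1)]) (.cons (.leaf 2 [(5,1),(4,1),(2,1)]) .nil)))) (.cons (.keep [4,5]
(.node (.cons (.leaf 2 [(5,1),(4,1)]) (.cons (.leaf 2 [(5,1),(4,1),(2,1)]) .nil)))) .nil)))) (.cons (.keep [4] (.node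
(.cons (.keep [4] (.node (.cons (.leaf 2 [(4,1)]) (.cons (.leaf 2 [(4,1),(2,1)]) .nil)))) (.cons (.keep [4] (.node
(.cons (.leaf 2 [(4,1)]) (.cons (.leaf 2 [(4,1),(2,1)]) .nil)))) .nil)))) .nil)))) .nil)))) .nil)))) .nil)))) .nil))))
(.cons (.keep [2,4] (.node (.cons (.leaf 2 [(5,1)]) (.cons (.keep [4] (.node (.cons (.keep [4] (.node (.cons (.keep
[3] (.node (.cons (.keep [4] (.node (.cons (.leaf 2 [(4,1)]) (.cons (.leaf 2 [(4,1),(2,1)]) .nil)))) (.cons (.keep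
[2,4] (.node (.cons (.leaf 2 [(5,1),(4,1)]) (.cons (.leaf 2 [(5,1),(4,1),(2,1)]) .nil)))) .nil)))) (.cons (.keep [4]
(.node (.cons (.keep [4] (.node (.cons (.keep [3,4] (.node (.cons (.keep [4,5] (.node (.cons (.leaf 2 [(5,1),(4,1)])
(.cons (.leaf 2 [(5,1),(4,1),(2,1)]) .nil)))) (.cons (.keep [2,4,5] (.node (.cons (.leaf 2 [(4,1),(5,1),(6,1)]) (.cons
(.leaf 2 [(4,1),(5,1),(6,1),(2,1)]) .nil)))) .nil)))) (.cons (.keep [4] (.node (.cons (.keep [4] (.node (.cons (.leaf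
2 [(4,1)]) (.cons (.leaf 2 [(4,1),(2,1)]) .nil)))) (.cons (.keep [2,4] (.node (.cons (.leaf 2 [(5,1),(4,1)]) (.cons
(.leaf 2 [(5,1),(4,1),(2,1)]) .nil)))) .nil)))) .nil)))) (.cons (.keep [2] (.node (.cons (.keep [3,4] (.node (.cons
(.keep [4,5] (.node (.cons (.leaf 2 [(5,1),(4,1)]) (.cons (.leaf 2 [(5,1),(4,1),(2,1)]) .nil)))) (.cons (.keep [4,5]
(.node (.cons (.leaf 2 [(5,1),(4,1)]) (.cons (.leaf 2 [(5,1),(4,1),(2,1)]) .nil)))) .nil)))) (.cons (.keep [4] (.node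
(.cons (.keep [4] (.node (.cons (.leaf 2 [(4,1)]) (.cons (.leaf 2 [(4,1),(2,1)]) .nil)))) (.cons (.keep [4] (.node
(.cons (.leaf 2 [(4,1)]) (.cons (.leaf 2 [(4,1),(2,1)]) .nil)))) .nil)))) .nil)))) .nil)))) .nil)))) (.cons (.keep [2]
(.node (.cons (.keep [3] (.node (.cons (.keep [4] (.node (.cons (.leaf 2 [(4,1)]) (.cons (.leaf 2 [(4,1),(2,1)])
.nil)))) (.cons (.keep [2,4] (.node (.cons (.leaf 2 [(5,1),(4,1)]) (.cons (.leaf 2 [(5,1),(4,1),(2,1)]) .nil))))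
.nil)))) (.cons (.keep [4] (.node (.cons (.keep [4] (.node (.cons (.keep [3,4] (.node (.cons (.keep [4,5] (.node
(.cons (.leaf 2 [(5,1),(4,1)]) (.cons (.leaf 2 [(5,1),(4,1),(2,1)]) .nil)))) (.cons (.keep [2,4,5] (.node (.cons
(.leaf 2 [(4,1),(5,1),(6,1)]) (.cons (.leaf 2 [(4,1),(5,1),(6,1),(2,1)]) .nil)))) .nil)))) (.cons (.keep [4] (.node
(.cons (.keep [4] (.node (.cons (.leaf 2 [(4,1)]) (.cons (.leaf 2 [(4,1),(2,1)]) .nil)))) (.cons (.keep [2,4] (.node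
(.cons (.leaf 2 [(5,1),(4,1)]) (.cons (.leaf 2 [(5,1),(4,1),(2,1)]) .nil)))) .nil)))) .nil)))) (.cons (.keep [2]
(.node (.cons (.keep [3,4] (.node (.cons (.keep [4,5] (.node (.cons (.leaf 2 [(5,1),(4,1)]) (.cons (.leaf 2
[(5,1),(4,1),(2,1)]) .nil)))) (.cons (.keep [4,5] (.node (.cons (.leaf 2 [(5,1),(4,1)]) (.cons (.leaf 2
[(5,1),(4,1),(2,1)]) .nil)))) .nil)))) (.cons (.keep [4] (.node (.cons (.keep [4] (.node (.cons (.leaf 2 [(4,1)])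
(.cons (.leaf 2 [(4,1),(2,1)]) .nil)))) (.cons (.keep [4] (.node (.cons (.leaf 2 [(4,1)]) (.cons (.leaf 2
[(4,1),(2,1)]) .nil)))) .nil)))) .nil)))) .nil)))) .nil)))) .nil)))) .nil)))) .nil)))) .nil)))) (.cons (.keep [2,4,5]
(.node (.cons (.keep [3,4,5,6] (.node (.cons (.keep [3,4,5,6] (.node (.cons (.keep [3,4,6,7] (.node (.cons (.keep
[6,7] (.spl 7 (.cons (.leaf 2 [(1,1),(0,2)]) (.cons (.leaf 6 [(2,1),(0,4)]) .nil)))) (.cons (.keep [0,4,5,6,7] (.node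
(.cons (.keep [4,6,7,8] (.node (.cons (.leaf 10 [(4,4),(7,1)]) (.cons (.keep [4,5,6] (.node (.cons (.keep [4,5,6]
(.node (.cons (.leaf 2 [(4,6),(6,1)]) (.cons (.keep [0,5] (.spl 17 (.cons (.leaf 2 [(1,2),(0,1),(2,1)]) (.cons (.leaf
4 [(0,1),(2,1)]) (.cons (.leaf 6 [(0,1)]) .nil))))) .nil)))) (.cons (.keep [0,5,6] (.node (.cons (.leaf 6
[(5,4),(4,2),(6,3)]) (.cons (.keep [0,5] (.spl 17 (.cons (.leaf 2 [(1,2),(0,1),(2,1)]) (.cons (.leaf 4 [(2,1),(0,1)])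
(.cons (.leaf 6 [(0,1)]) .nil))))) .nil)))) .nil)))) .nil)))) (.cons (.keep [4,5,7] (.node (.cons (.leaf 2 [(5,1)])
(.cons (.keep [4,6] (.node (.cons (.leaf 2 [(5,1),(4,2)]) (.cons (.leaf 2 [(0,2),(5,1)]) .nil)))) .nil)))) .nil))))
.nil)))) (.cons (.keep [5,6,7] (.node (.cons (.keep [4,5,6] (.node (.cons (.leaf 2 [(4,1)]) (.cons (.keep [4,5,6]
(.node (.cons (.keep [4,5,6] (.node (.cons (.keep [3,4,6] (.node (.cons (.keep [4,5,6] (.node (.cons (.leaf 2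
[(6,1),(4,2)]) (.cons (.leaf 4 [(5,3),(4,2),(2,2)]) .nil)))) (.cons (.keep [2,4,5] (.node (.cons (.leaf 4
[(4,2),(5,2),(6,3)]) (.cons (.leaf 4 [(4,2),(5,2),(6,3),(2,2)]) .nil)))) .nil)))) (.cons (.keep [0,5] (.node (.cons
(.keep [4,5] (.node (.cons (.keep [3,5] (.node (.cons (.keep [4,5] (.node (.cons (.leaf 4 [(5,3),(4,3)]) (.cons (.leaf
4 [(5,3),(4,3),(2,3)]) .nil)))) (.cons (.keep [2,4,5] (.node (.cons (.leaf 4 [(4,3),(6,3),(5,3)]) (.cons (.leaf 4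
[(4,3),(6,3),(5,3),(2,3)]) .nil)))) .nil)))) (.cons (.keep [4,5] (.node (.cons (.keep [4,5] (.node (.cons (.leaf 2
[(4,2),(5,3)]) (.cons (.leaf 2 [(4,2),(5,3),(2,2)]) .nil)))) (.cons (.keep [0,2,5] (.node (.cons (.leaf 2
[(4,2),(5,4),(6,3)]) (.cons (.leaf 2 [(4,2),(5,4),(6,3),(2,2)]) .nil)))) .nil)))) .nil)))) (.cons (.keep [2,5] (.node
(.cons (.keep [4,5] (.node (.cons (.leaf 2 [(4,1)]) (.cons (.leaf 2 [(5,3),(4,4),(0,6)]) .nil)))) (.cons (.keep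
[2,4,5] (.node (.cons (.leaf 2 [(5,1),(4,1)]) (.cons (.leaf 2 [(6,3),(5,4),(4,4),(0,6)]) .nil)))) .nil)))) .nil))))
.nil)))) (.cons (.keep [2,5] (.node (.cons (.keep [3,4,5] (.node (.cons (.keep [4,5] (.node (.cons (.leaf 2
[(5,1),(4,1)]) (.cons (.leaf 2 [(5,1),(4,1),(2,1)]) .nil)))) (.cons (.keep [4,5,6] (.node (.cons (.leaf 6
[(5,1),(6,2),(4,3)]) (.cons (.leaf 6 [(5,1),(6,2),(4,3),(2,3)]) .nil)))) .nil)))) (.cons (.keep [4,5] (.node (.cons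
(.keep [4] (.node (.cons (.leaf 2 [(4,1)]) (.cons (.leaf 2 [(4,1),(2,1)]) .nil)))) (.cons (.keep [0,4,5] (.node (.cons
(.leaf 2 [(5,1),(6,1),(4,2)]) (.cons (.leaf 2 [(5,1),(6,1),(4,2),(2,1)]) .nil)))) .nil)))) .nil)))) .nil)))) .nil))))
(.cons (.keep [0,2,5,6] (.node (.cons (.leaf 2 [(6,1),(4,2)]) (.cons (.keep [5,6,7] (.node (.cons (.keep [4] (.node
(.cons (.keep [3,4] (.node (.cons (.keep [4,5] (.node (.cons (.leaf 2 [(5,1),(4,1)]) (.cons (.leaf 2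
[(5,1),(4,1),(2,1)]) .nil)))) (.cons (.keep [2,4,5] (.node (.cons (.leaf 2 [(4,1),(5,1),(6,1)]) (.cons (.leaf 2
[(4,1),(5,1),(6,1),(2,1)]) .nil)))) .nil)))) (.cons (.keep [4] (.node (.cons (.keep [4] (.node (.cons (.leaf 2
[(4,1)]) (.cons (.leaf 2 [(4,1),(2,1)]) .nil)))) (.cons (.keep [2,4] (.node (.cons (.leaf 2 [(5,1),(4,1)]) (.cons
(.leaf 2 [(5,1),(4,1),(2,1)]) .nil)))) .nil)))) .nil)))) (.cons (.keep [5,6] (.node (.cons (.keep [0,3,4,5] (.node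
(.cons (.keep [4,5,6,7] (.node (.cons (.leaf 2 [(4,2),(6,1)]) (.cons (.leaf 2 [(5,2),(7,1),(2,2)]) .nil)))) (.cons
(.keep [2,5,7] (.node (.cons (.leaf 2 [(5,2),(6,1),(4,2)]) (.cons (.leaf 2 [(5,2),(6,1),(4,2),(2,2)]) .nil))))
.nil)))) (.cons (.keep [0,4] (.node (.cons (.keep [4,5] (.node (.cons (.leaf 2 [(4,2),(5,1)]) (.cons (.leaf 2
[(4,2),(5,1),(2,2)]) .nil)))) (.cons (.keep [4,5] (.node (.cons (.leaf 2 [(4,2),(5,1)]) (.cons (.leaf 2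
[(4,2),(5,1),(2,2)]) .nil)))) .nil)))) .nil)))) .nil)))) .nil)))) .nil)))) .nil)))) (.cons (.keep [2,5,6,7] (.node
(.cons (.keep [4,6,7] (.node (.cons (.leaf 2 [(4,1)]) (.cons (.keep [4,5,6] (.node (.cons (.keep [4,5,6] (.node (.cons
(.leaf 6 [(5,1),(4,1)]) (.cons (.keep [4,6] (.spl 17 (.cons (.leaf 2 [(2,2),(0,1)]) (.cons (.leaf 4 [(0,1)]) (.cons
(.leaf 6 [(1,1),(0,1)]) .nil))))) .nil)))) (.cons (.keep [0,4,5,6] (.node (.cons (.leaf 6 [(6,1),(4,4),(5,3)]) (.cons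
(.keep [4,5,7] (.spl 17 (.cons (.leaf 2 [(3,2),(0,1)]) (.cons (.leaf 2 [(3,1),(0,1),(1,1)]) (.cons (.leaf 4
[(0,1),(3,1),(2,1),(1,1)]) .nil))))) .nil)))) .nil)))) .nil)))) (.cons (.keep [4,5,6] (.node (.cons (.keep [4,5]
(.node (.cons (.leaf 2 [(5,1)]) (.cons (.keep [4,5] (.node (.cons (.keep [4] (.node (.cons (.keep [3,4] (.node (.cons
(.keep [4,5] (.node (.cons (.leaf 2 [(5,3),(4,1)]) (.cons (.leaf 2 [(5,3),(4,1),(2,1)]) .nil)))) (.cons (.keep [2,4,5]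
(.node (.cons (.leaf 2 [(4,1),(5,1),(6,3)]) (.cons (.leaf 2 [(4,1),(5,1),(6,3),(2,1)]) .nil)))) .nil)))) (.cons (.keep
[4] (.node (.cons (.keep [4] (.node (.cons (.leaf 2 [(4,3)]) (.cons (.leaf 2 [(4,3),(2,1)]) .nil)))) (.cons (.keep
[2,4] (.node (.cons (.leaf 2 [(4,1),(5,3)]) (.cons (.leaf 2 [(4,1),(5,3),(2,1)]) .nil)))) .nil)))) .nil)))) (.cons
(.keep [2,4,5] (.node (.cons (.keep [3,4,6] (.node (.cons (.keep [4,5] (.node (.cons (.leaf 2 [(5,1),(4,1)]) (.cons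
(.leaf 2 [(5,1),(4,1),(2,1)]) .nil)))) (.cons (.keep [4,6] (.node (.cons (.leaf 2 [(5,1),(4,1)]) (.cons (.leaf 2
[(5,1),(4,1),(2,1)]) .nil)))) .nil)))) (.cons (.keep [4,5] (.node (.cons (.keep [4] (.node (.cons (.leaf 2 [(4,1)])
(.cons (.leaf 2 [(4,1),(2,1)]) .nil)))) (.cons (.keep [4,5] (.node (.cons (.leaf 2 [(4,1),(5,2)]) (.cons (.leaf 2
[(4,1),(5,2),(2,1)]) .nil)))) .nil)))) .nil)))) .nil)))) .nil)))) (.cons (.keep [2,4,5,6] (.node (.cons (.leaf 2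
[(6,1)]) (.cons (.keep [4,5,6,7] (.node (.cons (.keep [4] (.node (.cons (.keep [3,4] (.node (.cons (.keep [4,5] (.node
(.cons (.leaf 2 [(5,1),(4,1)]) (.cons (.leaf 2 [(5,1),(4,1),(2,1)]) .nil)))) (.cons (.keep [2,4,5] (.node (.cons
(.leaf 2 [(4,1),(5,1),(6,1)]) (.cons (.leaf 2 [(4,1),(5,1),(6,1),(2,1)]) .nil)))) .nil)))) (.cons (.keep [4] (.node
(.cons (.keep [4] (.node (.cons (.leaf 2 [(4,1)]) (.cons (.leaf 2 [(4,1),(2,1)]) .nil)))) (.cons (.keep [2,4] (.node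
(.cons (.leaf 2 [(5,1),(4,1)]) (.cons (.leaf 2 [(5,1),(4,1),(2,1)]) .nil)))) .nil)))) .nil)))) (.cons (.keep [5,6,7]
(.node (.cons (.keep [0,3,4,5,6] (.node (.cons (.keep [4,5,7,8] (.node (.cons (.leaf 2 [(4,2),(6,1)]) (.cons (.leaf 2
[(5,2),(7,1),(2,2)]) .nil)))) (.cons (.keep [5,6,8] (.node (.cons (.leaf 2 [(4,2),(5,1),(6,1)]) (.cons (.leaf 2
[(4,2),(5,1),(6,1),(2,2)]) .nil)))) .nil)))) (.cons (.keep [0,4,5] (.node (.cons (.keep [4,6] (.node (.cons (.leaf 2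
[(4,2),(5,1)]) (.cons (.leaf 2 [(4,2),(5,1),(2,2)]) .nil)))) (.cons (.keep [4,5,6] (.node (.cons (.leaf 2
[(4,2),(5,1),(6,1)]) (.cons (.leaf 2 [(4,2),(5,1),(6,1),(2,2)]) .nil)))) .nil)))) .nil)))) .nil)))) .nil)))) .nil))))
.nil)))) .nil)))) (.cons (.keep [2,4,5] (.node (.cons (.keep [4,5,6] (.node (.cons (.leaf 2 [(5,1)]) (.cons (.keep
[4,5,6] (.node (.cons (.keep [5,6] (.node (.cons (.keep [3,4] (.node (.cons (.keep [4,5] (.node (.cons (.leaf 2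
[(5,2),(4,1)]) (.cons (.leaf 2 [(5,2),(4,1),(2,1)]) .nil)))) (.cons (.keep [2,4,5] (.node (.cons (.leaf 2
[(4,1),(5,1),(6,2)]) (.cons (.leaf 2 [(4,1),(5,1),(6,2),(2,1)]) .nil)))) .nil)))) (.cons (.keep [4,5] (.node (.cons
(.keep [4] (.node (.cons (.keep [3,4] (.node (.cons (.keep [4,5] (.node (.cons (.leaf 2 [(5,3),(4,1)]) (.cons (.leaf 2
[(5,3),(4,1),(2,1)]) .nil)))) (.cons (.keep [2,4,5] (.node (.cons (.leaf 2 [(4,1),(5,1),(6,3)]) (.cons (.leaf 2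
[(4,1),(5,1),(6,3),(2,1)]) .nil)))) .nil)))) (.cons (.keep [4] (.node (.cons (.keep [4] (.node (.cons (.leaf 2
[(4,3)]) (.cons (.leaf 2 [(4,3),(2,1)]) .nil)))) (.cons (.keep [2,4] (.node (.cons (.leaf 2 [(4,1),(5,3)]) (.cons
(.leaf 2 [(4,1),(5,3),(2,1)]) .nil)))) .nil)))) .nil)))) (.cons (.keep [2,4,5] (.node (.cons (.keep [3,4,6] (.node
(.cons (.keep [4,5] (.node (.cons (.leaf 2 [(5,1),(4,1)]) (.cons (.leaf 2 [(5,1),(4,1),(2,1)]) .nil)))) (.cons (.keep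
[4,5,6] (.node (.cons (.leaf 2 [(5,1),(6,1),(4,2)]) (.cons (.leaf 2 [(6,1),(2,2),(4,2),(5,1)]) .nil)))) .nil))))
(.cons (.keep [4,5] (.node (.cons (.keep [4] (.node (.cons (.leaf 2 [(4,1)]) (.cons (.leaf 2 [(4,1),(2,1)]) .nil))))
(.cons (.keep [4,5] (.node (.cons (.leaf 2 [(4,1),(5,2)]) (.cons (.leaf 2 [(2,1),(5,2),(4,1)]) .nil)))) .nil))))
.nil)))) .nil)))) .nil)))) (.cons (.keep [2,4,5,6] (.node (.cons (.keep [3,5,7] (.node (.cons (.keep [4] (.node (.cons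
(.leaf 2 [(4,1)]) (.cons (.leaf 2 [(4,1),(2,1)]) .nil)))) (.cons (.keep [4,5,6] (.node (.cons (.leaf 2
[(4,2),(6,1),(5,1)]) (.cons (.leaf 2 [(4,2),(6,1),(5,1),(2,2)]) .nil)))) .nil)))) (.cons (.keep [4,5,6,7] (.node
(.cons (.keep [4] (.node (.cons (.keep [3,4] (.node (.cons (.keep [4,5] (.node (.cons (.leaf 2 [(5,1),(4,1)]) (.cons
(.leaf 2 [(5,1),(4,1),(2,1)]) .nil)))) (.cons (.keep [2,4,5] (.node (.cons (.leaf 2 [(4,1),(5,1),(6,1)]) (.cons (.leaf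
2 [(4,1),(5,1),(6,1),(2,1)]) .nil)))) .nil)))) (.cons (.keep [4] (.node (.cons (.keep [4] (.node (.cons (.leaf 2
[(4,1)]) (.cons (.leaf 2 [(4,1),(2,1)]) .nil)))) (.cons (.keep [2,4] (.node (.cons (.leaf 2 [(5,1),(4,1)]) (.cons
(.leaf 2 [(5,1),(4,1),(2,1)]) .nil)))) .nil)))) .nil)))) (.cons (.keep [5,6,7] (.node (.cons (.keep [0,3,5,6] (.node
(.cons (.keep [4,5,6,7] (.node (.cons (.leaf 2 [(4,2),(6,1)]) (.cons (.leaf 2 [(5,2),(7,1),(2,2)]) .nil)))) (.cons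
(.keep [2,5,6,7] (.node (.cons (.leaf 2 [(4,1),(5,2),(7,1)]) (.cons (.leaf 2 [(5,1),(6,1),(2,1)]) .nil)))) .nil))))
(.cons (.keep [4,5,6] (.node (.cons (.keep [4,5,6] (.node (.cons (.leaf 2 [(5,1)]) (.cons (.leaf 2
[(4,1),(6,1),(2,2)]) .nil)))) (.cons (.keep [4,5,6] (.node (.cons (.leaf 2 [(5,1)]) (.cons (.leaf 2
[(4,1),(6,1),(2,2)]) .nil)))) .nil)))) .nil)))) .nil)))) .nil)))) .nil)))) .nil)))) (.cons (.keep [2,4,5,6] (.node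
(.cons (.leaf 2 [(6,1)]) (.cons (.keep [4,5,6,7] (.node (.cons (.keep [4] (.node (.cons (.keep [3,4] (.node (.cons
(.keep [4,5] (.node (.cons (.leaf 2 [(5,2),(4,1)]) (.cons (.leaf 2 [(5,2),(4,1),(2,1)]) .nil)))) (.cons (.keep [2,4,5]
(.node (.cons (.leaf 2 [(4,1),(5,1),(6,2)]) (.cons (.leaf 2 [(4,1),(5,1),(6,2),(2,1)]) .nil)))) .nil)))) (.cons (.keep
[4] (.node (.cons (.keep [4] (.node (.cons (.keep [3,4] (.node (.cons (.keep [4,5] (.node (.cons (.leaf 2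
[(5,3),(4,1)]) (.cons (.leaf 2 [(5,3),(4,1),(2,1)]) .nil)))) (.cons (.keep [2,4,5] (.node (.cons (.leaf 2
[(4,1),(5,1),(6,3)]) (.cons (.leaf 2 [(4,1),(5,1),(6,3),(2,1)]) .nil)))) .nil)))) (.cons (.keep [4] (.node (.cons
(.keep [4] (.node (.cons (.leaf 2 [(4,3)]) (.cons (.leaf 2 [(4,3),(2,1)]) .nil)))) (.cons (.keep [2,4] (.node (.cons
(.leaf 2 [(4,1),(5,3)]) (.cons (.leaf 2 [(4,1),(5,3),(2,1)]) .nil)))) .nil)))) .nil)))) (.cons (.keep [2,4] (.node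
(.cons (.keep [3,4,5] (.node (.cons (.keep [4,5] (.node (.cons (.leaf 2 [(5,1),(4,1)]) (.cons (.leaf 2
[(5,1),(4,1),(2,1)]) .nil)))) (.cons (.keep [4,5,6] (.node (.cons (.leaf 2 [(5,1),(6,2),(4,1)]) (.cons (.leaf 2
[(6,2),(2,1),(4,1),(5,1)]) .nil)))) .nil)))) (.cons (.keep [4,5] (.node (.cons (.keep [4] (.node (.cons (.leaf 2
[(4,1)]) (.cons (.leaf 2 [(4,1),(2,1)]) .nil)))) (.cons (.keep [4,5] (.node (.cons (.leaf 2 [(4,1),(5,2)]) (.cons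
(.leaf 2 [(5,2),(2,1),(4,1)]) .nil)))) .nil)))) .nil)))) .nil)))) .nil)))) (.cons (.keep [2,4,5,6,7] (.node (.cons
(.keep [3,7] (.node (.cons (.keep [4] (.node (.cons (.leaf 2 [(4,1)]) (.cons (.leaf 2 [(4,1),(2,1)]) .nil)))) (.cons
(.keep [4,5] (.node (.cons (.leaf 2 [(5,1),(4,1)]) (.cons (.leaf 2 [(5,1),(4,1),(2,1)]) .nil)))) .nil)))) (.cons
(.keep [4,5,6,7,8] (.node (.cons (.keep [4] (.node (.cons (.keep [3,4] (.node (.cons (.keep [4,5] (.node (.cons (.leaf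
2 [(5,1),(4,1)]) (.cons (.leaf 2 [(5,1),(4,1),(2,1)]) .nil)))) (.cons (.keep [2,4,5] (.node (.cons (.leaf 2
[(4,1),(5,1),(6,1)]) (.cons (.leaf 2 [(4,1),(5,1),(6,1),(2,1)]) .nil)))) .nil)))) (.cons (.keep [4] (.node (.cons
(.keep [4] (.node (.cons (.leaf 2 [(4,1)]) (.cons (.leaf 2 [(4,1),(2,1)]) .nil)))) (.cons (.keep [2,4] (.node (.cons
(.leaf 2 [(5,1),(4,1)]) (.cons (.leaf 2 [(5,1),(4,1),(2,1)]) .nil)))) .nil)))) .nil)))) (.cons (.keep [5,6,7,8] (.node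
(.cons (.keep [0,3,4,6,7] (.node (.cons (.keep [4,5,7,8] (.node (.cons (.leaf 2 [(4,2),(6,1)]) (.cons (.leaf 2
[(5,2),(7,1),(2,2)]) .nil)))) (.cons (.keep [5,6,8] (.node (.cons (.leaf 2 [(4,2),(5,1),(6,1)]) (.cons (.leaf 2
[(4,2),(5,1),(6,1),(2,2)]) .nil)))) .nil)))) (.cons (.keep [4,5,6,7] (.node (.cons (.keep [5,6,7] (.node (.cons (.leaf
2 [(5,1)]) (.cons (.leaf 2 [(4,1),(6,1),(2,2)]) .nil)))) (.cons (.keep [4,5,6,7] (.node (.cons (.leaf 2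
[(5,1),(4,1),(7,1)]) (.cons (.leaf 2 [(6,1),(2,1)]) .nil)))) .nil)))) .nil)))) .nil)))) .nil)))) .nil)))) .nil))))
.nil)))) .nil)))) .nil)))) (.cons (.keep [2,4] (.node (.cons (.keep [3,4,5] (.node (.cons (.leaf 2 [(5,1)]) (.cons
(.keep [4,5,6] (.node (.cons (.keep [4,5,6] (.node (.cons (.leaf 2 [(4,1)]) (.cons (.keep [5,6] (.node (.cons (.keep
[4,5] (.node (.cons (.keep [3] (.node (.cons (.keep [4] (.node (.cons (.leaf 2 [(4,1)]) (.cons (.leaf 2 [(4,1),(2,1)])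
.nil)))) (.cons (.keep [2,4] (.node (.cons (.leaf 2 [(5,1),(4,1)]) (.cons (.leaf 2 [(5,1),(4,1),(2,1)]) .nil))))
.nil)))) (.cons (.keep [4,5] (.node (.cons (.keep [4,5] (.node (.cons (.leaf 2 [(5,2),(4,1)]) (.cons (.leaf 2
[(5,2),(4,1),(2,1)]) .nil)))) (.cons (.keep [2,4,5] (.node (.cons (.leaf 2 [(6,2),(5,1),(4,1)]) (.cons (.leaf 2
[(6,2),(5,1),(4,1),(2,1)]) .nil)))) .nil)))) .nil)))) (.cons (.keep [2,4] (.node (.cons (.keep [3] (.node (.cons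
(.keep [4] (.node (.cons (.leaf 2 [(4,1)]) (.cons (.leaf 2 [(4,1),(2,1)]) .nil)))) (.cons (.keep [2,4] (.node (.cons
(.leaf 2 [(5,1),(4,1)]) (.cons (.leaf 2 [(5,1),(4,1),(2,1)]) .nil)))) .nil)))) (.cons (.keep [4,5] (.node (.cons
(.keep [4,5] (.node (.cons (.leaf 2 [(4,1),(5,1)]) (.cons (.leaf 2 [(4,1),(5,1),(2,1)]) .nil)))) (.cons (.keep [0,4,5]
(.node (.cons (.leaf 2 [(5,1),(4,1),(6,1)]) (.cons (.leaf 2 [(5,1),(4,1),(6,1),(2,1)]) .nil)))) .nil)))) .nil))))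
.nil)))) .nil)))) (.cons (.keep [2,4,5] (.node (.cons (.leaf 2 [(5,1)]) (.cons (.keep [4,6] (.node (.cons (.keep [4,5]
(.node (.cons (.keep [3] (.node (.cons (.keep [4] (.node (.cons (.leaf 2 [(4,1)]) (.cons (.leaf 2 [(4,1),(2,1)])
.nil)))) (.cons (.keep [2,4] (.node (.cons (.leaf 2 [(5,1),(4,1)]) (.cons (.leaf 2 [(5,1),(4,1),(2,1)]) .nil))))
.nil)))) (.cons (.keep [4,5] (.node (.cons (.keep [4,5] (.node (.cons (.leaf 2 [(4,1),(5,1)]) (.cons (.leaf 2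
[(4,1),(5,1),(2,1)]) .nil)))) (.cons (.keep [2,4,5] (.node (.cons (.leaf 2 [(5,1),(6,1),(4,1)]) (.cons (.leaf 2
[(5,1),(6,1),(4,1),(2,1)]) .nil)))) .nil)))) .nil)))) (.cons (.keep [5] (.node (.cons (.keep [3] (.node (.cons (.keep
[4] (.node (.cons (.leaf 2 [(4,1)]) (.cons (.leaf 2 [(4,1),(2,1)]) .nil)))) (.cons (.keep [2,4] (.node (.cons (.leaf 2
[(5,1),(4,1)]) (.cons (.leaf 2 [(5,1),(4,1),(2,1)]) .nil)))) .nil)))) (.cons (.keep [4] (.node (.cons (.keep [4]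
(.node (.cons (.leaf 2 [(4,1)]) (.cons (.leaf 2 [(4,1),(2,1)]) .nil)))) (.cons (.keep [4] (.node (.cons (.leaf 2
[(4,1)]) (.cons (.leaf 2 [(4,1),(2,1)]) .nil)))) .nil)))) .nil)))) .nil)))) .nil)))) .nil)))) .nil)))) (.cons (.keep
[2,4] (.node (.cons (.leaf 2 [(5,1),(4,1)]) (.cons (.keep [4,5] (.node (.cons (.keep [4,5] (.node (.cons (.leaf 2
[(4,1)]) (.cons (.keep [4,5] (.node (.cons (.keep [4,5] (.node (.cons (.keep [3,4] (.node (.cons (.keep [4,5] (.node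
(.cons (.leaf 2 [(5,2),(4,1)]) (.cons (.leaf 2 [(5,2),(4,1),(2,1)]) .nil)))) (.cons (.keep [2,4,5] (.node (.cons
(.leaf 2 [(4,1),(5,1),(6,2)]) (.cons (.leaf 2 [(4,1),(5,1),(6,2),(2,1)]) .nil)))) .nil)))) (.cons (.keep [4,5] (.node
(.cons (.keep [4,5] (.node (.cons (.leaf 2 [(4,3),(5,1)]) (.cons (.leaf 2 [(4,3),(5,1),(2,1)]) .nil)))) (.cons (.keep
[2,4,5] (.node (.cons (.leaf 2 [(4,1),(5,3),(6,1)]) (.cons (.leaf 2 [(4,1),(5,3),(6,1),(2,1)]) .nil)))) .nil))))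
.nil)))) (.cons (.keep [2,4,5] (.node (.cons (.keep [3,5] (.node (.cons (.keep [4] (.node (.cons (.leaf 2 [(4,1)])
(.cons (.leaf 2 [(4,1),(2,1)]) .nil)))) (.cons (.keep [4,5] (.node (.cons (.leaf 2 [(5,1),(4,1)]) (.cons (.leaf 2
[(5,1),(2,1),(4,1)]) .nil)))) .nil)))) (.cons (.keep [4,5,6] (.node (.cons (.keep [4,6] (.node (.cons (.leaf 2
[(4,1),(5,1)]) (.cons (.leaf 2 [(4,1),(5,1),(2,1)]) .nil)))) (.cons (.keep [4,5,6] (.node (.cons (.leaf 2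
[(4,1),(5,2),(6,1)]) (.cons (.leaf 2 [(6,1),(5,2),(2,1),(4,1)]) .nil)))) .nil)))) .nil)))) .nil)))) .nil)))) (.cons
(.keep [2,4,5] (.node (.cons (.leaf 2 [(5,1)]) (.cons (.keep [4,5,6] (.node (.cons (.keep [4,6] (.node (.cons (.keep
[3,4] (.node (.cons (.keep [4,5] (.node (.cons (.leaf 2 [(5,2),(4,1)]) (.cons (.leaf 2 [(5,2),(4,1),(2,1)]) .nil))))
(.cons (.keep [2,4,5] (.node (.cons (.leaf 2 [(4,1),(5,1),(6,2)]) (.cons (.leaf 2 [(4,1),(5,1),(6,2),(2,1)]) .nil))))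
.nil)))) (.cons (.keep [4,5] (.node (.cons (.keep [4,5] (.node (.cons (.leaf 2 [(4,2),(5,1)]) (.cons (.leaf 2
[(4,2),(5,1),(2,1)]) .nil)))) (.cons (.keep [2,4,5] (.node (.cons (.leaf 2 [(4,1),(5,2),(6,1)]) (.cons (.leaf 2
[(4,1),(5,2),(6,1),(2,1)]) .nil)))) .nil)))) .nil)))) (.cons (.keep [5,6] (.node (.cons (.keep [3,4] (.node (.cons
(.keep [4] (.node (.cons (.leaf 2 [(4,1)]) (.cons (.leaf 2 [(4,1),(2,1)]) .nil)))) (.cons (.keep [4,5] (.node (.cons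
(.leaf 2 [(5,1),(4,1)]) (.cons (.leaf 2 [(5,1),(4,1),(2,1)]) .nil)))) .nil)))) (.cons (.keep [4,5] (.node (.cons
(.keep [5] (.node (.cons (.leaf 2 [(4,1)]) (.cons (.leaf 2 [(4,1),(2,1)]) .nil)))) (.cons (.keep [4,5] (.node (.cons
(.leaf 2 [(5,1),(4,1)]) (.cons (.leaf 2 [(5,1),(4,1),(2,1)]) .nil)))) .nil)))) .nil)))) .nil)))) .nil)))) .nil))))
.nil)))) .nil)))) .nil)))) .nil))))

theorem chk : ok4 4 18 dj t = true := by decide +kernel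

end Pool.Agent.H50.K4.C418
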