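import Pool.Agent.H50.K4.Sec

/-! # Certificate for the case `(4, 24)` -/

set_option maxRecDepth 40000

namespace Pool.Agent.H50.K4.C424

open Pool.Agent.H50.K4

def dj : List (List (List (ℕ × ℤ))) := (List.range 21).map low ++ [sec [3] 0 3, sec [3] 2 3]

def t : Tr := (.keep [] (.node (.cons (.keep [3] (.node (.cons (.keep [3,4] (.node (.cons (.keep [3,5] (.node (.cons (.keep [4,5]
(.node (.cons (.keep [3,5] (.node (.cons (.leaf 1 [(5,1),(4,1)]) (.cons (.keep [2,4,5] (.node (.cons (.keep [3,5,6]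
(.node (.cons (.leaf 1 [(5,2),(4,1)]) (.cons (.keep [0,2,4,6] (.node (.cons (.keep [4,5,6,7] (.node (.cons (.keep
[4,5,6,7] (.node (.cons (.keep [4,5,6,7] (.node (.cons (.keep [4,5,6,7] (.node (.cons (.keep [3,5,7] (.node (.cons
(.keep [3,4,6] (.spl 16 (.cons (.leaf 3 [(2,2),(3,7),(0,5)]) (.cons (.leaf 3 [(1,5),(2,2),(3,7),(0,5)]) .nil))))
(.cons (.keep [2,4,5,6] (.spl 16 (.cons (.leaf 3 [(1,3),(2,2),(0,5),(4,7)]) (.cons (.leaf 1 [(3,2),(0,3),(4,3)])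
.nil)))) .nil)))) (.cons (.keep [2,4,6] (.node (.cons (.leaf 1 [(4,1),(6,5),(5,1)]) (.cons (.leaf 1
[(4,1),(2,1),(5,1),(6,5)]) .nil)))) .nil)))) (.cons (.keep [2,5] (.node (.cons (.leaf 1 [(4,3),(5,2)]) (.cons (.leaf 1
[(4,3),(2,3),(5,2)]) .nil)))) .nil)))) (.cons (.keep [2,7] (.node (.cons (.leaf 1 [(5,1),(4,1)]) (.cons (.leaf 1
[(2,1),(4,1),(5,1)]) .nil)))) .nil)))) (.cons (.keep [0,2,7] (.node (.cons (.keep [4,5,6] (.node (.cons (.keep [4,5,6]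
(.node (.cons (.keep [4,6] (.node (.cons (.keep [3,4,5] (.spl 16 (.cons (.leaf 2 [(2,1),(3,4),(0,2)]) (.cons (.leaf 2
[(2,1),(1,2),(3,4),(0,2)]) .nil)))) (.cons (.keep [2,4,5] (.spl 16 (.cons (.leaf 2 [(2,1),(1,2),(0,2),(3,4)]) (.cons
(.leaf 2 [(2,1),(0,2),(3,4)]) .nil)))) .nil)))) (.cons (.keep [2,5,6] (.node (.cons (.leaf 3 [(4,3),(6,2),(5,2)])
(.cons (.leaf 3 [(4,3),(2,3),(5,2),(6,2)]) .nil)))) .nil)))) (.cons (.keep [0,2,4,6] (.node (.cons (.leaf 1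
[(7,1),(4,1),(5,2)]) (.cons (.leaf 2 [(7,2),(6,1),(2,2),(5,2)]) .nil)))) .nil)))) (.cons (.keep [2,6] (.node (.cons
(.leaf 1 [(5,1),(4,1)]) (.cons (.leaf 1 [(2,1),(4,1),(5,1)]) .nil)))) .nil)))) .nil)))) (.cons (.keep [2,7] (.node
(.cons (.keep [4,5] (.node (.cons (.keep [4,5] (.node (.cons (.keep [4,5] (.node (.cons (.keep [4,5] (.node (.cons
(.keep [3,4,5] (.spl 16 (.cons (.leaf 1 [(2,1),(3,2),(0,1)]) (.cons (.leaf 1 [(1,1),(2,1),(3,2),(0,1)]) .nil))))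
(.cons (.keep [2,4,5] (.spl 16 (.cons (.leaf 1 [(1,1),(2,1),(0,1),(3,2)]) (.cons (.leaf 1 [(2,1),(0,1),(3,2)])
.nil)))) .nil)))) (.cons (.keep [2,4,5] (.node (.cons (.leaf 2 [(4,2),(6,3),(5,3)]) (.cons (.leaf 2
[(4,2),(2,2),(5,3),(6,3)]) .nil)))) .nil)))) (.cons (.keep [2,4,5] (.node (.cons (.leaf 1 [(6,1),(4,1),(5,1)]) (.cons
(.leaf 1 [(6,1),(2,1),(4,1),(5,1)]) .nil)))) .nil)))) (.cons (.keep [2,5] (.node (.cons (.leaf 1 [(5,1),(4,1)]) (.cons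
(.leaf 1 [(5,1),(4,1),(2,1)]) .nil)))) .nil)))) (.cons (.keep [2,4,5] (.node (.cons (.keep [5,6] (.node (.cons (.keep
[4,5] (.node (.cons (.keep [4,5] (.node (.cons (.keep [3,4,5] (.spl 16 (.cons (.leaf 1 [(2,1),(3,2),(0,1)]) (.cons
(.leaf 1 [(2,1),(3,2),(1,1),(0,1)]) .nil)))) (.cons (.keep [2,4,5] (.spl 16 (.cons (.leaf 1 [(2,1),(3,2),(0,1),(1,1)])
(.cons (.leaf 1 [(2,1),(3,2),(0,1)]) .nil)))) .nil)))) (.cons (.keep [2] (.node (.cons (.leaf 1 [(4,1)]) (.cons (.leaf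
1 [(4,1),(2,1)]) .nil)))) .nil)))) (.cons (.keep [2,4,5] (.node (.cons (.leaf 1 [(6,1),(5,1),(4,1)]) (.cons (.leaf 1
[(6,1),(2,1),(5,1),(4,1)]) .nil)))) .nil)))) (.cons (.keep [4,5,6] (.node (.cons (.leaf 2 [(5,1),(6,3),(4,1)]) (.cons
(.leaf 2 [(6,3),(2,2),(4,1),(5,1)]) .nil)))) .nil)))) .nil)))) .nil)))) .nil)))) (.cons (.keep [2,4,5,6] (.node (.cons
(.leaf 1 [(4,1),(6,2)]) (.cons (.keep [0,4,5,6,7] (.node (.cons (.keep [3,4,5,6,7,8] (.node (.cons (.keep [4,5,7,8]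
(.node (.cons (.keep [4,5,7] (.node (.cons (.keep [4,5,6] (.node (.cons (.keep [4] (.node (.cons (.keep [3,4] (.spl 16
(.cons (.leaf 1 [(2,1),(0,1)]) (.cons (.leaf 1 [(2,1),(1,1),(0,1)]) .nil)))) (.cons (.keep [2,4] (.spl 16 (.cons
(.leaf 1 [(2,1),(0,1),(1,1)]) (.cons (.leaf 1 [(2,1),(0,1)]) .nil)))) .nil)))) (.cons (.keep [2,5,6] (.node (.cons
(.leaf 1 [(4,1),(6,1),(5,1)]) (.cons (.leaf 1 [(2,1),(6,1),(4,1),(5,1)]) .nil)))) .nil)))) (.cons (.keep [2] (.node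
(.cons (.leaf 1 [(4,1)]) (.cons (.leaf 1 [(4,1),(2,1)]) .nil)))) .nil)))) (.cons (.keep [0,2,6] (.node (.cons (.leaf 1
[(4,1),(6,1),(5,2)]) (.cons (.leaf 1 [(0,1),(2,3),(6,1),(5,2)]) .nil)))) .nil)))) (.cons (.keep [6,9] (.node (.cons
(.keep [4,5] (.node (.cons (.keep [4,5] (.node (.cons (.keep [4,5] (.node (.cons (.keep [3,4,5] (.spl 16 (.cons (.leaf
1 [(2,1),(3,2),(0,1)]) (.cons (.leaf 1 [(2,1),(3,2),(1,1),(0,1)]) .nil)))) (.cons (.keep [2,4,5] (.spl 16 (.cons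
(.leaf 1 [(2,1),(3,2),(0,1),(1,1)]) (.cons (.leaf 1 [(2,1),(3,2),(0,1)]) .nil)))) .nil)))) (.cons (.keep [2] (.node
(.cons (.leaf 1 [(4,1)]) (.cons (.leaf 1 [(4,1),(2,1)]) .nil)))) .nil)))) (.cons (.keep [2,4,5] (.node (.cons (.leaf 1
[(6,1),(5,1),(4,1)]) (.cons (.leaf 1 [(6,1),(2,1),(5,1),(4,1)]) .nil)))) .nil)))) (.cons (.keep [2,5] (.node (.cons
(.leaf 1 [(5,1),(4,1)]) (.cons (.leaf 1 [(5,1),(2,1),(4,1)]) .nil)))) .nil)))) .nil)))) (.cons (.keep [2,7,8] (.node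
(.cons (.keep [4,5] (.node (.cons (.keep [4,5] (.node (.cons (.keep [4,5] (.node (.cons (.keep [4] (.node (.cons
(.keep [3,4] (.spl 16 (.cons (.leaf 1 [(2,3),(0,1)]) (.cons (.leaf 1 [(2,3),(1,1),(0,1)]) .nil)))) (.cons (.keep [2,4]
(.spl 16 (.cons (.leaf 1 [(2,3),(0,1),(1,1)]) (.cons (.leaf 1 [(2,3),(0,1)]) .nil)))) .nil)))) (.cons (.keep [2,4,5]
(.node (.cons (.leaf 1 [(5,2),(4,1),(6,1)]) (.cons (.leaf 1 [(5,2),(4,1),(2,1),(6,1)]) .nil)))) .nil)))) (.cons (.keep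
[2,4] (.node (.cons (.leaf 1 [(4,1),(5,2)]) (.cons (.leaf 1 [(4,1),(2,1),(5,2)]) .nil)))) .nil)))) (.cons (.keep [2,4]
(.node (.cons (.leaf 1 [(5,1),(4,1)]) (.cons (.leaf 1 [(5,1),(4,1),(2,1)]) .nil)))) .nil)))) (.cons (.keep [2,6]
(.node (.cons (.keep [4,5] (.node (.cons (.keep [4,5] (.node (.cons (.keep [4,5] (.node (.cons (.keep [3,4,5] (.spl 16
(.cons (.leaf 1 [(2,1),(3,3),(0,1)]) (.cons (.leaf 1 [(2,1),(3,3),(1,1),(0,1)]) .nil)))) (.cons (.keep [2,4,5] (.spl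
16 (.cons (.leaf 1 [(2,1),(3,3),(0,1),(1,1)]) (.cons (.leaf 1 [(2,1),(3,3),(0,1)]) .nil)))) .nil)))) (.cons (.keep
[2,4,5] (.node (.cons (.leaf 1 [(6,2),(4,1),(5,2)]) (.cons (.leaf 1 [(5,2),(4,1),(6,2),(2,1)]) .nil)))) .nil))))
(.cons (.keep [2,4,5] (.node (.cons (.leaf 1 [(4,1),(6,2),(5,1)]) (.cons (.leaf 1 [(4,1),(2,1),(5,1),(6,2)]) .nil))))
.nil)))) (.cons (.keep [2,5] (.node (.cons (.leaf 1 [(5,1),(4,1)]) (.cons (.leaf 1 [(5,1),(4,1),(2,1)]) .nil))))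
.nil)))) .nil)))) .nil)))) .nil)))) .nil)))) .nil)))) (.cons (.keep [4,5] (.node (.cons (.keep [3,4,5] (.node (.cons
(.leaf 1 [(4,1),(5,1),(6,1)]) (.cons (.keep [5,6] (.node (.cons (.keep [3,4,5] (.node (.cons (.leaf 1 [(4,1),(5,2)])
(.cons (.keep [4,5,6] (.spl 21 (.cons (.leaf 2 [(3,2),(0,1),(2,2)]) (.cons (.leaf 1 [(3,1),(1,1),(0,1),(2,2)]) (.cons
(.leaf 3 [(3,2),(1,1),(0,1),(2,4)]) .nil))))) .nil)))) (.cons (.keep [2,4,5] (.node (.cons (.keep [0,5,6] (.node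
(.cons (.leaf 1 [(5,2),(6,1),(4,1)]) (.cons (.leaf 1 [(5,2),(6,1),(0,1)]) .nil)))) (.cons (.keep [2,4,5,6] (.node
(.cons (.leaf 1 [(5,1),(4,1)]) (.cons (.leaf 1 [(6,2),(7,1),(0,1)]) .nil)))) .nil)))) .nil)))) .nil)))) (.cons (.keep
[2,4,5] (.node (.cons (.keep [3,4,5,6] (.node (.cons (.leaf 1 [(6,1),(4,1)]) (.cons (.keep [0,2,4,5,7] (.node (.cons
(.keep [4,5,6,7,8] (.node (.cons (.keep [4,5,6,8] (.node (.cons (.keep [4,5,6,7] (.node (.cons (.keep [4,5,6,7] (.node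
(.cons (.keep [3,5,7] (.node (.cons (.keep [3,4,6] (.spl 16 (.cons (.leaf 2 [(2,1),(3,4),(0,3)]) (.cons (.leaf 2
[(1,3),(2,1),(3,4),(0,3)]) .nil)))) (.cons (.keep [2,4,5,6] (.spl 16 (.cons (.leaf 2 [(1,2),(2,1),(0,3),(4,4)]) (.cons
(.leaf 1 [(3,1),(0,2),(4,2)]) .nil)))) .nil)))) (.cons (.keep [2,4,6] (.node (.cons (.leaf 1 [(4,1),(6,3),(5,1)])
(.cons (.leaf 1 [(4,1),(2,1),(5,1),(6,3)]) .nil)))) .nil)))) (.cons (.keep [2,5] (.node (.cons (.leaf 1 [(4,2),(5,1)])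
(.cons (.leaf 1 [(4,2),(2,2),(5,1)]) .nil)))) .nil)))) (.cons (.keep [2,7] (.node (.cons (.leaf 1 [(5,1),(4,1)])
(.cons (.leaf 1 [(2,1),(4,1),(5,1)]) .nil)))) .nil)))) (.cons (.keep [0,2,7,8] (.node (.cons (.keep [4,5,6,7] (.node
(.cons (.keep [4,5,6,7] (.node (.cons (.keep [4,7] (.node (.cons (.keep [3,4,5] (.spl 16 (.cons (.leaf 1
[(2,1),(3,2),(0,1)]) (.cons (.leaf 1 [(2,1),(3,2),(1,1),(0,1)]) .nil)))) (.cons (.keep [2,4,5] (.spl 16 (.cons (.leaf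
1 [(2,1),(3,2),(0,1),(1,1)]) (.cons (.leaf 1 [(2,1),(3,2),(0,1)]) .nil)))) .nil)))) (.cons (.keep [2,5,6] (.node
(.cons (.leaf 2 [(4,3),(6,1),(5,1)]) (.cons (.leaf 2 [(2,3),(6,1),(4,3),(5,1)]) .nil)))) .nil)))) (.cons (.keep
[2,4,7] (.node (.cons (.leaf 1 [(6,1),(5,1),(4,1)]) (.cons (.leaf 1 [(4,1),(5,1),(6,1),(2,1)]) .nil)))) .nil))))
(.cons (.keep [2,7] (.node (.cons (.leaf 1 [(5,1),(4,1)]) (.cons (.leaf 1 [(2,1),(4,1),(5,1)]) .nil)))) .nil))))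
.nil)))) (.cons (.keep [2,6,8] (.node (.cons (.keep [4,5] (.node (.cons (.keep [4,5] (.node (.cons (.keep [4,5] (.node
(.cons (.keep [3,4,5] (.node (.cons (.keep [3,4,6] (.spl 16 (.cons (.leaf 1 [(2,1),(3,2),(0,2)]) (.cons (.leaf 1
[(1,2),(2,1),(3,2),(0,2)]) .nil)))) (.cons (.keep [2,4,5,6] (.spl 16 (.cons (.leaf 1 [(1,1),(2,1),(0,2),(4,2)]) (.cons
(.leaf 1 [(3,1),(0,1),(4,2)]) .nil)))) .nil)))) (.cons (.keep [2,4,5] (.node (.cons (.leaf 1 [(4,1),(6,2),(5,2)])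
(.cons (.leaf 1 [(4,1),(2,1),(5,2),(6,2)]) .nil)))) .nil)))) (.cons (.keep [2,4,5] (.node (.cons (.leaf 1
[(6,1),(4,1),(5,1)]) (.cons (.leaf 1 [(6,1),(2,1),(4,1),(5,1)]) .nil)))) .nil)))) (.cons (.keep [2,5] (.node (.cons
(.leaf 1 [(5,1),(4,1)]) (.cons (.leaf 1 [(5,1),(4,1),(2,1)]) .nil)))) .nil)))) (.cons (.keep [4,6] (.node (.cons
(.keep [4,5] (.node (.cons (.keep [4,5] (.node (.cons (.keep [4,5] (.node (.cons (.keep [3,4,5] (.spl 16 (.cons (.leaf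
1 [(2,1),(3,2),(0,1)]) (.cons (.leaf 1 [(2,1),(3,2),(1,1),(0,1)]) .nil)))) (.cons (.keep [2,4,5] (.spl 16 (.cons
(.leaf 1 [(2,1),(3,2),(0,1),(1,1)]) (.cons (.leaf 1 [(2,1),(3,2),(0,1)]) .nil)))) .nil)))) (.cons (.keep [2] (.node
(.cons (.leaf 1 [(4,1)]) (.cons (.leaf 1 [(4,1),(2,1)]) .nil)))) .nil)))) (.cons (.keep [2,4,5] (.node (.cons (.leaf 1
[(6,1),(5,1),(4,1)]) (.cons (.leaf 1 [(6,1),(2,1),(5,1),(4,1)]) .nil)))) .nil)))) (.cons (.keep [2,5] (.node (.cons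
(.leaf 1 [(5,1),(4,1)]) (.cons (.leaf 1 [(5,1),(2,1),(4,1)]) .nil)))) .nil)))) .nil)))) .nil)))) .nil)))) (.cons
(.keep [2,5,6] (.node (.cons (.leaf 1 [(5,1)]) (.cons (.keep [0,4,6] (.node (.cons (.keep [4,5,6] (.node (.cons (.keep
[4,5] (.node (.cons (.keep [0,4,5] (.node (.cons (.keep [4,5,6] (.node (.cons (.keep [4,6] (.node (.cons (.keep
[3,4,5] (.spl 16 (.cons (.leaf 1 [(3,3),(2,1),(0,2)]) (.cons (.leaf 1 [(3,3),(2,1),(1,2),(0,2)]) .nil)))) (.cons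
(.keep [2,4,5] (.spl 16 (.cons (.leaf 1 [(3,3),(2,1),(0,2),(1,2)]) (.cons (.leaf 1 [(3,3),(2,1),(0,2)]) .nil))))
.nil)))) (.cons (.keep [2,5,6] (.node (.cons (.leaf 1 [(6,1),(4,1),(5,1)]) (.cons (.leaf 1 [(4,1),(2,1),(6,1),(5,1)])
.nil)))) .nil)))) (.cons (.keep [2,6] (.node (.cons (.leaf 1 [(5,1),(4,1)]) (.cons (.leaf 1 [(2,1),(4,1),(5,1)])
.nil)))) .nil)))) (.cons (.keep [0,2,5] (.node (.cons (.leaf 1 [(6,1),(4,1),(5,1)]) (.cons (.leaf 1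
[(6,1),(5,1),(0,1),(2,2)]) .nil)))) .nil)))) (.cons (.keep [5,6] (.node (.cons (.keep [4,5] (.node (.cons (.keep [4,5]
(.node (.cons (.keep [4,5] (.node (.cons (.keep [3,4,5] (.spl 16 (.cons (.leaf 1 [(2,1),(3,2),(0,1)]) (.cons (.leaf 1
[(2,1),(3,2),(1,1),(0,1)]) .nil)))) (.cons (.keep [2,4,5] (.spl 16 (.cons (.leaf 1 [(2,1),(3,2),(0,1),(1,1)]) (.cons
(.leaf 1 [(2,1),(3,2),(0,1)]) .nil)))) .nil)))) (.cons (.keep [2,4] (.node (.cons (.leaf 1 [(5,1),(4,1)]) (.cons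
(.leaf 1 [(4,1),(5,1),(2,1)]) .nil)))) .nil)))) (.cons (.keep [2,4,5] (.node (.cons (.leaf 1 [(6,1),(5,1),(4,1)])
(.cons (.leaf 1 [(6,1),(2,1),(4,1),(5,1)]) .nil)))) .nil)))) (.cons (.keep [2,5] (.node (.cons (.leaf 1 [(5,1),(4,1)])
(.cons (.leaf 1 [(4,1),(2,1),(5,1)]) .nil)))) .nil)))) .nil)))) (.cons (.keep [2,5,6] (.node (.cons (.keep [4,5]
(.node (.cons (.keep [4,5] (.node (.cons (.keep [4,5] (.node (.cons (.keep [4,5] (.node (.cons (.keep [3,4,5] (.spl 16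
(.cons (.leaf 1 [(2,1),(3,2),(0,1)]) (.cons (.leaf 1 [(2,1),(3,2),(1,1),(0,1)]) .nil)))) (.cons (.keep [2,4,5] (.spl
16 (.cons (.leaf 1 [(2,1),(3,2),(0,1),(1,1)]) (.cons (.leaf 1 [(2,1),(3,2),(0,1)]) .nil)))) .nil)))) (.cons (.keep
[2,4] (.node (.cons (.leaf 1 [(4,1),(5,2)]) (.cons (.leaf 1 [(5,2),(4,1),(2,1)]) .nil)))) .nil)))) (.cons (.keep
[2,4,5] (.node (.cons (.leaf 1 [(4,1),(6,1),(5,1)]) (.cons (.leaf 1 [(4,1),(2,1),(5,1),(6,1)]) .nil)))) .nil))))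
(.cons (.keep [2,5] (.node (.cons (.leaf 1 [(5,1),(4,1)]) (.cons (.leaf 1 [(4,1),(5,1),(2,1)]) .nil)))) .nil))))
(.cons (.keep [2,6] (.node (.cons (.keep [4,5] (.node (.cons (.keep [4,5] (.node (.cons (.keep [4,5] (.node (.cons
(.keep [3,4,5] (.spl 16 (.cons (.leaf 1 [(2,1),(3,3),(0,1)]) (.cons (.leaf 1 [(2,1),(3,3),(1,1),(0,1)]) .nil))))
(.cons (.keep [2,4,5] (.spl 16 (.cons (.leaf 1 [(2,1),(3,3),(0,1),(1,1)]) (.cons (.leaf 1 [(2,1),(3,3),(0,1)])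
.nil)))) .nil)))) (.cons (.keep [2,4,5] (.node (.cons (.leaf 1 [(6,2),(4,1),(5,2)]) (.cons (.leaf 1
[(5,2),(4,1),(6,2),(2,1)]) .nil)))) .nil)))) (.cons (.keep [2,4,5] (.node (.cons (.leaf 1 [(4,1),(6,2),(5,1)]) (.cons
(.leaf 1 [(4,1),(2,1),(5,1),(6,2)]) .nil)))) .nil)))) (.cons (.keep [2,5] (.node (.cons (.leaf 1 [(5,1),(4,1)]) (.cons
(.leaf 1 [(4,1),(5,1),(2,1)]) .nil)))) .nil)))) .nil)))) .nil)))) .nil)))) .nil)))) .nil)))) .nil)))) (.cons (.keep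
[2,4] (.node (.cons (.keep [3,4,5] (.node (.cons (.leaf 1 [(6,1),(4,1)]) (.cons (.keep [0,2,4,5] (.node (.cons (.keep
[3,4,5,6,7] (.node (.cons (.keep [4,5,6,7,8] (.node (.cons (.keep [4,5,6,7] (.node (.cons (.keep [4,5,7] (.node (.cons
(.keep [4,6] (.node (.cons (.keep [3,4,5] (.spl 14 (.cons (.leaf 1 [(2,1),(3,2),(0,1)]) (.cons (.leaf 1
[(2,1),(1,1),(3,2),(0,1)]) .nil)))) (.cons (.keep [2,4,5] (.spl 14 (.cons (.leaf 1 [(2,1),(1,1),(0,1),(3,2)]) (.cons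
(.leaf 1 [(2,1),(0,1),(3,2)]) .nil)))) .nil)))) (.cons (.keep [2,5,6] (.node (.cons (.leaf 1 [(4,1),(6,3),(5,1)])
(.cons (.leaf 1 [(4,1),(2,1),(5,1),(6,3)]) .nil)))) .nil)))) (.cons (.keep [2,6,7] (.node (.cons (.leaf 1
[(6,1),(4,1)]) (.cons (.leaf 1 [(4,2),(2,2),(5,1)]) .nil)))) .nil)))) (.cons (.keep [0,2,7,8] (.node (.cons (.leaf 1
[(4,1),(6,3),(5,1)]) (.cons (.leaf 1 [(0,1),(2,5),(5,4),(7,3)]) .nil)))) .nil)))) (.cons (.keep [2,4,8] (.node (.cons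
(.keep [4,5,6] (.node (.cons (.keep [0,4,5,6] (.node (.cons (.keep [4,5,6,7] (.node (.cons (.keep [4,5,6,7] (.node
(.cons (.keep [3,4,5,6,7] (.node (.cons (.keep [3,4,8] (.spl 16 (.cons (.leaf 1 [(2,3),(3,2),(0,4)]) (.cons (.leaf 1
[(1,4),(2,3),(3,2),(0,4)]) .nil)))) (.cons (.keep [2,4,5,6,7,8] (.node (.cons (.keep [3,6,7,9] (.node (.cons (.leaf 4
[(7,2),(5,1),(4,4)]) (.cons (.keep [4,6,7] (.node (.cons (.keep [3,5,6] (.node (.cons (.leaf 1 [(4,1),(5,1)]) (.cons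
(.keep [0,6] (.spl 16 (.cons (.leaf 1 [(2,1),(0,1)]) (.cons (.leaf 1 [(2,2),(0,1),(1,3)]) .nil)))) .nil)))) (.cons
(.keep [0,4,6] (.node (.cons (.leaf 1 [(6,1),(5,1),(4,2)]) (.cons (.keep [0,6] (.spl 16 (.cons (.leaf 1 [(2,1),(0,1)])
(.cons (.leaf 1 [(0,1),(2,2),(1,3)]) .nil)))) .nil)))) .nil)))) .nil)))) (.cons (.keep [4,5,8,9] (.node (.cons (.leaf
1 [(4,1),(5,1)]) (.cons (.keep [0,4,5,6,7] (.node (.cons (.leaf 2 [(8,2),(4,1)]) (.cons (.keep [0,5,6,7,8] (.spl 16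
(.cons (.leaf 1 [(2,1),(0,4),(3,3),(5,2)]) (.cons (.leaf 1 [(0,2),(1,1),(4,3)]) .nil)))) .nil)))) .nil)))) .nil))))
.nil)))) (.cons (.keep [2,7] (.node (.cons (.keep [4,5] (.spl 15 (.cons (.leaf 1 [(1,5),(2,2),(0,4)]) (.cons (.leaf 1
[(1,1),(2,2),(0,4)]) .nil)))) (.cons (.keep [2,4,5] (.spl 15 (.cons (.leaf 1 [(2,5),(1,1),(0,4),(3,2)]) (.cons (.leaf
1 [(2,1),(1,1),(0,4),(3,2)]) .nil)))) .nil)))) .nil)))) (.cons (.keep [2,7] (.node (.cons (.keep [4,5] (.spl 14 (.cons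
(.leaf 1 [(2,1),(1,5),(0,2)]) (.cons (.leaf 1 [(2,1),(1,3),(0,2)]) .nil)))) (.cons (.keep [2,4,5] (.spl 14 (.cons
(.leaf 1 [(3,1),(1,3),(2,5),(0,2)]) (.cons (.leaf 1 [(3,1),(1,3),(2,3),(0,2)]) .nil)))) .nil)))) .nil)))) (.cons
(.keep [2,5,7] (.node (.cons (.leaf 2 [(4,3),(6,1),(5,1)]) (.cons (.leaf 2 [(2,3),(6,1),(4,3),(5,1)]) .nil))))
.nil)))) (.cons (.keep [2,6] (.node (.cons (.keep [4,5] (.node (.cons (.keep [4,5] (.node (.cons (.keep [4,5] (.node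
(.cons (.keep [3,4,5] (.spl 16 (.cons (.leaf 2 [(3,1),(2,1),(0,2)]) (.cons (.leaf 2 [(3,1),(2,1),(1,2),(0,2)])
.nil)))) (.cons (.keep [2,4,5] (.spl 16 (.cons (.leaf 2 [(3,1),(2,1),(0,2),(1,2)]) (.cons (.leaf 2
[(3,1),(2,1),(0,2)]) .nil)))) .nil)))) (.cons (.keep [2,4] (.node (.cons (.leaf 1 [(4,1),(5,1)]) (.cons (.leaf 1
[(2,1),(4,1),(5,1)]) .nil)))) .nil)))) (.cons (.keep [2] (.node (.cons (.leaf 1 [(4,1)]) (.cons (.leaf 1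
[(4,1),(2,1)]) .nil)))) .nil)))) (.cons (.keep [2,4,5] (.node (.cons (.leaf 2 [(5,1),(6,1),(4,3)]) (.cons (.leaf 2
[(5,1),(6,1),(4,3),(2,2)]) .nil)))) .nil)))) .nil)))) (.cons (.keep [2,5] (.node (.cons (.keep [4,5] (.node (.cons
(.keep [4,5] (.node (.cons (.keep [4,5] (.node (.cons (.keep [4,5] (.node (.cons (.keep [3,4,5] (.spl 16 (.cons (.leaf
1 [(3,2),(0,1),(2,3)]) (.cons (.leaf 1 [(3,2),(1,1),(2,3),(0,1)]) .nil)))) (.cons (.keep [2,4,5] (.spl 16 (.cons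
(.leaf 1 [(3,2),(1,1),(0,1),(2,3)]) (.cons (.leaf 1 [(3,2),(0,1),(2,3)]) .nil)))) .nil)))) (.cons (.keep [2,4,5]
(.node (.cons (.leaf 1 [(5,3),(6,2),(4,1)]) (.cons (.leaf 1 [(6,2),(2,1),(4,1),(5,3)]) .nil)))) .nil)))) (.cons (.keep
[2,4,5] (.node (.cons (.leaf 1 [(6,1),(4,1),(5,2)]) (.cons (.leaf 1 [(6,1),(2,1),(4,1),(5,2)]) .nil)))) .nil))))
(.cons (.keep [2,4,5] (.node (.cons (.leaf 1 [(6,1),(4,1),(5,1)]) (.cons (.leaf 1 [(6,1),(2,1),(4,1),(5,1)]) .nil))))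
.nil)))) (.cons (.keep [2,4] (.node (.cons (.keep [4,5] (.node (.cons (.keep [4,5] (.node (.cons (.keep [5] (.node
(.cons (.keep [3,4] (.spl 16 (.cons (.leaf 1 [(2,1),(0,1)]) (.cons (.leaf 1 [(2,1),(1,1),(0,1)]) .nil)))) (.cons
(.keep [2,4] (.spl 16 (.cons (.leaf 1 [(2,1),(0,1),(1,1)]) (.cons (.leaf 1 [(2,1),(0,1)]) .nil)))) .nil)))) (.cons
(.keep [2,4,5] (.node (.cons (.leaf 1 [(6,1),(4,1),(5,1)]) (.cons (.leaf 1 [(6,1),(2,1),(4,1),(5,1)]) .nil))))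
.nil)))) (.cons (.keep [2,5] (.node (.cons (.leaf 1 [(5,1),(4,1)]) (.cons (.leaf 1 [(5,1),(4,1),(2,1)]) .nil))))
.nil)))) (.cons (.keep [2] (.node (.cons (.leaf 1 [(4,2)]) (.cons (.leaf 1 [(4,2),(2,1)]) .nil)))) .nil)))) .nil))))
.nil)))) .nil)))) (.cons (.keep [2,6] (.node (.cons (.keep [4,5] (.node (.cons (.keep [4,5] (.node (.cons (.keep [4,5]
(.node (.cons (.keep [3,4,5] (.node (.cons (.keep [3,4,6] (.spl 14 (.cons (.leaf 1 [(2,1),(3,2),(0,2)]) (.cons (.leaf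
1 [(1,2),(2,1),(3,2),(0,2)]) .nil)))) (.cons (.keep [2,4,5,6] (.spl 14 (.cons (.leaf 1 [(1,1),(2,1),(0,2),(4,2)])
(.cons (.leaf 1 [(3,1),(0,1),(4,2)]) .nil)))) .nil)))) (.cons (.keep [2,4,5] (.node (.cons (.leaf 1
[(4,1),(6,2),(5,2)]) (.cons (.leaf 1 [(4,1),(2,1),(5,2),(6,2)]) .nil)))) .nil)))) (.cons (.keep [2,4,5] (.node (.cons
(.leaf 1 [(6,1),(4,1),(5,1)]) (.cons (.leaf 1 [(6,1),(2,1),(4,1),(5,1)]) .nil)))) .nil)))) (.cons (.keep [2,5] (.node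
(.cons (.leaf 1 [(5,1),(4,1)]) (.cons (.leaf 1 [(5,1),(4,1),(2,1)]) .nil)))) .nil)))) (.cons (.keep [4,5] (.node
(.cons (.keep [4] (.node (.cons (.keep [4] (.node (.cons (.keep [4] (.node (.cons (.keep [4] (.node (.cons (.keep
[3,4] (.node (.cons (.keep [3,4,5] (.spl 16 (.cons (.leaf 1 [(2,1),(3,1),(0,2)]) (.cons (.leaf 1
[(2,1),(3,1),(1,2),(0,2)]) .nil)))) (.cons (.keep [2,4,5] (.node (.cons (.keep [3,4,6] (.node (.cons (.leaf 2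
[(4,2),(6,1),(5,1)]) (.cons (.keep [4,5,6] (.node (.cons (.keep [0,3,5,6] (.node (.cons (.leaf 2 [(5,1),(4,1),(7,1)])
(.cons (.keep [0,6,7] (.spl 16 (.cons (.leaf 2 [(2,1),(0,2),(3,1)]) (.cons (.leaf 1 [(0,1),(1,1),(3,1)]) .nil))))
.nil)))) (.cons (.keep [0,4,5,6] (.node (.cons (.leaf 1 [(4,1),(5,1),(7,1)]) (.cons (.keep [0,6,7] (.spl 16 (.cons
(.leaf 2 [(2,1),(0,2),(3,1)]) (.cons (.leaf 1 [(0,1),(1,1),(3,1)]) .nil)))) .nil)))) .nil)))) .nil)))) (.cons (.keep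
[4,5,6] (.node (.cons (.leaf 1 [(5,1),(4,1),(6,1)]) (.cons (.keep [4,5,6] (.node (.cons (.leaf 1 []) (.cons (.keep
[0,4,5,6] (.spl 16 (.cons (.leaf 1 [(2,1),(0,2),(4,1),(3,1)]) (.cons (.leaf 1 [(0,2),(4,1),(1,1)]) .nil)))) .nil))))
.nil)))) .nil)))) .nil)))) (.cons (.keep [2,4] (.node (.cons (.keep [4,5] (.spl 15 (.cons (.leaf 1
[(2,1),(1,3),(0,2)]) (.cons (.leaf 1 [(2,1),(1,1),(0,2)]) .nil)))) (.cons (.keep [2,4,5] (.spl 15 (.cons (.leaf 1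
[(3,1),(2,3),(0,2),(1,1)]) (.cons (.leaf 1 [(3,1),(2,1),(0,2),(1,1)]) .nil)))) .nil)))) .nil)))) (.cons (.keep [2,4]
(.node (.cons (.keep [4,5] (.spl 14 (.cons (.leaf 1 [(1,3),(2,1),(0,1)]) (.cons (.leaf 1 [(1,2),(2,1),(0,1)]) .nil))))
(.cons (.keep [2,4,5] (.spl 14 (.cons (.leaf 1 [(1,2),(3,1),(2,3),(0,1)]) (.cons (.leaf 1 [(1,2),(3,1),(2,2),(0,1)])
.nil)))) .nil)))) .nil)))) (.cons (.keep [2] (.node (.cons (.leaf 1 [(4,1)]) (.cons (.leaf 1 [(4,1),(2,1)]) .nil))))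
.nil)))) (.cons (.keep [2,4] (.node (.cons (.keep [4,5] (.node (.cons (.keep [4,5] (.node (.cons (.keep [5] (.node
(.cons (.keep [3,4] (.spl 16 (.cons (.leaf 1 [(2,1),(0,1)]) (.cons (.leaf 1 [(2,1),(1,1),(0,1)]) .nil)))) (.cons
(.keep [2,4] (.spl 16 (.cons (.leaf 1 [(2,1),(0,1),(1,1)]) (.cons (.leaf 1 [(2,1),(0,1)]) .nil)))) .nil)))) (.cons
(.keep [2,4,5] (.node (.cons (.leaf 1 [(6,1),(4,1),(5,1)]) (.cons (.leaf 1 [(6,1),(2,1),(4,1),(5,1)]) .nil))))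
.nil)))) (.cons (.keep [2,5] (.node (.cons (.leaf 1 [(5,1),(4,1)]) (.cons (.leaf 1 [(5,1),(4,1),(2,1)]) .nil))))
.nil)))) (.cons (.keep [2] (.node (.cons (.leaf 1 [(4,1)]) (.cons (.leaf 1 [(4,1),(2,1)]) .nil)))) .nil)))) .nil))))
(.cons (.keep [2,5] (.node (.cons (.keep [4,5] (.node (.cons (.keep [4,5] (.node (.cons (.keep [4,5] (.node (.cons
(.keep [4] (.node (.cons (.keep [3,4] (.spl 16 (.cons (.leaf 1 [(2,3),(0,1)]) (.cons (.leaf 1 [(2,3),(1,1),(0,1)])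
.nil)))) (.cons (.keep [2,4] (.spl 16 (.cons (.leaf 1 [(2,3),(0,1),(1,1)]) (.cons (.leaf 1 [(2,3),(0,1)]) .nil))))
.nil)))) (.cons (.keep [2,4,5] (.node (.cons (.leaf 1 [(5,2),(4,1),(6,1)]) (.cons (.leaf 1 [(5,2),(4,1),(2,1),(6,1)])
.nil)))) .nil)))) (.cons (.keep [2,4] (.node (.cons (.leaf 1 [(4,1),(5,2)]) (.cons (.leaf 1 [(4,1),(2,1),(5,2)])
.nil)))) .nil)))) (.cons (.keep [2,4] (.node (.cons (.leaf 1 [(5,1),(4,1)]) (.cons (.leaf 1 [(5,1),(4,1),(2,1)])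
.nil)))) .nil)))) (.cons (.keep [2,4] (.node (.cons (.keep [4,5] (.node (.cons (.keep [4,5] (.node (.cons (.keep [5]
(.node (.cons (.keep [3,4] (.spl 16 (.cons (.leaf 1 [(2,3),(0,1)]) (.cons (.leaf 1 [(2,3),(1,1),(0,1)]) .nil))))
(.cons (.keep [2,4] (.spl 16 (.cons (.leaf 1 [(2,3),(0,1),(1,1)]) (.cons (.leaf 1 [(2,3),(0,1)]) .nil)))) .nil))))
(.cons (.keep [2,4,5] (.node (.cons (.leaf 1 [(6,2),(4,1),(5,1)]) (.cons (.leaf 1 [(5,1),(4,1),(6,2),(2,1)]) .nil))))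
.nil)))) (.cons (.keep [2,5] (.node (.cons (.leaf 1 [(5,2),(4,1)]) (.cons (.leaf 1 [(2,1),(4,1),(5,2)]) .nil))))
.nil)))) (.cons (.keep [2,5] (.node (.cons (.leaf 1 [(5,1),(4,1)]) (.cons (.leaf 1 [(5,1),(4,1),(2,1)]) .nil))))
.nil)))) .nil)))) .nil)))) .nil)))) .nil)))) .nil)))) (.cons (.keep [2,4,5] (.node (.cons (.leaf 1 [(6,1)]) (.cons
(.keep [0,4,5,6] (.node (.cons (.keep [3,4,5,6,7] (.node (.cons (.keep [4,5,7,8] (.node (.cons (.keep [4,5,7] (.node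
(.cons (.keep [4,5,6] (.node (.cons (.keep [4] (.node (.cons (.keep [3,4] (.spl 14 (.cons (.leaf 1 [(2,1),(0,1)])
(.cons (.leaf 1 [(2,1),(1,1),(0,1)]) .nil)))) (.cons (.keep [2,4] (.spl 14 (.cons (.leaf 1 [(2,1),(0,1),(1,1)]) (.cons
(.leaf 1 [(2,1),(0,1)]) .nil)))) .nil)))) (.cons (.keep [2,5,6] (.node (.cons (.leaf 1 [(4,1),(6,1),(5,1)]) (.cons
(.leaf 1 [(2,1),(6,1),(4,1),(5,1)]) .nil)))) .nil)))) (.cons (.keep [2] (.node (.cons (.leaf 1 [(4,1)]) (.cons (.leaf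
1 [(4,1),(2,1)]) .nil)))) .nil)))) (.cons (.keep [0,2,6] (.node (.cons (.leaf 1 [(4,1),(6,1),(5,2)]) (.cons (.leaf 1
[(0,1),(2,3),(6,1),(5,2)]) .nil)))) .nil)))) (.cons (.keep [4,6] (.node (.cons (.keep [5] (.node (.cons (.keep [4]
(.node (.cons (.keep [4] (.node (.cons (.keep [4] (.node (.cons (.keep [3,4] (.node (.cons (.keep [3,4,5] (.spl 16
(.cons (.leaf 1 [(2,1),(3,1),(0,2)]) (.cons (.leaf 1 [(2,1),(3,1),(1,2),(0,2)]) .nil)))) (.cons (.keep [2,4,5] (.node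
(.cons (.keep [3,4,6] (.node (.cons (.leaf 2 [(4,2),(6,1),(5,1)]) (.cons (.keep [4,5,6] (.node (.cons (.keep [0,3,5,6]
(.node (.cons (.leaf 2 [(5,1),(4,1),(7,1)]) (.cons (.keep [0,6,7] (.spl 16 (.cons (.leaf 2 [(2,1),(0,2),(3,1)]) (.cons
(.leaf 1 [(0,1),(1,1),(3,1)]) .nil)))) .nil)))) (.cons (.keep [0,4,5,6] (.node (.cons (.leaf 1 [(4,1),(5,1),(7,1)])
(.cons (.keep [0,6,7] (.spl 16 (.cons (.leaf 2 [(2,1),(0,2),(3,1)]) (.cons (.leaf 1 [(0,1),(1,1),(3,1)]) .nil))))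
.nil)))) .nil)))) .nil)))) (.cons (.keep [4,5,6] (.node (.cons (.leaf 1 [(5,1),(4,1),(6,1)]) (.cons (.keep [4,5,6]
(.node (.cons (.leaf 1 []) (.cons (.keep [0,4,5,6] (.spl 16 (.cons (.leaf 1 [(2,1),(0,2),(4,1),(3,1)]) (.cons (.leaf 1
[(0,2),(4,1),(1,1)]) .nil)))) .nil)))) .nil)))) .nil)))) .nil)))) (.cons (.keep [2,4] (.node (.cons (.keep [4,5] (.spl
15 (.cons (.leaf 1 [(2,1),(1,3),(0,2)]) (.cons (.leaf 1 [(2,1),(1,1),(0,2)]) .nil)))) (.cons (.keep [2,4,5] (.spl 15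
(.cons (.leaf 1 [(3,1),(2,3),(0,2),(1,1)]) (.cons (.leaf 1 [(3,1),(2,1),(0,2),(1,1)]) .nil)))) .nil)))) .nil))))
(.cons (.keep [2,4] (.node (.cons (.keep [4,5] (.spl 14 (.cons (.leaf 1 [(1,3),(2,1),(0,1)]) (.cons (.leaf 1
[(1,2),(2,1),(0,1)]) .nil)))) (.cons (.keep [2,4,5] (.spl 14 (.cons (.leaf 1 [(1,2),(3,1),(2,3),(0,1)]) (.cons (.leaf
1 [(1,2),(3,1),(2,2),(0,1)]) .nil)))) .nil)))) .nil)))) (.cons (.keep [2] (.node (.cons (.leaf 1 [(4,1)]) (.cons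
(.leaf 1 [(4,1),(2,1)]) .nil)))) .nil)))) (.cons (.keep [2,4] (.node (.cons (.keep [4,5] (.node (.cons (.keep [4,5]
(.node (.cons (.keep [5] (.node (.cons (.keep [3,4] (.spl 16 (.cons (.leaf 1 [(2,1),(0,1)]) (.cons (.leaf 1
[(2,1),(1,1),(0,1)]) .nil)))) (.cons (.keep [2,4] (.spl 16 (.cons (.leaf 1 [(2,1),(0,1),(1,1)]) (.cons (.leaf 1
[(2,1),(0,1)]) .nil)))) .nil)))) (.cons (.keep [2,4,5] (.node (.cons (.leaf 1 [(6,1),(4,1),(5,1)]) (.cons (.leaf 1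
[(6,1),(2,1),(4,1),(5,1)]) .nil)))) .nil)))) (.cons (.keep [2,5] (.node (.cons (.leaf 1 [(5,1),(4,1)]) (.cons (.leaf 1
[(5,1),(4,1),(2,1)]) .nil)))) .nil)))) (.cons (.keep [2] (.node (.cons (.leaf 1 [(4,1)]) (.cons (.leaf 1
[(4,1),(2,1)]) .nil)))) .nil)))) .nil)))) (.cons (.keep [2,4] (.node (.cons (.keep [4,5] (.node (.cons (.keep [4,5]
(.node (.cons (.keep [4,5] (.node (.cons (.keep [4] (.node (.cons (.keep [3,4] (.spl 16 (.cons (.leaf 1 [(2,1),(0,1)])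
(.cons (.leaf 1 [(2,1),(1,1),(0,1)]) .nil)))) (.cons (.keep [2,4] (.spl 16 (.cons (.leaf 1 [(2,1),(0,1),(1,1)]) (.cons
(.leaf 1 [(2,1),(0,1)]) .nil)))) .nil)))) (.cons (.keep [2,4,5] (.node (.cons (.leaf 1 [(5,2),(4,1),(6,1)]) (.cons
(.leaf 1 [(5,2),(2,1),(4,1),(6,1)]) .nil)))) .nil)))) (.cons (.keep [2,4] (.node (.cons (.leaf 1 [(5,1),(4,1)]) (.cons
(.leaf 1 [(5,1),(4,1),(2,1)]) .nil)))) .nil)))) (.cons (.keep [2] (.node (.cons (.leaf 1 [(4,1)]) (.cons (.leaf 1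
[(4,1),(2,1)]) .nil)))) .nil)))) (.cons (.keep [2,4] (.node (.cons (.keep [4,5] (.node (.cons (.keep [4,5] (.node
(.cons (.keep [5] (.node (.cons (.keep [3,4] (.spl 16 (.cons (.leaf 1 [(2,1),(0,1)]) (.cons (.leaf 1
[(2,1),(1,1),(0,1)]) .nil)))) (.cons (.keep [2,4] (.spl 16 (.cons (.leaf 1 [(2,1),(0,1),(1,1)]) (.cons (.leaf 1
[(2,1),(0,1)]) .nil)))) .nil)))) (.cons (.keep [2,4,5] (.node (.cons (.leaf 1 [(6,1),(4,1),(5,1)]) (.cons (.leaf 1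
[(6,1),(2,1),(4,1),(5,1)]) .nil)))) .nil)))) (.cons (.keep [2,5] (.node (.cons (.leaf 1 [(5,1),(4,1)]) (.cons (.leaf 1
[(5,1),(4,1),(2,1)]) .nil)))) .nil)))) (.cons (.keep [2] (.node (.cons (.leaf 1 [(4,1)]) (.cons (.leaf 1
[(4,1),(2,1)]) .nil)))) .nil)))) .nil)))) .nil)))) .nil)))) (.cons (.keep [2,7] (.node (.cons (.keep [4,5] (.node
(.cons (.keep [4,5] (.node (.cons (.keep [4,5] (.node (.cons (.keep [4] (.node (.cons (.keep [3,4] (.spl 14 (.cons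
(.leaf 1 [(2,1),(0,1)]) (.cons (.leaf 1 [(2,1),(1,1),(0,1)]) .nil)))) (.cons (.keep [2,4] (.spl 14 (.cons (.leaf 1
[(2,1),(0,1),(1,1)]) (.cons (.leaf 1 [(2,1),(0,1)]) .nil)))) .nil)))) (.cons (.keep [2,4,5] (.node (.cons (.leaf 1
[(5,1),(4,1),(6,1)]) (.cons (.leaf 1 [(2,1),(4,1),(5,1),(6,1)]) .nil)))) .nil)))) (.cons (.keep [2,4] (.node (.cons
(.leaf 1 [(4,1),(5,1)]) (.cons (.leaf 1 [(2,1),(4,1),(5,1)]) .nil)))) .nil)))) (.cons (.keep [2] (.node (.cons (.leaf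
1 [(4,1)]) (.cons (.leaf 1 [(4,1),(2,1)]) .nil)))) .nil)))) (.cons (.keep [4] (.node (.cons (.keep [4] (.node (.cons
(.keep [4] (.node (.cons (.keep [4] (.node (.cons (.keep [4] (.node (.cons (.keep [3,4] (.node (.cons (.keep [3,4,5]
(.spl 16 (.cons (.leaf 1 [(2,1),(3,4),(0,2)]) (.cons (.leaf 1 [(2,1),(3,4),(1,2),(0,2)]) .nil)))) (.cons (.keep
[2,4,5] (.node (.cons (.keep [3,4,6] (.node (.cons (.leaf 2 [(4,2),(6,3),(5,1)]) (.cons (.keep [4,5,6] (.node (.cons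
(.keep [0,3,5,6] (.node (.cons (.leaf 2 [(5,1),(4,1),(7,4)]) (.cons (.keep [0,6,7] (.spl 16 (.cons (.leaf 2
[(2,1),(0,2),(3,5)]) (.cons (.leaf 1 [(0,1),(1,1),(3,4)]) .nil)))) .nil)))) (.cons (.keep [0,4,5,6] (.node (.cons
(.leaf 1 [(5,1),(4,1),(7,3)]) (.cons (.keep [0,6,7] (.spl 16 (.cons (.leaf 2 [(2,1),(3,5),(0,2)]) (.cons (.leaf 1
[(3,4),(1,1),(0,1)]) .nil)))) .nil)))) .nil)))) .nil)))) (.cons (.keep [4,5,6] (.node (.cons (.leaf 1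
[(4,1),(5,1),(6,2)]) (.cons (.keep [4,6] (.node (.cons (.leaf 1 [(5,1)]) (.cons (.keep [0,4,5] (.spl 16 (.cons (.leaf
1 [(3,5),(0,2),(2,2),(1,1)]) (.cons (.leaf 1 [(3,5),(0,2),(1,1)]) .nil)))) .nil)))) .nil)))) .nil)))) .nil)))) (.cons
(.keep [2,4] (.node (.cons (.keep [4,5] (.spl 15 (.cons (.leaf 1 [(2,4),(1,3),(0,2)]) (.cons (.leaf 1
[(2,4),(1,1),(0,2)]) .nil)))) (.cons (.keep [2,4,5] (.spl 15 (.cons (.leaf 1 [(0,2),(2,3),(3,4),(1,1)]) (.cons (.leaf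
1 [(0,2),(2,1),(3,4),(1,1)]) .nil)))) .nil)))) .nil)))) (.cons (.keep [2,4] (.node (.cons (.keep [4,5] (.spl 14 (.cons
(.leaf 1 [(1,3),(2,3),(0,1)]) (.cons (.leaf 1 [(1,2),(2,3),(0,1)]) .nil)))) (.cons (.keep [2,4,5] (.spl 14 (.cons
(.leaf 1 [(2,3),(1,2),(0,1),(3,3)]) (.cons (.leaf 1 [(2,2),(1,2),(0,1),(3,3)]) .nil)))) .nil)))) .nil)))) (.cons
(.keep [2,4] (.node (.cons (.leaf 1 [(5,1),(4,1)]) (.cons (.leaf 1 [(4,1),(5,1),(2,1)]) .nil)))) .nil)))) (.cons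
(.keep [2,4] (.node (.cons (.keep [4,5] (.node (.cons (.keep [4,5] (.node (.cons (.keep [5] (.node (.cons (.keep [3,4]
(.spl 16 (.cons (.leaf 1 [(2,3),(0,1)]) (.cons (.leaf 1 [(2,3),(1,1),(0,1)]) .nil)))) (.cons (.keep [2,4] (.spl 16
(.cons (.leaf 1 [(2,3),(0,1),(1,1)]) (.cons (.leaf 1 [(2,3),(0,1)]) .nil)))) .nil)))) (.cons (.keep [2,4,5] (.node
(.cons (.leaf 1 [(6,2),(4,1),(5,1)]) (.cons (.leaf 1 [(5,1),(4,1),(6,2),(2,1)]) .nil)))) .nil)))) (.cons (.keep [2,5]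
(.node (.cons (.leaf 1 [(5,2),(4,1)]) (.cons (.leaf 1 [(2,1),(4,1),(5,2)]) .nil)))) .nil)))) (.cons (.keep [2,5]
(.node (.cons (.leaf 1 [(5,1),(4,1)]) (.cons (.leaf 1 [(4,1),(5,1),(2,1)]) .nil)))) .nil)))) .nil)))) (.cons (.keep
[2,4] (.node (.cons (.keep [4,5] (.node (.cons (.keep [4,5] (.node (.cons (.keep [4,5] (.node (.cons (.keep [4,5]
(.node (.cons (.keep [3,4,5] (.spl 16 (.cons (.leaf 1 [(2,1),(3,2),(0,1)]) (.cons (.leaf 1 [(2,1),(3,2),(1,1),(0,1)])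
.nil)))) (.cons (.keep [2,4,5] (.spl 16 (.cons (.leaf 1 [(2,1),(3,2),(0,1),(1,1)]) (.cons (.leaf 1
[(2,1),(3,2),(0,1)]) .nil)))) .nil)))) (.cons (.keep [2,4] (.node (.cons (.leaf 1 [(4,1),(5,2)]) (.cons (.leaf 1
[(5,2),(4,1),(2,1)]) .nil)))) .nil)))) (.cons (.keep [2,4,5] (.node (.cons (.leaf 1 [(4,1),(6,1),(5,1)]) (.cons (.leaf
1 [(4,1),(2,1),(5,1),(6,1)]) .nil)))) .nil)))) (.cons (.keep [2,5] (.node (.cons (.leaf 1 [(5,1),(4,1)]) (.cons (.leaf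
1 [(4,1),(5,1),(2,1)]) .nil)))) .nil)))) (.cons (.keep [2,4] (.node (.cons (.keep [4,5] (.node (.cons (.keep [4,5]
(.node (.cons (.keep [5] (.node (.cons (.keep [3,4] (.spl 16 (.cons (.leaf 1 [(2,3),(0,1)]) (.cons (.leaf 1
[(2,3),(1,1),(0,1)]) .nil)))) (.cons (.keep [2,4] (.spl 16 (.cons (.leaf 1 [(2,3),(0,1),(1,1)]) (.cons (.leaf 1
[(2,3),(0,1)]) .nil)))) .nil)))) (.cons (.keep [2,4,5] (.node (.cons (.leaf 1 [(6,2),(4,1),(5,1)]) (.cons (.leaf 1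
[(5,1),(4,1),(6,2),(2,1)]) .nil)))) .nil)))) (.cons (.keep [2,5] (.node (.cons (.leaf 1 [(5,2),(4,1)]) (.cons (.leaf 1
[(2,1),(4,1),(5,2)]) .nil)))) .nil)))) (.cons (.keep [5] (.node (.cons (.leaf 1 [(4,1)]) (.cons (.leaf 1
[(4,1),(2,1)]) .nil)))) .nil)))) .nil)))) .nil)))) .nil)))) .nil)))) .nil)))) .nil)))) .nil)))) (.cons (.keep [2,4,5]
(.node (.cons (.keep [4,6] (.node (.cons (.keep [3,4,5] (.node (.cons (.leaf 1 [(6,1),(5,1),(4,1)]) (.cons (.keep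
[2,4,6] (.node (.cons (.keep [0,3,6] (.node (.cons (.leaf 1 [(6,1),(5,1),(4,1)]) (.cons (.keep [0,4,6] (.node (.cons
(.keep [4,5,6] (.node (.cons (.keep [4,5,6] (.node (.cons (.keep [4,5,6] (.node (.cons (.keep [4,6] (.node (.cons
(.keep [5] (.node (.cons (.keep [3,4] (.spl 16 (.cons (.leaf 1 [(2,1),(0,1)]) (.cons (.leaf 1 [(1,1),(2,1),(0,1)])
.nil)))) (.cons (.keep [2,4] (.spl 16 (.cons (.leaf 1 [(1,1),(0,1),(2,1)]) (.cons (.leaf 1 [(0,1),(2,1)]) .nil))))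
.nil)))) (.cons (.keep [2,4,5] (.node (.cons (.leaf 1 [(4,1),(6,3),(5,4)]) (.cons (.leaf 1 [(4,1),(2,1),(5,4),(6,3)])
.nil)))) .nil)))) (.cons (.keep [2,5,6] (.node (.cons (.leaf 2 [(6,1),(4,3),(5,1)]) (.cons (.leaf 2
[(4,3),(2,3),(6,1),(5,1)]) .nil)))) .nil)))) (.cons (.keep [0,2,6] (.node (.cons (.leaf 4 [(4,1),(6,3),(5,4)]) (.cons
(.leaf 4 [(0,1),(2,5),(5,4),(6,3)]) .nil)))) .nil)))) (.cons (.keep [0,2,6] (.node (.cons (.keep [4,5,6] (.node (.cons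
(.keep [4,5,6] (.node (.cons (.keep [4,6] (.node (.cons (.keep [3,4,5] (.spl 16 (.cons (.leaf 1 [(2,3),(3,2),(0,1)])
(.cons (.leaf 1 [(2,3),(3,2),(1,1),(0,1)]) .nil)))) (.cons (.keep [2,4,5] (.spl 16 (.cons (.leaf 1
[(2,3),(3,2),(0,1),(1,1)]) (.cons (.leaf 1 [(2,3),(3,2),(0,1)]) .nil)))) .nil)))) (.cons (.keep [2,5,6] (.node (.cons
(.leaf 3 [(4,3),(6,1),(5,1)]) (.cons (.leaf 3 [(2,3),(6,1),(4,3),(5,1)]) .nil)))) .nil)))) (.cons (.keep [2,4,6]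
(.node (.cons (.leaf 1 [(6,1),(5,2),(4,1)]) (.cons (.leaf 1 [(6,1),(4,1),(5,2),(2,1)]) .nil)))) .nil)))) (.cons (.keep
[0,2,6] (.node (.cons (.leaf 1 [(6,1),(4,1),(5,2)]) (.cons (.leaf 1 [(2,2),(0,1),(5,2),(6,1)]) .nil)))) .nil))))
.nil)))) (.cons (.keep [2,6] (.node (.cons (.keep [4,5] (.node (.cons (.keep [4,5] (.node (.cons (.keep [4,5] (.node
(.cons (.keep [5] (.node (.cons (.keep [3,4] (.spl 16 (.cons (.leaf 1 [(2,1),(0,1)]) (.cons (.leaf 1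
[(1,1),(2,1),(0,1)]) .nil)))) (.cons (.keep [2,4] (.spl 16 (.cons (.leaf 1 [(1,1),(0,1),(2,1)]) (.cons (.leaf 1
[(0,1),(2,1)]) .nil)))) .nil)))) (.cons (.keep [2,4,5] (.node (.cons (.leaf 1 [(4,1),(6,1),(5,1)]) (.cons (.leaf 1
[(4,1),(2,1),(5,1),(6,1)]) .nil)))) .nil)))) (.cons (.keep [2,4,5] (.node (.cons (.leaf 2 [(6,1),(4,2),(5,1)]) (.cons
(.leaf 2 [(6,1),(2,2),(4,2),(5,1)]) .nil)))) .nil)))) (.cons (.keep [0,2,5] (.node (.cons (.leaf 2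
[(4,1),(6,2),(5,2)]) (.cons (.leaf 2 [(0,1),(6,2),(5,2),(2,3)]) .nil)))) .nil)))) (.cons (.keep [4,5] (.node (.cons
(.keep [4,5] (.node (.cons (.keep [4,5] (.node (.cons (.keep [4,5] (.node (.cons (.keep [3,4,5] (.spl 16 (.cons (.leaf
1 [(2,1),(3,2),(0,1)]) (.cons (.leaf 1 [(2,1),(3,2),(1,1),(0,1)]) .nil)))) (.cons (.keep [2,4,5] (.spl 16 (.cons
(.leaf 1 [(2,1),(3,2),(0,1),(1,1)]) (.cons (.leaf 1 [(2,1),(3,2),(0,1)]) .nil)))) .nil)))) (.cons (.keep [2] (.node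
(.cons (.leaf 1 [(4,1)]) (.cons (.leaf 1 [(4,1),(2,1)]) .nil)))) .nil)))) (.cons (.keep [2,4,5] (.node (.cons (.leaf 1
[(6,1),(5,1),(4,1)]) (.cons (.leaf 1 [(6,1),(2,1),(5,1),(4,1)]) .nil)))) .nil)))) (.cons (.keep [5] (.node (.cons
(.leaf 1 [(4,1)]) (.cons (.leaf 1 [(4,1),(2,1)]) .nil)))) .nil)))) .nil)))) .nil)))) .nil)))) (.cons (.keep [2,4,5,6]
(.node (.cons (.leaf 1 [(6,1)]) (.cons (.keep [0,4,5,6,7] (.node (.cons (.keep [3,4,5,6,7,8] (.node (.cons (.keep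
[4,5,7,8] (.node (.cons (.keep [4,5,7] (.node (.cons (.keep [4,5,6] (.node (.cons (.keep [4] (.node (.cons (.keep
[3,4] (.spl 16 (.cons (.leaf 1 [(2,1),(0,1)]) (.cons (.leaf 1 [(2,1),(1,1),(0,1)]) .nil)))) (.cons (.keep [2,4] (.spl
16 (.cons (.leaf 1 [(2,1),(0,1),(1,1)]) (.cons (.leaf 1 [(2,1),(0,1)]) .nil)))) .nil)))) (.cons (.keep [2,5,6] (.node
(.cons (.leaf 1 [(4,1),(6,1),(5,1)]) (.cons (.leaf 1 [(2,1),(6,1),(4,1),(5,1)]) .nil)))) .nil)))) (.cons (.keep [2]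
(.node (.cons (.leaf 1 [(4,1)]) (.cons (.leaf 1 [(4,1),(2,1)]) .nil)))) .nil)))) (.cons (.keep [0,2,6] (.node (.cons
(.leaf 1 [(4,1),(6,1),(5,2)]) (.cons (.leaf 1 [(0,1),(2,3),(6,1),(5,2)]) .nil)))) .nil)))) (.cons (.keep [6,9] (.node
(.cons (.keep [4,5] (.node (.cons (.keep [4,5] (.node (.cons (.keep [4,5] (.node (.cons (.keep [3,4,5] (.spl 16 (.cons
(.leaf 1 [(2,1),(3,2),(0,1)]) (.cons (.leaf 1 [(2,1),(3,2),(1,1),(0,1)]) .nil)))) (.cons (.keep [2,4,5] (.spl 16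
(.cons (.leaf 1 [(2,1),(3,2),(0,1),(1,1)]) (.cons (.leaf 1 [(2,1),(3,2),(0,1)]) .nil)))) .nil)))) (.cons (.keep [2]
(.node (.cons (.leaf 1 [(4,1)]) (.cons (.leaf 1 [(4,1),(2,1)]) .nil)))) .nil)))) (.cons (.keep [2,4,5] (.node (.cons
(.leaf 1 [(6,1),(5,1),(4,1)]) (.cons (.leaf 1 [(6,1),(2,1),(5,1),(4,1)]) .nil)))) .nil)))) (.cons (.keep [2,5] (.node
(.cons (.leaf 1 [(5,1),(4,1)]) (.cons (.leaf 1 [(5,1),(2,1),(4,1)]) .nil)))) .nil)))) .nil)))) (.cons (.keep [2,7,8]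
(.node (.cons (.keep [4,5] (.node (.cons (.keep [4,5] (.node (.cons (.keep [4,5] (.node (.cons (.keep [4] (.node
(.cons (.keep [3,4] (.spl 16 (.cons (.leaf 1 [(2,1),(0,1)]) (.cons (.leaf 1 [(2,1),(1,1),(0,1)]) .nil)))) (.cons
(.keep [2,4] (.spl 16 (.cons (.leaf 1 [(2,1),(0,1),(1,1)]) (.cons (.leaf 1 [(2,1),(0,1)]) .nil)))) .nil)))) (.cons
(.keep [2,4,5] (.node (.cons (.leaf 1 [(5,1),(4,1),(6,1)]) (.cons (.leaf 1 [(2,1),(4,1),(5,1),(6,1)]) .nil))))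
.nil)))) (.cons (.keep [2,4] (.node (.cons (.leaf 1 [(4,1),(5,1)]) (.cons (.leaf 1 [(2,1),(4,1),(5,1)]) .nil))))
.nil)))) (.cons (.keep [2] (.node (.cons (.leaf 1 [(4,1)]) (.cons (.leaf 1 [(4,1),(2,1)]) .nil)))) .nil)))) (.cons
(.keep [2,6] (.node (.cons (.keep [0,4,5] (.node (.cons (.keep [4,5,6] (.node (.cons (.keep [4,6] (.node (.cons (.keep
[3,4,5] (.spl 16 (.cons (.leaf 1 [(3,3),(2,1),(0,2)]) (.cons (.leaf 1 [(3,3),(2,1),(1,2),(0,2)]) .nil)))) (.cons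
(.keep [2,4,5] (.spl 16 (.cons (.leaf 1 [(3,3),(2,1),(0,2),(1,2)]) (.cons (.leaf 1 [(3,3),(2,1),(0,2)]) .nil))))
.nil)))) (.cons (.keep [2,5,6] (.node (.cons (.leaf 1 [(6,1),(4,1),(5,1)]) (.cons (.leaf 1 [(4,1),(2,1),(6,1),(5,1)])
.nil)))) .nil)))) (.cons (.keep [2,6] (.node (.cons (.leaf 1 [(5,1),(4,1)]) (.cons (.leaf 1 [(2,1),(4,1),(5,1)])
.nil)))) .nil)))) (.cons (.keep [0,2,5] (.node (.cons (.leaf 1 [(6,1),(4,1),(5,2)]) (.cons (.leaf 1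
[(6,1),(0,1),(5,2),(2,2)]) .nil)))) .nil)))) .nil)))) .nil)))) .nil)))) .nil)))) .nil)))) (.cons (.keep [2,5] (.node
(.cons (.keep [3,5] (.node (.cons (.leaf 1 [(4,1),(5,1)]) (.cons (.keep [0,5] (.node (.cons (.keep [4,5] (.node (.cons
(.keep [0,4,5] (.node (.cons (.leaf 1 [(5,1),(6,2),(4,1)]) (.cons (.leaf 1 [(5,1),(6,2),(0,1)]) .nil)))) (.cons (.keep
[2,4,5] (.node (.cons (.keep [5,6] (.spl 21 (.cons (.leaf 2 [(0,1),(2,2)]) (.cons (.leaf 1 [(1,1),(0,1),(2,2)]) (.cons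
(.leaf 3 [(1,1),(0,1),(2,3)]) .nil))))) (.cons (.keep [0,4,5,6] (.spl 21 (.cons (.leaf 2 [(4,2),(0,1)]) (.cons (.leaf
1 [(3,1),(0,1),(4,3),(1,1)]) (.cons (.leaf 2 [(0,1),(4,2),(2,1)]) .nil))))) .nil)))) .nil)))) (.cons (.keep [5] (.node
(.cons (.keep [0,4] (.node (.cons (.leaf 1 [(5,1),(4,1)]) (.cons (.leaf 1 [(5,1),(0,1)]) .nil)))) (.cons (.keep [4]
(.node (.cons (.leaf 1 []) (.cons (.leaf 1 [(4,1),(0,1)]) .nil)))) .nil)))) .nil)))) .nil)))) (.cons (.keep [4,5]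
(.node (.cons (.keep [3,4,5] (.node (.cons (.leaf 1 [(4,1)]) (.cons (.keep [0,4,5,6] (.node (.cons (.keep [4,6,7]
(.node (.cons (.keep [0,4,6] (.node (.cons (.keep [4,5,6] (.node (.cons (.keep [4,5,6] (.node (.cons (.keep [4,6]
(.node (.cons (.keep [3,4,5] (.spl 16 (.cons (.leaf 2 [(2,1),(3,1),(0,2)]) (.cons (.leaf 2 [(2,1),(3,1),(1,2),(0,2)])
.nil)))) (.cons (.keep [2,4,5] (.spl 16 (.cons (.leaf 2 [(2,1),(3,1),(0,2),(1,2)]) (.cons (.leaf 2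
[(2,1),(3,1),(0,2)]) .nil)))) .nil)))) (.cons (.keep [2,5,6] (.node (.cons (.leaf 1 [(4,1),(6,1),(5,2)]) (.cons (.leaf
1 [(2,1),(6,1),(4,1),(5,2)]) .nil)))) .nil)))) (.cons (.keep [2] (.node (.cons (.leaf 1 [(4,1)]) (.cons (.leaf 1
[(4,1),(2,1)]) .nil)))) .nil)))) (.cons (.keep [0,2,6] (.node (.cons (.leaf 2 [(4,1),(6,1),(5,2)]) (.cons (.leaf 2
[(0,1),(2,3),(6,1),(5,2)]) .nil)))) .nil)))) (.cons (.keep [5,6] (.node (.cons (.keep [4,5] (.node (.cons (.keep [4,5]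
(.node (.cons (.keep [4,5] (.node (.cons (.keep [3,4,5] (.spl 16 (.cons (.leaf 1 [(2,3),(3,2),(0,1)]) (.cons (.leaf 1
[(2,3),(3,2),(1,1),(0,1)]) .nil)))) (.cons (.keep [2,4,5] (.spl 16 (.cons (.leaf 1 [(2,3),(3,2),(0,1),(1,1)]) (.cons
(.leaf 1 [(2,3),(3,2),(0,1)]) .nil)))) .nil)))) (.cons (.keep [2] (.node (.cons (.leaf 1 [(4,1)]) (.cons (.leaf 1
[(4,1),(2,1)]) .nil)))) .nil)))) (.cons (.keep [2,4,5] (.node (.cons (.leaf 1 [(6,1),(5,2),(4,1)]) (.cons (.leaf 1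
[(6,1),(5,2),(4,1),(2,1)]) .nil)))) .nil)))) (.cons (.keep [2,4,5] (.node (.cons (.leaf 1 [(5,1),(6,1),(4,1)]) (.cons
(.leaf 1 [(5,1),(6,1),(4,1),(2,1)]) .nil)))) .nil)))) .nil)))) (.cons (.keep [2,5,7] (.node (.cons (.keep [0,4,5]
(.node (.cons (.keep [4,5,6] (.node (.cons (.keep [4,5,6] (.node (.cons (.keep [4,6] (.node (.cons (.keep [3,4,5]
(.spl 16 (.cons (.leaf 1 [(2,1),(3,1),(0,1)]) (.cons (.leaf 1 [(2,1),(3,1),(1,1),(0,1)]) .nil)))) (.cons (.keep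
[2,4,5] (.spl 16 (.cons (.leaf 1 [(2,1),(3,1),(0,1),(1,1)]) (.cons (.leaf 1 [(2,1),(3,1),(0,1)]) .nil)))) .nil))))
(.cons (.keep [2,5,6] (.node (.cons (.leaf 1 [(4,1),(6,1),(5,1)]) (.cons (.leaf 1 [(2,1),(6,1),(4,1),(5,1)]) .nil))))
.nil)))) (.cons (.keep [2] (.node (.cons (.leaf 1 [(4,1)]) (.cons (.leaf 1 [(4,1),(2,1)]) .nil)))) .nil)))) (.cons
(.keep [0,2,6] (.node (.cons (.leaf 1 [(4,1),(6,1),(5,1)]) (.cons (.leaf 1 [(0,1),(2,2),(6,1),(5,1)]) .nil))))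
.nil)))) (.cons (.keep [4,6] (.node (.cons (.keep [4,5] (.node (.cons (.keep [4,5] (.node (.cons (.keep [4,5] (.node
(.cons (.keep [3,4,5] (.spl 16 (.cons (.leaf 1 [(2,1),(3,2),(0,1)]) (.cons (.leaf 1 [(2,1),(3,2),(1,1),(0,1)])
.nil)))) (.cons (.keep [2,4,5] (.spl 16 (.cons (.leaf 1 [(2,1),(3,2),(0,1),(1,1)]) (.cons (.leaf 1
[(2,1),(3,2),(0,1)]) .nil)))) .nil)))) (.cons (.keep [2] (.node (.cons (.leaf 1 [(4,1)]) (.cons (.leaf 1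
[(4,1),(2,1)]) .nil)))) .nil)))) (.cons (.keep [2,4,5] (.node (.cons (.leaf 1 [(6,1),(5,1),(4,1)]) (.cons (.leaf 1
[(6,1),(2,1),(5,1),(4,1)]) .nil)))) .nil)))) (.cons (.keep [5] (.node (.cons (.leaf 1 [(4,1)]) (.cons (.leaf 1
[(2,1),(4,1)]) .nil)))) .nil)))) .nil)))) .nil)))) .nil)))) (.cons (.keep [2,5] (.node (.cons (.leaf 1 []) (.cons
(.keep [0,4,5] (.node (.cons (.keep [4,5,6] (.node (.cons (.keep [4,5] (.node (.cons (.keep [0,4,5] (.node (.cons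
(.keep [4,5,6] (.node (.cons (.keep [4,6] (.node (.cons (.keep [3,4,5] (.spl 16 (.cons (.leaf 1 [(3,3),(2,1),(0,2)])
(.cons (.leaf 1 [(3,3),(2,1),(1,2),(0,2)]) .nil)))) (.cons (.keep [2,4,5] (.spl 16 (.cons (.leaf 1
[(3,3),(2,1),(0,2),(1,2)]) (.cons (.leaf 1 [(3,3),(2,1),(0,2)]) .nil)))) .nil)))) (.cons (.keep [2,5,6] (.node (.cons
(.leaf 1 [(6,1),(4,1),(5,1)]) (.cons (.leaf 1 [(4,1),(2,1),(6,1),(5,1)]) .nil)))) .nil)))) (.cons (.keep [2,6] (.node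
(.cons (.leaf 1 [(5,1),(4,1)]) (.cons (.leaf 1 [(2,1),(4,1),(5,1)]) .nil)))) .nil)))) (.cons (.keep [0,2,5] (.node
(.cons (.leaf 1 [(6,1),(4,1),(5,1)]) (.cons (.leaf 1 [(6,1),(5,1),(0,1),(2,2)]) .nil)))) .nil)))) (.cons (.keep [5,6]
(.node (.cons (.keep [4,5] (.node (.cons (.keep [4,5] (.node (.cons (.keep [4,5] (.node (.cons (.keep [3,4,5] (.spl 16
(.cons (.leaf 1 [(2,1),(3,2),(0,1)]) (.cons (.leaf 1 [(2,1),(3,2),(1,1),(0,1)]) .nil)))) (.cons (.keep [2,4,5] (.spl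
16 (.cons (.leaf 1 [(2,1),(3,2),(0,1),(1,1)]) (.cons (.leaf 1 [(2,1),(3,2),(0,1)]) .nil)))) .nil)))) (.cons (.keep
[2,4] (.node (.cons (.leaf 1 [(5,1),(4,1)]) (.cons (.leaf 1 [(4,1),(5,1),(2,1)]) .nil)))) .nil)))) (.cons (.keep
[2,4,5] (.node (.cons (.leaf 1 [(6,1),(5,1),(4,1)]) (.cons (.leaf 1 [(6,1),(2,1),(4,1),(5,1)]) .nil)))) .nil))))
(.cons (.keep [2,5] (.node (.cons (.leaf 1 [(5,1),(4,1)]) (.cons (.leaf 1 [(4,1),(2,1),(5,1)]) .nil)))) .nil))))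
.nil)))) (.cons (.keep [2,5,6] (.node (.cons (.keep [4,5] (.node (.cons (.keep [0,4,5] (.node (.cons (.keep [4,5,6]
(.node (.cons (.keep [4,6] (.node (.cons (.keep [3,4,5] (.spl 16 (.cons (.leaf 1 [(3,3),(2,1),(0,2)]) (.cons (.leaf 1
[(3,3),(2,1),(1,2),(0,2)]) .nil)))) (.cons (.keep [2,4,5] (.spl 16 (.cons (.leaf 1 [(3,3),(2,1),(0,2),(1,2)]) (.cons
(.leaf 1 [(3,3),(2,1),(0,2)]) .nil)))) .nil)))) (.cons (.keep [2,5] (.node (.cons (.leaf 1 [(4,1),(5,1)]) (.cons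
(.leaf 1 [(4,1),(2,1),(5,1)]) .nil)))) .nil)))) (.cons (.keep [2,6] (.node (.cons (.leaf 1 [(5,1),(4,1)]) (.cons
(.leaf 1 [(2,1),(4,1),(5,1)]) .nil)))) .nil)))) (.cons (.keep [0,2,5] (.node (.cons (.leaf 1 [(6,1),(4,1),(5,1)])
(.cons (.leaf 1 [(6,1),(5,1),(0,1),(2,2)]) .nil)))) .nil)))) (.cons (.keep [2,6] (.node (.cons (.keep [0,4,5] (.node
(.cons (.keep [4,5,6] (.node (.cons (.keep [4,6] (.node (.cons (.keep [3,4,5] (.spl 16 (.cons (.leaf 1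
[(3,3),(2,1),(0,2)]) (.cons (.leaf 1 [(3,3),(2,1),(1,2),(0,2)]) .nil)))) (.cons (.keep [2,4,5] (.spl 16 (.cons (.leaf
1 [(3,3),(2,1),(0,2),(1,2)]) (.cons (.leaf 1 [(3,3),(2,1),(0,2)]) .nil)))) .nil)))) (.cons (.keep [2,5,6] (.node
(.cons (.leaf 1 [(6,1),(4,1),(5,1)]) (.cons (.leaf 1 [(4,1),(2,1),(6,1),(5,1)]) .nil)))) .nil)))) (.cons (.keep [2,6]
(.node (.cons (.leaf 1 [(5,1),(4,1)]) (.cons (.leaf 1 [(2,1),(4,1),(5,1)]) .nil)))) .nil)))) (.cons (.keep [0,2,5]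
(.node (.cons (.leaf 1 [(6,1),(4,1),(5,1)]) (.cons (.leaf 1 [(6,1),(5,1),(0,1),(2,2)]) .nil)))) .nil)))) .nil))))
.nil)))) .nil)))) .nil)))) .nil)))) .nil)))) (.cons (.keep [4,5] (.node (.cons (.keep [3,4,5] (.node (.cons (.leaf 1
[(4,1)]) (.cons (.keep [0,4,5,6] (.node (.cons (.keep [3,4,5,6,7] (.node (.cons (.keep [4,5,6] (.node (.cons (.keep
[4,5,6] (.node (.cons (.keep [4,5,6] (.node (.cons (.keep [4] (.node (.cons (.keep [3,4] (.spl 14 (.cons (.leaf 1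
[(2,1),(0,1)]) (.cons (.leaf 1 [(2,1),(1,1),(0,1)]) .nil)))) (.cons (.keep [2,4] (.spl 14 (.cons (.leaf 1
[(2,1),(0,1),(1,1)]) (.cons (.leaf 1 [(2,1),(0,1)]) .nil)))) .nil)))) (.cons (.keep [2,5,6] (.node (.cons (.leaf 1
[(4,1),(6,1),(5,1)]) (.cons (.leaf 1 [(2,1),(6,1),(4,1),(5,1)]) .nil)))) .nil)))) (.cons (.keep [2] (.node (.cons
(.leaf 1 [(4,1)]) (.cons (.leaf 1 [(4,1),(2,1)]) .nil)))) .nil)))) (.cons (.keep [0,2,6] (.node (.cons (.leaf 1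
[(4,1),(6,1),(5,1)]) (.cons (.leaf 1 [(0,1),(2,2),(6,1),(5,1)]) .nil)))) .nil)))) (.cons (.keep [4,7,8] (.node (.cons
(.keep [5,6] (.node (.cons (.keep [4,5] (.node (.cons (.keep [4,5] (.node (.cons (.keep [4,5] (.node (.cons (.keep
[3,4,5] (.node (.cons (.keep [3,4,6] (.spl 16 (.cons (.leaf 1 [(2,1),(3,1),(0,3)]) (.cons (.leaf 1
[(2,1),(3,1),(1,3),(0,3)]) .nil)))) (.cons (.keep [2,4,5,6] (.node (.cons (.keep [3,4,6,7] (.node (.cons (.leaf 2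
[(4,2),(6,1),(5,1)]) (.cons (.keep [4,5,7] (.node (.cons (.keep [0,3,5,6] (.node (.cons (.leaf 3 [(5,2),(4,1),(7,1)])
(.cons (.keep [0,6,7] (.spl 16 (.cons (.leaf 2 [(2,2),(0,3),(3,1)]) (.cons (.leaf 1 [(0,2),(1,1),(3,1)]) .nil))))
.nil)))) (.cons (.keep [0,4,5,6] (.node (.cons (.leaf 1 [(4,1),(5,2),(7,1)]) (.cons (.keep [0,6,7] (.spl 16 (.cons
(.leaf 2 [(2,2),(0,3),(3,1)]) (.cons (.leaf 1 [(0,2),(1,1),(3,1)]) .nil)))) .nil)))) .nil)))) .nil)))) (.cons (.keep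
[4,5,6,7] (.node (.cons (.leaf 1 [(5,1),(4,1),(6,1)]) (.cons (.keep [4,5,7] (.node (.cons (.leaf 1 []) (.cons (.keep
[0,4,5,6] (.spl 16 (.cons (.leaf 1 [(2,2),(0,3),(4,1),(3,1)]) (.cons (.leaf 1 [(0,3),(4,1),(1,1)]) .nil)))) .nil))))
.nil)))) .nil)))) .nil)))) (.cons (.keep [2,4] (.node (.cons (.keep [4,5] (.spl 15 (.cons (.leaf 1
[(2,1),(1,3),(0,2)]) (.cons (.leaf 1 [(2,1),(1,1),(0,2)]) .nil)))) (.cons (.keep [2,4,5] (.spl 15 (.cons (.leaf 1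
[(3,1),(2,3),(0,2),(1,1)]) (.cons (.leaf 1 [(3,1),(2,1),(0,2),(1,1)]) .nil)))) .nil)))) .nil)))) (.cons (.keep [2,4]
(.node (.cons (.keep [4,5] (.spl 14 (.cons (.leaf 1 [(1,3),(2,1),(0,1)]) (.cons (.leaf 1 [(1,2),(2,1),(0,1)]) .nil))))
(.cons (.keep [2,4,5] (.spl 14 (.cons (.leaf 1 [(1,2),(3,1),(2,3),(0,1)]) (.cons (.leaf 1 [(1,2),(3,1),(2,2),(0,1)])
.nil)))) .nil)))) .nil)))) (.cons (.keep [2] (.node (.cons (.leaf 1 [(4,1)]) (.cons (.leaf 1 [(4,1),(2,1)]) .nil))))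
.nil)))) (.cons (.keep [2,4] (.node (.cons (.keep [4,5] (.node (.cons (.keep [4,5] (.node (.cons (.keep [5] (.node
(.cons (.keep [3,4] (.spl 16 (.cons (.leaf 1 [(2,1),(0,1)]) (.cons (.leaf 1 [(2,1),(1,1),(0,1)]) .nil)))) (.cons
(.keep [2,4] (.spl 16 (.cons (.leaf 1 [(2,1),(0,1),(1,1)]) (.cons (.leaf 1 [(2,1),(0,1)]) .nil)))) .nil)))) (.cons
(.keep [2,4,5] (.node (.cons (.leaf 1 [(6,1),(4,1),(5,1)]) (.cons (.leaf 1 [(6,1),(2,1),(4,1),(5,1)]) .nil))))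
.nil)))) (.cons (.keep [2,5] (.node (.cons (.leaf 1 [(5,1),(4,1)]) (.cons (.leaf 1 [(5,1),(4,1),(2,1)]) .nil))))
.nil)))) (.cons (.keep [2] (.node (.cons (.leaf 1 [(4,1)]) (.cons (.leaf 1 [(4,1),(2,1)]) .nil)))) .nil)))) .nil))))
(.cons (.keep [2,4] (.node (.cons (.keep [4,5] (.node (.cons (.keep [4,5] (.node (.cons (.keep [4,5] (.node (.cons
(.keep [4] (.node (.cons (.keep [3,4] (.spl 16 (.cons (.leaf 1 [(2,1),(0,1)]) (.cons (.leaf 1 [(2,1),(1,1),(0,1)])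
.nil)))) (.cons (.keep [2,4] (.spl 16 (.cons (.leaf 1 [(2,1),(0,1),(1,1)]) (.cons (.leaf 1 [(2,1),(0,1)]) .nil))))
.nil)))) (.cons (.keep [2,4,5] (.node (.cons (.leaf 1 [(5,2),(4,1),(6,1)]) (.cons (.leaf 1 [(5,2),(2,1),(4,1),(6,1)])
.nil)))) .nil)))) (.cons (.keep [2,4] (.node (.cons (.leaf 1 [(5,1),(4,1)]) (.cons (.leaf 1 [(5,1),(4,1),(2,1)])
.nil)))) .nil)))) (.cons (.keep [2] (.node (.cons (.leaf 1 [(4,1)]) (.cons (.leaf 1 [(4,1),(2,1)]) .nil)))) .nil))))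
(.cons (.keep [2,4] (.node (.cons (.keep [4,5] (.node (.cons (.keep [4,5] (.node (.cons (.keep [5] (.node (.cons
(.keep [3,4] (.spl 16 (.cons (.leaf 1 [(2,1),(0,1)]) (.cons (.leaf 1 [(2,1),(1,1),(0,1)]) .nil)))) (.cons (.keep [2,4]
(.spl 16 (.cons (.leaf 1 [(2,1),(0,1),(1,1)]) (.cons (.leaf 1 [(2,1),(0,1)]) .nil)))) .nil)))) (.cons (.keep [2,4,5]
(.node (.cons (.leaf 1 [(6,1),(4,1),(5,1)]) (.cons (.leaf 1 [(6,1),(2,1),(4,1),(5,1)]) .nil)))) .nil)))) (.cons (.keep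
[2,5] (.node (.cons (.leaf 1 [(5,1),(4,1)]) (.cons (.leaf 1 [(5,1),(4,1),(2,1)]) .nil)))) .nil)))) (.cons (.keep [2]
(.node (.cons (.leaf 1 [(4,1)]) (.cons (.leaf 1 [(4,1),(2,1)]) .nil)))) .nil)))) .nil)))) .nil)))) .nil)))) (.cons
(.keep [2,5] (.node (.cons (.keep [0,4,5] (.node (.cons (.keep [4,5,6] (.node (.cons (.keep [4,5,6] (.node (.cons
(.keep [4,6] (.node (.cons (.keep [3,4,5] (.spl 14 (.cons (.leaf 1 [(2,1),(3,1),(0,1)]) (.cons (.leaf 1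
[(2,1),(3,1),(1,1),(0,1)]) .nil)))) (.cons (.keep [2,4,5] (.spl 14 (.cons (.leaf 1 [(2,1),(3,1),(0,1),(1,1)]) (.cons
(.leaf 1 [(2,1),(3,1),(0,1)]) .nil)))) .nil)))) (.cons (.keep [2,5,6] (.node (.cons (.leaf 1 [(4,1),(6,1),(5,1)])
(.cons (.leaf 1 [(2,1),(6,1),(4,1),(5,1)]) .nil)))) .nil)))) (.cons (.keep [2] (.node (.cons (.leaf 1 [(4,1)]) (.cons
(.leaf 1 [(4,1),(2,1)]) .nil)))) .nil)))) (.cons (.keep [0,2,6] (.node (.cons (.leaf 1 [(4,1),(6,1),(5,1)]) (.cons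
(.leaf 1 [(0,1),(2,2),(6,1),(5,1)]) .nil)))) .nil)))) (.cons (.keep [4,5] (.node (.cons (.keep [4] (.node (.cons
(.keep [4] (.node (.cons (.keep [4] (.node (.cons (.keep [4] (.node (.cons (.keep [3,4] (.node (.cons (.keep [3,4,5]
(.spl 16 (.cons (.leaf 1 [(2,1),(3,1),(0,2)]) (.cons (.leaf 1 [(2,1),(3,1),(1,2),(0,2)]) .nil)))) (.cons (.keep
[2,4,5] (.node (.cons (.keep [3,4,6] (.node (.cons (.leaf 2 [(4,2),(6,1),(5,1)]) (.cons (.keep [4,5,6] (.node (.cons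
(.keep [0,3,5,6] (.node (.cons (.leaf 2 [(5,1),(4,1),(7,1)]) (.cons (.keep [0,6,7] (.spl 16 (.cons (.leaf 2
[(2,1),(0,2),(3,1)]) (.cons (.leaf 1 [(0,1),(1,1),(3,1)]) .nil)))) .nil)))) (.cons (.keep [0,4,5,6] (.node (.cons
(.leaf 1 [(4,1),(5,1),(7,1)]) (.cons (.keep [0,6,7] (.spl 16 (.cons (.leaf 2 [(2,1),(0,2),(3,1)]) (.cons (.leaf 1
[(0,1),(1,1),(3,1)]) .nil)))) .nil)))) .nil)))) .nil)))) (.cons (.keep [4,5,6] (.node (.cons (.leaf 1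
[(5,1),(4,1),(6,1)]) (.cons (.keep [4,5,6] (.node (.cons (.leaf 1 []) (.cons (.keep [0,4,5,6] (.spl 16 (.cons (.leaf 1
[(2,1),(0,2),(4,1),(3,1)]) (.cons (.leaf 1 [(0,2),(4,1),(1,1)]) .nil)))) .nil)))) .nil)))) .nil)))) .nil)))) (.cons
(.keep [2,4] (.node (.cons (.keep [4,5] (.spl 15 (.cons (.leaf 1 [(2,1),(1,3),(0,2)]) (.cons (.leaf 1
[(2,1),(1,1),(0,2)]) .nil)))) (.cons (.keep [2,4,5] (.spl 15 (.cons (.leaf 1 [(3,1),(2,3),(0,2),(1,1)]) (.cons (.leaf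
1 [(3,1),(2,1),(0,2),(1,1)]) .nil)))) .nil)))) .nil)))) (.cons (.keep [2,4] (.node (.cons (.keep [4,5] (.spl 14 (.cons
(.leaf 1 [(1,3),(2,1),(0,1)]) (.cons (.leaf 1 [(1,2),(2,1),(0,1)]) .nil)))) (.cons (.keep [2,4,5] (.spl 14 (.cons
(.leaf 1 [(1,2),(3,1),(2,3),(0,1)]) (.cons (.leaf 1 [(1,2),(3,1),(2,2),(0,1)]) .nil)))) .nil)))) .nil)))) (.cons
(.keep [2] (.node (.cons (.leaf 1 [(4,1)]) (.cons (.leaf 1 [(4,1),(2,1)]) .nil)))) .nil)))) (.cons (.keep [2,4] (.node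
(.cons (.keep [4,5] (.node (.cons (.keep [4,5] (.node (.cons (.keep [5] (.node (.cons (.keep [3,4] (.spl 16 (.cons
(.leaf 1 [(2,1),(0,1)]) (.cons (.leaf 1 [(2,1),(1,1),(0,1)]) .nil)))) (.cons (.keep [2,4] (.spl 16 (.cons (.leaf 1
[(2,1),(0,1),(1,1)]) (.cons (.leaf 1 [(2,1),(0,1)]) .nil)))) .nil)))) (.cons (.keep [2,4,5] (.node (.cons (.leaf 1
[(6,1),(4,1),(5,1)]) (.cons (.leaf 1 [(6,1),(2,1),(4,1),(5,1)]) .nil)))) .nil)))) (.cons (.keep [2,5] (.node (.cons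
(.leaf 1 [(5,1),(4,1)]) (.cons (.leaf 1 [(5,1),(4,1),(2,1)]) .nil)))) .nil)))) (.cons (.keep [2] (.node (.cons (.leaf
1 [(4,1)]) (.cons (.leaf 1 [(4,1),(2,1)]) .nil)))) .nil)))) .nil)))) (.cons (.keep [2,5] (.node (.cons (.keep [4,5]
(.node (.cons (.keep [4,5] (.node (.cons (.keep [4,5] (.node (.cons (.keep [4] (.node (.cons (.keep [3,4] (.spl 16
(.cons (.leaf 1 [(2,1),(0,1)]) (.cons (.leaf 1 [(2,1),(1,1),(0,1)]) .nil)))) (.cons (.keep [2,4] (.spl 16 (.cons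
(.leaf 1 [(2,1),(0,1),(1,1)]) (.cons (.leaf 1 [(2,1),(0,1)]) .nil)))) .nil)))) (.cons (.keep [2,4,5] (.node (.cons
(.leaf 1 [(5,1),(4,1),(6,1)]) (.cons (.leaf 1 [(2,1),(4,1),(5,1),(6,1)]) .nil)))) .nil)))) (.cons (.keep [2,4] (.node
(.cons (.leaf 1 [(4,1),(5,1)]) (.cons (.leaf 1 [(2,1),(4,1),(5,1)]) .nil)))) .nil)))) (.cons (.keep [2] (.node (.cons
(.leaf 1 [(4,1)]) (.cons (.leaf 1 [(4,1),(2,1)]) .nil)))) .nil)))) (.cons (.keep [2,4] (.node (.cons (.keep [4,5]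
(.node (.cons (.keep [4,5] (.node (.cons (.keep [5] (.node (.cons (.keep [3,4] (.spl 16 (.cons (.leaf 1 [(2,1),(0,1)])
(.cons (.leaf 1 [(2,1),(1,1),(0,1)]) .nil)))) (.cons (.keep [2,4] (.spl 16 (.cons (.leaf 1 [(2,1),(0,1),(1,1)]) (.cons
(.leaf 1 [(2,1),(0,1)]) .nil)))) .nil)))) (.cons (.keep [2,4,5] (.node (.cons (.leaf 1 [(6,1),(4,1),(5,1)]) (.cons
(.leaf 1 [(6,1),(2,1),(4,1),(5,1)]) .nil)))) .nil)))) (.cons (.keep [2,5] (.node (.cons (.leaf 1 [(5,1),(4,1)]) (.cons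
(.leaf 1 [(5,1),(4,1),(2,1)]) .nil)))) .nil)))) (.cons (.keep [2] (.node (.cons (.leaf 1 [(4,1)]) (.cons (.leaf 1
[(4,1),(2,1)]) .nil)))) .nil)))) .nil)))) .nil)))) .nil)))) .nil)))) .nil)))) (.cons (.keep [2] (.node (.cons (.leaf 1
[]) (.cons (.keep [0,4] (.node (.cons (.keep [4,5] (.node (.cons (.keep [4,5] (.node (.cons (.keep [0,4,5] (.node
(.cons (.keep [4,5,6] (.node (.cons (.keep [4,6] (.node (.cons (.keep [3,4,5] (.spl 14 (.cons (.leaf 1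
[(3,3),(2,1),(0,2)]) (.cons (.leaf 1 [(3,3),(2,1),(1,2),(0,2)]) .nil)))) (.cons (.keep [2,4,5] (.spl 14 (.cons (.leaf
1 [(3,3),(2,1),(0,2),(1,2)]) (.cons (.leaf 1 [(3,3),(2,1),(0,2)]) .nil)))) .nil)))) (.cons (.keep [2,5,6] (.node
(.cons (.leaf 1 [(6,1),(4,1),(5,1)]) (.cons (.leaf 1 [(4,1),(2,1),(6,1),(5,1)]) .nil)))) .nil)))) (.cons (.keep [2,6]
(.node (.cons (.leaf 1 [(5,1),(4,1)]) (.cons (.leaf 1 [(2,1),(4,1),(5,1)]) .nil)))) .nil)))) (.cons (.keep [0,2,5]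
(.node (.cons (.leaf 1 [(6,1),(4,1),(5,1)]) (.cons (.leaf 1 [(6,1),(5,1),(0,1),(2,2)]) .nil)))) .nil)))) (.cons (.keep
[5] (.node (.cons (.keep [4] (.node (.cons (.keep [4] (.node (.cons (.keep [4] (.node (.cons (.keep [4] (.node (.cons
(.keep [3,4] (.node (.cons (.keep [3,4,5] (.spl 16 (.cons (.leaf 1 [(2,1),(3,4),(0,2)]) (.cons (.leaf 1
[(2,1),(3,4),(1,2),(0,2)]) .nil)))) (.cons (.keep [2,4,5] (.node (.cons (.keep [3,4,6] (.node (.cons (.leaf 2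
[(4,2),(6,3),(5,1)]) (.cons (.keep [4,5,6] (.node (.cons (.keep [0,3,5,6] (.node (.cons (.leaf 2 [(5,1),(4,1),(7,4)])
(.cons (.keep [0,6,7] (.spl 16 (.cons (.leaf 2 [(2,1),(0,2),(3,5)]) (.cons (.leaf 1 [(0,1),(1,1),(3,4)]) .nil))))
.nil)))) (.cons (.keep [0,4,5,6] (.node (.cons (.leaf 1 [(5,1),(4,1),(7,3)]) (.cons (.keep [0,6,7] (.spl 16 (.cons
(.leaf 2 [(2,1),(3,5),(0,2)]) (.cons (.leaf 1 [(3,4),(1,1),(0,1)]) .nil)))) .nil)))) .nil)))) .nil)))) (.cons (.keep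
[4,5,6] (.node (.cons (.leaf 1 [(4,1),(5,1),(6,2)]) (.cons (.keep [4,6] (.node (.cons (.leaf 1 [(5,1)]) (.cons (.keep
[0,4,5] (.spl 16 (.cons (.leaf 1 [(3,5),(0,2),(2,2),(1,1)]) (.cons (.leaf 1 [(3,5),(0,2),(1,1)]) .nil)))) .nil))))
.nil)))) .nil)))) .nil)))) (.cons (.keep [2,4] (.node (.cons (.keep [4,5] (.spl 15 (.cons (.leaf 1
[(2,4),(1,3),(0,2)]) (.cons (.leaf 1 [(2,4),(1,1),(0,2)]) .nil)))) (.cons (.keep [2,4,5] (.spl 15 (.cons (.leaf 1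
[(0,2),(2,3),(3,4),(1,1)]) (.cons (.leaf 1 [(0,2),(2,1),(3,4),(1,1)]) .nil)))) .nil)))) .nil)))) (.cons (.keep [2,4]
(.node (.cons (.keep [4,5] (.spl 14 (.cons (.leaf 1 [(1,3),(2,3),(0,1)]) (.cons (.leaf 1 [(1,2),(2,3),(0,1)]) .nil))))
(.cons (.keep [2,4,5] (.spl 14 (.cons (.leaf 1 [(2,3),(1,2),(0,1),(3,3)]) (.cons (.leaf 1 [(2,2),(1,2),(0,1),(3,3)])
.nil)))) .nil)))) .nil)))) (.cons (.keep [2,4] (.node (.cons (.leaf 1 [(5,1),(4,1)]) (.cons (.leaf 1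
[(4,1),(5,1),(2,1)]) .nil)))) .nil)))) (.cons (.keep [2,4] (.node (.cons (.keep [4,5] (.node (.cons (.keep [4,5]
(.node (.cons (.keep [5] (.node (.cons (.keep [3,4] (.spl 16 (.cons (.leaf 1 [(2,3),(0,1)]) (.cons (.leaf 1
[(2,3),(1,1),(0,1)]) .nil)))) (.cons (.keep [2,4] (.spl 16 (.cons (.leaf 1 [(2,3),(0,1),(1,1)]) (.cons (.leaf 1
[(2,3),(0,1)]) .nil)))) .nil)))) (.cons (.keep [2,4,5] (.node (.cons (.leaf 1 [(6,2),(4,1),(5,1)]) (.cons (.leaf 1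
[(5,1),(4,1),(6,2),(2,1)]) .nil)))) .nil)))) (.cons (.keep [2,5] (.node (.cons (.leaf 1 [(5,2),(4,1)]) (.cons (.leaf 1
[(2,1),(4,1),(5,2)]) .nil)))) .nil)))) (.cons (.keep [2,5] (.node (.cons (.leaf 1 [(5,1),(4,1)]) (.cons (.leaf 1
[(4,1),(5,1),(2,1)]) .nil)))) .nil)))) .nil)))) (.cons (.keep [2,4] (.node (.cons (.keep [3,4,5] (.node (.cons (.keep
[4,5] (.node (.cons (.keep [4,5] (.node (.cons (.keep [4,5] (.node (.cons (.keep [3,4,5] (.spl 16 (.cons (.leaf 1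
[(3,1),(2,2),(0,1)]) (.cons (.leaf 1 [(3,1),(2,2),(1,1),(0,1)]) .nil)))) (.cons (.keep [2,4,5] (.spl 16 (.cons (.leaf
1 [(3,1),(2,2),(0,1),(1,1)]) (.cons (.leaf 1 [(3,1),(2,2),(0,1)]) .nil)))) .nil)))) (.cons (.keep [2,5] (.node (.cons
(.leaf 1 [(5,1),(4,1)]) (.cons (.leaf 1 [(4,1),(5,1),(2,1)]) .nil)))) .nil)))) (.cons (.keep [2,4,5] (.node (.cons
(.leaf 1 [(5,1),(6,1),(4,1)]) (.cons (.leaf 1 [(5,1),(2,1),(4,1),(6,1)]) .nil)))) .nil)))) (.cons (.keep [2,4,6]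
(.node (.cons (.leaf 1 [(6,1),(4,1)]) (.cons (.leaf 1 [(5,1),(2,1)]) .nil)))) .nil)))) (.cons (.keep [2,4] (.node
(.cons (.keep [4,5] (.node (.cons (.keep [4,5] (.node (.cons (.keep [5] (.node (.cons (.keep [3,4] (.spl 16 (.cons
(.leaf 1 [(2,1),(0,1)]) (.cons (.leaf 1 [(2,1),(1,1),(0,1)]) .nil)))) (.cons (.keep [2,4] (.spl 16 (.cons (.leaf 1
[(2,1),(0,1),(1,1)]) (.cons (.leaf 1 [(2,1),(0,1)]) .nil)))) .nil)))) (.cons (.keep [2,4,5] (.node (.cons (.leaf 1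
[(6,1),(4,1),(5,1)]) (.cons (.leaf 1 [(6,1),(2,1),(4,1),(5,1)]) .nil)))) .nil)))) (.cons (.keep [2,5] (.node (.cons
(.leaf 1 [(5,1),(4,1)]) (.cons (.leaf 1 [(5,1),(4,1),(2,1)]) .nil)))) .nil)))) (.cons (.keep [] (.node (.cons (.leaf 1
[]) (.cons (.leaf 1 [(2,1)]) .nil)))) .nil)))) .nil)))) .nil)))) .nil)))) (.cons (.keep [2,5] (.node (.cons (.keep
[4,5] (.node (.cons (.keep [0,4,5] (.node (.cons (.keep [4,5,6] (.node (.cons (.keep [4,6] (.node (.cons (.keep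
[3,4,5] (.spl 14 (.cons (.leaf 1 [(3,3),(2,1),(0,2)]) (.cons (.leaf 1 [(3,3),(2,1),(1,2),(0,2)]) .nil)))) (.cons
(.keep [2,4,5] (.spl 14 (.cons (.leaf 1 [(3,3),(2,1),(0,2),(1,2)]) (.cons (.leaf 1 [(3,3),(2,1),(0,2)]) .nil))))
.nil)))) (.cons (.keep [2,5] (.node (.cons (.leaf 1 [(4,1),(5,1)]) (.cons (.leaf 1 [(4,1),(2,1),(5,1)]) .nil))))
.nil)))) (.cons (.keep [2,6] (.node (.cons (.leaf 1 [(5,1),(4,1)]) (.cons (.leaf 1 [(2,1),(4,1),(5,1)]) .nil))))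
.nil)))) (.cons (.keep [0,2,5] (.node (.cons (.leaf 1 [(6,1),(4,1),(5,1)]) (.cons (.leaf 1 [(6,1),(5,1),(0,1),(2,2)])
.nil)))) .nil)))) (.cons (.keep [4] (.node (.cons (.keep [4] (.node (.cons (.keep [4] (.node (.cons (.keep [4] (.node
(.cons (.keep [4] (.node (.cons (.keep [3,4] (.node (.cons (.keep [3,4,5] (.spl 16 (.cons (.leaf 1
[(2,1),(3,4),(0,2)]) (.cons (.leaf 1 [(2,1),(3,4),(1,2),(0,2)]) .nil)))) (.cons (.keep [2,4,5] (.node (.cons (.keep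
[3,4,6] (.node (.cons (.leaf 2 [(4,2),(6,3),(5,1)]) (.cons (.keep [4,5,6] (.node (.cons (.keep [0,3,5,6] (.node (.cons
(.leaf 2 [(5,1),(4,1),(7,4)]) (.cons (.keep [0,6,7] (.spl 16 (.cons (.leaf 2 [(2,1),(0,2),(3,5)]) (.cons (.leaf 1
[(0,1),(1,1),(3,4)]) .nil)))) .nil)))) (.cons (.keep [0,4,5,6] (.node (.cons (.leaf 1 [(5,1),(4,1),(7,3)]) (.cons
(.keep [0,6,7] (.spl 16 (.cons (.leaf 2 [(2,1),(3,5),(0,2)]) (.cons (.leaf 1 [(3,4),(1,1),(0,1)]) .nil)))) .nil))))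
.nil)))) .nil)))) (.cons (.keep [4,5,6] (.node (.cons (.leaf 1 [(4,1),(5,1),(6,2)]) (.cons (.keep [4,6] (.node (.cons
(.leaf 1 [(5,1)]) (.cons (.keep [0,4,5] (.spl 16 (.cons (.leaf 1 [(3,5),(0,2),(2,2),(1,1)]) (.cons (.leaf 1
[(3,5),(0,2),(1,1)]) .nil)))) .nil)))) .nil)))) .nil)))) .nil)))) (.cons (.keep [2,4] (.node (.cons (.keep [4,5] (.spl
15 (.cons (.leaf 1 [(2,4),(1,3),(0,2)]) (.cons (.leaf 1 [(2,4),(1,1),(0,2)]) .nil)))) (.cons (.keep [2,4,5] (.spl 15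
(.cons (.leaf 1 [(0,2),(2,3),(3,4),(1,1)]) (.cons (.leaf 1 [(0,2),(2,1),(3,4),(1,1)]) .nil)))) .nil)))) .nil))))
(.cons (.keep [2,4] (.node (.cons (.keep [4,5] (.spl 14 (.cons (.leaf 1 [(1,3),(2,3),(0,1)]) (.cons (.leaf 1
[(1,2),(2,3),(0,1)]) .nil)))) (.cons (.keep [2,4,5] (.spl 14 (.cons (.leaf 1 [(2,3),(1,2),(0,1),(3,3)]) (.cons (.leaf
1 [(2,2),(1,2),(0,1),(3,3)]) .nil)))) .nil)))) .nil)))) (.cons (.keep [2,4] (.node (.cons (.leaf 1 [(5,1),(4,1)])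
(.cons (.leaf 1 [(4,1),(5,1),(2,1)]) .nil)))) .nil)))) (.cons (.keep [2,4] (.node (.cons (.keep [4,5] (.node (.cons
(.keep [4,5] (.node (.cons (.keep [5] (.node (.cons (.keep [3,4] (.spl 16 (.cons (.leaf 1 [(2,3),(0,1)]) (.cons (.leaf
1 [(2,3),(1,1),(0,1)]) .nil)))) (.cons (.keep [2,4] (.spl 16 (.cons (.leaf 1 [(2,3),(0,1),(1,1)]) (.cons (.leaf 1
[(2,3),(0,1)]) .nil)))) .nil)))) (.cons (.keep [2,4,5] (.node (.cons (.leaf 1 [(6,2),(4,1),(5,1)]) (.cons (.leaf 1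
[(5,1),(4,1),(6,2),(2,1)]) .nil)))) .nil)))) (.cons (.keep [2,5] (.node (.cons (.leaf 1 [(5,2),(4,1)]) (.cons (.leaf 1
[(2,1),(4,1),(5,2)]) .nil)))) .nil)))) (.cons (.keep [2,5] (.node (.cons (.leaf 1 [(5,1),(4,1)]) (.cons (.leaf 1
[(4,1),(5,1),(2,1)]) .nil)))) .nil)))) .nil)))) (.cons (.keep [2,4] (.node (.cons (.keep [4,5] (.node (.cons (.keep
[0,4,5] (.node (.cons (.keep [4,5,6] (.node (.cons (.keep [4,6] (.node (.cons (.keep [3,4,5] (.spl 16 (.cons (.leaf 1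
[(3,3),(2,1),(0,2)]) (.cons (.leaf 1 [(3,3),(2,1),(1,2),(0,2)]) .nil)))) (.cons (.keep [2,4,5] (.spl 16 (.cons (.leaf
1 [(3,3),(2,1),(0,2),(1,2)]) (.cons (.leaf 1 [(3,3),(2,1),(0,2)]) .nil)))) .nil)))) (.cons (.keep [2,5] (.node (.cons
(.leaf 1 [(4,1),(5,1)]) (.cons (.leaf 1 [(4,1),(2,1),(5,1)]) .nil)))) .nil)))) (.cons (.keep [2,6] (.node (.cons
(.leaf 1 [(5,1),(4,1)]) (.cons (.leaf 1 [(2,1),(4,1),(5,1)]) .nil)))) .nil)))) (.cons (.keep [0,2,5] (.node (.cons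
(.leaf 1 [(6,1),(4,1),(5,1)]) (.cons (.leaf 1 [(6,1),(5,1),(0,1),(2,2)]) .nil)))) .nil)))) (.cons (.keep [2,4] (.node
(.cons (.keep [4,5] (.node (.cons (.keep [4,5] (.node (.cons (.keep [5] (.node (.cons (.keep [3,4] (.spl 16 (.cons
(.leaf 1 [(2,1),(0,1)]) (.cons (.leaf 1 [(2,1),(1,1),(0,1)]) .nil)))) (.cons (.keep [2,4] (.spl 16 (.cons (.leaf 1
[(2,1),(0,1),(1,1)]) (.cons (.leaf 1 [(2,1),(0,1)]) .nil)))) .nil)))) (.cons (.keep [2,4,5] (.node (.cons (.leaf 1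
[(6,1),(4,1),(5,1)]) (.cons (.leaf 1 [(6,1),(2,1),(4,1),(5,1)]) .nil)))) .nil)))) (.cons (.keep [2,5] (.node (.cons
(.leaf 1 [(5,1),(4,1)]) (.cons (.leaf 1 [(5,1),(4,1),(2,1)]) .nil)))) .nil)))) (.cons (.keep [] (.node (.cons (.leaf 1
[]) (.cons (.leaf 1 [(2,1)]) .nil)))) .nil)))) .nil)))) .nil)))) .nil)))) .nil)))) .nil)))) .nil)))) .nil)))) .nil))))
(.cons (.keep [2] (.node (.cons (.keep [3,4] (.node (.cons (.leaf 1 [(5,1),(4,1)]) (.cons (.keep [2,4,5] (.node (.cons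
(.keep [3,4,5,6] (.node (.cons (.leaf 1 [(6,1),(4,1)]) (.cons (.keep [0,2,4,5,7] (.node (.cons (.keep [4,5,6,7,8]
(.node (.cons (.keep [4,5,6,8] (.node (.cons (.keep [4,5,6,7] (.node (.cons (.keep [4,5,6,7] (.node (.cons (.keep
[3,5,7] (.node (.cons (.keep [3,4,6] (.spl 14 (.cons (.leaf 2 [(2,1),(3,4),(0,3)]) (.cons (.leaf 2
[(1,3),(2,1),(3,4),(0,3)]) .nil)))) (.cons (.keep [2,4,5,6] (.spl 14 (.cons (.leaf 2 [(1,2),(2,1),(0,3),(4,4)]) (.cons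
(.leaf 1 [(3,1),(0,2),(4,2)]) .nil)))) .nil)))) (.cons (.keep [2,4,6] (.node (.cons (.leaf 1 [(4,1),(6,3),(5,1)])
(.cons (.leaf 1 [(4,1),(2,1),(5,1),(6,3)]) .nil)))) .nil)))) (.cons (.keep [2,5] (.node (.cons (.leaf 1 [(4,2),(5,1)])
(.cons (.leaf 1 [(4,2),(2,2),(5,1)]) .nil)))) .nil)))) (.cons (.keep [2,7] (.node (.cons (.leaf 1 [(5,1),(4,1)])
(.cons (.leaf 1 [(2,1),(4,1),(5,1)]) .nil)))) .nil)))) (.cons (.keep [0,2,7,8] (.node (.cons (.keep [4,5,6,7] (.node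
(.cons (.keep [4,5,6,7] (.node (.cons (.keep [4,7] (.node (.cons (.keep [3,4,5] (.spl 14 (.cons (.leaf 1
[(2,1),(3,2),(0,1)]) (.cons (.leaf 1 [(2,1),(3,2),(1,1),(0,1)]) .nil)))) (.cons (.keep [2,4,5] (.spl 14 (.cons (.leaf
1 [(2,1),(3,2),(0,1),(1,1)]) (.cons (.leaf 1 [(2,1),(3,2),(0,1)]) .nil)))) .nil)))) (.cons (.keep [2,5,6] (.node
(.cons (.leaf 2 [(4,3),(6,1),(5,1)]) (.cons (.leaf 2 [(2,3),(6,1),(4,3),(5,1)]) .nil)))) .nil)))) (.cons (.keep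
[2,4,7] (.node (.cons (.leaf 1 [(6,1),(5,1),(4,1)]) (.cons (.leaf 1 [(4,1),(5,1),(6,1),(2,1)]) .nil)))) .nil))))
(.cons (.keep [2,7] (.node (.cons (.leaf 1 [(5,1),(4,1)]) (.cons (.leaf 1 [(2,1),(4,1),(5,1)]) .nil)))) .nil))))
.nil)))) (.cons (.keep [2,6,8] (.node (.cons (.keep [4,5] (.node (.cons (.keep [4,5] (.node (.cons (.keep [4,5] (.node
(.cons (.keep [3,4,5] (.node (.cons (.keep [3,4,6] (.spl 14 (.cons (.leaf 1 [(2,1),(3,2),(0,2)]) (.cons (.leaf 1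
[(1,2),(2,1),(3,2),(0,2)]) .nil)))) (.cons (.keep [2,4,5,6] (.spl 14 (.cons (.leaf 1 [(1,1),(2,1),(0,2),(4,2)]) (.cons
(.leaf 1 [(3,1),(0,1),(4,2)]) .nil)))) .nil)))) (.cons (.keep [2,4,5] (.node (.cons (.leaf 1 [(4,1),(6,2),(5,2)])
(.cons (.leaf 1 [(4,1),(2,1),(5,2),(6,2)]) .nil)))) .nil)))) (.cons (.keep [2,4,5] (.node (.cons (.leaf 1
[(6,1),(4,1),(5,1)]) (.cons (.leaf 1 [(6,1),(2,1),(4,1),(5,1)]) .nil)))) .nil)))) (.cons (.keep [2,5] (.node (.cons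
(.leaf 1 [(5,1),(4,1)]) (.cons (.leaf 1 [(5,1),(4,1),(2,1)]) .nil)))) .nil)))) (.cons (.keep [4,6] (.node (.cons
(.keep [4,5] (.node (.cons (.keep [4,5] (.node (.cons (.keep [4,5] (.node (.cons (.keep [3,4,5] (.spl 14 (.cons (.leaf
1 [(2,1),(3,2),(0,1)]) (.cons (.leaf 1 [(2,1),(3,2),(1,1),(0,1)]) .nil)))) (.cons (.keep [2,4,5] (.spl 14 (.cons
(.leaf 1 [(2,1),(3,2),(0,1),(1,1)]) (.cons (.leaf 1 [(2,1),(3,2),(0,1)]) .nil)))) .nil)))) (.cons (.keep [2] (.node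
(.cons (.leaf 1 [(4,1)]) (.cons (.leaf 1 [(4,1),(2,1)]) .nil)))) .nil)))) (.cons (.keep [2,4,5] (.node (.cons (.leaf 1
[(6,1),(5,1),(4,1)]) (.cons (.leaf 1 [(6,1),(2,1),(5,1),(4,1)]) .nil)))) .nil)))) (.cons (.keep [2,5] (.node (.cons
(.leaf 1 [(5,1),(4,1)]) (.cons (.leaf 1 [(5,1),(2,1),(4,1)]) .nil)))) .nil)))) .nil)))) .nil)))) .nil)))) (.cons
(.keep [2,4,5,6] (.node (.cons (.leaf 1 [(6,1)]) (.cons (.keep [0,4,5,6,7] (.node (.cons (.keep [3,4,5,6,7,8] (.node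
(.cons (.keep [4,5,7,8] (.node (.cons (.keep [4,5,7] (.node (.cons (.keep [4,5,6] (.node (.cons (.keep [4] (.node
(.cons (.keep [3,4] (.spl 14 (.cons (.leaf 1 [(2,1),(0,1)]) (.cons (.leaf 1 [(2,1),(1,1),(0,1)]) .nil)))) (.cons
(.keep [2,4] (.spl 14 (.cons (.leaf 1 [(2,1),(0,1),(1,1)]) (.cons (.leaf 1 [(2,1),(0,1)]) .nil)))) .nil)))) (.cons
(.keep [2,5,6] (.node (.cons (.leaf 1 [(4,1),(6,1),(5,1)]) (.cons (.leaf 1 [(2,1),(6,1),(4,1),(5,1)]) .nil))))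
.nil)))) (.cons (.keep [2] (.node (.cons (.leaf 1 [(4,1)]) (.cons (.leaf 1 [(4,1),(2,1)]) .nil)))) .nil)))) (.cons
(.keep [0,2,6] (.node (.cons (.leaf 1 [(4,1),(6,1),(5,2)]) (.cons (.leaf 1 [(0,1),(2,3),(6,1),(5,2)]) .nil))))
.nil)))) (.cons (.keep [6,9] (.node (.cons (.keep [4,5] (.node (.cons (.keep [4,5] (.node (.cons (.keep [4,5] (.node
(.cons (.keep [3,4,5] (.spl 14 (.cons (.leaf 1 [(2,1),(3,2),(0,1)]) (.cons (.leaf 1 [(2,1),(3,2),(1,1),(0,1)])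
.nil)))) (.cons (.keep [2,4,5] (.spl 14 (.cons (.leaf 1 [(2,1),(3,2),(0,1),(1,1)]) (.cons (.leaf 1
[(2,1),(3,2),(0,1)]) .nil)))) .nil)))) (.cons (.keep [2] (.node (.cons (.leaf 1 [(4,1)]) (.cons (.leaf 1
[(4,1),(2,1)]) .nil)))) .nil)))) (.cons (.keep [2,4,5] (.node (.cons (.leaf 1 [(6,1),(5,1),(4,1)]) (.cons (.leaf 1
[(6,1),(2,1),(5,1),(4,1)]) .nil)))) .nil)))) (.cons (.keep [2,5] (.node (.cons (.leaf 1 [(5,1),(4,1)]) (.cons (.leaf 1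
[(5,1),(2,1),(4,1)]) .nil)))) .nil)))) .nil)))) (.cons (.keep [2,7,8] (.node (.cons (.keep [4,5] (.node (.cons (.keep
[4,5] (.node (.cons (.keep [4,5] (.node (.cons (.keep [4] (.node (.cons (.keep [3,4] (.spl 14 (.cons (.leaf 1
[(2,1),(0,1)]) (.cons (.leaf 1 [(2,1),(1,1),(0,1)]) .nil)))) (.cons (.keep [2,4] (.spl 14 (.cons (.leaf 1
[(2,1),(0,1),(1,1)]) (.cons (.leaf 1 [(2,1),(0,1)]) .nil)))) .nil)))) (.cons (.keep [2,4,5] (.node (.cons (.leaf 1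
[(5,1),(4,1),(6,1)]) (.cons (.leaf 1 [(2,1),(4,1),(5,1),(6,1)]) .nil)))) .nil)))) (.cons (.keep [2,4] (.node (.cons
(.leaf 1 [(4,1),(5,1)]) (.cons (.leaf 1 [(2,1),(4,1),(5,1)]) .nil)))) .nil)))) (.cons (.keep [2] (.node (.cons (.leaf
1 [(4,1)]) (.cons (.leaf 1 [(4,1),(2,1)]) .nil)))) .nil)))) (.cons (.keep [4,6] (.node (.cons (.keep [4,5] (.node
(.cons (.keep [4,5] (.node (.cons (.keep [4,5] (.node (.cons (.keep [3,4,5] (.spl 14 (.cons (.leaf 1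
[(2,1),(3,2),(0,1)]) (.cons (.leaf 1 [(2,1),(3,2),(1,1),(0,1)]) .nil)))) (.cons (.keep [2,4,5] (.spl 14 (.cons (.leaf
1 [(2,1),(3,2),(0,1),(1,1)]) (.cons (.leaf 1 [(2,1),(3,2),(0,1)]) .nil)))) .nil)))) (.cons (.keep [2,4] (.node (.cons
(.leaf 1 [(5,1),(4,1)]) (.cons (.leaf 1 [(4,1),(5,1),(2,1)]) .nil)))) .nil)))) (.cons (.keep [2,4,5] (.node (.cons
(.leaf 1 [(6,1),(5,1),(4,1)]) (.cons (.leaf 1 [(6,1),(2,1),(4,1),(5,1)]) .nil)))) .nil)))) (.cons (.keep [2,5] (.node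
(.cons (.leaf 1 [(5,1),(4,1)]) (.cons (.leaf 1 [(5,1),(2,1),(4,1)]) .nil)))) .nil)))) .nil)))) .nil)))) .nil))))
.nil)))) .nil)))) (.cons (.keep [2,4] (.node (.cons (.leaf 1 [(5,1)]) (.cons (.keep [4,5] (.node (.cons (.keep [3,4,5]
(.node (.cons (.leaf 1 [(4,1)]) (.cons (.keep [0,4,5,6] (.node (.cons (.keep [4,6,7] (.node (.cons (.keep [0,4,6]
(.node (.cons (.keep [4,5,6] (.node (.cons (.keep [4,5,6] (.node (.cons (.keep [4,6] (.node (.cons (.keep [3,4,5]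
(.spl 14 (.cons (.leaf 2 [(2,1),(3,1),(0,2)]) (.cons (.leaf 2 [(2,1),(3,1),(1,2),(0,2)]) .nil)))) (.cons (.keep
[2,4,5] (.spl 14 (.cons (.leaf 2 [(2,1),(3,1),(0,2),(1,2)]) (.cons (.leaf 2 [(2,1),(3,1),(0,2)]) .nil)))) .nil))))
(.cons (.keep [2,5,6] (.node (.cons (.leaf 1 [(4,1),(6,1),(5,2)]) (.cons (.leaf 1 [(2,1),(6,1),(4,1),(5,2)]) .nil))))
.nil)))) (.cons (.keep [2] (.node (.cons (.leaf 1 [(4,1)]) (.cons (.leaf 1 [(4,1),(2,1)]) .nil)))) .nil)))) (.cons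
(.keep [0,2,6] (.node (.cons (.leaf 2 [(4,1),(6,1),(5,2)]) (.cons (.leaf 2 [(0,1),(2,3),(6,1),(5,2)]) .nil))))
.nil)))) (.cons (.keep [5,6] (.node (.cons (.keep [4,5] (.node (.cons (.keep [4,5] (.node (.cons (.keep [4,5] (.node
(.cons (.keep [3,4,5] (.spl 14 (.cons (.leaf 1 [(2,3),(3,2),(0,1)]) (.cons (.leaf 1 [(2,3),(3,2),(1,1),(0,1)])
.nil)))) (.cons (.keep [2,4,5] (.spl 14 (.cons (.leaf 1 [(2,3),(3,2),(0,1),(1,1)]) (.cons (.leaf 1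
[(2,3),(3,2),(0,1)]) .nil)))) .nil)))) (.cons (.keep [2] (.node (.cons (.leaf 1 [(4,1)]) (.cons (.leaf 1
[(4,1),(2,1)]) .nil)))) .nil)))) (.cons (.keep [2,4,5] (.node (.cons (.leaf 1 [(6,1),(5,2),(4,1)]) (.cons (.leaf 1
[(6,1),(2,1),(5,2),(4,1)]) .nil)))) .nil)))) (.cons (.keep [2,4,5] (.node (.cons (.leaf 1 [(5,1),(6,1),(4,1)]) (.cons
(.leaf 1 [(6,1),(2,1),(4,1),(5,1)]) .nil)))) .nil)))) .nil)))) (.cons (.keep [2,5,7] (.node (.cons (.keep [0,4,5]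
(.node (.cons (.keep [4,5,6] (.node (.cons (.keep [4,5,6] (.node (.cons (.keep [4,6] (.node (.cons (.keep [3,4,5]
(.spl 14 (.cons (.leaf 1 [(2,1),(3,1),(0,1)]) (.cons (.leaf 1 [(2,1),(3,1),(1,1),(0,1)]) .nil)))) (.cons (.keep
[2,4,5] (.spl 14 (.cons (.leaf 1 [(2,1),(3,1),(0,1),(1,1)]) (.cons (.leaf 1 [(2,1),(3,1),(0,1)]) .nil)))) .nil))))
(.cons (.keep [2,5,6] (.node (.cons (.leaf 1 [(4,1),(6,1),(5,1)]) (.cons (.leaf 1 [(2,1),(6,1),(4,1),(5,1)]) .nil))))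
.nil)))) (.cons (.keep [2] (.node (.cons (.leaf 1 [(4,1)]) (.cons (.leaf 1 [(4,1),(2,1)]) .nil)))) .nil)))) (.cons
(.keep [0,2,6] (.node (.cons (.leaf 1 [(4,1),(6,1),(5,1)]) (.cons (.leaf 1 [(0,1),(2,2),(6,1),(5,1)]) .nil))))
.nil)))) (.cons (.keep [4,6] (.node (.cons (.keep [4,5] (.node (.cons (.keep [4,5] (.node (.cons (.keep [4,5] (.node
(.cons (.keep [3,4,5] (.spl 14 (.cons (.leaf 1 [(2,1),(3,2),(0,1)]) (.cons (.leaf 1 [(2,1),(3,2),(1,1),(0,1)])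
.nil)))) (.cons (.keep [2,4,5] (.spl 14 (.cons (.leaf 1 [(2,1),(3,2),(0,1),(1,1)]) (.cons (.leaf 1
[(2,1),(3,2),(0,1)]) .nil)))) .nil)))) (.cons (.keep [2] (.node (.cons (.leaf 1 [(4,1)]) (.cons (.leaf 1
[(4,1),(2,1)]) .nil)))) .nil)))) (.cons (.keep [2,4,5] (.node (.cons (.leaf 1 [(6,1),(5,1),(4,1)]) (.cons (.leaf 1
[(6,1),(2,1),(5,1),(4,1)]) .nil)))) .nil)))) (.cons (.keep [5] (.node (.cons (.leaf 1 [(4,1)]) (.cons (.leaf 1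
[(2,1),(4,1)]) .nil)))) .nil)))) .nil)))) .nil)))) .nil)))) (.cons (.keep [2,5] (.node (.cons (.leaf 1 []) (.cons
(.keep [0,4,5] (.node (.cons (.keep [4,5,6] (.node (.cons (.keep [4,5] (.node (.cons (.keep [0,4,5] (.node (.cons
(.keep [4,5,6] (.node (.cons (.keep [4,6] (.node (.cons (.keep [3,4,5] (.spl 14 (.cons (.leaf 1 [(3,3),(2,1),(0,2)])
(.cons (.leaf 1 [(3,3),(2,1),(1,2),(0,2)]) .nil)))) (.cons (.keep [2,4,5] (.spl 14 (.cons (.leaf 1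
[(3,3),(2,1),(0,2),(1,2)]) (.cons (.leaf 1 [(3,3),(2,1),(0,2)]) .nil)))) .nil)))) (.cons (.keep [2,5,6] (.node (.cons
(.leaf 1 [(6,1),(4,1),(5,1)]) (.cons (.leaf 1 [(4,1),(2,1),(6,1),(5,1)]) .nil)))) .nil)))) (.cons (.keep [2,6] (.node
(.cons (.leaf 1 [(5,1),(4,1)]) (.cons (.leaf 1 [(2,1),(4,1),(5,1)]) .nil)))) .nil)))) (.cons (.keep [0,2,5] (.node
(.cons (.leaf 1 [(6,1),(4,1),(5,1)]) (.cons (.leaf 1 [(6,1),(5,1),(0,1),(2,2)]) .nil)))) .nil)))) (.cons (.keep [5,6]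
(.node (.cons (.keep [4,5] (.node (.cons (.keep [4,5] (.node (.cons (.keep [4,5] (.node (.cons (.keep [3,4,5] (.spl 14
(.cons (.leaf 1 [(2,3),(3,2),(0,1)]) (.cons (.leaf 1 [(2,3),(3,2),(1,1),(0,1)]) .nil)))) (.cons (.keep [2,4,5] (.spl
14 (.cons (.leaf 1 [(2,3),(3,2),(0,1),(1,1)]) (.cons (.leaf 1 [(2,3),(3,2),(0,1)]) .nil)))) .nil)))) (.cons (.keep
[2,4] (.node (.cons (.leaf 1 [(5,1),(4,1)]) (.cons (.leaf 1 [(4,1),(5,1),(2,1)]) .nil)))) .nil)))) (.cons (.keep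
[2,4,5] (.node (.cons (.leaf 1 [(6,1),(5,2),(4,1)]) (.cons (.leaf 1 [(6,1),(2,1),(4,1),(5,2)]) .nil)))) .nil))))
(.cons (.keep [2,4,5] (.node (.cons (.leaf 1 [(5,1),(6,1),(4,1)]) (.cons (.leaf 1 [(4,1),(2,1),(6,1),(5,1)]) .nil))))
.nil)))) .nil)))) (.cons (.keep [2,5,6] (.node (.cons (.keep [4,5] (.node (.cons (.keep [0,4,5] (.node (.cons (.keep
[4,5,6] (.node (.cons (.keep [4,6] (.node (.cons (.keep [3,4,5] (.spl 14 (.cons (.leaf 1 [(3,3),(2,1),(0,2)]) (.cons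
(.leaf 1 [(3,3),(2,1),(1,2),(0,2)]) .nil)))) (.cons (.keep [2,4,5] (.spl 14 (.cons (.leaf 1 [(3,3),(2,1),(0,2),(1,2)])
(.cons (.leaf 1 [(3,3),(2,1),(0,2)]) .nil)))) .nil)))) (.cons (.keep [2,5] (.node (.cons (.leaf 1 [(4,1),(5,1)])
(.cons (.leaf 1 [(4,1),(2,1),(5,1)]) .nil)))) .nil)))) (.cons (.keep [2,6] (.node (.cons (.leaf 1 [(5,1),(4,1)])
(.cons (.leaf 1 [(2,1),(4,1),(5,1)]) .nil)))) .nil)))) (.cons (.keep [0,2,5] (.node (.cons (.leaf 1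
[(6,1),(4,1),(5,1)]) (.cons (.leaf 1 [(6,1),(5,1),(0,1),(2,2)]) .nil)))) .nil)))) (.cons (.keep [4,6] (.node (.cons
(.keep [4,5] (.node (.cons (.keep [4,5] (.node (.cons (.keep [4,5] (.node (.cons (.keep [3,4,5] (.spl 14 (.cons (.leaf
1 [(2,1),(3,2),(0,1)]) (.cons (.leaf 1 [(2,1),(3,2),(1,1),(0,1)]) .nil)))) (.cons (.keep [2,4,5] (.spl 14 (.cons
(.leaf 1 [(2,1),(3,2),(0,1),(1,1)]) (.cons (.leaf 1 [(2,1),(3,2),(0,1)]) .nil)))) .nil)))) (.cons (.keep [2,4] (.node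
(.cons (.leaf 1 [(5,1),(4,1)]) (.cons (.leaf 1 [(4,1),(5,1),(2,1)]) .nil)))) .nil)))) (.cons (.keep [2,4,5] (.node
(.cons (.leaf 1 [(6,1),(5,1),(4,1)]) (.cons (.leaf 1 [(6,1),(2,1),(4,1),(5,1)]) .nil)))) .nil)))) (.cons (.keep [5]
(.node (.cons (.leaf 1 [(4,1)]) (.cons (.leaf 1 [(4,1),(2,1)]) .nil)))) .nil)))) .nil)))) .nil)))) .nil)))) .nil))))
.nil)))) .nil)))) .nil)))) (.cons (.keep [2] (.node (.cons (.keep [3,4] (.node (.cons (.keep [3,4,5] (.node (.cons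
(.keep [3,4,6] (.node (.cons (.keep [3,4,6] (.node (.cons (.leaf 1 [(4,1)]) (.cons (.keep [4,5,6] (.node (.cons (.keep
[3,4,6] (.node (.cons (.leaf 1 [(6,1),(4,1),(5,2)]) (.cons (.keep [2,4,6] (.node (.cons (.keep [4,5,6] (.node (.cons
(.keep [4,5,6] (.node (.cons (.keep [4,5,6] (.node (.cons (.keep [4,5,6] (.node (.cons (.keep [3,4,6] (.node (.cons
(.keep [3,4,6] (.spl 16 (.cons (.leaf 3 [(2,2),(3,1),(0,5)]) (.cons (.leaf 3 [(2,2),(3,1),(1,5),(0,5)]) .nil))))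
(.cons (.keep [2,4,5,6] (.spl 16 (.cons (.leaf 3 [(2,2),(4,1),(0,5),(1,3)]) (.cons (.leaf 1 [(3,2),(4,1),(0,3)])
.nil)))) .nil)))) (.cons (.keep [2,5,6] (.node (.cons (.leaf 1 [(6,2),(4,1),(5,5)]) (.cons (.leaf 1
[(6,2),(4,1),(5,5),(2,1)]) .nil)))) .nil)))) (.cons (.keep [2,4,6] (.node (.cons (.leaf 1 [(4,3),(6,1),(5,2)]) (.cons
(.leaf 1 [(2,3),(6,1),(4,3),(5,2)]) .nil)))) .nil)))) (.cons (.keep [2] (.node (.cons (.leaf 1 [(4,1)]) (.cons (.leaf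
1 [(4,1),(2,1)]) .nil)))) .nil)))) (.cons (.keep [0,2,6] (.node (.cons (.keep [4,5,6] (.node (.cons (.keep [4,5,6]
(.node (.cons (.keep [4,6] (.node (.cons (.keep [3,4,5] (.spl 16 (.cons (.leaf 2 [(3,1),(2,1),(0,2)]) (.cons (.leaf 2
[(3,1),(2,1),(1,2),(0,2)]) .nil)))) (.cons (.keep [2,4,5] (.spl 16 (.cons (.leaf 2 [(3,1),(2,1),(0,2),(1,2)]) (.cons
(.leaf 2 [(3,1),(2,1),(0,2)]) .nil)))) .nil)))) (.cons (.keep [2,5,6] (.node (.cons (.leaf 3 [(6,1),(4,3),(5,2)])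
(.cons (.leaf 3 [(6,1),(2,3),(4,3),(5,2)]) .nil)))) .nil)))) (.cons (.keep [2,4,6] (.node (.cons (.leaf 2
[(5,1),(6,1),(4,2)]) (.cons (.leaf 2 [(5,1),(6,1),(4,2),(2,2)]) .nil)))) .nil)))) (.cons (.keep [2] (.node (.cons
(.leaf 1 [(4,1)]) (.cons (.leaf 1 [(4,1),(2,1)]) .nil)))) .nil)))) .nil)))) (.cons (.keep [2,5] (.node (.cons (.keep
[4,5] (.node (.cons (.keep [4,5] (.node (.cons (.keep [4,5] (.node (.cons (.keep [4] (.node (.cons (.keep [3,4] (.spl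
16 (.cons (.leaf 1 [(2,1),(0,1)]) (.cons (.leaf 1 [(2,1),(1,1),(0,1)]) .nil)))) (.cons (.keep [2,4] (.spl 16 (.cons
(.leaf 1 [(2,1),(0,1),(1,1)]) (.cons (.leaf 1 [(2,1),(0,1)]) .nil)))) .nil)))) (.cons (.keep [2,4,5] (.node (.cons
(.leaf 1 [(5,2),(4,1),(6,1)]) (.cons (.leaf 1 [(2,1),(4,1),(5,2),(6,1)]) .nil)))) .nil)))) (.cons (.keep [2,4] (.node
(.cons (.leaf 1 [(4,1),(5,1)]) (.cons (.leaf 1 [(2,1),(4,1),(5,1)]) .nil)))) .nil)))) (.cons (.keep [2] (.node (.cons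
(.leaf 1 [(4,1)]) (.cons (.leaf 1 [(4,1),(2,1)]) .nil)))) .nil)))) (.cons (.keep [2,4] (.node (.cons (.keep [4,5]
(.node (.cons (.keep [4,5] (.node (.cons (.keep [5] (.node (.cons (.keep [3,4] (.spl 16 (.cons (.leaf 1 [(2,1),(0,1)])
(.cons (.leaf 1 [(2,1),(1,1),(0,1)]) .nil)))) (.cons (.keep [2,4] (.spl 16 (.cons (.leaf 1 [(2,1),(0,1),(1,1)]) (.cons
(.leaf 1 [(2,1),(0,1)]) .nil)))) .nil)))) (.cons (.keep [2,4,5] (.node (.cons (.leaf 1 [(6,1),(4,1),(5,1)]) (.cons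
(.leaf 1 [(6,1),(2,1),(4,1),(5,1)]) .nil)))) .nil)))) (.cons (.keep [2,5] (.node (.cons (.leaf 1 [(5,1),(4,1)]) (.cons
(.leaf 1 [(5,1),(4,1),(2,1)]) .nil)))) .nil)))) (.cons (.keep [2] (.node (.cons (.leaf 1 [(4,1)]) (.cons (.leaf 1
[(4,1),(2,1)]) .nil)))) .nil)))) .nil)))) .nil)))) .nil)))) (.cons (.keep [2,4,5,6] (.node (.cons (.leaf 1
[(7,1),(5,2),(4,1)]) (.cons (.keep [4,5,6] (.node (.cons (.keep [4,5,6] (.node (.cons (.keep [5,6] (.node (.cons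
(.keep [4,5] (.node (.cons (.keep [4,5] (.node (.cons (.keep [5] (.node (.cons (.keep [3,4] (.spl 16 (.cons (.leaf 1
[(2,1),(0,1)]) (.cons (.leaf 1 [(2,1),(1,1),(0,1)]) .nil)))) (.cons (.keep [2,4] (.spl 16 (.cons (.leaf 1
[(2,1),(0,1),(1,1)]) (.cons (.leaf 1 [(2,1),(0,1)]) .nil)))) .nil)))) (.cons (.keep [2,4,5] (.node (.cons (.leaf 1
[(6,2),(4,1),(5,1)]) (.cons (.leaf 1 [(2,1),(4,1),(6,2),(5,1)]) .nil)))) .nil)))) (.cons (.keep [2,5] (.node (.cons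
(.leaf 1 [(4,1),(5,1)]) (.cons (.leaf 1 [(2,1),(4,1),(5,1)]) .nil)))) .nil)))) (.cons (.keep [2] (.node (.cons (.leaf
1 [(4,1)]) (.cons (.leaf 1 [(4,1),(2,1)]) .nil)))) .nil)))) (.cons (.keep [2,4] (.node (.cons (.keep [4,5] (.node
(.cons (.keep [4,5] (.node (.cons (.keep [5] (.node (.cons (.keep [3,4] (.spl 16 (.cons (.leaf 1 [(2,1),(0,1)]) (.cons
(.leaf 1 [(2,1),(1,1),(0,1)]) .nil)))) (.cons (.keep [2,4] (.spl 16 (.cons (.leaf 1 [(2,1),(0,1),(1,1)]) (.cons (.leaf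
1 [(2,1),(0,1)]) .nil)))) .nil)))) (.cons (.keep [2,4,5] (.node (.cons (.leaf 1 [(6,1),(4,1),(5,1)]) (.cons (.leaf 1
[(6,1),(2,1),(4,1),(5,1)]) .nil)))) .nil)))) (.cons (.keep [2,5] (.node (.cons (.leaf 1 [(5,1),(4,1)]) (.cons (.leaf 1
[(5,1),(4,1),(2,1)]) .nil)))) .nil)))) (.cons (.keep [2] (.node (.cons (.leaf 1 [(4,1)]) (.cons (.leaf 1
[(4,1),(2,1)]) .nil)))) .nil)))) .nil)))) (.cons (.keep [2,5] (.node (.cons (.keep [4,5] (.node (.cons (.keep [4,5]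
(.node (.cons (.keep [4,5] (.node (.cons (.keep [4] (.node (.cons (.keep [3,4] (.spl 16 (.cons (.leaf 1 [(2,1),(0,1)])
(.cons (.leaf 1 [(2,1),(1,1),(0,1)]) .nil)))) (.cons (.keep [2,4] (.spl 16 (.cons (.leaf 1 [(2,1),(0,1),(1,1)]) (.cons
(.leaf 1 [(2,1),(0,1)]) .nil)))) .nil)))) (.cons (.keep [2,4,5] (.node (.cons (.leaf 1 [(5,1),(4,1),(6,1)]) (.cons
(.leaf 1 [(2,1),(4,1),(5,1),(6,1)]) .nil)))) .nil)))) (.cons (.keep [2,4] (.node (.cons (.leaf 1 [(4,1),(5,1)]) (.cons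
(.leaf 1 [(2,1),(4,1),(5,1)]) .nil)))) .nil)))) (.cons (.keep [2] (.node (.cons (.leaf 1 [(4,1)]) (.cons (.leaf 1
[(4,1),(2,1)]) .nil)))) .nil)))) (.cons (.keep [2,4] (.node (.cons (.keep [4,5] (.node (.cons (.keep [4,5] (.node
(.cons (.keep [5] (.node (.cons (.keep [3,4] (.spl 16 (.cons (.leaf 1 [(2,1),(0,1)]) (.cons (.leaf 1
[(2,1),(1,1),(0,1)]) .nil)))) (.cons (.keep [2,4] (.spl 16 (.cons (.leaf 1 [(2,1),(0,1),(1,1)]) (.cons (.leaf 1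
[(2,1),(0,1)]) .nil)))) .nil)))) (.cons (.keep [2,4,5] (.node (.cons (.leaf 1 [(6,1),(4,1),(5,1)]) (.cons (.leaf 1
[(6,1),(2,1),(4,1),(5,1)]) .nil)))) .nil)))) (.cons (.keep [2,5] (.node (.cons (.leaf 1 [(5,1),(4,1)]) (.cons (.leaf 1
[(5,1),(4,1),(2,1)]) .nil)))) .nil)))) (.cons (.keep [2] (.node (.cons (.leaf 1 [(4,1)]) (.cons (.leaf 1
[(4,1),(2,1)]) .nil)))) .nil)))) .nil)))) .nil)))) .nil)))) .nil)))) .nil)))) (.cons (.keep [4,5,6] (.node (.cons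
(.keep [0,3,5,6] (.node (.cons (.leaf 1 [(5,1),(6,1)]) (.cons (.keep [4,6,7] (.node (.cons (.keep [3,4,5,6] (.node
(.cons (.leaf 1 [(4,1),(7,1),(6,2)]) (.cons (.keep [4,5,6] (.spl 21 (.cons (.leaf 2 [(0,1),(3,2)]) (.cons (.leaf 1
[(1,1),(0,1),(3,2)]) (.cons (.leaf 3 [(1,2),(2,1),(0,2),(3,5)]) .nil))))) .nil)))) (.cons (.keep [2,5,6] (.node (.cons
(.keep [0,5,6] (.node (.cons (.leaf 1 [(6,1),(5,2),(4,1)]) (.cons (.leaf 1 [(6,1),(5,2),(0,1)]) .nil)))) (.cons (.keep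
[2,4,5,6] (.node (.cons (.leaf 1 [(7,1),(5,1),(4,1)]) (.cons (.leaf 1 [(7,1),(6,2),(0,1)]) .nil)))) .nil)))) .nil))))
.nil)))) (.cons (.keep [4,5,6] (.node (.cons (.keep [3,4,5] (.node (.cons (.leaf 1 [(5,1),(4,1),(6,1)]) (.cons (.keep
[2,4,5] (.node (.cons (.keep [4,5,6] (.node (.cons (.keep [4,5,6] (.node (.cons (.keep [4,5,6] (.node (.cons (.keep
[4,5,6] (.node (.cons (.keep [3,4,6] (.node (.cons (.keep [3,4,6] (.spl 16 (.cons (.leaf 2 [(2,1),(3,1),(0,3)]) (.cons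
(.leaf 2 [(2,1),(3,1),(1,3),(0,3)]) .nil)))) (.cons (.keep [2,4,5,6] (.spl 16 (.cons (.leaf 2
[(2,1),(4,1),(0,3),(1,2)]) (.cons (.leaf 1 [(3,1),(4,1),(0,2)]) .nil)))) .nil)))) (.cons (.keep [2,5,6] (.node (.cons
(.leaf 1 [(6,2),(4,1),(5,3)]) (.cons (.leaf 1 [(6,2),(4,1),(5,3),(2,1)]) .nil)))) .nil)))) (.cons (.keep [2,4,6]
(.node (.cons (.leaf 1 [(4,2),(6,1),(5,1)]) (.cons (.leaf 1 [(2,2),(6,1),(4,2),(5,1)]) .nil)))) .nil)))) (.cons (.keep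
[2] (.node (.cons (.leaf 1 [(4,1)]) (.cons (.leaf 1 [(4,1),(2,1)]) .nil)))) .nil)))) (.cons (.keep [0,2,6] (.node
(.cons (.keep [4,5,6] (.node (.cons (.keep [4,5,6] (.node (.cons (.keep [4,6] (.node (.cons (.keep [3,4,5] (.spl 16
(.cons (.leaf 1 [(3,1),(2,1),(0,1)]) (.cons (.leaf 1 [(3,1),(2,1),(1,1),(0,1)]) .nil)))) (.cons (.keep [2,4,5] (.spl
16 (.cons (.leaf 1 [(3,1),(2,1),(0,1),(1,1)]) (.cons (.leaf 1 [(3,1),(2,1),(0,1)]) .nil)))) .nil)))) (.cons (.keep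
[2,5,6] (.node (.cons (.leaf 2 [(6,1),(4,2),(5,1)]) (.cons (.leaf 2 [(6,1),(2,2),(4,2),(5,1)]) .nil)))) .nil))))
(.cons (.keep [2,4,6] (.node (.cons (.leaf 1 [(5,1),(6,1),(4,1)]) (.cons (.leaf 1 [(5,1),(6,1),(4,1),(2,1)]) .nil))))
.nil)))) (.cons (.keep [2] (.node (.cons (.leaf 1 [(4,1)]) (.cons (.leaf 1 [(4,1),(2,1)]) .nil)))) .nil)))) .nil))))
(.cons (.keep [2,5] (.node (.cons (.keep [4,5] (.node (.cons (.keep [4,5] (.node (.cons (.keep [4,5] (.node (.cons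
(.keep [4] (.node (.cons (.keep [3,4] (.spl 16 (.cons (.leaf 1 [(2,1),(0,1)]) (.cons (.leaf 1 [(2,1),(1,1),(0,1)])
.nil)))) (.cons (.keep [2,4] (.spl 16 (.cons (.leaf 1 [(2,1),(0,1),(1,1)]) (.cons (.leaf 1 [(2,1),(0,1)]) .nil))))
.nil)))) (.cons (.keep [2,4,5] (.node (.cons (.leaf 1 [(5,2),(4,1),(6,1)]) (.cons (.leaf 1 [(2,1),(4,1),(5,2),(6,1)])
.nil)))) .nil)))) (.cons (.keep [2,4] (.node (.cons (.leaf 1 [(4,1),(5,1)]) (.cons (.leaf 1 [(2,1),(4,1),(5,1)])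
.nil)))) .nil)))) (.cons (.keep [2] (.node (.cons (.leaf 1 [(4,1)]) (.cons (.leaf 1 [(4,1),(2,1)]) .nil)))) .nil))))
(.cons (.keep [2,4] (.node (.cons (.keep [4,5] (.node (.cons (.keep [4,5] (.node (.cons (.keep [5] (.node (.cons
(.keep [3,4] (.spl 16 (.cons (.leaf 1 [(2,1),(0,1)]) (.cons (.leaf 1 [(2,1),(1,1),(0,1)]) .nil)))) (.cons (.keep [2,4]
(.spl 16 (.cons (.leaf 1 [(2,1),(0,1),(1,1)]) (.cons (.leaf 1 [(2,1),(0,1)]) .nil)))) .nil)))) (.cons (.keep [2,4,5]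
(.node (.cons (.leaf 1 [(6,1),(4,1),(5,1)]) (.cons (.leaf 1 [(6,1),(2,1),(4,1),(5,1)]) .nil)))) .nil)))) (.cons (.keep
[2,5] (.node (.cons (.leaf 1 [(5,1),(4,1)]) (.cons (.leaf 1 [(5,1),(4,1),(2,1)]) .nil)))) .nil)))) (.cons (.keep [2]
(.node (.cons (.leaf 1 [(4,1)]) (.cons (.leaf 1 [(4,1),(2,1)]) .nil)))) .nil)))) .nil)))) .nil)))) .nil)))) (.cons
(.keep [2,4,5,6] (.node (.cons (.leaf 1 [(7,1),(6,1)]) (.cons (.keep [4,5,7] (.node (.cons (.keep [4,5,6] (.node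
(.cons (.keep [5,6] (.node (.cons (.keep [4,5] (.node (.cons (.keep [4,5] (.node (.cons (.keep [4] (.node (.cons
(.keep [3,4] (.spl 16 (.cons (.leaf 1 [(2,1),(0,1)]) (.cons (.leaf 1 [(2,1),(1,1),(0,1)]) .nil)))) (.cons (.keep [2,4]
(.spl 16 (.cons (.leaf 1 [(2,1),(0,1),(1,1)]) (.cons (.leaf 1 [(2,1),(0,1)]) .nil)))) .nil)))) (.cons (.keep [2,4,5]
(.node (.cons (.leaf 1 [(5,1),(4,1),(6,1)]) (.cons (.leaf 1 [(2,1),(4,1),(5,1),(6,1)]) .nil)))) .nil)))) (.cons (.keep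
[2,4] (.node (.cons (.leaf 1 [(4,1),(5,1)]) (.cons (.leaf 1 [(2,1),(4,1),(5,1)]) .nil)))) .nil)))) (.cons (.keep [2]
(.node (.cons (.leaf 1 [(4,1)]) (.cons (.leaf 1 [(4,1),(2,1)]) .nil)))) .nil)))) (.cons (.keep [2,4] (.node (.cons
(.keep [4,5] (.node (.cons (.keep [4,5] (.node (.cons (.keep [5] (.node (.cons (.keep [3,4] (.spl 16 (.cons (.leaf 1
[(2,1),(0,1)]) (.cons (.leaf 1 [(2,1),(1,1),(0,1)]) .nil)))) (.cons (.keep [2,4] (.spl 16 (.cons (.leaf 1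
[(2,1),(0,1),(1,1)]) (.cons (.leaf 1 [(2,1),(0,1)]) .nil)))) .nil)))) (.cons (.keep [2,4,5] (.node (.cons (.leaf 1
[(6,1),(4,1),(5,1)]) (.cons (.leaf 1 [(6,1),(2,1),(4,1),(5,1)]) .nil)))) .nil)))) (.cons (.keep [2,5] (.node (.cons
(.leaf 1 [(5,1),(4,1)]) (.cons (.leaf 1 [(5,1),(4,1),(2,1)]) .nil)))) .nil)))) (.cons (.keep [2] (.node (.cons (.leaf
1 [(4,1)]) (.cons (.leaf 1 [(4,1),(2,1)]) .nil)))) .nil)))) .nil)))) (.cons (.keep [2,6] (.node (.cons (.keep [4,5]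
(.node (.cons (.keep [4,5] (.node (.cons (.keep [4,5] (.node (.cons (.keep [4] (.node (.cons (.keep [3,4] (.spl 16
(.cons (.leaf 1 [(2,1),(0,1)]) (.cons (.leaf 1 [(2,1),(1,1),(0,1)]) .nil)))) (.cons (.keep [2,4] (.spl 16 (.cons
(.leaf 1 [(2,1),(0,1),(1,1)]) (.cons (.leaf 1 [(2,1),(0,1)]) .nil)))) .nil)))) (.cons (.keep [2,4,5] (.node (.cons
(.leaf 1 [(5,2),(4,1),(6,1)]) (.cons (.leaf 1 [(2,1),(4,1),(5,2),(6,1)]) .nil)))) .nil)))) (.cons (.keep [2,4] (.node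
(.cons (.leaf 1 [(4,1),(5,1)]) (.cons (.leaf 1 [(2,1),(4,1),(5,1)]) .nil)))) .nil)))) (.cons (.keep [2] (.node (.cons
(.leaf 1 [(4,1)]) (.cons (.leaf 1 [(4,1),(2,1)]) .nil)))) .nil)))) (.cons (.keep [2,4] (.node (.cons (.keep [4,5]
(.node (.cons (.keep [4,5] (.node (.cons (.keep [5] (.node (.cons (.keep [3,4] (.spl 16 (.cons (.leaf 1 [(2,1),(0,1)])
(.cons (.leaf 1 [(2,1),(1,1),(0,1)]) .nil)))) (.cons (.keep [2,4] (.spl 16 (.cons (.leaf 1 [(2,1),(0,1),(1,1)]) (.cons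
(.leaf 1 [(2,1),(0,1)]) .nil)))) .nil)))) (.cons (.keep [2,4,5] (.node (.cons (.leaf 1 [(6,1),(4,1),(5,1)]) (.cons
(.leaf 1 [(6,1),(2,1),(4,1),(5,1)]) .nil)))) .nil)))) (.cons (.keep [2,5] (.node (.cons (.leaf 1 [(5,1),(4,1)]) (.cons
(.leaf 1 [(5,1),(4,1),(2,1)]) .nil)))) .nil)))) (.cons (.keep [2] (.node (.cons (.leaf 1 [(4,1)]) (.cons (.leaf 1
[(4,1),(2,1)]) .nil)))) .nil)))) .nil)))) .nil)))) .nil)))) .nil)))) .nil)))) .nil)))) (.cons (.keep [2,4,5,6] (.node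
(.cons (.keep [3,6,7] (.node (.cons (.leaf 1 [(4,1)]) (.cons (.keep [0,4,5,6] (.node (.cons (.keep [3,4,5,6,7] (.node
(.cons (.keep [4,5,6] (.node (.cons (.keep [4,5,6] (.node (.cons (.keep [4,5,6] (.node (.cons (.keep [4] (.node (.cons
(.keep [3,4] (.spl 14 (.cons (.leaf 1 [(2,1),(0,1)]) (.cons (.leaf 1 [(2,1),(1,1),(0,1)]) .nil)))) (.cons (.keep [2,4]
(.spl 14 (.cons (.leaf 1 [(2,1),(0,1),(1,1)]) (.cons (.leaf 1 [(2,1),(0,1)]) .nil)))) .nil)))) (.cons (.keep [2,5,6]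
(.node (.cons (.leaf 1 [(4,1),(6,1),(5,1)]) (.cons (.leaf 1 [(2,1),(6,1),(4,1),(5,1)]) .nil)))) .nil)))) (.cons (.keep
[2] (.node (.cons (.leaf 1 [(4,1)]) (.cons (.leaf 1 [(4,1),(2,1)]) .nil)))) .nil)))) (.cons (.keep [0,2,6] (.node
(.cons (.leaf 1 [(4,1),(6,1),(5,1)]) (.cons (.leaf 1 [(0,1),(2,2),(6,1),(5,1)]) .nil)))) .nil)))) (.cons (.keep
[4,7,8] (.node (.cons (.keep [5,6] (.node (.cons (.keep [4,5] (.node (.cons (.keep [4,5] (.node (.cons (.keep [4,5]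
(.node (.cons (.keep [3,4,5] (.node (.cons (.keep [3,4,5] (.spl 16 (.cons (.leaf 1 [(2,1),(3,1),(0,3)]) (.cons (.leaf
1 [(2,1),(3,1),(1,3),(0,3)]) .nil)))) (.cons (.keep [2,4,5,6] (.node (.cons (.keep [3,4,6,7] (.node (.cons (.leaf 2
[(4,2),(7,1),(5,1)]) (.cons (.keep [4,5,6] (.node (.cons (.keep [0,3,5,6] (.node (.cons (.leaf 3 [(5,2),(4,1),(7,1)])
(.cons (.keep [0,6,7] (.spl 16 (.cons (.leaf 2 [(2,2),(0,3),(3,1)]) (.cons (.leaf 1 [(0,2),(1,1),(3,1)]) .nil))))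
.nil)))) (.cons (.keep [0,4,5,6] (.node (.cons (.leaf 1 [(4,1),(5,2),(7,1)]) (.cons (.keep [0,6,7] (.spl 16 (.cons
(.leaf 2 [(2,2),(0,3),(3,1)]) (.cons (.leaf 1 [(0,2),(1,1),(3,1)]) .nil)))) .nil)))) .nil)))) .nil)))) (.cons (.keep
[4,5,6] (.node (.cons (.leaf 1 [(5,1),(4,2),(6,1)]) (.cons (.keep [4,5,6] (.node (.cons (.leaf 1 []) (.cons (.keep
[0,4,5,6] (.spl 16 (.cons (.leaf 1 [(2,2),(0,3),(4,1),(3,1)]) (.cons (.leaf 1 [(0,3),(4,1),(1,1)]) .nil)))) .nil))))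
.nil)))) .nil)))) .nil)))) (.cons (.keep [2,4] (.node (.cons (.keep [4,5] (.spl 15 (.cons (.leaf 1
[(2,1),(1,5),(0,3)]) (.cons (.leaf 1 [(2,1),(1,2),(0,3)]) .nil)))) (.cons (.keep [2,4,5] (.spl 15 (.cons (.leaf 1
[(3,1),(2,5),(0,3),(1,2)]) (.cons (.leaf 1 [(3,1),(2,2),(0,3),(1,2)]) .nil)))) .nil)))) .nil)))) (.cons (.keep [2,4]
(.node (.cons (.keep [4,5] (.spl 14 (.cons (.leaf 1 [(1,4),(2,1),(0,1)]) (.cons (.leaf 1 [(1,3),(2,1),(0,1)]) .nil))))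
(.cons (.keep [2,4,5] (.spl 14 (.cons (.leaf 1 [(1,3),(3,1),(2,4),(0,1)]) (.cons (.leaf 1 [(1,3),(3,1),(2,3),(0,1)])
.nil)))) .nil)))) .nil)))) (.cons (.keep [2] (.node (.cons (.leaf 1 [(4,1)]) (.cons (.leaf 1 [(4,1),(2,1)]) .nil))))
.nil)))) (.cons (.keep [2,5] (.node (.cons (.keep [4,5] (.node (.cons (.keep [4,5] (.node (.cons (.keep [5] (.node
(.cons (.keep [3,4] (.spl 16 (.cons (.leaf 1 [(2,1),(0,1)]) (.cons (.leaf 1 [(2,1),(1,1),(0,1)]) .nil)))) (.cons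
(.keep [2,4] (.spl 16 (.cons (.leaf 1 [(2,1),(0,1),(1,1)]) (.cons (.leaf 1 [(2,1),(0,1)]) .nil)))) .nil)))) (.cons
(.keep [2,4,5] (.node (.cons (.leaf 1 [(6,1),(4,1),(5,1)]) (.cons (.leaf 1 [(6,1),(2,1),(4,1),(5,1)]) .nil))))
.nil)))) (.cons (.keep [2,5] (.node (.cons (.leaf 1 [(5,1),(4,1)]) (.cons (.leaf 1 [(5,1),(4,1),(2,1)]) .nil))))
.nil)))) (.cons (.keep [2] (.node (.cons (.leaf 1 [(4,1)]) (.cons (.leaf 1 [(4,1),(2,1)]) .nil)))) .nil)))) .nil))))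
(.cons (.keep [2,4] (.node (.cons (.keep [4,5] (.node (.cons (.keep [4,5] (.node (.cons (.keep [4,5] (.node (.cons
(.keep [4] (.node (.cons (.keep [3,4] (.spl 16 (.cons (.leaf 1 [(2,1),(0,1)]) (.cons (.leaf 1 [(2,1),(1,1),(0,1)])
.nil)))) (.cons (.keep [2,4] (.spl 16 (.cons (.leaf 1 [(2,1),(0,1),(1,1)]) (.cons (.leaf 1 [(2,1),(0,1)]) .nil))))
.nil)))) (.cons (.keep [2,4,5] (.node (.cons (.leaf 1 [(5,2),(4,1),(6,1)]) (.cons (.leaf 1 [(5,2),(2,1),(4,1),(6,1)])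
.nil)))) .nil)))) (.cons (.keep [2,4] (.node (.cons (.leaf 1 [(5,1),(4,1)]) (.cons (.leaf 1 [(5,1),(4,1),(2,1)])
.nil)))) .nil)))) (.cons (.keep [2] (.node (.cons (.leaf 1 [(4,1)]) (.cons (.leaf 1 [(4,1),(2,1)]) .nil)))) .nil))))
(.cons (.keep [2,4] (.node (.cons (.keep [4,5] (.node (.cons (.keep [4,5] (.node (.cons (.keep [5] (.node (.cons
(.keep [3,4] (.spl 16 (.cons (.leaf 1 [(2,1),(0,1)]) (.cons (.leaf 1 [(2,1),(1,1),(0,1)]) .nil)))) (.cons (.keep [2,4]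
(.spl 16 (.cons (.leaf 1 [(2,1),(0,1),(1,1)]) (.cons (.leaf 1 [(2,1),(0,1)]) .nil)))) .nil)))) (.cons (.keep [2,4,5]
(.node (.cons (.leaf 1 [(6,1),(4,1),(5,1)]) (.cons (.leaf 1 [(6,1),(2,1),(4,1),(5,1)]) .nil)))) .nil)))) (.cons (.keep
[2,5] (.node (.cons (.leaf 1 [(5,1),(4,1)]) (.cons (.leaf 1 [(5,1),(4,1),(2,1)]) .nil)))) .nil)))) (.cons (.keep [2]
(.node (.cons (.leaf 1 [(4,1)]) (.cons (.leaf 1 [(4,1),(2,1)]) .nil)))) .nil)))) .nil)))) .nil)))) .nil)))) (.cons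
(.keep [2,5] (.node (.cons (.keep [0,4,5] (.node (.cons (.keep [4,5,6] (.node (.cons (.keep [4,5,6] (.node (.cons
(.keep [4,6] (.node (.cons (.keep [3,4,5] (.spl 14 (.cons (.leaf 1 [(2,1),(3,1),(0,1)]) (.cons (.leaf 1
[(2,1),(3,1),(1,1),(0,1)]) .nil)))) (.cons (.keep [2,4,5] (.spl 14 (.cons (.leaf 1 [(2,1),(3,1),(0,1),(1,1)]) (.cons
(.leaf 1 [(2,1),(3,1),(0,1)]) .nil)))) .nil)))) (.cons (.keep [2,5,6] (.node (.cons (.leaf 1 [(4,1),(6,1),(5,1)])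
(.cons (.leaf 1 [(2,1),(6,1),(4,1),(5,1)]) .nil)))) .nil)))) (.cons (.keep [2] (.node (.cons (.leaf 1 [(4,1)]) (.cons
(.leaf 1 [(4,1),(2,1)]) .nil)))) .nil)))) (.cons (.keep [0,2,6] (.node (.cons (.leaf 1 [(4,1),(6,1),(5,1)]) (.cons
(.leaf 1 [(0,1),(2,2),(6,1),(5,1)]) .nil)))) .nil)))) (.cons (.keep [4,5] (.node (.cons (.keep [4] (.node (.cons
(.keep [4] (.node (.cons (.keep [4] (.node (.cons (.keep [4] (.node (.cons (.keep [3,4] (.node (.cons (.keep [3,4,5]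
(.spl 16 (.cons (.leaf 1 [(2,1),(3,1),(0,2)]) (.cons (.leaf 1 [(2,1),(3,1),(1,2),(0,2)]) .nil)))) (.cons (.keep
[2,4,5] (.node (.cons (.keep [3,4,6] (.node (.cons (.leaf 2 [(4,2),(6,1),(5,1)]) (.cons (.keep [4,5,6] (.node (.cons
(.keep [0,3,5,6] (.node (.cons (.leaf 2 [(5,1),(4,1),(7,1)]) (.cons (.keep [0,6,7] (.spl 16 (.cons (.leaf 2
[(2,1),(0,2),(3,1)]) (.cons (.leaf 1 [(0,1),(1,1),(3,1)]) .nil)))) .nil)))) (.cons (.keep [0,4,5,6] (.node (.cons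
(.leaf 1 [(4,1),(5,1),(7,1)]) (.cons (.keep [0,6,7] (.spl 16 (.cons (.leaf 2 [(2,1),(0,2),(3,1)]) (.cons (.leaf 1
[(0,1),(1,1),(3,1)]) .nil)))) .nil)))) .nil)))) .nil)))) (.cons (.keep [4,5,6] (.node (.cons (.leaf 1
[(5,1),(4,1),(6,1)]) (.cons (.keep [4,5,6] (.node (.cons (.leaf 1 []) (.cons (.keep [0,4,5,6] (.spl 16 (.cons (.leaf 1
[(2,1),(0,2),(4,1),(3,1)]) (.cons (.leaf 1 [(0,2),(4,1),(1,1)]) .nil)))) .nil)))) .nil)))) .nil)))) .nil)))) (.cons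
(.keep [2,4] (.node (.cons (.keep [4,5] (.spl 15 (.cons (.leaf 1 [(2,1),(1,3),(0,2)]) (.cons (.leaf 1
[(2,1),(1,1),(0,2)]) .nil)))) (.cons (.keep [2,4,5] (.spl 15 (.cons (.leaf 1 [(3,1),(2,3),(0,2),(1,1)]) (.cons (.leaf
1 [(3,1),(2,1),(0,2),(1,1)]) .nil)))) .nil)))) .nil)))) (.cons (.keep [2,4] (.node (.cons (.keep [4,5] (.spl 14 (.cons
(.leaf 1 [(1,3),(2,1),(0,1)]) (.cons (.leaf 1 [(1,2),(2,1),(0,1)]) .nil)))) (.cons (.keep [2,4,5] (.spl 14 (.cons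
(.leaf 1 [(1,2),(3,1),(2,3),(0,1)]) (.cons (.leaf 1 [(1,2),(3,1),(2,2),(0,1)]) .nil)))) .nil)))) .nil)))) (.cons
(.keep [2] (.node (.cons (.leaf 1 [(4,1)]) (.cons (.leaf 1 [(4,1),(2,1)]) .nil)))) .nil)))) (.cons (.keep [2,4] (.node
(.cons (.keep [4,5] (.node (.cons (.keep [4,5] (.node (.cons (.keep [5] (.node (.cons (.keep [3,4] (.spl 16 (.cons
(.leaf 1 [(2,1),(0,1)]) (.cons (.leaf 1 [(2,1),(1,1),(0,1)]) .nil)))) (.cons (.keep [2,4] (.spl 16 (.cons (.leaf 1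
[(2,1),(0,1),(1,1)]) (.cons (.leaf 1 [(2,1),(0,1)]) .nil)))) .nil)))) (.cons (.keep [2,4,5] (.node (.cons (.leaf 1
[(6,1),(4,1),(5,1)]) (.cons (.leaf 1 [(6,1),(2,1),(4,1),(5,1)]) .nil)))) .nil)))) (.cons (.keep [2,5] (.node (.cons
(.leaf 1 [(5,1),(4,1)]) (.cons (.leaf 1 [(5,1),(4,1),(2,1)]) .nil)))) .nil)))) (.cons (.keep [2] (.node (.cons (.leaf
1 [(4,1)]) (.cons (.leaf 1 [(4,1),(2,1)]) .nil)))) .nil)))) .nil)))) (.cons (.keep [2,5] (.node (.cons (.keep [4,5]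
(.node (.cons (.keep [4,5] (.node (.cons (.keep [4,5] (.node (.cons (.keep [4] (.node (.cons (.keep [3,4] (.spl 16
(.cons (.leaf 1 [(2,1),(0,1)]) (.cons (.leaf 1 [(2,1),(1,1),(0,1)]) .nil)))) (.cons (.keep [2,4] (.spl 16 (.cons
(.leaf 1 [(2,1),(0,1),(1,1)]) (.cons (.leaf 1 [(2,1),(0,1)]) .nil)))) .nil)))) (.cons (.keep [2,4,5] (.node (.cons
(.leaf 1 [(5,1),(4,1),(6,1)]) (.cons (.leaf 1 [(2,1),(4,1),(5,1),(6,1)]) .nil)))) .nil)))) (.cons (.keep [2,4] (.node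
(.cons (.leaf 1 [(4,1),(5,1)]) (.cons (.leaf 1 [(2,1),(4,1),(5,1)]) .nil)))) .nil)))) (.cons (.keep [2] (.node (.cons
(.leaf 1 [(4,1)]) (.cons (.leaf 1 [(4,1),(2,1)]) .nil)))) .nil)))) (.cons (.keep [2,4] (.node (.cons (.keep [4,5]
(.node (.cons (.keep [4,5] (.node (.cons (.keep [5] (.node (.cons (.keep [3,4] (.spl 16 (.cons (.leaf 1 [(2,1),(0,1)])
(.cons (.leaf 1 [(2,1),(1,1),(0,1)]) .nil)))) (.cons (.keep [2,4] (.spl 16 (.cons (.leaf 1 [(2,1),(0,1),(1,1)]) (.cons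
(.leaf 1 [(2,1),(0,1)]) .nil)))) .nil)))) (.cons (.keep [2,4,5] (.node (.cons (.leaf 1 [(6,1),(4,1),(5,1)]) (.cons
(.leaf 1 [(6,1),(2,1),(4,1),(5,1)]) .nil)))) .nil)))) (.cons (.keep [2,5] (.node (.cons (.leaf 1 [(5,1),(4,1)]) (.cons
(.leaf 1 [(5,1),(4,1),(2,1)]) .nil)))) .nil)))) (.cons (.keep [2] (.node (.cons (.leaf 1 [(4,1)]) (.cons (.leaf 1
[(4,1),(2,1)]) .nil)))) .nil)))) .nil)))) .nil)))) .nil)))) .nil)))) .nil)))) (.cons (.keep [2,4,5,7] (.node (.cons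
(.leaf 1 [(7,1),(6,1)]) (.cons (.keep [0,4,5,6,7] (.node (.cons (.keep [3,4,5,6,7] (.node (.cons (.keep [4,5,7,8]
(.node (.cons (.keep [4,5,7] (.node (.cons (.keep [4,5,6] (.node (.cons (.keep [4] (.node (.cons (.keep [3,4] (.spl 14
(.cons (.leaf 1 [(2,1),(0,1)]) (.cons (.leaf 1 [(2,1),(1,1),(0,1)]) .nil)))) (.cons (.keep [2,4] (.spl 14 (.cons
(.leaf 1 [(2,1),(0,1),(1,1)]) (.cons (.leaf 1 [(2,1),(0,1)]) .nil)))) .nil)))) (.cons (.keep [2,5,6] (.node (.cons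
(.leaf 1 [(4,1),(6,1),(5,1)]) (.cons (.leaf 1 [(2,1),(6,1),(4,1),(5,1)]) .nil)))) .nil)))) (.cons (.keep [2] (.node
(.cons (.leaf 1 [(4,1)]) (.cons (.leaf 1 [(4,1),(2,1)]) .nil)))) .nil)))) (.cons (.keep [0,2,6] (.node (.cons (.leaf 1
[(4,1),(6,1),(5,2)]) (.cons (.leaf 1 [(0,1),(2,3),(6,1),(5,2)]) .nil)))) .nil)))) (.cons (.keep [4,6] (.node (.cons
(.keep [5] (.node (.cons (.keep [4] (.node (.cons (.keep [4] (.node (.cons (.keep [4] (.node (.cons (.keep [3,4]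
(.node (.cons (.keep [3,4,5] (.spl 16 (.cons (.leaf 1 [(2,1),(3,1),(0,2)]) (.cons (.leaf 1 [(2,1),(3,1),(1,2),(0,2)])
.nil)))) (.cons (.keep [2,4,5] (.node (.cons (.keep [3,4,6] (.node (.cons (.leaf 2 [(4,2),(6,1),(5,1)]) (.cons (.keep
[4,5,6] (.node (.cons (.keep [0,3,5,6] (.node (.cons (.leaf 2 [(5,1),(4,1),(7,1)]) (.cons (.keep [0,6,7] (.spl 16
(.cons (.leaf 2 [(2,1),(0,2),(3,1)]) (.cons (.leaf 1 [(0,1),(1,1),(3,1)]) .nil)))) .nil)))) (.cons (.keep [0,4,5,6]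
(.node (.cons (.leaf 1 [(4,1),(5,1),(7,1)]) (.cons (.keep [0,6,7] (.spl 16 (.cons (.leaf 2 [(2,1),(0,2),(3,1)]) (.cons
(.leaf 1 [(0,1),(1,1),(3,1)]) .nil)))) .nil)))) .nil)))) .nil)))) (.cons (.keep [4,5,6] (.node (.cons (.leaf 1
[(5,1),(4,1),(6,1)]) (.cons (.keep [4,5,6] (.node (.cons (.leaf 1 []) (.cons (.keep [0,4,5,6] (.spl 16 (.cons (.leaf 1
[(2,1),(0,2),(4,1),(3,1)]) (.cons (.leaf 1 [(0,2),(4,1),(1,1)]) .nil)))) .nil)))) .nil)))) .nil)))) .nil)))) (.cons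
(.keep [2,4] (.node (.cons (.keep [4,5] (.spl 15 (.cons (.leaf 1 [(2,1),(1,3),(0,2)]) (.cons (.leaf 1
[(2,1),(1,1),(0,2)]) .nil)))) (.cons (.keep [2,4,5] (.spl 15 (.cons (.leaf 1 [(3,1),(2,3),(0,2),(1,1)]) (.cons (.leaf
1 [(3,1),(2,1),(0,2),(1,1)]) .nil)))) .nil)))) .nil)))) (.cons (.keep [2,4] (.node (.cons (.keep [4,5] (.spl 14 (.cons
(.leaf 1 [(1,3),(2,1),(0,1)]) (.cons (.leaf 1 [(1,2),(2,1),(0,1)]) .nil)))) (.cons (.keep [2,4,5] (.spl 14 (.cons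
(.leaf 1 [(1,2),(3,1),(2,3),(0,1)]) (.cons (.leaf 1 [(1,2),(3,1),(2,2),(0,1)]) .nil)))) .nil)))) .nil)))) (.cons
(.keep [2] (.node (.cons (.leaf 1 [(4,1)]) (.cons (.leaf 1 [(4,1),(2,1)]) .nil)))) .nil)))) (.cons (.keep [2,4] (.node
(.cons (.keep [4,5] (.node (.cons (.keep [4,5] (.node (.cons (.keep [5] (.node (.cons (.keep [3,4] (.spl 16 (.cons
(.leaf 1 [(2,1),(0,1)]) (.cons (.leaf 1 [(2,1),(1,1),(0,1)]) .nil)))) (.cons (.keep [2,4] (.spl 16 (.cons (.leaf 1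
[(2,1),(0,1),(1,1)]) (.cons (.leaf 1 [(2,1),(0,1)]) .nil)))) .nil)))) (.cons (.keep [2,4,5] (.node (.cons (.leaf 1
[(6,1),(4,1),(5,1)]) (.cons (.leaf 1 [(6,1),(2,1),(4,1),(5,1)]) .nil)))) .nil)))) (.cons (.keep [2,5] (.node (.cons
(.leaf 1 [(5,1),(4,1)]) (.cons (.leaf 1 [(5,1),(4,1),(2,1)]) .nil)))) .nil)))) (.cons (.keep [2] (.node (.cons (.leaf
1 [(4,1)]) (.cons (.leaf 1 [(4,1),(2,1)]) .nil)))) .nil)))) .nil)))) (.cons (.keep [2,4] (.node (.cons (.keep [4,5]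
(.node (.cons (.keep [4,5] (.node (.cons (.keep [4,5] (.node (.cons (.keep [4] (.node (.cons (.keep [3,4] (.spl 16
(.cons (.leaf 1 [(2,1),(0,1)]) (.cons (.leaf 1 [(2,1),(1,1),(0,1)]) .nil)))) (.cons (.keep [2,4] (.spl 16 (.cons
(.leaf 1 [(2,1),(0,1),(1,1)]) (.cons (.leaf 1 [(2,1),(0,1)]) .nil)))) .nil)))) (.cons (.keep [2,4,5] (.node (.cons
(.leaf 1 [(5,2),(4,1),(6,1)]) (.cons (.leaf 1 [(5,2),(2,1),(4,1),(6,1)]) .nil)))) .nil)))) (.cons (.keep [2,4] (.node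
(.cons (.leaf 1 [(5,1),(4,1)]) (.cons (.leaf 1 [(5,1),(4,1),(2,1)]) .nil)))) .nil)))) (.cons (.keep [2] (.node (.cons
(.leaf 1 [(4,1)]) (.cons (.leaf 1 [(4,1),(2,1)]) .nil)))) .nil)))) (.cons (.keep [2,4] (.node (.cons (.keep [4,5]
(.node (.cons (.keep [4,5] (.node (.cons (.keep [5] (.node (.cons (.keep [3,4] (.spl 16 (.cons (.leaf 1 [(2,1),(0,1)])
(.cons (.leaf 1 [(2,1),(1,1),(0,1)]) .nil)))) (.cons (.keep [2,4] (.spl 16 (.cons (.leaf 1 [(2,1),(0,1),(1,1)]) (.cons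
(.leaf 1 [(2,1),(0,1)]) .nil)))) .nil)))) (.cons (.keep [2,4,5] (.node (.cons (.leaf 1 [(6,1),(4,1),(5,1)]) (.cons
(.leaf 1 [(6,1),(2,1),(4,1),(5,1)]) .nil)))) .nil)))) (.cons (.keep [2,5] (.node (.cons (.leaf 1 [(5,1),(4,1)]) (.cons
(.leaf 1 [(5,1),(4,1),(2,1)]) .nil)))) .nil)))) (.cons (.keep [2] (.node (.cons (.leaf 1 [(4,1)]) (.cons (.leaf 1
[(4,1),(2,1)]) .nil)))) .nil)))) .nil)))) .nil)))) .nil)))) (.cons (.keep [2,7,8] (.node (.cons (.keep [5,6] (.node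
(.cons (.keep [4,5] (.node (.cons (.keep [4,5] (.node (.cons (.keep [5] (.node (.cons (.keep [3,4] (.spl 14 (.cons
(.leaf 1 [(2,1),(0,1)]) (.cons (.leaf 1 [(2,1),(1,1),(0,1)]) .nil)))) (.cons (.keep [2,4] (.spl 14 (.cons (.leaf 1
[(2,1),(0,1),(1,1)]) (.cons (.leaf 1 [(2,1),(0,1)]) .nil)))) .nil)))) (.cons (.keep [2,4] (.node (.cons (.leaf 1
[(4,1),(5,1)]) (.cons (.leaf 1 [(2,1),(4,1),(5,1)]) .nil)))) .nil)))) (.cons (.keep [2] (.node (.cons (.leaf 1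
[(4,1)]) (.cons (.leaf 1 [(4,1),(2,1)]) .nil)))) .nil)))) (.cons (.keep [2,5] (.node (.cons (.leaf 1 [(5,1),(4,1)])
(.cons (.leaf 1 [(5,1),(2,1),(4,1)]) .nil)))) .nil)))) (.cons (.keep [4,6] (.node (.cons (.keep [4] (.node (.cons
(.keep [4] (.node (.cons (.keep [4] (.node (.cons (.keep [4] (.node (.cons (.keep [3,4] (.node (.cons (.keep [3,4,5]
(.spl 16 (.cons (.leaf 1 [(2,1),(3,1),(0,2)]) (.cons (.leaf 1 [(2,1),(3,1),(1,2),(0,2)]) .nil)))) (.cons (.keep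
[2,4,5] (.node (.cons (.keep [3,4,6] (.node (.cons (.leaf 2 [(4,2),(6,1),(5,1)]) (.cons (.keep [4,5,6] (.node (.cons
(.keep [0,3,5,6] (.node (.cons (.leaf 2 [(5,1),(4,1),(7,1)]) (.cons (.keep [0,6,7] (.spl 16 (.cons (.leaf 2
[(2,1),(0,2),(3,1)]) (.cons (.leaf 1 [(0,1),(1,1),(3,1)]) .nil)))) .nil)))) (.cons (.keep [0,4,5,6] (.node (.cons
(.leaf 1 [(4,1),(5,1),(7,1)]) (.cons (.keep [0,6,7] (.spl 16 (.cons (.leaf 2 [(2,1),(0,2),(3,1)]) (.cons (.leaf 1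
[(0,1),(1,1),(3,1)]) .nil)))) .nil)))) .nil)))) .nil)))) (.cons (.keep [4,5,6] (.node (.cons (.leaf 1
[(5,1),(4,1),(6,1)]) (.cons (.keep [4,5,6] (.node (.cons (.leaf 1 []) (.cons (.keep [0,4,5,6] (.spl 16 (.cons (.leaf 1
[(2,1),(0,2),(4,1),(3,1)]) (.cons (.leaf 1 [(0,2),(4,1),(1,1)]) .nil)))) .nil)))) .nil)))) .nil)))) .nil)))) (.cons
(.keep [2,4] (.node (.cons (.keep [4,5] (.spl 15 (.cons (.leaf 1 [(2,1),(1,3),(0,2)]) (.cons (.leaf 1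
[(2,1),(1,1),(0,2)]) .nil)))) (.cons (.keep [2,4,5] (.spl 15 (.cons (.leaf 1 [(3,1),(2,3),(0,2),(1,1)]) (.cons (.leaf
1 [(3,1),(2,1),(0,2),(1,1)]) .nil)))) .nil)))) .nil)))) (.cons (.keep [2,4] (.node (.cons (.keep [4,5] (.spl 14 (.cons
(.leaf 1 [(1,3),(2,1),(0,1)]) (.cons (.leaf 1 [(1,2),(2,1),(0,1)]) .nil)))) (.cons (.keep [2,4,5] (.spl 14 (.cons
(.leaf 1 [(1,2),(3,1),(2,3),(0,1)]) (.cons (.leaf 1 [(1,2),(3,1),(2,2),(0,1)]) .nil)))) .nil)))) .nil)))) (.cons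
(.keep [2] (.node (.cons (.leaf 1 [(4,1)]) (.cons (.leaf 1 [(4,1),(2,1)]) .nil)))) .nil)))) (.cons (.keep [2,4] (.node
(.cons (.keep [4,5] (.node (.cons (.keep [4,5] (.node (.cons (.keep [5] (.node (.cons (.keep [3,4] (.spl 16 (.cons
(.leaf 1 [(2,1),(0,1)]) (.cons (.leaf 1 [(2,1),(1,1),(0,1)]) .nil)))) (.cons (.keep [2,4] (.spl 16 (.cons (.leaf 1
[(2,1),(0,1),(1,1)]) (.cons (.leaf 1 [(2,1),(0,1)]) .nil)))) .nil)))) (.cons (.keep [2,4,5] (.node (.cons (.leaf 1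
[(6,1),(4,1),(5,1)]) (.cons (.leaf 1 [(6,1),(2,1),(4,1),(5,1)]) .nil)))) .nil)))) (.cons (.keep [2,5] (.node (.cons
(.leaf 1 [(5,1),(4,1)]) (.cons (.leaf 1 [(5,1),(4,1),(2,1)]) .nil)))) .nil)))) (.cons (.keep [2] (.node (.cons (.leaf
1 [(4,1)]) (.cons (.leaf 1 [(4,1),(2,1)]) .nil)))) .nil)))) .nil)))) (.cons (.keep [2,5] (.node (.cons (.keep [4,5]
(.node (.cons (.keep [4,5] (.node (.cons (.keep [4,5] (.node (.cons (.keep [4] (.node (.cons (.keep [3,4] (.spl 16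
(.cons (.leaf 1 [(2,1),(0,1)]) (.cons (.leaf 1 [(2,1),(1,1),(0,1)]) .nil)))) (.cons (.keep [2,4] (.spl 16 (.cons
(.leaf 1 [(2,1),(0,1),(1,1)]) (.cons (.leaf 1 [(2,1),(0,1)]) .nil)))) .nil)))) (.cons (.keep [2,4,5] (.node (.cons
(.leaf 1 [(5,2),(4,1),(6,1)]) (.cons (.leaf 1 [(2,1),(4,1),(5,2),(6,1)]) .nil)))) .nil)))) (.cons (.keep [2,4] (.node
(.cons (.leaf 1 [(4,1),(5,1)]) (.cons (.leaf 1 [(2,1),(4,1),(5,1)]) .nil)))) .nil)))) (.cons (.keep [2] (.node (.cons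
(.leaf 1 [(4,1)]) (.cons (.leaf 1 [(4,1),(2,1)]) .nil)))) .nil)))) (.cons (.keep [2,4] (.node (.cons (.keep [4,5]
(.node (.cons (.keep [4,5] (.node (.cons (.keep [5] (.node (.cons (.keep [3,4] (.spl 16 (.cons (.leaf 1 [(2,1),(0,1)])
(.cons (.leaf 1 [(2,1),(1,1),(0,1)]) .nil)))) (.cons (.keep [2,4] (.spl 16 (.cons (.leaf 1 [(2,1),(0,1),(1,1)]) (.cons
(.leaf 1 [(2,1),(0,1)]) .nil)))) .nil)))) (.cons (.keep [2,4,5] (.node (.cons (.leaf 1 [(6,1),(4,1),(5,1)]) (.cons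
(.leaf 1 [(6,1),(2,1),(4,1),(5,1)]) .nil)))) .nil)))) (.cons (.keep [2,5] (.node (.cons (.leaf 1 [(5,1),(4,1)]) (.cons
(.leaf 1 [(5,1),(4,1),(2,1)]) .nil)))) .nil)))) (.cons (.keep [2] (.node (.cons (.leaf 1 [(4,1)]) (.cons (.leaf 1
[(4,1),(2,1)]) .nil)))) .nil)))) .nil)))) .nil)))) .nil)))) .nil)))) .nil)))) .nil)))) .nil)))) (.cons (.keep [2,4,5]
(.node (.cons (.keep [3,4,6] (.node (.cons (.keep [3,4,5,6] (.node (.cons (.leaf 1 [(4,1),(6,1)]) (.cons (.keep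
[4,5,6,7] (.node (.cons (.keep [0,3,7] (.node (.cons (.leaf 1 [(5,1),(4,1),(6,1)]) (.cons (.keep [0,4,6] (.node (.cons
(.keep [4,5,6] (.node (.cons (.keep [4,5,6] (.node (.cons (.keep [4,5,6] (.node (.cons (.keep [4,6] (.node (.cons
(.keep [5] (.node (.cons (.keep [3,4] (.spl 16 (.cons (.leaf 1 [(2,1),(0,1)]) (.cons (.leaf 1 [(2,1),(1,1),(0,1)])
.nil)))) (.cons (.keep [2,4] (.spl 16 (.cons (.leaf 1 [(2,1),(0,1),(1,1)]) (.cons (.leaf 1 [(2,1),(0,1)]) .nil))))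
.nil)))) (.cons (.keep [2,4,5] (.node (.cons (.leaf 1 [(6,2),(4,1),(5,4)]) (.cons (.leaf 1 [(5,4),(4,1),(6,2),(2,1)])
.nil)))) .nil)))) (.cons (.keep [2,5,6] (.node (.cons (.leaf 2 [(4,3),(6,2),(5,1)]) (.cons (.leaf 2
[(4,3),(2,3),(5,1),(6,2)]) .nil)))) .nil)))) (.cons (.keep [0,2,6] (.node (.cons (.leaf 4 [(6,2),(4,1),(5,4)]) (.cons
(.leaf 4 [(6,2),(0,1),(2,5),(5,4)]) .nil)))) .nil)))) (.cons (.keep [0,2,6] (.node (.cons (.keep [4,5,6] (.node (.cons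
(.keep [4,5,6] (.node (.cons (.keep [4,6] (.node (.cons (.keep [3,4,5] (.spl 16 (.cons (.leaf 1 [(3,3),(2,3),(0,1)])
(.cons (.leaf 1 [(3,3),(2,3),(1,1),(0,1)]) .nil)))) (.cons (.keep [2,4,5] (.spl 16 (.cons (.leaf 1
[(3,3),(2,3),(0,1),(1,1)]) (.cons (.leaf 1 [(3,3),(2,3),(0,1)]) .nil)))) .nil)))) (.cons (.keep [2,5,6] (.node (.cons
(.leaf 3 [(6,2),(4,3),(5,1)]) (.cons (.leaf 3 [(4,3),(2,3),(6,2),(5,1)]) .nil)))) .nil)))) (.cons (.keep [2,4,6]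
(.node (.cons (.leaf 1 [(5,2),(6,2),(4,1)]) (.cons (.leaf 1 [(5,2),(2,1),(4,1),(6,2)]) .nil)))) .nil)))) (.cons (.keep
[0,2,6] (.node (.cons (.leaf 1 [(6,1),(4,1),(5,2)]) (.cons (.leaf 1 [(5,2),(0,1),(6,1),(2,2)]) .nil)))) .nil))))
.nil)))) (.cons (.keep [2,6] (.node (.cons (.keep [4,5] (.node (.cons (.keep [4,5] (.node (.cons (.keep [4,5] (.node
(.cons (.keep [5] (.node (.cons (.keep [3,4] (.spl 16 (.cons (.leaf 1 [(2,1),(0,1)]) (.cons (.leaf 1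
[(2,1),(1,1),(0,1)]) .nil)))) (.cons (.keep [2,4] (.spl 16 (.cons (.leaf 1 [(2,1),(0,1),(1,1)]) (.cons (.leaf 1
[(2,1),(0,1)]) .nil)))) .nil)))) (.cons (.keep [2,4] (.node (.cons (.leaf 1 [(4,1),(5,1)]) (.cons (.leaf 1
[(5,1),(4,1),(2,1)]) .nil)))) .nil)))) (.cons (.keep [2,4,5] (.node (.cons (.leaf 2 [(4,2),(6,1),(5,1)]) (.cons (.leaf
2 [(4,2),(2,2),(5,1),(6,1)]) .nil)))) .nil)))) (.cons (.keep [0,2,5] (.node (.cons (.leaf 2 [(6,1),(4,1),(5,2)])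
(.cons (.leaf 2 [(6,1),(0,1),(2,3),(5,2)]) .nil)))) .nil)))) (.cons (.keep [2,4] (.node (.cons (.keep [4,5] (.node
(.cons (.keep [4,5] (.node (.cons (.keep [5] (.node (.cons (.keep [3,4] (.spl 16 (.cons (.leaf 1 [(2,1),(0,1)]) (.cons
(.leaf 1 [(2,1),(1,1),(0,1)]) .nil)))) (.cons (.keep [2,4] (.spl 16 (.cons (.leaf 1 [(2,1),(0,1),(1,1)]) (.cons (.leaf
1 [(2,1),(0,1)]) .nil)))) .nil)))) (.cons (.keep [2,4,5] (.node (.cons (.leaf 1 [(6,1),(4,1),(5,1)]) (.cons (.leaf 1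
[(6,1),(2,1),(4,1),(5,1)]) .nil)))) .nil)))) (.cons (.keep [2,5] (.node (.cons (.leaf 1 [(5,1),(4,1)]) (.cons (.leaf 1
[(5,1),(4,1),(2,1)]) .nil)))) .nil)))) (.cons (.keep [] (.node (.cons (.leaf 1 []) (.cons (.leaf 1 [(2,1)]) .nil))))
.nil)))) .nil)))) .nil)))) .nil)))) (.cons (.keep [2,4,5,6,7] (.node (.cons (.leaf 1 [(5,1),(8,1)]) (.cons (.keep
[4,5,6,7,8] (.node (.cons (.keep [4,5,6] (.node (.cons (.keep [5,6] (.node (.cons (.keep [4,5] (.node (.cons (.keep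
[4,5] (.node (.cons (.keep [5] (.node (.cons (.keep [3,4] (.spl 16 (.cons (.leaf 1 [(2,1),(0,1)]) (.cons (.leaf 1
[(2,1),(1,1),(0,1)]) .nil)))) (.cons (.keep [2,4] (.spl 16 (.cons (.leaf 1 [(2,1),(0,1),(1,1)]) (.cons (.leaf 1
[(2,1),(0,1)]) .nil)))) .nil)))) (.cons (.keep [2,4,5] (.node (.cons (.leaf 1 [(6,2),(4,1),(5,1)]) (.cons (.leaf 1
[(2,1),(4,1),(6,2),(5,1)]) .nil)))) .nil)))) (.cons (.keep [2,5] (.node (.cons (.leaf 1 [(4,1),(5,1)]) (.cons (.leaf 1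
[(2,1),(4,1),(5,1)]) .nil)))) .nil)))) (.cons (.keep [2] (.node (.cons (.leaf 1 [(4,1)]) (.cons (.leaf 1
[(4,1),(2,1)]) .nil)))) .nil)))) (.cons (.keep [2,4] (.node (.cons (.keep [4,5] (.node (.cons (.keep [4,5] (.node
(.cons (.keep [5] (.node (.cons (.keep [3,4] (.spl 16 (.cons (.leaf 1 [(2,1),(0,1)]) (.cons (.leaf 1
[(2,1),(1,1),(0,1)]) .nil)))) (.cons (.keep [2,4] (.spl 16 (.cons (.leaf 1 [(2,1),(0,1),(1,1)]) (.cons (.leaf 1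
[(2,1),(0,1)]) .nil)))) .nil)))) (.cons (.keep [2,4,5] (.node (.cons (.leaf 1 [(6,1),(4,1),(5,1)]) (.cons (.leaf 1
[(6,1),(2,1),(4,1),(5,1)]) .nil)))) .nil)))) (.cons (.keep [2,5] (.node (.cons (.leaf 1 [(5,1),(4,1)]) (.cons (.leaf 1
[(5,1),(4,1),(2,1)]) .nil)))) .nil)))) (.cons (.keep [2] (.node (.cons (.leaf 1 [(4,1)]) (.cons (.leaf 1
[(4,1),(2,1)]) .nil)))) .nil)))) .nil)))) (.cons (.keep [5,7,8] (.node (.cons (.keep [4,5] (.node (.cons (.keep [4,5]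
(.node (.cons (.keep [4,5] (.node (.cons (.keep [5] (.node (.cons (.keep [3,4] (.spl 16 (.cons (.leaf 1 [(2,1),(0,1)])
(.cons (.leaf 1 [(2,1),(1,1),(0,1)]) .nil)))) (.cons (.keep [2,4] (.spl 16 (.cons (.leaf 1 [(2,1),(0,1),(1,1)]) (.cons
(.leaf 1 [(2,1),(0,1)]) .nil)))) .nil)))) (.cons (.keep [2,4] (.node (.cons (.leaf 1 [(4,1),(5,1)]) (.cons (.leaf 1
[(2,1),(4,1),(5,1)]) .nil)))) .nil)))) (.cons (.keep [2] (.node (.cons (.leaf 1 [(4,1)]) (.cons (.leaf 1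
[(4,1),(2,1)]) .nil)))) .nil)))) (.cons (.keep [2,5] (.node (.cons (.leaf 1 [(5,1),(4,1)]) (.cons (.leaf 1
[(5,1),(2,1),(4,1)]) .nil)))) .nil)))) (.cons (.keep [0,2,6] (.node (.cons (.keep [4,5,6] (.node (.cons (.keep [4,5,6]
(.node (.cons (.keep [4,6] (.node (.cons (.keep [3,4,5] (.spl 16 (.cons (.leaf 1 [(2,1),(3,1),(0,1)]) (.cons (.leaf 1
[(2,1),(3,1),(1,1),(0,1)]) .nil)))) (.cons (.keep [2,4,5] (.spl 16 (.cons (.leaf 1 [(2,1),(3,1),(0,1),(1,1)]) (.cons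
(.leaf 1 [(2,1),(3,1),(0,1)]) .nil)))) .nil)))) (.cons (.keep [2,5] (.node (.cons (.leaf 1 [(4,1),(5,1)]) (.cons
(.leaf 1 [(2,1),(4,1),(5,1)]) .nil)))) .nil)))) (.cons (.keep [2] (.node (.cons (.leaf 1 [(4,1)]) (.cons (.leaf 1
[(4,1),(2,1)]) .nil)))) .nil)))) (.cons (.keep [0,2,6] (.node (.cons (.leaf 1 [(4,1),(6,1),(5,2)]) (.cons (.leaf 1
[(0,1),(6,1),(5,2),(2,2)]) .nil)))) .nil)))) .nil)))) .nil)))) .nil)))) .nil)))) .nil)))) (.cons (.keep [2,4,6] (.node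
(.cons (.keep [3,6] (.node (.cons (.leaf 1 [(4,1)]) (.cons (.keep [0,5] (.node (.cons (.keep [4,5] (.node (.cons
(.keep [0,4,5] (.node (.cons (.leaf 1 [(4,1),(5,1),(6,1)]) (.cons (.leaf 1 [(0,1),(5,1),(6,1)]) .nil)))) (.cons (.keep
[2,4] (.node (.cons (.keep [4,5] (.spl 21 (.cons (.leaf 2 [(0,1)]) (.cons (.leaf 1 [(0,1),(2,1)]) (.cons (.leaf 2
[(0,1),(1,1)]) .nil))))) (.cons (.keep [0,4,5] (.spl 21 (.cons (.leaf 2 [(0,1)]) (.cons (.leaf 1 [(1,1),(3,1),(0,1)])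
(.cons (.leaf 2 [(0,1),(2,1)]) .nil))))) .nil)))) .nil)))) (.cons (.keep [5] (.node (.cons (.keep [0,4] (.node (.cons
(.leaf 1 [(4,1),(5,1)]) (.cons (.leaf 1 [(0,1),(5,1)]) .nil)))) (.cons (.keep [4] (.node (.cons (.leaf 1 [(4,1)])
(.cons (.leaf 1 [(0,1),(4,1)]) .nil)))) .nil)))) .nil)))) .nil)))) (.cons (.keep [4,5,6] (.node (.cons (.keep [3,4,5]
(.node (.cons (.leaf 1 [(4,1),(6,1)]) (.cons (.keep [0,5,6] (.node (.cons (.keep [4,5,6] (.node (.cons (.keep [0,4,6]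
(.node (.cons (.keep [4,5,6] (.node (.cons (.keep [4,5,6] (.node (.cons (.keep [4,6] (.node (.cons (.keep [3,4,5]
(.spl 16 (.cons (.leaf 2 [(3,4),(2,1),(0,2)]) (.cons (.leaf 2 [(3,4),(2,1),(1,2),(0,2)]) .nil)))) (.cons (.keep
[2,4,5] (.spl 16 (.cons (.leaf 2 [(3,4),(2,1),(0,2),(1,2)]) (.cons (.leaf 2 [(3,4),(2,1),(0,2)]) .nil)))) .nil))))
(.cons (.keep [2,5,6] (.node (.cons (.leaf 1 [(6,2),(4,1),(5,2)]) (.cons (.leaf 1 [(4,1),(2,1),(6,2),(5,2)]) .nil))))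
.nil)))) (.cons (.keep [2,6] (.node (.cons (.leaf 1 [(5,1),(4,1)]) (.cons (.leaf 1 [(2,1),(4,1),(5,1)]) .nil))))
.nil)))) (.cons (.keep [0,2,6] (.node (.cons (.leaf 2 [(6,2),(4,1),(5,2)]) (.cons (.leaf 2 [(6,2),(0,1),(2,3),(5,2)])
.nil)))) .nil)))) (.cons (.keep [5,6] (.node (.cons (.keep [4,5] (.node (.cons (.keep [4,5] (.node (.cons (.keep [4]
(.node (.cons (.keep [3,4] (.spl 16 (.cons (.leaf 1 [(2,3),(0,1)]) (.cons (.leaf 1 [(2,3),(1,1),(0,1)]) .nil))))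
(.cons (.keep [2,4] (.spl 16 (.cons (.leaf 1 [(2,3),(0,1),(1,1)]) (.cons (.leaf 1 [(2,3),(0,1)]) .nil)))) .nil))))
(.cons (.keep [2,5] (.node (.cons (.leaf 1 [(5,1),(4,1)]) (.cons (.leaf 1 [(4,1),(5,1),(2,1)]) .nil)))) .nil))))
(.cons (.keep [2,4] (.node (.cons (.leaf 1 [(4,1),(5,2)]) (.cons (.leaf 1 [(4,1),(5,2),(2,1)]) .nil)))) .nil))))
(.cons (.keep [2,4] (.node (.cons (.leaf 1 [(5,1),(4,1)]) (.cons (.leaf 1 [(4,1),(2,1),(5,1)]) .nil)))) .nil))))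
.nil)))) (.cons (.keep [2,5,6] (.node (.cons (.keep [4,5,6] (.node (.cons (.keep [0,4,6] (.node (.cons (.keep [4,5,6]
(.node (.cons (.keep [4,6] (.node (.cons (.keep [3,4,5] (.spl 16 (.cons (.leaf 1 [(3,3),(2,1),(0,2)]) (.cons (.leaf 1
[(3,3),(2,1),(1,2),(0,2)]) .nil)))) (.cons (.keep [2,4,5] (.spl 16 (.cons (.leaf 1 [(3,3),(2,1),(0,2),(1,2)]) (.cons
(.leaf 1 [(3,3),(2,1),(0,2)]) .nil)))) .nil)))) (.cons (.keep [2,5] (.node (.cons (.leaf 1 [(4,1),(5,1)]) (.cons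
(.leaf 1 [(4,1),(2,1),(5,1)]) .nil)))) .nil)))) (.cons (.keep [2,6] (.node (.cons (.leaf 1 [(5,1),(4,1)]) (.cons
(.leaf 1 [(2,1),(4,1),(5,1)]) .nil)))) .nil)))) (.cons (.keep [2,5,6] (.node (.cons (.leaf 1 [(5,1),(4,1)]) (.cons
(.leaf 1 [(6,1),(4,1),(0,1),(2,2)]) .nil)))) .nil)))) (.cons (.keep [2,4] (.node (.cons (.keep [4,5] (.node (.cons
(.keep [4,5] (.node (.cons (.keep [5] (.node (.cons (.keep [3,4] (.spl 16 (.cons (.leaf 1 [(2,1),(0,1)]) (.cons (.leaf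
1 [(2,1),(1,1),(0,1)]) .nil)))) (.cons (.keep [2,4] (.spl 16 (.cons (.leaf 1 [(2,1),(0,1),(1,1)]) (.cons (.leaf 1
[(2,1),(0,1)]) .nil)))) .nil)))) (.cons (.keep [2,4,5] (.node (.cons (.leaf 1 [(6,1),(4,1),(5,1)]) (.cons (.leaf 1
[(6,1),(2,1),(4,1),(5,1)]) .nil)))) .nil)))) (.cons (.keep [2,5] (.node (.cons (.leaf 1 [(5,1),(4,1)]) (.cons (.leaf 1
[(5,1),(4,1),(2,1)]) .nil)))) .nil)))) (.cons (.keep [] (.node (.cons (.leaf 1 []) (.cons (.leaf 1 [(2,1)]) .nil))))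
.nil)))) .nil)))) .nil)))) .nil)))) (.cons (.keep [2,5,6] (.node (.cons (.leaf 1 [(6,1)]) (.cons (.keep [4,5,6] (.node
(.cons (.keep [4,5,6] (.node (.cons (.keep [5,6] (.node (.cons (.keep [4,5] (.node (.cons (.keep [4,5] (.node (.cons
(.keep [4] (.node (.cons (.keep [3,4] (.spl 16 (.cons (.leaf 1 [(2,1),(0,1)]) (.cons (.leaf 1 [(2,1),(1,1),(0,1)])
.nil)))) (.cons (.keep [2,4] (.spl 16 (.cons (.leaf 1 [(2,1),(0,1),(1,1)]) (.cons (.leaf 1 [(2,1),(0,1)]) .nil))))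
.nil)))) (.cons (.keep [2,4,5] (.node (.cons (.leaf 1 [(5,1),(4,1),(6,1)]) (.cons (.leaf 1 [(2,1),(4,1),(5,1),(6,1)])
.nil)))) .nil)))) (.cons (.keep [2,4] (.node (.cons (.leaf 1 [(4,1),(5,1)]) (.cons (.leaf 1 [(2,1),(4,1),(5,1)])
.nil)))) .nil)))) (.cons (.keep [2] (.node (.cons (.leaf 1 [(4,1)]) (.cons (.leaf 1 [(4,1),(2,1)]) .nil)))) .nil))))
(.cons (.keep [2,4] (.node (.cons (.keep [4,5] (.node (.cons (.keep [4,5] (.node (.cons (.keep [5] (.node (.cons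
(.keep [3,4] (.spl 16 (.cons (.leaf 1 [(2,1),(0,1)]) (.cons (.leaf 1 [(2,1),(1,1),(0,1)]) .nil)))) (.cons (.keep [2,4]
(.spl 16 (.cons (.leaf 1 [(2,1),(0,1),(1,1)]) (.cons (.leaf 1 [(2,1),(0,1)]) .nil)))) .nil)))) (.cons (.keep [2,4,5]
(.node (.cons (.leaf 1 [(6,1),(4,1),(5,1)]) (.cons (.leaf 1 [(6,1),(2,1),(4,1),(5,1)]) .nil)))) .nil)))) (.cons (.keep
[2,5] (.node (.cons (.leaf 1 [(5,1),(4,1)]) (.cons (.leaf 1 [(5,1),(4,1),(2,1)]) .nil)))) .nil)))) (.cons (.keep [2]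
(.node (.cons (.leaf 1 [(4,1)]) (.cons (.leaf 1 [(4,1),(2,1)]) .nil)))) .nil)))) .nil)))) (.cons (.keep [2,6] (.node
(.cons (.keep [0,4,5] (.node (.cons (.keep [4,5,6] (.node (.cons (.keep [4,5,6] (.node (.cons (.keep [4,6] (.node
(.cons (.keep [3,4,5] (.spl 16 (.cons (.leaf 1 [(2,1),(3,1),(0,1)]) (.cons (.leaf 1 [(2,1),(3,1),(1,1),(0,1)])
.nil)))) (.cons (.keep [2,4,5] (.spl 16 (.cons (.leaf 1 [(2,1),(3,1),(0,1),(1,1)]) (.cons (.leaf 1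
[(2,1),(3,1),(0,1)]) .nil)))) .nil)))) (.cons (.keep [2,5,6] (.node (.cons (.leaf 1 [(4,1),(6,1),(5,1)]) (.cons (.leaf
1 [(2,1),(6,1),(4,1),(5,1)]) .nil)))) .nil)))) (.cons (.keep [2] (.node (.cons (.leaf 1 [(4,1)]) (.cons (.leaf 1
[(4,1),(2,1)]) .nil)))) .nil)))) (.cons (.keep [0,2,6] (.node (.cons (.leaf 1 [(4,1),(6,1),(5,1)]) (.cons (.leaf 1
[(0,1),(2,2),(6,1),(5,1)]) .nil)))) .nil)))) (.cons (.keep [0,2,5] (.node (.cons (.keep [4,5,6] (.node (.cons (.keep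
[4,5,6] (.node (.cons (.keep [4,6] (.node (.cons (.keep [3,4,5] (.spl 16 (.cons (.leaf 1 [(2,1),(3,1),(0,1)]) (.cons
(.leaf 1 [(2,1),(3,1),(1,1),(0,1)]) .nil)))) (.cons (.keep [2,4,5] (.spl 16 (.cons (.leaf 1 [(2,1),(3,1),(0,1),(1,1)])
(.cons (.leaf 1 [(2,1),(3,1),(0,1)]) .nil)))) .nil)))) (.cons (.keep [2,5] (.node (.cons (.leaf 1 [(4,1),(5,1)])
(.cons (.leaf 1 [(2,1),(4,1),(5,1)]) .nil)))) .nil)))) (.cons (.keep [2] (.node (.cons (.leaf 1 [(4,1)]) (.cons (.leaf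
1 [(4,1),(2,1)]) .nil)))) .nil)))) (.cons (.keep [0,2,6] (.node (.cons (.leaf 1 [(4,1),(6,1),(5,1)]) (.cons (.leaf 1
[(0,1),(2,2),(6,1),(5,1)]) .nil)))) .nil)))) .nil)))) .nil)))) .nil)))) .nil)))) .nil)))) .nil)))) (.cons (.keep
[4,5,6] (.node (.cons (.keep [3,4,5] (.node (.cons (.leaf 1 [(4,1),(5,1)]) (.cons (.keep [0,4,5,6] (.node (.cons
(.keep [4,6,7] (.node (.cons (.keep [3,4,6] (.node (.cons (.keep [4,5,6] (.node (.cons (.keep [4,5,6] (.node (.cons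
(.keep [4,6] (.node (.cons (.keep [3,4,5] (.spl 14 (.cons (.leaf 2 [(3,1),(2,3),(0,2)]) (.cons (.leaf 2
[(3,1),(2,3),(1,2),(0,2)]) .nil)))) (.cons (.keep [2,4,5] (.spl 14 (.cons (.leaf 2 [(3,1),(2,3),(0,2),(1,2)]) (.cons
(.leaf 2 [(3,1),(2,3),(0,2)]) .nil)))) .nil)))) (.cons (.keep [2,5,6] (.node (.cons (.leaf 2 [(6,1),(4,2),(5,1)])
(.cons (.leaf 2 [(4,2),(2,2),(6,1),(5,1)]) .nil)))) .nil)))) (.cons (.keep [0,2,6] (.node (.cons (.leaf 2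
[(4,1),(6,2),(5,3)]) (.cons (.leaf 2 [(0,1),(2,4),(5,3),(6,2)]) .nil)))) .nil)))) (.cons (.keep [0,2,4,6] (.node
(.cons (.leaf 1 [(4,2),(5,1),(7,1)]) (.cons (.leaf 1 [(6,1),(2,1)]) .nil)))) .nil)))) (.cons (.keep [5,6] (.node
(.cons (.keep [4,5] (.node (.cons (.keep [4,5] (.node (.cons (.keep [4,5] (.node (.cons (.keep [4,5] (.node (.cons
(.keep [3,4,5] (.node (.cons (.keep [3,4,5] (.spl 16 (.cons (.leaf 1 [(2,1),(3,4),(0,2)]) (.cons (.leaf 1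
[(2,1),(3,4),(1,2),(0,2)]) .nil)))) (.cons (.keep [2,4,5,6] (.node (.cons (.keep [3,4,6,7] (.node (.cons (.leaf 2
[(4,2),(6,3),(5,1)]) (.cons (.keep [4,5,6,7] (.node (.cons (.keep [3,5,6,7] (.node (.cons (.leaf 1 [(4,1),(7,1)])
(.cons (.keep [0,5,6] (.spl 16 (.cons (.leaf 2 [(2,1),(0,2),(3,5)]) (.cons (.leaf 1 [(0,1),(1,1),(3,4)]) .nil))))
.nil)))) (.cons (.keep [0,4,5,6,7] (.node (.cons (.leaf 1 [(4,1),(8,3),(5,4)]) (.cons (.keep [0,6,7] (.spl 16 (.cons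
(.leaf 2 [(2,1),(0,2),(3,5)]) (.cons (.leaf 1 [(0,1),(1,1),(3,4)]) .nil)))) .nil)))) .nil)))) .nil)))) (.cons (.keep
[2,4,5,6,7] (.node (.cons (.leaf 1 [(6,1),(8,2),(5,3)]) (.cons (.keep [4,5,7,8] (.node (.cons (.leaf 3
[(7,2),(4,1),(5,1)]) (.cons (.keep [0,5,6] (.spl 16 (.cons (.leaf 1 [(3,5),(0,2),(2,2),(1,1)]) (.cons (.leaf 1
[(3,5),(0,2),(1,1)]) .nil)))) .nil)))) .nil)))) .nil)))) .nil)))) (.cons (.keep [2,4] (.node (.cons (.keep [4,5] (.spl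
15 (.cons (.leaf 1 [(2,4),(1,3),(0,2)]) (.cons (.leaf 1 [(2,4),(1,1),(0,2)]) .nil)))) (.cons (.keep [2,4,5] (.spl 15
(.cons (.leaf 1 [(0,2),(2,3),(3,4),(1,1)]) (.cons (.leaf 1 [(0,2),(2,1),(3,4),(1,1)]) .nil)))) .nil)))) .nil))))
(.cons (.keep [2,4,5] (.node (.cons (.keep [4,5] (.spl 14 (.cons (.leaf 1 [(1,3),(2,3),(0,1)]) (.cons (.leaf 1
[(1,2),(2,3),(0,1)]) .nil)))) (.cons (.keep [2,4,6] (.spl 14 (.cons (.leaf 1 [(2,6),(1,5),(0,1),(3,3)]) (.cons (.leaf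
1 [(2,5),(1,5),(0,1),(3,3)]) .nil)))) .nil)))) .nil)))) (.cons (.keep [0,2,5] (.node (.cons (.leaf 2
[(6,2),(4,1),(5,4)]) (.cons (.leaf 2 [(6,2),(0,1),(2,5),(5,4)]) .nil)))) .nil)))) (.cons (.keep [2,4] (.node (.cons
(.keep [4,5] (.node (.cons (.keep [4,5] (.node (.cons (.keep [5] (.node (.cons (.keep [3,4] (.spl 16 (.cons (.leaf 1
[(2,3),(0,1)]) (.cons (.leaf 1 [(2,3),(1,1),(0,1)]) .nil)))) (.cons (.keep [2,4] (.spl 16 (.cons (.leaf 1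
[(2,3),(0,1),(1,1)]) (.cons (.leaf 1 [(2,3),(0,1)]) .nil)))) .nil)))) (.cons (.keep [2,4,5] (.node (.cons (.leaf 1
[(6,2),(4,1),(5,1)]) (.cons (.leaf 1 [(5,1),(4,1),(6,2),(2,1)]) .nil)))) .nil)))) (.cons (.keep [2,5] (.node (.cons
(.leaf 1 [(5,2),(4,1)]) (.cons (.leaf 1 [(2,1),(4,1),(5,2)]) .nil)))) .nil)))) (.cons (.keep [2,5] (.node (.cons
(.leaf 1 [(5,1),(4,1)]) (.cons (.leaf 1 [(4,1),(5,1),(2,1)]) .nil)))) .nil)))) .nil)))) (.cons (.keep [2,5] (.node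
(.cons (.keep [3,4,5] (.node (.cons (.keep [4,5,6] (.node (.cons (.keep [4,5] (.node (.cons (.keep [4,5] (.node (.cons
(.keep [3,4,5] (.spl 16 (.cons (.leaf 1 [(3,1),(2,2),(0,1)]) (.cons (.leaf 1 [(3,1),(2,2),(1,1),(0,1)]) .nil))))
(.cons (.keep [2,4,5] (.spl 16 (.cons (.leaf 1 [(3,1),(2,2),(0,1),(1,1)]) (.cons (.leaf 1 [(3,1),(2,2),(0,1)])
.nil)))) .nil)))) (.cons (.keep [2,5] (.node (.cons (.leaf 1 [(5,1),(4,1)]) (.cons (.leaf 1 [(5,1),(4,1),(2,1)])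
.nil)))) .nil)))) (.cons (.keep [2,4,5,6] (.node (.cons (.leaf 1 [(5,1),(6,1),(4,1)]) (.cons (.leaf 1
[(4,2),(2,2),(6,1),(7,1)]) .nil)))) .nil)))) (.cons (.keep [4] (.node (.cons (.leaf 1 [(4,1)]) (.cons (.leaf 1
[(4,1),(2,1)]) .nil)))) .nil)))) (.cons (.keep [2,4] (.node (.cons (.keep [4,5] (.node (.cons (.keep [4,5] (.node
(.cons (.keep [5] (.node (.cons (.keep [3,4] (.spl 16 (.cons (.leaf 1 [(2,1),(0,1)]) (.cons (.leaf 1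
[(2,1),(1,1),(0,1)]) .nil)))) (.cons (.keep [2,4] (.spl 16 (.cons (.leaf 1 [(2,1),(0,1),(1,1)]) (.cons (.leaf 1
[(2,1),(0,1)]) .nil)))) .nil)))) (.cons (.keep [2,4,5] (.node (.cons (.leaf 1 [(6,1),(4,1),(5,1)]) (.cons (.leaf 1
[(6,1),(2,1),(4,1),(5,1)]) .nil)))) .nil)))) (.cons (.keep [2,5] (.node (.cons (.leaf 1 [(5,1),(4,1)]) (.cons (.leaf 1
[(5,1),(4,1),(2,1)]) .nil)))) .nil)))) (.cons (.keep [] (.node (.cons (.leaf 1 []) (.cons (.leaf 1 [(2,1)]) .nil))))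
.nil)))) .nil)))) .nil)))) .nil)))) (.cons (.keep [2,5,6,7] (.node (.cons (.keep [3,5,6,7] (.node (.cons (.keep
[4,5,7] (.node (.cons (.keep [4,5] (.node (.cons (.keep [4,5] (.node (.cons (.keep [3,4,5] (.spl 14 (.cons (.leaf 1
[(2,3),(3,1),(0,1)]) (.cons (.leaf 1 [(2,3),(3,1),(1,1),(0,1)]) .nil)))) (.cons (.keep [2,4,5] (.spl 14 (.cons (.leaf
1 [(2,3),(3,1),(0,1),(1,1)]) (.cons (.leaf 1 [(2,3),(3,1),(0,1)]) .nil)))) .nil)))) (.cons (.keep [2] (.node (.cons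
(.leaf 1 [(4,1)]) (.cons (.leaf 1 [(4,1),(2,1)]) .nil)))) .nil)))) (.cons (.keep [0,2,6] (.node (.cons (.leaf 1
[(4,1),(6,1),(5,2)]) (.cons (.leaf 1 [(0,1),(2,3),(6,1),(5,2)]) .nil)))) .nil)))) (.cons (.keep [2,5,6] (.node (.cons
(.leaf 1 [(6,2),(5,1),(4,1)]) (.cons (.leaf 1 [(6,2),(2,1),(5,1),(4,1)]) .nil)))) .nil)))) (.cons (.keep [4,5,6]
(.node (.cons (.keep [4] (.node (.cons (.keep [4] (.node (.cons (.keep [4] (.node (.cons (.keep [4] (.node (.cons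
(.keep [3,4] (.node (.cons (.keep [3,4,5] (.spl 16 (.cons (.leaf 1 [(2,1),(3,1),(0,2)]) (.cons (.leaf 1
[(2,1),(3,1),(1,2),(0,2)]) .nil)))) (.cons (.keep [2,4,5] (.node (.cons (.keep [3,4,6] (.node (.cons (.leaf 2
[(4,2),(6,1),(5,1)]) (.cons (.keep [4,5,6] (.node (.cons (.keep [0,3,5,6] (.node (.cons (.leaf 2 [(5,1),(4,1),(7,1)])
(.cons (.keep [0,6,7] (.spl 16 (.cons (.leaf 2 [(2,1),(0,2),(3,1)]) (.cons (.leaf 1 [(0,1),(1,1),(3,1)]) .nil))))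
.nil)))) (.cons (.keep [0,4,5,6] (.node (.cons (.leaf 1 [(4,1),(5,1),(7,1)]) (.cons (.keep [0,6,7] (.spl 16 (.cons
(.leaf 2 [(2,1),(0,2),(3,1)]) (.cons (.leaf 1 [(0,1),(1,1),(3,1)]) .nil)))) .nil)))) .nil)))) .nil)))) (.cons (.keep
[4,5,6] (.node (.cons (.leaf 1 [(5,1),(4,1),(6,1)]) (.cons (.keep [4,5,6] (.node (.cons (.leaf 1 []) (.cons (.keep
[0,4,5,6] (.spl 16 (.cons (.leaf 1 [(2,1),(0,2),(4,1),(3,1)]) (.cons (.leaf 1 [(0,2),(4,1),(1,1)]) .nil)))) .nil))))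
.nil)))) .nil)))) .nil)))) (.cons (.keep [2,4] (.node (.cons (.keep [4,5] (.spl 15 (.cons (.leaf 1
[(2,1),(1,3),(0,2)]) (.cons (.leaf 1 [(2,1),(1,1),(0,2)]) .nil)))) (.cons (.keep [2,4,5] (.spl 15 (.cons (.leaf 1
[(3,1),(2,3),(0,2),(1,1)]) (.cons (.leaf 1 [(3,1),(2,1),(0,2),(1,1)]) .nil)))) .nil)))) .nil)))) (.cons (.keep [2,4]
(.node (.cons (.keep [4,5] (.spl 14 (.cons (.leaf 1 [(1,3),(2,1),(0,1)]) (.cons (.leaf 1 [(1,2),(2,1),(0,1)]) .nil))))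
(.cons (.keep [2,4,5] (.spl 14 (.cons (.leaf 1 [(1,2),(3,1),(2,3),(0,1)]) (.cons (.leaf 1 [(1,2),(3,1),(2,2),(0,1)])
.nil)))) .nil)))) .nil)))) (.cons (.keep [2] (.node (.cons (.leaf 1 [(4,1)]) (.cons (.leaf 1 [(4,1),(2,1)]) .nil))))
.nil)))) (.cons (.keep [2,4] (.node (.cons (.keep [4,5] (.node (.cons (.keep [4,5] (.node (.cons (.keep [5] (.node
(.cons (.keep [3,4] (.spl 16 (.cons (.leaf 1 [(2,1),(0,1)]) (.cons (.leaf 1 [(2,1),(1,1),(0,1)]) .nil)))) (.cons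
(.keep [2,4] (.spl 16 (.cons (.leaf 1 [(2,1),(0,1),(1,1)]) (.cons (.leaf 1 [(2,1),(0,1)]) .nil)))) .nil)))) (.cons
(.keep [2,4,5] (.node (.cons (.leaf 1 [(6,1),(4,1),(5,1)]) (.cons (.leaf 1 [(6,1),(2,1),(4,1),(5,1)]) .nil))))
.nil)))) (.cons (.keep [2,5] (.node (.cons (.leaf 1 [(5,1),(4,1)]) (.cons (.leaf 1 [(5,1),(4,1),(2,1)]) .nil))))
.nil)))) (.cons (.keep [2] (.node (.cons (.leaf 1 [(4,1)]) (.cons (.leaf 1 [(4,1),(2,1)]) .nil)))) .nil)))) .nil))))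
(.cons (.keep [5,6] (.node (.cons (.keep [4,5] (.node (.cons (.keep [4,5] (.node (.cons (.keep [4,5] (.node (.cons
(.keep [5] (.node (.cons (.keep [3,4] (.spl 16 (.cons (.leaf 1 [(2,1),(0,1)]) (.cons (.leaf 1 [(2,1),(1,1),(0,1)])
.nil)))) (.cons (.keep [2,4] (.spl 16 (.cons (.leaf 1 [(2,1),(0,1),(1,1)]) (.cons (.leaf 1 [(2,1),(0,1)]) .nil))))
.nil)))) (.cons (.keep [2,4] (.node (.cons (.leaf 1 [(4,1),(5,1)]) (.cons (.leaf 1 [(2,1),(4,1),(5,1)]) .nil))))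
.nil)))) (.cons (.keep [2] (.node (.cons (.leaf 1 [(4,1)]) (.cons (.leaf 1 [(4,1),(2,1)]) .nil)))) .nil)))) (.cons
(.keep [2,5] (.node (.cons (.leaf 1 [(5,1),(4,1)]) (.cons (.leaf 1 [(5,1),(2,1),(4,1)]) .nil)))) .nil)))) (.cons
(.keep [2,5] (.node (.cons (.keep [4,5] (.node (.cons (.keep [4,5] (.node (.cons (.keep [5] (.node (.cons (.keep [3,4]
(.spl 16 (.cons (.leaf 1 [(2,1),(0,1)]) (.cons (.leaf 1 [(2,1),(1,1),(0,1)]) .nil)))) (.cons (.keep [2,4] (.spl 16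
(.cons (.leaf 1 [(2,1),(0,1),(1,1)]) (.cons (.leaf 1 [(2,1),(0,1)]) .nil)))) .nil)))) (.cons (.keep [2,4] (.node
(.cons (.leaf 1 [(4,1),(5,1)]) (.cons (.leaf 1 [(2,1),(4,1),(5,1)]) .nil)))) .nil)))) (.cons (.keep [2] (.node (.cons
(.leaf 1 [(4,1)]) (.cons (.leaf 1 [(4,1),(2,1)]) .nil)))) .nil)))) (.cons (.keep [2,5] (.node (.cons (.leaf 1
[(5,1),(4,1)]) (.cons (.leaf 1 [(5,1),(4,1),(2,1)]) .nil)))) .nil)))) .nil)))) .nil)))) .nil)))) .nil)))) .nil))))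
(.cons (.keep [2,4,6] (.node (.cons (.leaf 1 [(6,1)]) (.cons (.keep [0,4,5,6] (.node (.cons (.keep [4,5] (.node (.cons
(.keep [4,5] (.node (.cons (.keep [0,4,5] (.node (.cons (.keep [4,5,6] (.node (.cons (.keep [4,6] (.node (.cons (.keep
[3,4,5] (.spl 14 (.cons (.leaf 1 [(3,3),(2,1),(0,2)]) (.cons (.leaf 1 [(3,3),(2,1),(1,2),(0,2)]) .nil)))) (.cons
(.keep [2,4,5] (.spl 14 (.cons (.leaf 1 [(3,3),(2,1),(0,2),(1,2)]) (.cons (.leaf 1 [(3,3),(2,1),(0,2)]) .nil))))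
.nil)))) (.cons (.keep [2,5,6] (.node (.cons (.leaf 1 [(6,1),(4,1),(5,1)]) (.cons (.leaf 1 [(4,1),(2,1),(6,1),(5,1)])
.nil)))) .nil)))) (.cons (.keep [2,6] (.node (.cons (.leaf 1 [(5,1),(4,1)]) (.cons (.leaf 1 [(2,1),(4,1),(5,1)])
.nil)))) .nil)))) (.cons (.keep [0,2,5] (.node (.cons (.leaf 1 [(6,1),(4,1),(5,1)]) (.cons (.leaf 1
[(6,1),(5,1),(0,1),(2,2)]) .nil)))) .nil)))) (.cons (.keep [5] (.node (.cons (.keep [4] (.node (.cons (.keep [4]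
(.node (.cons (.keep [4] (.node (.cons (.keep [4] (.node (.cons (.keep [3,4] (.node (.cons (.keep [3,4,5] (.spl 16
(.cons (.leaf 1 [(2,1),(3,4),(0,2)]) (.cons (.leaf 1 [(2,1),(3,4),(1,2),(0,2)]) .nil)))) (.cons (.keep [2,4,5] (.node
(.cons (.keep [3,4,6] (.node (.cons (.leaf 2 [(4,2),(6,3),(5,1)]) (.cons (.keep [4,5,6] (.node (.cons (.keep [0,3,5,6]
(.node (.cons (.leaf 2 [(5,1),(4,1),(7,4)]) (.cons (.keep [0,6,7] (.spl 16 (.cons (.leaf 2 [(2,1),(0,2),(3,5)]) (.cons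
(.leaf 1 [(0,1),(1,1),(3,4)]) .nil)))) .nil)))) (.cons (.keep [0,4,5,6] (.node (.cons (.leaf 1 [(5,1),(4,1),(7,3)])
(.cons (.keep [0,6,7] (.spl 16 (.cons (.leaf 2 [(2,1),(3,5),(0,2)]) (.cons (.leaf 1 [(3,4),(1,1),(0,1)]) .nil))))
.nil)))) .nil)))) .nil)))) (.cons (.keep [4,5,6] (.node (.cons (.leaf 1 [(4,1),(5,1),(6,2)]) (.cons (.keep [4,6]
(.node (.cons (.leaf 1 [(5,1)]) (.cons (.keep [0,4,5] (.spl 16 (.cons (.leaf 1 [(3,5),(0,2),(2,2),(1,1)]) (.cons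
(.leaf 1 [(3,5),(0,2),(1,1)]) .nil)))) .nil)))) .nil)))) .nil)))) .nil)))) (.cons (.keep [2,4] (.node (.cons (.keep
[4,5] (.spl 15 (.cons (.leaf 1 [(2,4),(1,3),(0,2)]) (.cons (.leaf 1 [(2,4),(1,1),(0,2)]) .nil)))) (.cons (.keep
[2,4,5] (.spl 15 (.cons (.leaf 1 [(0,2),(2,3),(3,4),(1,1)]) (.cons (.leaf 1 [(0,2),(2,1),(3,4),(1,1)]) .nil))))
.nil)))) .nil)))) (.cons (.keep [2,4] (.node (.cons (.keep [4,5] (.spl 14 (.cons (.leaf 1 [(1,3),(2,3),(0,1)]) (.cons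
(.leaf 1 [(1,2),(2,3),(0,1)]) .nil)))) (.cons (.keep [2,4,5] (.spl 14 (.cons (.leaf 1 [(2,3),(1,2),(0,1),(3,3)])
(.cons (.leaf 1 [(2,2),(1,2),(0,1),(3,3)]) .nil)))) .nil)))) .nil)))) (.cons (.keep [2,4] (.node (.cons (.leaf 1
[(5,1),(4,1)]) (.cons (.leaf 1 [(4,1),(5,1),(2,1)]) .nil)))) .nil)))) (.cons (.keep [2,4] (.node (.cons (.keep [4,5]
(.node (.cons (.keep [4,5] (.node (.cons (.keep [5] (.node (.cons (.keep [3,4] (.spl 16 (.cons (.leaf 1 [(2,3),(0,1)])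
(.cons (.leaf 1 [(2,3),(1,1),(0,1)]) .nil)))) (.cons (.keep [2,4] (.spl 16 (.cons (.leaf 1 [(2,3),(0,1),(1,1)]) (.cons
(.leaf 1 [(2,3),(0,1)]) .nil)))) .nil)))) (.cons (.keep [2,4,5] (.node (.cons (.leaf 1 [(6,2),(4,1),(5,1)]) (.cons
(.leaf 1 [(5,1),(4,1),(6,2),(2,1)]) .nil)))) .nil)))) (.cons (.keep [2,5] (.node (.cons (.leaf 1 [(5,2),(4,1)]) (.cons
(.leaf 1 [(2,1),(4,1),(5,2)]) .nil)))) .nil)))) (.cons (.keep [2,5] (.node (.cons (.leaf 1 [(5,1),(4,1)]) (.cons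
(.leaf 1 [(4,1),(5,1),(2,1)]) .nil)))) .nil)))) .nil)))) (.cons (.keep [2,4] (.node (.cons (.keep [3,4,5] (.node
(.cons (.keep [4,5] (.node (.cons (.keep [4,5] (.node (.cons (.keep [4,5] (.node (.cons (.keep [3,4,5] (.spl 16 (.cons
(.leaf 1 [(3,1),(2,2),(0,1)]) (.cons (.leaf 1 [(3,1),(2,2),(1,1),(0,1)]) .nil)))) (.cons (.keep [2,4,5] (.spl 16
(.cons (.leaf 1 [(3,1),(2,2),(0,1),(1,1)]) (.cons (.leaf 1 [(3,1),(2,2),(0,1)]) .nil)))) .nil)))) (.cons (.keep [2,5]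
(.node (.cons (.leaf 1 [(5,1),(4,1)]) (.cons (.leaf 1 [(4,1),(5,1),(2,1)]) .nil)))) .nil)))) (.cons (.keep [2,4,5]
(.node (.cons (.leaf 1 [(5,1),(6,1),(4,1)]) (.cons (.leaf 1 [(5,1),(2,1),(4,1),(6,1)]) .nil)))) .nil)))) (.cons (.keep
[2,4,6] (.node (.cons (.leaf 1 [(6,1),(4,1)]) (.cons (.leaf 1 [(5,1),(2,1)]) .nil)))) .nil)))) (.cons (.keep [2,4]
(.node (.cons (.keep [4,5] (.node (.cons (.keep [4,5] (.node (.cons (.keep [5] (.node (.cons (.keep [3,4] (.spl 16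
(.cons (.leaf 1 [(2,1),(0,1)]) (.cons (.leaf 1 [(2,1),(1,1),(0,1)]) .nil)))) (.cons (.keep [2,4] (.spl 16 (.cons
(.leaf 1 [(2,1),(0,1),(1,1)]) (.cons (.leaf 1 [(2,1),(0,1)]) .nil)))) .nil)))) (.cons (.keep [2,4,5] (.node (.cons
(.leaf 1 [(6,1),(4,1),(5,1)]) (.cons (.leaf 1 [(6,1),(2,1),(4,1),(5,1)]) .nil)))) .nil)))) (.cons (.keep [2,5] (.node
(.cons (.leaf 1 [(5,1),(4,1)]) (.cons (.leaf 1 [(5,1),(4,1),(2,1)]) .nil)))) .nil)))) (.cons (.keep [] (.node (.cons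
(.leaf 1 []) (.cons (.leaf 1 [(2,1)]) .nil)))) .nil)))) .nil)))) .nil)))) .nil)))) (.cons (.keep [2,5,6,7] (.node
(.cons (.keep [3,5,6,7] (.node (.cons (.keep [4,5,7] (.node (.cons (.keep [4,6] (.node (.cons (.keep [4,5] (.node
(.cons (.keep [3,4,5] (.spl 14 (.cons (.leaf 1 [(2,2),(3,1),(0,1)]) (.cons (.leaf 1 [(2,2),(3,1),(1,1),(0,1)])
.nil)))) (.cons (.keep [2,4,5] (.spl 14 (.cons (.leaf 1 [(2,2),(3,1),(0,1),(1,1)]) (.cons (.leaf 1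
[(2,2),(3,1),(0,1)]) .nil)))) .nil)))) (.cons (.keep [2] (.node (.cons (.leaf 1 [(4,1)]) (.cons (.leaf 1
[(4,1),(2,1)]) .nil)))) .nil)))) (.cons (.keep [0,2,5] (.node (.cons (.leaf 1 [(4,1),(6,1),(5,2)]) (.cons (.leaf 1
[(0,1),(2,3),(6,1),(5,2)]) .nil)))) .nil)))) (.cons (.keep [2,6,7] (.node (.cons (.leaf 1 [(5,1),(6,1),(4,1)]) (.cons
(.leaf 1 [(5,1),(2,1),(6,1),(4,1)]) .nil)))) .nil)))) (.cons (.keep [4,6,7] (.node (.cons (.keep [4] (.node (.cons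
(.keep [4] (.node (.cons (.keep [4] (.node (.cons (.keep [4] (.node (.cons (.keep [3,4] (.node (.cons (.keep [3,4,5]
(.spl 16 (.cons (.leaf 1 [(2,1),(3,1),(0,2)]) (.cons (.leaf 1 [(2,1),(3,1),(1,2),(0,2)]) .nil)))) (.cons (.keep
[2,4,5] (.node (.cons (.keep [3,4,6] (.node (.cons (.leaf 2 [(4,2),(6,1),(5,1)]) (.cons (.keep [4,5,6] (.node (.cons
(.keep [0,3,5,6] (.node (.cons (.leaf 2 [(5,1),(4,1),(7,1)]) (.cons (.keep [0,6,7] (.spl 16 (.cons (.leaf 2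
[(2,1),(0,2),(3,1)]) (.cons (.leaf 1 [(0,1),(1,1),(3,1)]) .nil)))) .nil)))) (.cons (.keep [0,4,5,6] (.node (.cons
(.leaf 1 [(4,1),(5,1),(7,1)]) (.cons (.keep [0,6,7] (.spl 16 (.cons (.leaf 2 [(2,1),(0,2),(3,1)]) (.cons (.leaf 1
[(0,1),(1,1),(3,1)]) .nil)))) .nil)))) .nil)))) .nil)))) (.cons (.keep [4,5,6] (.node (.cons (.leaf 1
[(5,1),(4,1),(6,1)]) (.cons (.keep [4,5,6] (.node (.cons (.leaf 1 []) (.cons (.keep [0,4,5,6] (.spl 16 (.cons (.leaf 1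
[(2,1),(0,2),(4,1),(3,1)]) (.cons (.leaf 1 [(0,2),(4,1),(1,1)]) .nil)))) .nil)))) .nil)))) .nil)))) .nil)))) (.cons
(.keep [2,4] (.node (.cons (.keep [4,5] (.spl 15 (.cons (.leaf 1 [(2,1),(1,3),(0,2)]) (.cons (.leaf 1
[(2,1),(1,1),(0,2)]) .nil)))) (.cons (.keep [2,4,5] (.spl 15 (.cons (.leaf 1 [(3,1),(2,3),(0,2),(1,1)]) (.cons (.leaf
1 [(3,1),(2,1),(0,2),(1,1)]) .nil)))) .nil)))) .nil)))) (.cons (.keep [2,4] (.node (.cons (.keep [4,5] (.spl 14 (.cons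
(.leaf 1 [(1,3),(2,1),(0,1)]) (.cons (.leaf 1 [(1,2),(2,1),(0,1)]) .nil)))) (.cons (.keep [2,4,5] (.spl 14 (.cons
(.leaf 1 [(1,2),(3,1),(2,3),(0,1)]) (.cons (.leaf 1 [(1,2),(3,1),(2,2),(0,1)]) .nil)))) .nil)))) .nil)))) (.cons
(.keep [2] (.node (.cons (.leaf 1 [(4,1)]) (.cons (.leaf 1 [(4,1),(2,1)]) .nil)))) .nil)))) (.cons (.keep [2,4] (.node
(.cons (.keep [4,5] (.node (.cons (.keep [4,5] (.node (.cons (.keep [5] (.node (.cons (.keep [3,4] (.spl 16 (.cons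
(.leaf 1 [(2,1),(0,1)]) (.cons (.leaf 1 [(2,1),(1,1),(0,1)]) .nil)))) (.cons (.keep [2,4] (.spl 16 (.cons (.leaf 1
[(2,1),(0,1),(1,1)]) (.cons (.leaf 1 [(2,1),(0,1)]) .nil)))) .nil)))) (.cons (.keep [2,4,5] (.node (.cons (.leaf 1
[(6,1),(4,1),(5,1)]) (.cons (.leaf 1 [(6,1),(2,1),(4,1),(5,1)]) .nil)))) .nil)))) (.cons (.keep [2,5] (.node (.cons
(.leaf 1 [(5,1),(4,1)]) (.cons (.leaf 1 [(5,1),(4,1),(2,1)]) .nil)))) .nil)))) (.cons (.keep [2] (.node (.cons (.leaf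
1 [(4,1)]) (.cons (.leaf 1 [(4,1),(2,1)]) .nil)))) .nil)))) .nil)))) (.cons (.keep [2,5,6] (.node (.cons (.keep
[0,4,6] (.node (.cons (.keep [4,5,6] (.node (.cons (.keep [4,5,6] (.node (.cons (.keep [4,6] (.node (.cons (.keep
[3,4,5] (.spl 16 (.cons (.leaf 1 [(2,1),(3,1),(0,1)]) (.cons (.leaf 1 [(2,1),(3,1),(1,1),(0,1)]) .nil)))) (.cons
(.keep [2,4,5] (.spl 16 (.cons (.leaf 1 [(2,1),(3,1),(0,1),(1,1)]) (.cons (.leaf 1 [(2,1),(3,1),(0,1)]) .nil))))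
.nil)))) (.cons (.keep [2,5,6] (.node (.cons (.leaf 1 [(4,1),(6,1),(5,1)]) (.cons (.leaf 1 [(2,1),(6,1),(4,1),(5,1)])
.nil)))) .nil)))) (.cons (.keep [2] (.node (.cons (.leaf 1 [(4,1)]) (.cons (.leaf 1 [(4,1),(2,1)]) .nil)))) .nil))))
(.cons (.keep [0,2,6] (.node (.cons (.leaf 1 [(4,1),(6,1),(5,1)]) (.cons (.leaf 1 [(0,1),(2,2),(6,1),(5,1)]) .nil))))
.nil)))) (.cons (.keep [2,5] (.node (.cons (.keep [4,5] (.node (.cons (.keep [4,5] (.node (.cons (.keep [5] (.node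
(.cons (.keep [3,4] (.spl 16 (.cons (.leaf 1 [(2,1),(0,1)]) (.cons (.leaf 1 [(2,1),(1,1),(0,1)]) .nil)))) (.cons
(.keep [2,4] (.spl 16 (.cons (.leaf 1 [(2,1),(0,1),(1,1)]) (.cons (.leaf 1 [(2,1),(0,1)]) .nil)))) .nil)))) (.cons
(.keep [2,4] (.node (.cons (.leaf 1 [(4,1),(5,1)]) (.cons (.leaf 1 [(2,1),(4,1),(5,1)]) .nil)))) .nil)))) (.cons
(.keep [2] (.node (.cons (.leaf 1 [(4,1)]) (.cons (.leaf 1 [(4,1),(2,1)]) .nil)))) .nil)))) (.cons (.keep [2,5] (.node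
(.cons (.leaf 1 [(5,1),(4,1)]) (.cons (.leaf 1 [(5,1),(4,1),(2,1)]) .nil)))) .nil)))) .nil)))) .nil)))) .nil))))
.nil)))) .nil)))) .nil)))) .nil)))) .nil)))) (.cons (.keep [2,4] (.node (.cons (.keep [3,4,5] (.node (.cons (.leaf 1
[(4,1),(5,1),(6,1)]) (.cons (.keep [2,4,5,6] (.node (.cons (.keep [3,6,7] (.node (.cons (.leaf 1 [(4,1)]) (.cons
(.keep [0,4,5,6] (.node (.cons (.keep [4,6,7] (.node (.cons (.keep [0,4,5] (.node (.cons (.keep [4,5,6] (.node (.cons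
(.keep [4,5,6] (.node (.cons (.keep [4,6] (.node (.cons (.keep [3,4,5] (.spl 14 (.cons (.leaf 2 [(2,1),(3,1),(0,2)])
(.cons (.leaf 2 [(2,1),(3,1),(1,2),(0,2)]) .nil)))) (.cons (.keep [2,4,5] (.spl 14 (.cons (.leaf 2
[(2,1),(3,1),(0,2),(1,2)]) (.cons (.leaf 2 [(2,1),(3,1),(0,2)]) .nil)))) .nil)))) (.cons (.keep [2,5,6] (.node (.cons
(.leaf 1 [(4,1),(6,1),(5,2)]) (.cons (.leaf 1 [(2,1),(6,1),(4,1),(5,2)]) .nil)))) .nil)))) (.cons (.keep [2] (.node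
(.cons (.leaf 1 [(4,1)]) (.cons (.leaf 1 [(4,1),(2,1)]) .nil)))) .nil)))) (.cons (.keep [0,2,6] (.node (.cons (.leaf 2
[(4,1),(6,1),(5,2)]) (.cons (.leaf 2 [(0,1),(2,3),(6,1),(5,2)]) .nil)))) .nil)))) (.cons (.keep [5,6] (.node (.cons
(.keep [4,5] (.node (.cons (.keep [4,5] (.node (.cons (.keep [4,5] (.node (.cons (.keep [3,4,5] (.spl 14 (.cons (.leaf
1 [(3,3),(2,2),(0,1)]) (.cons (.leaf 1 [(3,3),(2,2),(1,1),(0,1)]) .nil)))) (.cons (.keep [2,4,5] (.spl 14 (.cons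
(.leaf 1 [(3,3),(2,2),(0,1),(1,1)]) (.cons (.leaf 1 [(3,3),(2,2),(0,1)]) .nil)))) .nil)))) (.cons (.keep [2] (.node
(.cons (.leaf 1 [(4,1)]) (.cons (.leaf 1 [(4,1),(2,1)]) .nil)))) .nil)))) (.cons (.keep [2,4,5] (.node (.cons (.leaf 1
[(5,1),(6,2),(4,1)]) (.cons (.leaf 1 [(5,1),(2,1),(6,2),(4,1)]) .nil)))) .nil)))) (.cons (.keep [2,4,5] (.node (.cons
(.leaf 1 [(6,1),(5,1),(4,1)]) (.cons (.leaf 1 [(5,1),(2,1),(4,1),(6,1)]) .nil)))) .nil)))) .nil)))) (.cons (.keep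
[2,5,6] (.node (.cons (.keep [0,4,5] (.node (.cons (.keep [4,5,6] (.node (.cons (.keep [4,5,6] (.node (.cons (.keep
[4,6] (.node (.cons (.keep [3,4,5] (.spl 14 (.cons (.leaf 1 [(2,1),(3,1),(0,1)]) (.cons (.leaf 1
[(2,1),(3,1),(1,1),(0,1)]) .nil)))) (.cons (.keep [2,4,5] (.spl 14 (.cons (.leaf 1 [(2,1),(3,1),(0,1),(1,1)]) (.cons
(.leaf 1 [(2,1),(3,1),(0,1)]) .nil)))) .nil)))) (.cons (.keep [2,5,6] (.node (.cons (.leaf 1 [(4,1),(6,1),(5,1)])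
(.cons (.leaf 1 [(2,1),(6,1),(4,1),(5,1)]) .nil)))) .nil)))) (.cons (.keep [2] (.node (.cons (.leaf 1 [(4,1)]) (.cons
(.leaf 1 [(4,1),(2,1)]) .nil)))) .nil)))) (.cons (.keep [0,2,6] (.node (.cons (.leaf 1 [(4,1),(6,1),(5,1)]) (.cons
(.leaf 1 [(0,1),(2,2),(6,1),(5,1)]) .nil)))) .nil)))) (.cons (.keep [4,6] (.node (.cons (.keep [4,5] (.node (.cons
(.keep [4,5] (.node (.cons (.keep [4,5] (.node (.cons (.keep [3,4,5] (.spl 14 (.cons (.leaf 1 [(2,1),(3,2),(0,1)])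
(.cons (.leaf 1 [(2,1),(3,2),(1,1),(0,1)]) .nil)))) (.cons (.keep [2,4,5] (.spl 14 (.cons (.leaf 1
[(2,1),(3,2),(0,1),(1,1)]) (.cons (.leaf 1 [(2,1),(3,2),(0,1)]) .nil)))) .nil)))) (.cons (.keep [2] (.node (.cons
(.leaf 1 [(4,1)]) (.cons (.leaf 1 [(4,1),(2,1)]) .nil)))) .nil)))) (.cons (.keep [2,4,5] (.node (.cons (.leaf 1
[(6,1),(5,1),(4,1)]) (.cons (.leaf 1 [(6,1),(2,1),(5,1),(4,1)]) .nil)))) .nil)))) (.cons (.keep [5] (.node (.cons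
(.leaf 1 [(4,1)]) (.cons (.leaf 1 [(2,1),(4,1)]) .nil)))) .nil)))) .nil)))) .nil)))) .nil)))) (.cons (.keep
[2,4,5,6,7] (.node (.cons (.leaf 1 [(8,1),(6,1)]) (.cons (.keep [0,4,5,6,7,8] (.node (.cons (.keep [3,4,5,6,7,8]
(.node (.cons (.keep [4,5,7,8] (.node (.cons (.keep [4,5,7] (.node (.cons (.keep [4,5,6] (.node (.cons (.keep [4]
(.node (.cons (.keep [3,4] (.spl 14 (.cons (.leaf 1 [(2,1),(0,1)]) (.cons (.leaf 1 [(2,1),(1,1),(0,1)]) .nil))))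
(.cons (.keep [2,4] (.spl 14 (.cons (.leaf 1 [(2,1),(0,1),(1,1)]) (.cons (.leaf 1 [(2,1),(0,1)]) .nil)))) .nil))))
(.cons (.keep [2,5,6] (.node (.cons (.leaf 1 [(4,1),(6,1),(5,1)]) (.cons (.leaf 1 [(2,1),(6,1),(4,1),(5,1)]) .nil))))
.nil)))) (.cons (.keep [2] (.node (.cons (.leaf 1 [(4,1)]) (.cons (.leaf 1 [(4,1),(2,1)]) .nil)))) .nil)))) (.cons
(.keep [0,2,6] (.node (.cons (.leaf 1 [(4,1),(6,1),(5,2)]) (.cons (.leaf 1 [(0,1),(2,3),(6,1),(5,2)]) .nil))))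
.nil)))) (.cons (.keep [6,9] (.node (.cons (.keep [4,5] (.node (.cons (.keep [4,5] (.node (.cons (.keep [4,5] (.node
(.cons (.keep [3,4,5] (.spl 14 (.cons (.leaf 1 [(2,1),(3,2),(0,1)]) (.cons (.leaf 1 [(2,1),(3,2),(1,1),(0,1)])
.nil)))) (.cons (.keep [2,4,5] (.spl 14 (.cons (.leaf 1 [(2,1),(3,2),(0,1),(1,1)]) (.cons (.leaf 1
[(2,1),(3,2),(0,1)]) .nil)))) .nil)))) (.cons (.keep [2] (.node (.cons (.leaf 1 [(4,1)]) (.cons (.leaf 1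
[(4,1),(2,1)]) .nil)))) .nil)))) (.cons (.keep [2,4,5] (.node (.cons (.leaf 1 [(6,1),(5,1),(4,1)]) (.cons (.leaf 1
[(6,1),(2,1),(5,1),(4,1)]) .nil)))) .nil)))) (.cons (.keep [2,5] (.node (.cons (.leaf 1 [(5,1),(4,1)]) (.cons (.leaf 1
[(5,1),(2,1),(4,1)]) .nil)))) .nil)))) .nil)))) (.cons (.keep [7,8,9] (.node (.cons (.keep [4,6] (.node (.cons (.keep
[4,5] (.node (.cons (.keep [4,5] (.node (.cons (.keep [5] (.node (.cons (.keep [3,4] (.spl 14 (.cons (.leaf 1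
[(2,1),(0,1)]) (.cons (.leaf 1 [(2,1),(1,1),(0,1)]) .nil)))) (.cons (.keep [2,4] (.spl 14 (.cons (.leaf 1
[(2,1),(0,1),(1,1)]) (.cons (.leaf 1 [(2,1),(0,1)]) .nil)))) .nil)))) (.cons (.keep [2,4] (.node (.cons (.leaf 1
[(4,1),(5,1)]) (.cons (.leaf 1 [(2,1),(4,1),(5,1)]) .nil)))) .nil)))) (.cons (.keep [2] (.node (.cons (.leaf 1
[(4,1)]) (.cons (.leaf 1 [(4,1),(2,1)]) .nil)))) .nil)))) (.cons (.keep [2,5] (.node (.cons (.leaf 1 [(5,1),(4,1)])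
(.cons (.leaf 1 [(5,1),(2,1),(4,1)]) .nil)))) .nil)))) (.cons (.keep [5,6] (.node (.cons (.keep [4,5] (.node (.cons
(.keep [4,5] (.node (.cons (.keep [4,5] (.node (.cons (.keep [3,4,5] (.spl 14 (.cons (.leaf 1 [(2,2),(3,1),(0,1)])
(.cons (.leaf 1 [(2,2),(3,1),(1,1),(0,1)]) .nil)))) (.cons (.keep [2,4,5] (.spl 14 (.cons (.leaf 1
[(2,2),(3,1),(0,1),(1,1)]) (.cons (.leaf 1 [(2,2),(3,1),(0,1)]) .nil)))) .nil)))) (.cons (.keep [2] (.node (.cons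
(.leaf 1 [(4,1)]) (.cons (.leaf 1 [(4,1),(2,1)]) .nil)))) .nil)))) (.cons (.keep [2,4] (.node (.cons (.leaf 1
[(5,1),(4,1)]) (.cons (.leaf 1 [(5,1),(2,1),(4,1)]) .nil)))) .nil)))) (.cons (.keep [2,4,5] (.node (.cons (.leaf 1
[(5,1),(6,1),(4,1)]) (.cons (.leaf 1 [(5,1),(6,1),(4,1),(2,1)]) .nil)))) .nil)))) .nil)))) .nil)))) .nil)))) .nil))))
.nil)))) (.cons (.keep [2,4,5] (.node (.cons (.leaf 1 [(6,1),(5,1)]) (.cons (.keep [4,5,6] (.node (.cons (.keep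
[3,4,5] (.node (.cons (.leaf 1 [(4,1),(5,1)]) (.cons (.keep [0,4,5,6] (.node (.cons (.keep [4,6,7] (.node (.cons
(.keep [4,5] (.node (.cons (.keep [0,4,5] (.node (.cons (.keep [4,5,6] (.node (.cons (.keep [4,6] (.node (.cons (.keep
[3,4,5] (.spl 14 (.cons (.leaf 1 [(3,3),(2,1),(0,2)]) (.cons (.leaf 1 [(3,3),(2,1),(1,2),(0,2)]) .nil)))) (.cons
(.keep [2,4,5] (.spl 14 (.cons (.leaf 1 [(3,3),(2,1),(0,2),(1,2)]) (.cons (.leaf 1 [(3,3),(2,1),(0,2)]) .nil))))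
.nil)))) (.cons (.keep [2,5,6] (.node (.cons (.leaf 1 [(6,1),(4,1),(5,1)]) (.cons (.leaf 1 [(4,1),(2,1),(6,1),(5,1)])
.nil)))) .nil)))) (.cons (.keep [2,6] (.node (.cons (.leaf 1 [(5,1),(4,1)]) (.cons (.leaf 1 [(2,1),(4,1),(5,1)])
.nil)))) .nil)))) (.cons (.keep [0,2,5] (.node (.cons (.leaf 1 [(6,1),(4,1),(5,1)]) (.cons (.leaf 1
[(6,1),(5,1),(0,1),(2,2)]) .nil)))) .nil)))) (.cons (.keep [5,6] (.node (.cons (.keep [4,5] (.node (.cons (.keep [4,5]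
(.node (.cons (.keep [4,5] (.node (.cons (.keep [3,4,5] (.spl 14 (.cons (.leaf 1 [(2,5),(3,2),(0,1)]) (.cons (.leaf 1
[(2,5),(3,2),(1,1),(0,1)]) .nil)))) (.cons (.keep [2,4,5] (.spl 14 (.cons (.leaf 1 [(2,5),(3,2),(0,1),(1,1)]) (.cons
(.leaf 1 [(2,5),(3,2),(0,1)]) .nil)))) .nil)))) (.cons (.keep [2,4] (.node (.cons (.leaf 1 [(5,1),(4,1)]) (.cons
(.leaf 1 [(4,1),(5,1),(2,1)]) .nil)))) .nil)))) (.cons (.keep [2,4,5] (.node (.cons (.leaf 1 [(6,1),(5,3),(4,1)])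
(.cons (.leaf 1 [(6,1),(2,1),(4,1),(5,3)]) .nil)))) .nil)))) (.cons (.keep [2,4,5] (.node (.cons (.leaf 1
[(5,2),(6,1),(4,1)]) (.cons (.leaf 1 [(4,1),(2,1),(6,1),(5,2)]) .nil)))) .nil)))) .nil)))) (.cons (.keep [2,5,6,7]
(.node (.cons (.keep [3,5,6] (.node (.cons (.keep [4,5] (.node (.cons (.keep [4,5] (.node (.cons (.keep [4,5] (.node
(.cons (.keep [3,4,5] (.spl 14 (.cons (.leaf 1 [(2,3),(3,1),(0,1)]) (.cons (.leaf 1 [(2,3),(3,1),(1,1),(0,1)])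
.nil)))) (.cons (.keep [2,4,5] (.spl 14 (.cons (.leaf 1 [(2,3),(3,1),(0,1),(1,1)]) (.cons (.leaf 1
[(2,3),(3,1),(0,1)]) .nil)))) .nil)))) (.cons (.keep [2] (.node (.cons (.leaf 1 [(4,1)]) (.cons (.leaf 1
[(4,1),(2,1)]) .nil)))) .nil)))) (.cons (.keep [2,4] (.node (.cons (.leaf 1 [(5,1),(4,1)]) (.cons (.leaf 1
[(5,1),(2,1),(4,1)]) .nil)))) .nil)))) (.cons (.keep [2,5,6] (.node (.cons (.leaf 1 [(6,2),(5,1),(4,1)]) (.cons (.leaf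
1 [(6,2),(5,1),(4,1),(2,1)]) .nil)))) .nil)))) (.cons (.keep [4,6,7] (.node (.cons (.keep [4,6] (.node (.cons (.keep
[4,5] (.node (.cons (.keep [4,5] (.node (.cons (.keep [3,4,5] (.spl 14 (.cons (.leaf 1 [(2,1),(3,2),(0,1)]) (.cons
(.leaf 1 [(2,1),(3,2),(1,1),(0,1)]) .nil)))) (.cons (.keep [2,4,5] (.spl 14 (.cons (.leaf 1 [(2,1),(3,2),(0,1),(1,1)])
(.cons (.leaf 1 [(2,1),(3,2),(0,1)]) .nil)))) .nil)))) (.cons (.keep [2] (.node (.cons (.leaf 1 [(4,1)]) (.cons (.leaf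
1 [(4,1),(2,1)]) .nil)))) .nil)))) (.cons (.keep [2,4,5] (.node (.cons (.leaf 1 [(6,1),(5,1),(4,1)]) (.cons (.leaf 1
[(6,1),(2,1),(5,1),(4,1)]) .nil)))) .nil)))) (.cons (.keep [5,6] (.node (.cons (.leaf 1 [(4,1),(5,1)]) (.cons (.leaf 1
[(4,1),(5,1),(2,1)]) .nil)))) .nil)))) .nil)))) .nil)))) .nil)))) (.cons (.keep [2,4,5,6] (.node (.cons (.leaf 1
[(7,1)]) (.cons (.keep [0,4,5,6,7] (.node (.cons (.keep [4,5,7] (.node (.cons (.keep [4,5] (.node (.cons (.keep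
[0,4,5] (.node (.cons (.keep [4,5,6] (.node (.cons (.keep [4,6] (.node (.cons (.keep [3,4,5] (.spl 14 (.cons (.leaf 1
[(3,3),(2,1),(0,2)]) (.cons (.leaf 1 [(3,3),(2,1),(1,2),(0,2)]) .nil)))) (.cons (.keep [2,4,5] (.spl 14 (.cons (.leaf
1 [(3,3),(2,1),(0,2),(1,2)]) (.cons (.leaf 1 [(3,3),(2,1),(0,2)]) .nil)))) .nil)))) (.cons (.keep [2,5,6] (.node
(.cons (.leaf 1 [(6,1),(4,1),(5,1)]) (.cons (.leaf 1 [(4,1),(2,1),(6,1),(5,1)]) .nil)))) .nil)))) (.cons (.keep [2,6]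
(.node (.cons (.leaf 1 [(5,1),(4,1)]) (.cons (.leaf 1 [(2,1),(4,1),(5,1)]) .nil)))) .nil)))) (.cons (.keep [0,2,5]
(.node (.cons (.leaf 1 [(6,1),(4,1),(5,1)]) (.cons (.leaf 1 [(6,1),(5,1),(0,1),(2,2)]) .nil)))) .nil)))) (.cons (.keep
[5,6] (.node (.cons (.keep [4,5] (.node (.cons (.keep [4,5] (.node (.cons (.keep [4,5] (.node (.cons (.keep [3,4,5]
(.spl 14 (.cons (.leaf 1 [(2,3),(3,2),(0,1)]) (.cons (.leaf 1 [(2,3),(3,2),(1,1),(0,1)]) .nil)))) (.cons (.keep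
[2,4,5] (.spl 14 (.cons (.leaf 1 [(2,3),(3,2),(0,1),(1,1)]) (.cons (.leaf 1 [(2,3),(3,2),(0,1)]) .nil)))) .nil))))
(.cons (.keep [2,4] (.node (.cons (.leaf 1 [(5,1),(4,1)]) (.cons (.leaf 1 [(4,1),(5,1),(2,1)]) .nil)))) .nil))))
(.cons (.keep [2,4,5] (.node (.cons (.leaf 1 [(6,1),(5,2),(4,1)]) (.cons (.leaf 1 [(6,1),(2,1),(4,1),(5,2)]) .nil))))
.nil)))) (.cons (.keep [2,4,5] (.node (.cons (.leaf 1 [(5,1),(6,1),(4,1)]) (.cons (.leaf 1 [(4,1),(2,1),(6,1),(5,1)])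
.nil)))) .nil)))) .nil)))) (.cons (.keep [5,6,7,8] (.node (.cons (.keep [3,4,5,7] (.node (.cons (.keep [4,5,7] (.node
(.cons (.keep [4,6] (.node (.cons (.keep [4,5] (.node (.cons (.keep [3,4,5] (.spl 14 (.cons (.leaf 1
[(2,2),(3,1),(0,1)]) (.cons (.leaf 1 [(2,2),(3,1),(1,1),(0,1)]) .nil)))) (.cons (.keep [2,4,5] (.spl 14 (.cons (.leaf
1 [(2,2),(3,1),(0,1),(1,1)]) (.cons (.leaf 1 [(2,2),(3,1),(0,1)]) .nil)))) .nil)))) (.cons (.keep [2] (.node (.cons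
(.leaf 1 [(4,1)]) (.cons (.leaf 1 [(4,1),(2,1)]) .nil)))) .nil)))) (.cons (.keep [0,2,5] (.node (.cons (.leaf 1
[(4,1),(6,1),(5,2)]) (.cons (.leaf 1 [(0,1),(2,3),(6,1),(5,2)]) .nil)))) .nil)))) (.cons (.keep [2,6,7] (.node (.cons
(.leaf 1 [(5,1),(6,1),(4,1)]) (.cons (.leaf 1 [(5,1),(2,1),(6,1),(4,1)]) .nil)))) .nil)))) (.cons (.keep [6,7] (.node
(.cons (.keep [4,5] (.node (.cons (.keep [4,5] (.node (.cons (.keep [4,5] (.node (.cons (.keep [3,4,5] (.spl 14 (.cons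
(.leaf 1 [(2,2),(3,1),(0,1)]) (.cons (.leaf 1 [(2,2),(3,1),(1,1),(0,1)]) .nil)))) (.cons (.keep [2,4,5] (.spl 14
(.cons (.leaf 1 [(2,2),(3,1),(0,1),(1,1)]) (.cons (.leaf 1 [(2,2),(3,1),(0,1)]) .nil)))) .nil)))) (.cons (.keep [2]
(.node (.cons (.leaf 1 [(4,1)]) (.cons (.leaf 1 [(4,1),(2,1)]) .nil)))) .nil)))) (.cons (.keep [2,4] (.node (.cons
(.leaf 1 [(5,1),(4,1)]) (.cons (.leaf 1 [(5,1),(2,1),(4,1)]) .nil)))) .nil)))) (.cons (.keep [4,5] (.node (.cons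
(.leaf 1 [(4,1),(5,1)]) (.cons (.leaf 1 [(4,1),(5,1),(2,1)]) .nil)))) .nil)))) .nil)))) .nil)))) .nil)))) .nil))))
.nil)))) .nil)))) .nil)))) .nil))))

theorem chk : ok4 4 24 dj t = true := by decide +kernel

end Pool.Agent.H50.K4.C424
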