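import Pool.Agent.H50.K4.Sec

/-! # Certificate for the case `(4, 26)` -/

set_option maxRecDepth 40000

namespace Pool.Agent.H50.K4.C426

open Pool.Agent.H50.K4

def dj : List (List (List (ℕ × ℤ))) := (List.range 16).map low ++ [sec [1, 3] 0 1, sec [1, 3] 0 3, sec [1, 3] 2 1, sec [1, 3] 2 3]

def t : Tr := (.keep [1] (.node (.cons (.keep [3,4] (.node (.cons (.keep [5,6] (.node (.cons (.keep [3,4,5] (.node (.cons (.keep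
[3,4,6,7] (.node (.cons (.keep [8] (.spl 5 (.cons (.leaf 1 [(0,1),(1,5)]) (.cons (.leaf 2 [(0,1),(1,8)]) .nil))))
(.cons (.keep [6,8] (.spl 5 (.cons (.leaf 1 [(0,1),(2,5)]) (.cons (.leaf 1 [(0,1),(1,1),(2,6)]) .nil)))) (.cons (.keep
[2,5,7,8] (.node (.cons (.leaf 1 [(3,1),(8,3)]) (.cons (.keep [4,5,7,8] (.node (.cons (.leaf 4 [(6,7),(7,13)]) (.cons
(.leaf 1 [(5,3),(7,4),(6,1)]) (.cons (.keep [2,6,7,8] (.node (.cons (.leaf 1 [(7,4),(3,3),(6,1)]) (.cons (.keep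
[4,5,6,7,8] (.node (.cons (.leaf 5 [(6,3),(8,11)]) (.cons (.keep [4,5,7,8] (.node (.cons (.leaf 1 [(8,2)]) (.cons
(.leaf 4 [(8,7),(7,1),(5,6)]) (.cons (.leaf 1 [(8,5),(6,3),(0,1)]) .nil))))) (.cons (.keep [5,7,8,9] (.node (.cons
(.keep [3,6,7] (.spl 16 (.cons (.leaf 3 [(0,1),(1,9),(3,10)]) (.cons (.leaf 2 [(0,1),(1,6),(3,7)]) (.cons (.leaf 2
[(0,1),(1,5),(3,7)]) (.cons (.leaf 1 [(0,3),(2,1),(3,7)]) (.cons (.leaf 1 [(0,1),(2,2),(3,5)]) (.cons (.leaf 2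
[(0,2),(2,3),(3,9)]) (.cons (.leaf 2 [(0,2),(2,3),(3,9)]) (.cons (.leaf 1 [(0,1),(2,1),(3,4)]) .nil)))))))))) (.cons
(.keep [6,7,8] (.spl 16 (.cons (.leaf 3 [(0,1),(3,9),(2,1)]) (.cons (.leaf 2 [(0,1),(3,6),(2,1)]) (.cons (.leaf 2
[(0,6),(1,5),(2,17)]) (.cons (.leaf 1 [(0,1),(3,3),(2,1)]) (.cons (.leaf 1 [(0,1),(1,2),(2,5)]) (.cons (.leaf 2
[(0,3),(1,5),(2,11)]) (.cons (.leaf 2 [(0,2),(1,3),(2,9)]) (.cons (.leaf 4 [(0,6),(1,7),(2,19)]) .nil)))))))))) (.cons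
(.keep [0,5,6,7,8] (.spl 16 (.cons (.leaf 3 [(4,1),(5,9),(0,1)]) (.cons (.leaf 2 [(4,1),(5,6),(0,1)]) (.cons (.leaf 2
[(4,17),(3,5),(0,6)]) (.cons (.leaf 1 [(4,2),(0,1),(5,5),(1,1)]) (.cons (.leaf 1 [(4,5),(3,2),(0,1)]) (.cons (.leaf 1
[(4,10),(0,3),(3,4),(2,3)]) (.cons (.leaf 2 [(4,9),(3,3),(0,2)]) (.cons (.leaf 2 [(4,17),(0,6),(3,5),(2,6)])
.nil)))))))))) .nil))))) .nil))))) (.cons (.keep [2,5,6,7,8] (.node (.cons (.leaf 2 [(8,5),(7,2),(3,3)]) (.cons (.keep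
[4,5,7,8,9] (.node (.cons (.leaf 4 [(6,7),(7,1)]) (.cons (.leaf 1 [(7,1),(8,1),(5,3)]) (.cons (.leaf 1
[(9,4),(8,1),(0,1)]) .nil))))) (.cons (.keep [3,5,6,7,8,9] (.node (.cons (.leaf 4 [(5,6),(6,6),(7,1)]) (.cons (.leaf 3
[(8,2),(7,2)]) (.cons (.leaf 1 [(10,4),(9,1),(0,1)]) .nil))))) .nil))))) .nil))))) .nil))))) (.cons (.keep [2,5,6,7,8]
(.node (.cons (.leaf 2 [(9,5),(3,1)]) (.cons (.keep [0,5,7,9] (.node (.cons (.leaf 2 [(7,1),(6,5)]) (.cons (.leaf 1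
[(8,5),(5,1)]) (.cons (.leaf 1 [(8,5),(0,1)]) .nil))))) (.cons (.keep [2,5,6,8,9] (.node (.cons (.leaf 2
[(8,5),(7,2)]) (.cons (.leaf 2 [(7,1),(6,1),(5,1)]) (.cons (.leaf 1 [(9,5),(0,1)]) .nil))))) .nil))))) .nil)))))
.nil))))) (.cons (.keep [2,4,6,7] (.node (.cons (.leaf 2 [(8,5)]) (.cons (.leaf 1 [(6,1),(8,3)]) (.cons (.keep
[0,2,5,7,8] (.node (.cons (.leaf 1 [(3,1),(9,3)]) (.cons (.keep [2,4,5,6,7,8,9] (.node (.cons (.leaf 1 [(11,8),(7,2)])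
(.cons (.leaf 1 [(6,3),(10,3),(5,2)]) (.cons (.keep [0,2,5,8,9,10] (.node (.cons (.leaf 1 [(10,3),(3,1),(9,2)]) (.cons
(.keep [4,5,6,7,8,9,10] (.node (.cons (.leaf 3 [(7,1),(11,7)]) (.cons (.keep [4,5,6,11] (.node (.cons (.leaf 3
[(7,1),(8,9)]) (.cons (.leaf 1 [(8,2),(5,1)]) (.cons (.leaf 1 [(8,5),(6,2),(0,1)]) .nil))))) (.cons (.keep
[7,8,9,10,11] (.node (.cons (.keep [3,5,7,9] (.spl 16 (.cons (.leaf 3 [(0,1),(1,8),(4,10)]) (.cons (.leaf 2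
[(0,1),(1,5),(4,7)]) (.cons (.leaf 2 [(0,1),(1,4),(4,7)]) (.cons (.leaf 3 [(0,6),(2,1),(4,16)]) (.cons (.leaf 5
[(0,1),(1,10),(4,15)]) (.cons (.leaf 6 [(0,5),(3,7),(4,25)]) (.cons (.leaf 6 [(0,5),(3,7),(4,25)]) (.cons (.leaf 7
[(0,5),(3,4),(4,25)]) .nil)))))))))) (.cons (.keep [6,7,8,9] (.spl 16 (.cons (.leaf 3 [(0,1),(3,8),(4,10)]) (.cons
(.leaf 2 [(0,1),(3,5),(4,7)]) (.cons (.leaf 2 [(0,3),(1,4),(4,9)]) (.cons (.leaf 1 [(0,3),(1,2),(4,6)]) (.cons (.leaf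
5 [(0,3),(1,10),(4,15)]) (.cons (.leaf 4 [(0,3),(1,8),(4,12)]) (.cons (.leaf 6 [(0,5),(2,7),(4,25)]) (.cons (.leaf 1
[(0,1),(2,1),(4,4)]) .nil)))))))))) (.cons (.keep [0,6,7,8,9] (.spl 16 (.cons (.leaf 3 [(0,1),(5,10),(4,8)]) (.cons
(.leaf 2 [(0,1),(5,7),(4,5)]) (.cons (.leaf 2 [(0,3),(5,9),(2,4)]) (.cons (.leaf 1 [(0,1),(4,4),(5,7),(1,1)]) (.cons
(.leaf 5 [(0,3),(5,15),(2,10)]) (.cons (.leaf 4 [(0,1),(4,10),(5,15),(1,1)]) (.cons (.leaf 6 [(0,5),(5,25),(3,7)])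
(.cons (.leaf 2 [(0,3),(2,7),(5,15),(1,3)]) .nil)))))))))) .nil))))) .nil))))) (.cons (.keep [2,8,9,10] (.node (.cons
(.leaf 4 [(6,3),(8,10),(3,5)]) (.cons (.keep [4,6,7,8] (.node (.cons (.leaf 1 [(8,2)]) (.cons (.leaf 3
[(8,5),(6,1),(5,5)]) (.cons (.leaf 1 [(8,5),(7,3),(0,1)]) .nil))))) (.cons (.keep [2,5,7,8] (.node (.cons (.leaf 1
[(8,2)]) (.cons (.leaf 1 [(6,1),(5,1)]) (.cons (.leaf 1 [(8,5),(7,3),(0,1)]) .nil))))) .nil))))) .nil))))) .nil)))))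
(.cons (.keep [2,7,8] (.node (.cons (.leaf 2 [(5,4),(7,1),(3,9)]) (.cons (.keep [4,5,6,7] (.node (.cons (.leaf 4
[(8,7),(6,3)]) (.cons (.leaf 3 [(8,4),(6,1),(5,5)]) (.cons (.leaf 1 [(8,5),(7,4),(0,1)]) .nil))))) (.cons (.keep
[2,5,6,7] (.node (.cons (.leaf 2 [(8,4),(6,1),(5,1)]) (.cons (.leaf 5 [(8,7),(6,1),(5,1)]) (.cons (.leaf 1
[(8,5),(7,4),(0,1)]) .nil))))) .nil))))) .nil))))) .nil))))) (.cons (.keep [2,3,5,6,7] (.node (.cons (.leaf 1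
[(9,2),(3,1)]) (.cons (.keep [4,5,6,7,8] (.node (.cons (.leaf 1 [(9,2),(6,1)]) (.cons (.leaf 3 [(9,5),(6,1),(5,4)])
(.cons (.keep [2,5,6,7,8,9] (.node (.cons (.leaf 3 [(7,1),(10,5),(3,4)]) (.cons (.keep [4,6,7,8,9] (.node (.cons
(.leaf 1 [(9,2),(6,3)]) (.cons (.keep [0,5,7,8] (.node (.cons (.keep [3,7] (.node (.cons (.leaf 4 [(5,7),(6,3)])
(.cons (.leaf 4 [(5,7),(2,7),(6,3)]) (.cons (.leaf 4 [(5,7),(2,7),(6,3)]) .nil))))) (.cons (.keep [5,6,7,8] (.node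
(.cons (.leaf 2 [(6,3),(8,1)]) (.cons (.leaf 4 [(5,2),(2,9),(7,5)]) (.cons (.leaf 4 [(5,2),(2,9),(7,5)]) .nil)))))
(.cons (.keep [0,2,3,7] (.node (.cons (.leaf 4 [(5,2),(8,5),(7,9)]) (.cons (.leaf 3 [(7,7),(8,4),(6,2)]) (.cons (.leaf
4 [(5,2),(2,9),(7,9),(8,5)]) .nil))))) .nil))))) (.cons (.keep [0,5,6,7] (.node (.cons (.keep [3,8] (.node (.cons
(.leaf 2 [(5,5),(6,1)]) (.cons (.leaf 2 [(2,3),(6,1),(5,5)]) (.cons (.leaf 2 [(2,3),(6,1),(5,5)]) .nil))))) (.cons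
(.keep [5,6,8] (.node (.cons (.leaf 1 [(5,1),(6,3)]) (.cons (.leaf 2 [(5,2),(2,5),(7,3)]) (.cons (.leaf 2
[(5,2),(2,5),(7,3)]) .nil))))) (.cons (.keep [3,7,8] (.node (.cons (.leaf 1 [(7,1),(3,1),(5,2)]) (.cons (.leaf 1
[(6,2),(5,1)]) (.cons (.leaf 1 [(2,1),(3,1),(5,2),(7,1)]) .nil))))) .nil))))) .nil))))) (.cons (.keep [2,3,5,6,7,10]
(.node (.cons (.leaf 1 [(8,1),(10,2)]) (.cons (.keep [5,7,8,9] (.node (.cons (.keep [3,8] (.node (.cons (.leaf 3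
[(5,4),(6,1)]) (.cons (.leaf 3 [(5,4),(2,4),(6,1)]) (.cons (.leaf 3 [(5,4),(2,4),(6,1)]) .nil))))) (.cons (.keep
[5,6,7,8] (.node (.cons (.leaf 5 [(8,2),(5,1)]) (.cons (.leaf 4 [(2,6),(7,1),(6,1)]) (.cons (.leaf 4
[(2,6),(7,1),(6,1)]) .nil))))) (.cons (.keep [2,3,7,8] (.node (.cons (.leaf 2 [(7,1),(6,2),(5,1)]) (.cons (.leaf 1
[(6,2),(5,1),(8,1)]) (.cons (.leaf 3 [(2,4),(6,4),(8,1),(5,1)]) .nil))))) .nil))))) (.cons (.keep [0,6,8,9] (.node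
(.cons (.keep [3,6,8] (.node (.cons (.leaf 1 [(5,3),(6,1)]) (.cons (.leaf 1 [(6,4),(2,4),(7,3)]) (.cons (.leaf 1
[(6,4),(2,4),(7,3)]) .nil))))) (.cons (.keep [5,6] (.node (.cons (.leaf 1 [(6,1),(5,1)]) (.cons (.leaf 1
[(6,1),(5,1),(2,1)]) (.cons (.leaf 1 [(6,1),(5,1),(2,1)]) .nil))))) (.cons (.keep [2,3,6,7,8] (.node (.cons (.leaf 1
[(5,3),(3,4),(8,3)]) (.cons (.leaf 1 [(6,3)]) (.cons (.leaf 1 [(7,3),(3,1),(9,3),(2,3)]) .nil))))) .nil))))) .nil)))))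
.nil))))) .nil))))) (.cons (.keep [2,3,5,6,7,8] (.node (.cons (.leaf 1 [(10,2),(7,1),(6,1)]) (.cons (.leaf 3
[(5,1),(8,1),(10,5)]) (.cons (.keep [2,6,7,9,10] (.node (.cons (.leaf 1 [(3,3),(8,1)]) (.cons (.keep [6,8,9] (.node
(.cons (.leaf 1 [(6,1),(7,1)]) (.cons (.keep [0,5] (.node (.cons (.keep [3,6] (.node (.cons (.leaf 2 [(6,1),(5,2)])
(.cons (.leaf 2 [(6,1),(5,2),(2,2)]) (.cons (.leaf 2 [(6,1),(5,2),(2,2)]) .nil))))) (.cons (.keep [5,6] (.node (.cons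
(.leaf 2 [(6,1),(5,1)]) (.cons (.leaf 2 [(6,1),(5,1),(2,2)]) (.cons (.leaf 2 [(6,1),(5,1),(2,2)]) .nil))))) (.cons
(.keep [0,3,6] (.node (.cons (.leaf 2 [(7,1),(5,1),(6,2)]) (.cons (.leaf 1 [(6,1)]) (.cons (.leaf 2
[(7,1),(5,1),(6,2),(2,2)]) .nil))))) .nil))))) (.cons (.keep [0,5] (.node (.cons (.keep [3,6] (.node (.cons (.leaf 1
[(6,1),(5,2)]) (.cons (.leaf 1 [(6,1),(5,2),(2,1)]) (.cons (.leaf 1 [(6,1),(5,2),(2,1)]) .nil))))) (.cons (.keep [5,6]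
(.node (.cons (.leaf 1 [(6,1),(5,1)]) (.cons (.leaf 1 [(6,1),(5,1),(2,1)]) (.cons (.leaf 1 [(6,1),(5,1),(2,1)])
.nil))))) (.cons (.keep [3] (.node (.cons (.leaf 1 [(3,1),(5,1)]) (.cons (.leaf 1 [(5,1)]) (.cons (.leaf 1
[(3,1),(5,1)]) .nil))))) .nil))))) .nil))))) (.cons (.keep [2,3,5,6,7,9] (.node (.cons (.leaf 1 [(5,1),(3,1),(10,2)])
(.cons (.keep [4,5,7,8] (.node (.cons (.keep [5,6] (.node (.cons (.leaf 1 [(6,1),(5,2)]) (.cons (.leaf 1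
[(6,1),(5,2),(2,2)]) (.cons (.leaf 1 [(6,1),(5,2),(2,2)]) .nil))))) (.cons (.keep [7,8] (.node (.cons (.leaf 4
[(5,1),(6,7)]) (.cons (.leaf 4 [(6,7),(2,6),(5,1)]) (.cons (.leaf 4 [(6,7),(2,6),(5,1)]) .nil))))) (.cons (.keep
[2,3,5,6,8] (.node (.cons (.leaf 3 [(8,1),(9,4),(6,4)]) (.cons (.leaf 3 [(8,1),(7,4),(5,4)]) (.cons (.leaf 3
[(8,1),(7,4),(5,4),(3,4)]) .nil))))) .nil))))) (.cons (.keep [0,6,8,9] (.node (.cons (.keep [3,7] (.node (.cons (.leaf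
1 [(6,3),(5,4)]) (.cons (.leaf 1 [(5,4),(2,1),(6,3)]) (.cons (.leaf 1 [(5,4),(2,1),(6,3)]) .nil))))) (.cons (.keep
[5,6] (.node (.cons (.leaf 1 [(6,5),(5,1)]) (.cons (.leaf 1 [(6,5),(5,1),(2,1)]) (.cons (.leaf 1 [(6,5),(5,1),(2,1)])
.nil))))) (.cons (.keep [2,3,6,8] (.node (.cons (.leaf 1 [(3,3),(6,1),(5,2)]) (.cons (.leaf 1 [(7,2),(6,1)]) (.cons
(.leaf 1 [(8,2),(6,1),(5,2),(3,3)]) .nil))))) .nil))))) .nil))))) .nil))))) .nil))))) .nil))))) .nil))))) (.cons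
(.keep [2,4,6] (.node (.cons (.leaf 2 [(7,3),(5,3)]) (.cons (.leaf 1 [(5,1),(6,1),(7,1)]) (.cons (.keep [2,3,5,6,7]
(.node (.cons (.leaf 1 [(3,1),(7,1),(9,1)]) (.cons (.keep [4,5,7,9] (.node (.cons (.leaf 5 [(8,6),(6,1)]) (.cons
(.leaf 1 [(8,1),(5,1)]) (.cons (.keep [0,5,6,7,8] (.node (.cons (.leaf 1 [(9,1),(3,1)]) (.cons (.keep [5,7,8,9] (.node
(.cons (.leaf 2 [(5,3),(8,6)]) (.cons (.keep [0,6,8] (.node (.cons (.keep [3,6] (.node (.cons (.leaf 4 [(5,9),(6,5)])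
(.cons (.leaf 4 [(5,9),(2,9),(6,5)]) (.cons (.leaf 4 [(5,9),(2,9),(6,5)]) .nil))))) (.cons (.keep [5,7] (.node (.cons
(.leaf 3 [(5,5),(6,9)]) (.cons (.leaf 3 [(5,5),(2,3),(6,9)]) (.cons (.leaf 3 [(5,5),(2,3),(6,9)]) .nil))))) (.cons
(.keep [0,3,7] (.node (.cons (.leaf 3 [(6,3),(3,5),(7,4)]) (.cons (.leaf 3 [(5,2),(6,3),(7,6)]) (.cons (.leaf 3
[(0,2),(3,5),(6,3),(7,6)]) .nil))))) .nil))))) (.cons (.keep [7,8] (.node (.cons (.keep [3,6] (.node (.cons (.leaf 2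
[(5,7),(6,1)]) (.cons (.leaf 2 [(2,2),(6,1),(5,7)]) (.cons (.leaf 2 [(2,2),(6,1),(5,7)]) .nil))))) (.cons (.keep [5,6]
(.node (.cons (.leaf 2 [(5,5),(6,1)]) (.cons (.leaf 2 [(2,2),(6,1),(5,5)]) (.cons (.leaf 2 [(2,2),(6,1),(5,5)])
.nil))))) (.cons (.keep [2,3,5,6] (.node (.cons (.leaf 3 [(3,7),(5,3),(8,5)]) (.cons (.leaf 1 [(6,1),(7,1),(8,1)])
(.cons (.leaf 1 [(3,1),(7,1),(6,1),(8,1)]) .nil))))) .nil))))) .nil))))) (.cons (.keep [3,5,6,7,8,9] (.node (.cons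
(.leaf 1 [(6,1),(7,1),(10,2)]) (.cons (.keep [0,8,9,10] (.node (.cons (.keep [3,6] (.node (.cons (.leaf 1
[(5,2),(6,1)]) (.cons (.leaf 1 [(5,2),(2,2),(6,1)]) (.cons (.leaf 1 [(5,2),(2,2),(6,1)]) .nil))))) (.cons (.keep [6,7]
(.node (.cons (.leaf 2 [(6,3),(5,1)]) (.cons (.leaf 2 [(6,3),(2,3),(5,1)]) (.cons (.leaf 2 [(6,3),(2,3),(5,1)])
.nil))))) (.cons (.keep [3,5,6,7,8] (.node (.cons (.leaf 2 [(8,3),(7,1),(5,3)]) (.cons (.leaf 2 [(6,3),(7,1),(9,6)])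
(.cons (.leaf 2 [(8,3),(2,3),(5,3),(7,1)]) .nil))))) .nil))))) (.cons (.keep [5,8,9,10] (.node (.cons (.keep [3,5,6]
(.node (.cons (.leaf 1 [(5,5),(6,1)]) (.cons (.leaf 1 [(6,6),(2,6),(7,5)]) (.cons (.leaf 1 [(6,6),(2,6),(7,5)])
.nil))))) (.cons (.keep [5,7] (.node (.cons (.leaf 1 [(6,3),(5,1)]) (.cons (.leaf 1 [(5,1),(2,1),(6,3)]) (.cons (.leaf
1 [(5,1),(2,1),(6,3)]) .nil))))) (.cons (.keep [6,7,8] (.node (.cons (.leaf 2 [(6,1),(3,2),(7,3)]) (.cons (.leaf 2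
[(5,1),(7,3)]) (.cons (.leaf 2 [(3,3),(5,1),(7,3)]) .nil))))) .nil))))) .nil))))) .nil))))) .nil))))) (.cons (.keep
[3,5,6,7,8,9] (.node (.cons (.leaf 4 [(9,3),(6,2),(10,3)]) (.cons (.leaf 2 [(6,1),(9,3)]) (.cons (.keep
[0,5,6,7,8,9,10] (.node (.cons (.leaf 2 [(11,4),(5,1)]) (.cons (.keep [4,6,7,8,9,10] (.node (.cons (.leaf 1 [(10,1)])
(.cons (.keep [0,4,5,7,8,10] (.node (.cons (.keep [3,9] (.node (.cons (.leaf 3 [(5,4),(6,1)]) (.cons (.leaf 3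
[(5,4),(2,4),(6,1)]) (.cons (.leaf 3 [(5,4),(2,4),(6,1)]) .nil))))) (.cons (.keep [5,7] (.node (.cons (.leaf 1
[(5,1),(6,3)]) (.cons (.leaf 1 [(5,1),(2,1),(6,3)]) (.cons (.leaf 1 [(5,1),(2,1),(6,3)]) .nil))))) (.cons (.keep
[3,6,8,9,10] (.node (.cons (.leaf 1 [(5,3),(3,5),(8,2)]) (.cons (.leaf 2 [(6,3),(9,3),(7,1)]) (.cons (.leaf 1
[(5,1),(3,3),(8,2),(6,2)]) .nil))))) .nil))))) (.cons (.keep [6,7,8,9] (.node (.cons (.keep [3,5] (.node (.cons (.leaf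
1 [(5,4),(6,1)]) (.cons (.leaf 1 [(6,1),(2,1),(5,4)]) (.cons (.leaf 1 [(6,1),(2,1),(5,4)]) .nil))))) (.cons (.keep
[5,8] (.node (.cons (.leaf 1 [(6,3),(5,1)]) (.cons (.leaf 1 [(5,1),(2,1),(6,3)]) (.cons (.leaf 1 [(5,1),(2,1),(6,3)])
.nil))))) (.cons (.keep [3,6,7] (.node (.cons (.leaf 1 [(3,5),(5,3),(7,2)]) (.cons (.leaf 1 [(5,3),(6,2)]) (.cons
(.leaf 1 [(3,3),(5,3),(6,2)]) .nil))))) .nil))))) .nil))))) (.cons (.keep [6,9,10,11] (.node (.cons (.leaf 1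
[(7,1),(3,1),(8,1)]) (.cons (.keep [0,4,5] (.node (.cons (.keep [6] (.node (.cons (.leaf 1 [(5,1)]) (.cons (.leaf 1
[(5,1),(2,1)]) (.cons (.leaf 1 [(5,1),(2,1)]) .nil))))) (.cons (.keep [5,7] (.node (.cons (.leaf 2 [(6,1),(5,1)])
(.cons (.leaf 2 [(6,1),(5,1),(2,2)]) (.cons (.leaf 2 [(6,1),(5,1),(2,2)]) .nil))))) (.cons (.keep [0,3,6,7] (.node
(.cons (.leaf 2 [(8,1),(5,1),(6,2)]) (.cons (.leaf 1 [(7,1),(2,1)]) (.cons (.leaf 1 [(7,1),(2,1)]) .nil))))) .nil)))))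
(.cons (.keep [6,8] (.node (.cons (.keep [3,6] (.node (.cons (.leaf 2 [(6,3),(5,3)]) (.cons (.leaf 2
[(5,3),(2,2),(6,3)]) (.cons (.leaf 2 [(5,3),(2,2),(6,3)]) .nil))))) (.cons (.keep [5,6] (.node (.cons (.leaf 2
[(6,3),(5,3)]) (.cons (.leaf 2 [(5,3),(2,2),(6,3)]) (.cons (.leaf 2 [(5,3),(2,2),(6,3)]) .nil))))) (.cons (.keep [5,6]
(.node (.cons (.leaf 2 [(6,3),(5,3)]) (.cons (.leaf 2 [(5,3),(2,2),(6,3)]) (.cons (.leaf 2 [(5,3),(2,2),(6,3)])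
.nil))))) .nil))))) .nil))))) .nil))))) .nil))))) .nil))))) .nil))))) (.cons (.keep [2,3,6] (.node (.cons (.keep
[4,5,6,7] (.node (.cons (.leaf 2 [(6,2),(8,3)]) (.cons (.leaf 1 [(5,1),(8,2),(6,1)]) (.cons (.keep [2,3,6,7,8] (.node
(.cons (.leaf 2 [(9,3),(3,2),(7,1)]) (.cons (.keep [2,4,5,7,8,9] (.node (.cons (.leaf 2 [(5,5),(7,1)]) (.cons (.leaf 1
[(6,1),(10,1)]) (.cons (.keep [6,7,8,9,10] (.node (.cons (.leaf 1 [(3,1),(9,1)]) (.cons (.keep [6,7,8,9] (.node (.cons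
(.leaf 5 [(8,3),(7,1)]) (.cons (.keep [0,6,8] (.node (.cons (.leaf 1 []) (.cons (.leaf 2 [(6,1),(7,3),(5,2)]) (.cons
(.leaf 2 [(6,1),(7,3),(0,2)]) .nil))))) (.cons (.keep [5,6,8] (.node (.cons (.keep [5,7] (.spl 16 (.cons (.leaf 6
[(1,3),(2,9),(0,4)]) (.cons (.leaf 2 [(1,1),(2,3),(0,2)]) (.cons (.leaf 6 [(1,1),(2,7),(0,4)]) (.cons (.leaf 1
[(2,1),(0,1)]) (.cons (.leaf 3 [(1,1),(2,3),(0,1)]) (.cons (.leaf 10 [(1,3),(2,9),(0,4)]) (.cons (.leaf 10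
[(1,3),(2,9),(0,4)]) (.cons (.leaf 4 [(1,1),(2,3),(0,2)]) .nil)))))))))) (.cons (.keep [5,6,7] (.spl 16 (.cons (.leaf
6 [(1,3),(3,9),(0,4)]) (.cons (.leaf 2 [(1,1),(3,3),(0,2)]) (.cons (.leaf 6 [(1,1),(3,7),(0,4)]) (.cons (.leaf 2
[(2,1),(3,3),(0,2)]) (.cons (.leaf 3 [(1,1),(3,3),(0,1)]) (.cons (.leaf 2 [(1,1),(3,2),(0,1)]) (.cons (.leaf 10
[(1,3),(3,9),(0,4)]) (.cons (.leaf 6 [(1,3),(3,5),(0,4)]) .nil)))))))))) (.cons (.keep [0,5,6,7] (.spl 16 (.cons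
(.leaf 6 [(2,3),(0,4),(4,9)]) (.cons (.leaf 2 [(2,1),(0,2),(4,3)]) (.cons (.leaf 6 [(2,1),(0,4),(4,7)]) (.cons (.leaf
2 [(3,1),(0,2),(1,2),(4,5)]) (.cons (.leaf 3 [(2,1),(0,1),(4,3)]) (.cons (.leaf 2 [(2,1),(4,3),(0,1),(1,1)]) (.cons
(.leaf 10 [(2,3),(0,4),(4,9)]) (.cons (.leaf 6 [(2,3),(4,9),(0,4),(1,4)]) .nil)))))))))) .nil))))) .nil))))) (.cons
(.keep [5,6,7,9] (.node (.cons (.leaf 4 [(8,3),(5,2),(3,1)]) (.cons (.keep [0,6,7,8] (.node (.cons (.leaf 4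
[(6,1),(7,1)]) (.cons (.leaf 1 [(8,2),(7,1),(5,1)]) (.cons (.leaf 1 [(8,2),(7,1),(0,1)]) .nil))))) (.cons (.keep
[6,7,8] (.node (.cons (.leaf 4 [(5,1),(6,1)]) (.cons (.leaf 1 [(5,1),(6,1)]) (.cons (.leaf 1 [(7,2),(6,1),(0,1)])
.nil))))) .nil))))) .nil))))) .nil))))) (.cons (.keep [2,5,6,7,9] (.node (.cons (.leaf 4 [(9,5),(8,3),(3,2)]) (.cons
(.keep [0,7,8,9] (.node (.cons (.leaf 4 [(6,2),(8,3)]) (.cons (.leaf 2 [(7,3),(8,5),(5,2)]) (.cons (.leaf 2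
[(7,3),(8,5),(0,2)]) .nil))))) (.cons (.keep [2,5,6,8,9] (.node (.cons (.leaf 2 [(7,1),(6,1),(5,1)]) (.cons (.leaf 1
[(8,1),(7,1)]) (.cons (.leaf 2 [(8,3),(9,5),(0,2)]) .nil))))) .nil))))) .nil))))) .nil))))) (.cons (.keep [4,5,7]
(.node (.cons (.leaf 4 [(6,3),(7,5)]) (.cons (.leaf 2 [(5,2),(7,3),(6,1)]) (.cons (.keep [2,6,7] (.node (.cons (.leaf
2 [(7,3),(3,2),(6,1)]) (.cons (.keep [4,5,6,7] (.node (.cons (.leaf 5 [(8,4),(6,2)]) (.cons (.leaf 1 [(5,1),(8,1)])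
(.cons (.keep [0,5,6,7,8] (.node (.cons (.leaf 1 [(3,1),(9,1)]) (.cons (.keep [2,5,7,8,9] (.node (.cons (.leaf 1
[(5,1)]) (.cons (.keep [0,6,9] (.node (.cons (.leaf 1 [(6,1),(7,1)]) (.cons (.leaf 1 [(7,1),(5,1)]) (.cons (.leaf 1
[(7,1),(0,1)]) .nil))))) (.cons (.keep [6,7,8,9] (.node (.cons (.keep [5,6,7,8] (.spl 16 (.cons (.leaf 3
[(0,1),(3,1),(4,4)]) (.cons (.leaf 4 [(0,3),(2,1),(4,5)]) (.cons (.leaf 2 [(0,1),(4,2)]) (.cons (.leaf 1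
[(1,1),(0,1),(4,2)]) (.cons (.leaf 11 [(0,3),(2,2),(4,10)]) (.cons (.leaf 10 [(0,3),(2,1),(4,8)]) (.cons (.leaf 10
[(0,3),(2,1),(4,8)]) (.cons (.leaf 3 [(0,1),(4,2)]) .nil)))))))))) (.cons (.keep [6,8] (.spl 16 (.cons (.leaf 5
[(1,2),(2,7),(0,3)]) (.cons (.leaf 4 [(1,1),(2,5),(0,3)]) (.cons (.leaf 2 [(2,2),(0,1)]) (.cons (.leaf 1
[(2,1),(0,1)]) (.cons (.leaf 11 [(1,2),(2,10),(0,3)]) (.cons (.leaf 8 [(1,2),(2,7),(0,3)]) (.cons (.leaf 10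
[(1,1),(2,8),(0,3)]) (.cons (.leaf 7 [(1,1),(2,5),(0,3)]) .nil)))))))))) (.cons (.keep [0,7,8] (.spl 16 (.cons (.leaf
3 [(2,1),(3,4),(0,1)]) (.cons (.leaf 4 [(2,1),(3,5),(0,2)]) (.cons (.leaf 2 [(3,2),(0,1)]) (.cons (.leaf 1
[(0,1),(3,2),(1,1)]) (.cons (.leaf 5 [(2,1),(3,5),(0,1)]) (.cons (.leaf 4 [(2,1),(0,1),(3,5),(1,1)]) (.cons (.leaf 8
[(2,1),(3,7),(0,2)]) (.cons (.leaf 6 [(2,1),(0,2),(3,7),(1,2)]) .nil)))))))))) .nil))))) .nil))))) (.cons (.keep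
[6,7,8,9] (.node (.cons (.leaf 3 [(8,2),(5,1),(3,1)]) (.cons (.keep [0,7,8] (.node (.cons (.leaf 1 []) (.cons (.leaf 2
[(6,1),(7,3),(5,2)]) (.cons (.leaf 2 [(6,1),(7,3),(0,2)]) .nil))))) (.cons (.keep [6,7,8] (.node (.cons (.leaf 1 [])
(.cons (.leaf 3 [(5,1),(6,1)]) (.cons (.leaf 2 [(6,1),(7,3),(0,2)]) .nil))))) .nil))))) .nil))))) .nil))))) (.cons
(.keep [2,5,6,7] (.node (.cons (.leaf 2 [(8,2),(7,1),(3,1)]) (.cons (.keep [0,2,5,7,8] (.node (.cons (.leaf 2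
[(6,1),(7,1)]) (.cons (.leaf 1 [(8,1),(9,2),(5,1)]) (.cons (.leaf 1 [(8,1),(9,2),(0,1)]) .nil))))) (.cons (.keep
[2,5,6,7,8] (.node (.cons (.leaf 2 [(6,1),(5,1)]) (.cons (.leaf 3 [(8,1),(7,1)]) (.cons (.leaf 1 [(8,1),(9,2),(0,1)])
.nil))))) .nil))))) .nil))))) .nil))))) (.cons (.keep [2,5,6,7] (.node (.cons (.leaf 1 [(6,1),(3,1),(8,1)]) (.cons
(.keep [4,5,6,8] (.node (.cons (.leaf 1 [(6,1)]) (.cons (.leaf 3 [(7,1),(6,1),(5,4)]) (.cons (.keep [0,5,6,7,8] (.node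
(.cons (.leaf 2 [(9,1),(8,1),(3,2)]) (.cons (.keep [5,7,8,9] (.node (.cons (.leaf 2 [(5,1),(8,2)]) (.cons (.keep
[4,6,8] (.node (.cons (.keep [3,6] (.node (.cons (.leaf 4 [(5,5),(6,1)]) (.cons (.leaf 4 [(5,5),(2,5),(6,1)]) (.cons
(.leaf 4 [(5,5),(2,5),(6,1)]) .nil))))) (.cons (.keep [5,6,7] (.node (.cons (.leaf 1 [(5,2),(7,1)]) (.cons (.leaf 1
[(2,2),(6,1),(5,3)]) (.cons (.leaf 1 [(2,2),(6,1),(5,3)]) .nil))))) (.cons (.keep [3,5,6] (.node (.cons (.leaf 1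
[(5,2),(3,3),(7,1)]) (.cons (.leaf 1 [(5,1),(7,1),(6,1)]) (.cons (.leaf 1 [(5,1),(3,2),(7,1),(6,1)]) .nil)))))
.nil))))) (.cons (.keep [6,7,8] (.node (.cons (.keep [3,6,7] (.node (.cons (.leaf 2 [(7,3),(6,5)]) (.cons (.leaf 1
[(6,1),(2,1),(5,3)]) (.cons (.leaf 1 [(6,1),(2,1),(5,3)]) .nil))))) (.cons (.keep [5,6,7] (.node (.cons (.leaf 1
[(7,1),(6,2)]) (.cons (.leaf 1 [(6,3),(2,2),(5,1)]) (.cons (.leaf 1 [(6,3),(2,2),(5,1)]) .nil))))) (.cons (.keep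
[3,5,6] (.node (.cons (.leaf 1 [(3,3),(5,2),(6,1)]) (.cons (.leaf 1 [(7,1),(5,2),(6,1)]) (.cons (.leaf 1
[(7,3),(2,2),(5,2),(6,1)]) .nil))))) .nil))))) .nil))))) (.cons (.keep [3,6,7,8,9] (.node (.cons (.leaf 1 [(6,1)])
(.cons (.keep [7,8] (.node (.cons (.keep [3,5] (.node (.cons (.leaf 3 [(5,4),(6,1)]) (.cons (.leaf 3
[(5,4),(2,4),(6,1)]) (.cons (.leaf 3 [(5,4),(2,4),(6,1)]) .nil))))) (.cons (.keep [5,6] (.node (.cons (.leaf 3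
[(6,5),(5,1)]) (.cons (.leaf 3 [(2,4),(5,1),(6,5)]) (.cons (.leaf 3 [(2,4),(5,1),(6,5)]) .nil))))) (.cons (.keep
[3,5,6] (.node (.cons (.leaf 3 [(5,4),(7,5),(6,1)]) (.cons (.leaf 1 [(5,2),(6,1),(7,1)]) (.cons (.leaf 3
[(5,4),(2,4),(6,1),(7,5)]) .nil))))) .nil))))) (.cons (.keep [5,7,8,9] (.node (.cons (.keep [3,5,6] (.node (.cons
(.leaf 1 [(5,3),(6,1)]) (.cons (.leaf 1 [(6,4),(2,4),(7,3)]) (.cons (.leaf 1 [(6,4),(2,4),(7,3)]) .nil))))) (.cons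
(.keep [5,7] (.node (.cons (.leaf 1 [(6,3),(5,1)]) (.cons (.leaf 1 [(5,1),(2,1),(6,3)]) (.cons (.leaf 1
[(5,1),(2,1),(6,3)]) .nil))))) (.cons (.keep [5,6,7,8] (.node (.cons (.leaf 2 [(7,1),(3,2),(8,3)]) (.cons (.leaf 1
[(5,1),(2,1),(6,3)]) (.cons (.leaf 2 [(5,2),(2,2),(8,3),(7,3)]) .nil))))) .nil))))) .nil))))) .nil))))) .nil)))))
(.cons (.keep [2,3,5,6,7,8] (.node (.cons (.leaf 2 [(10,2),(8,1)]) (.cons (.leaf 4 [(8,1),(7,1),(5,1)]) (.cons (.keep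
[0,5,6,7,8,9,10] (.node (.cons (.leaf 2 [(11,4),(10,2),(5,1)]) (.cons (.keep [6,7,8,9] (.node (.cons (.leaf 1 [(6,1)])
(.cons (.keep [4,5,6,7] (.node (.cons (.keep [3,7] (.node (.cons (.leaf 2 [(6,3),(5,2)]) (.cons (.leaf 2
[(6,3),(5,2),(2,2)]) (.cons (.leaf 2 [(6,3),(5,2),(2,2)]) .nil))))) (.cons (.keep [5] (.node (.cons (.leaf 1 [(5,3)])
(.cons (.leaf 1 [(5,3),(2,1)]) (.cons (.leaf 1 [(5,3),(2,1)]) .nil))))) (.cons (.keep [3,5,6,7,8] (.node (.cons (.leaf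
1 [(3,3),(5,1)]) (.cons (.leaf 3 [(6,5),(9,1),(7,1)]) (.cons (.leaf 2 [(9,1),(6,3),(3,3),(8,1)]) .nil))))) .nil)))))
(.cons (.keep [6,7,8] (.node (.cons (.keep [3,5] (.node (.cons (.leaf 1 [(6,3),(5,4)]) (.cons (.leaf 1
[(5,4),(2,1),(6,3)]) (.cons (.leaf 1 [(5,4),(2,1),(6,3)]) .nil))))) (.cons (.keep [7] (.node (.cons (.leaf 1 [(5,3)])
(.cons (.leaf 1 [(5,3),(2,1)]) (.cons (.leaf 1 [(5,3),(2,1)]) .nil))))) (.cons (.keep [3,5,6,7] (.node (.cons (.leaf 1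
[(5,1),(3,3)]) (.cons (.leaf 1 [(5,1),(8,2)]) (.cons (.leaf 1 [(5,3),(3,3),(7,2),(6,2)]) .nil))))) .nil))))) .nil)))))
(.cons (.keep [2,5,6,7,9,10,11] (.node (.cons (.leaf 2 [(10,2),(6,1),(5,2)]) (.cons (.keep [4,5,7,8,9] (.node (.cons
(.keep [5,6] (.node (.cons (.leaf 1 [(6,1),(5,2)]) (.cons (.leaf 1 [(6,1),(5,2),(2,2)]) (.cons (.leaf 1
[(6,1),(5,2),(2,2)]) .nil))))) (.cons (.keep [8,9] (.node (.cons (.leaf 2 [(5,3),(6,3)]) (.cons (.leaf 2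
[(6,3),(2,2),(5,3)]) (.cons (.leaf 2 [(6,3),(2,2),(5,3)]) .nil))))) (.cons (.keep [3,5,7,8,9] (.node (.cons (.leaf 2
[(9,3),(8,3),(5,2)]) (.cons (.leaf 3 [(6,4),(9,1),(7,1)]) (.cons (.leaf 2 [(9,3),(5,2),(2,2),(8,3)]) .nil)))))
.nil))))) (.cons (.keep [8,9,11] (.node (.cons (.keep [3,5] (.node (.cons (.leaf 1 [(6,3),(5,4)]) (.cons (.leaf 1
[(5,4),(2,1),(6,3)]) (.cons (.leaf 1 [(5,4),(2,1),(6,3)]) .nil))))) (.cons (.keep [6,7] (.node (.cons (.leaf 2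
[(6,3),(5,3)]) (.cons (.leaf 2 [(5,3),(2,2),(6,3)]) (.cons (.leaf 2 [(5,3),(2,2),(6,3)]) .nil))))) (.cons (.keep
[3,6,7] (.node (.cons (.leaf 2 [(6,3),(7,3),(5,2)]) (.cons (.leaf 1 [(6,1),(7,1),(5,1)]) (.cons (.leaf 2
[(2,2),(6,3),(5,2),(7,3)]) .nil))))) .nil))))) .nil))))) .nil))))) .nil))))) .nil))))) .nil))))) .nil))))) (.cons
(.leaf 1 [(2,1),(6,1)]) (.cons (.keep [2,6] (.node (.cons (.leaf 2 [(3,2),(5,1),(6,1)]) (.cons (.keep [5,6] (.spl 3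
(.cons (.leaf 2 [(0,1),(2,2),(1,1)]) (.cons (.leaf 1 [(0,1),(2,2),(1,1)]) .nil)))) (.cons (.keep [3,5,6] (.spl 3
(.cons (.leaf 2 [(0,1),(2,1),(3,2),(1,2)]) (.cons (.leaf 1 [(0,1),(2,1),(3,2),(1,1)]) .nil)))) .nil))))) .nil)))))
(.cons (.keep [2,4] (.node (.cons (.keep [5,6] (.node (.cons (.keep [3,4,6] (.node (.cons (.keep [3,4,6,7] (.node
(.cons (.keep [8] (.spl 5 (.cons (.leaf 1 [(0,1),(1,3)]) (.cons (.leaf 2 [(0,1),(1,5)]) .nil)))) (.cons (.keep [6,8]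
(.spl 5 (.cons (.leaf 1 [(0,1),(2,3)]) (.cons (.leaf 1 [(0,1),(1,1),(2,4)]) .nil)))) (.cons (.keep [2,5,7,8] (.node
(.cons (.leaf 1 [(3,1),(8,2)]) (.cons (.keep [4,5,7,8] (.node (.cons (.leaf 1 [(6,1),(7,2)]) (.cons (.leaf 2
[(5,4),(7,5),(6,1)]) (.cons (.keep [0,2,6,7,8] (.node (.cons (.leaf 2 [(8,5),(3,4),(7,1)]) (.cons (.keep [5,6,7,8,9]
(.node (.cons (.leaf 5 [(6,1),(8,7)]) (.cons (.keep [4,5,7,8] (.node (.cons (.leaf 2 [(6,1),(8,4)]) (.cons (.leaf 1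
[(8,1),(5,1)]) (.cons (.leaf 2 [(8,9),(7,1),(0,4)]) .nil))))) (.cons (.keep [7,8,9] (.node (.cons (.keep [3,5,6] (.spl
16 (.cons (.leaf 3 [(0,1),(1,6),(3,7)]) (.cons (.leaf 2 [(0,1),(1,4),(3,5)]) (.cons (.leaf 2 [(0,1),(1,3),(3,5)])
(.cons (.leaf 2 [(0,4),(2,1),(3,9)]) (.cons (.leaf 6 [(0,4),(2,7),(3,19)]) (.cons (.leaf 6 [(0,4),(2,5),(3,17)])
(.cons (.leaf 6 [(0,4),(2,5),(3,17)]) (.cons (.leaf 6 [(0,4),(2,3),(3,15)]) .nil)))))))))) (.cons (.keep [5,6,7] (.spl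
16 (.cons (.leaf 3 [(0,1),(3,6),(2,1)]) (.cons (.leaf 2 [(0,1),(3,4),(2,1)]) (.cons (.leaf 2 [(0,4),(1,3),(2,11)])
(.cons (.leaf 1 [(0,1),(3,2),(2,1)]) (.cons (.leaf 6 [(0,4),(1,7),(2,19)]) (.cons (.leaf 2 [(0,2),(1,3),(2,7)]) (.cons
(.leaf 6 [(0,4),(1,5),(2,17)]) (.cons (.leaf 1 [(0,1),(1,1),(2,3)]) .nil)))))))))) (.cons (.keep [0,5,6,7] (.spl 16
(.cons (.leaf 3 [(0,1),(3,1),(4,6)]) (.cons (.leaf 2 [(0,1),(3,1),(4,4)]) (.cons (.leaf 2 [(0,4),(3,11),(2,3)]) (.cons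
(.leaf 1 [(0,1),(4,3),(3,2),(1,1)]) (.cons (.leaf 6 [(0,4),(3,19),(2,7)]) (.cons (.leaf 4 [(0,1),(4,7),(3,3),(1,1)])
(.cons (.leaf 6 [(0,4),(3,17),(2,5)]) (.cons (.leaf 2 [(0,4),(2,5),(3,17),(1,4)]) .nil)))))))))) .nil))))) .nil)))))
(.cons (.keep [2,6,7,8,9] (.node (.cons (.leaf 2 [(8,3),(7,1),(3,2)]) (.cons (.keep [4,5,7,8,9] (.node (.cons (.leaf 1
[(6,1)]) (.cons (.leaf 2 [(7,1),(8,1),(5,4)]) (.cons (.leaf 1 [(9,2),(8,1),(0,1)]) .nil))))) (.cons (.keep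
[3,5,6,7,8,9] (.node (.cons (.leaf 1 [(6,1),(5,1)]) (.cons (.leaf 3 [(8,1),(7,1)]) (.cons (.leaf 1
[(10,2),(9,1),(0,1)]) .nil))))) .nil))))) .nil))))) .nil))))) (.cons (.keep [2,5,6,7,8] (.node (.cons (.leaf 2
[(9,3),(3,1)]) (.cons (.keep [0,5,7,9] (.node (.cons (.leaf 2 [(7,1),(6,3)]) (.cons (.leaf 1 [(8,3),(5,1)]) (.cons
(.leaf 1 [(8,3),(0,1)]) .nil))))) (.cons (.keep [2,5,6,8,9] (.node (.cons (.leaf 2 [(8,3),(7,1)]) (.cons (.leaf 4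
[(7,1),(6,1),(5,1)]) (.cons (.leaf 1 [(9,3),(0,1)]) .nil))))) .nil))))) .nil))))) .nil))))) (.cons (.keep [2,4,6,7]
(.node (.cons (.leaf 2 [(8,3)]) (.cons (.leaf 1 [(6,1),(8,2)]) (.cons (.keep [0,2,5,7,8] (.node (.cons (.leaf 1
[(3,1),(9,2)]) (.cons (.keep [2,4,5,6,7,8,9] (.node (.cons (.leaf 1 [(11,5),(7,2)]) (.cons (.leaf 1
[(6,2),(10,2),(5,1)]) (.cons (.keep [0,5,8,9,10] (.node (.cons (.leaf 1 [(3,2),(6,1),(9,2)]) (.cons (.keep [5,6,7,8,9]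
(.node (.cons (.leaf 2 [(9,3)]) (.cons (.keep [0,5,9] (.node (.cons (.leaf 1 [(6,1),(7,3)]) (.cons (.leaf 1
[(7,3),(5,1)]) (.cons (.leaf 1 [(7,3),(0,1)]) .nil))))) (.cons (.keep [6,7,8,9] (.node (.cons (.keep [3,6,8] (.spl 16
(.cons (.leaf 3 [(0,1),(1,5),(3,7)]) (.cons (.leaf 2 [(0,1),(1,3),(3,5)]) (.cons (.leaf 2 [(0,1),(1,2),(3,5)]) (.cons
(.leaf 1 [(0,1),(3,3)]) (.cons (.leaf 5 [(0,1),(1,5),(3,10)]) (.cons (.leaf 2 [(0,1),(2,1),(3,5)]) (.cons (.leaf 2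
[(0,1),(2,1),(3,5)]) (.cons (.leaf 7 [(0,3),(2,1),(3,15)]) .nil)))))))))) (.cons (.keep [5,6,7,8] (.spl 16 (.cons
(.leaf 3 [(0,1),(3,5),(4,7)]) (.cons (.leaf 2 [(0,1),(3,3),(4,5)]) (.cons (.leaf 1 [(0,1),(1,1),(4,3)]) (.cons (.leaf
1 [(0,2),(1,1),(4,4)]) (.cons (.leaf 5 [(0,2),(1,5),(4,10)]) (.cons (.leaf 2 [(0,1),(1,2),(4,4)]) (.cons (.leaf 2
[(0,1),(2,1),(4,5)]) (.cons (.leaf 5 [(0,3),(2,2),(4,12)]) .nil)))))))))) (.cons (.keep [0,5,6,7,8] (.spl 16 (.cons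
(.leaf 3 [(0,1),(5,7),(4,5)]) (.cons (.leaf 2 [(0,1),(5,5),(4,3)]) (.cons (.leaf 1 [(0,1),(5,3),(2,1)]) (.cons (.leaf
1 [(0,1),(4,2),(5,5),(1,1)]) (.cons (.leaf 5 [(0,2),(5,10),(2,5)]) (.cons (.leaf 4 [(0,1),(4,5),(5,10),(1,1)]) (.cons
(.leaf 2 [(0,1),(5,5),(3,1)]) (.cons (.leaf 3 [(0,2),(2,3),(5,10),(1,2)]) .nil)))))))))) .nil))))) .nil))))) (.cons
(.keep [0,2,3,5,7,8,9] (.node (.cons (.leaf 4 [(9,1),(11,6),(3,3)]) (.cons (.keep [4,8,10,11] (.node (.cons (.leaf 2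
[(6,1),(8,4)]) (.cons (.leaf 1 [(8,1),(5,1)]) (.cons (.leaf 1 [(8,3),(7,1),(0,1)]) .nil))))) (.cons (.keep
[2,5,6,7,10,11] (.node (.cons (.leaf 2 [(6,1),(8,1),(10,4)]) (.cons (.leaf 2 [(2,1),(7,1),(5,1)]) (.cons (.leaf 1
[(10,3),(9,1),(0,1)]) .nil))))) .nil))))) .nil))))) .nil))))) (.cons (.keep [2,7,8] (.node (.cons (.leaf 2
[(5,2),(7,1),(3,5)]) (.cons (.keep [4,5,6,7] (.node (.cons (.leaf 4 [(8,5),(6,1)]) (.cons (.leaf 1 [(8,1),(5,1)])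
(.cons (.leaf 1 [(8,3),(7,2),(0,1)]) .nil))))) (.cons (.keep [2,5,6,7] (.node (.cons (.leaf 6 [(8,8),(6,1),(5,1)])
(.cons (.leaf 1 [(8,1)]) (.cons (.leaf 1 [(8,3),(7,2),(0,1)]) .nil))))) .nil))))) .nil))))) .nil))))) (.cons (.keep
[2,3,5,6,7] (.node (.cons (.leaf 1 [(9,1),(3,1)]) (.cons (.keep [4,5,6,7,8] (.node (.cons (.leaf 4 [(9,5),(6,2)])
(.cons (.leaf 1 [(9,1),(5,1)]) (.cons (.keep [5,6,7,8,9] (.node (.cons (.leaf 1 [(9,1),(3,1)]) (.cons (.keep [5,6,7,8]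
(.node (.cons (.leaf 1 [(8,2),(5,2)]) (.cons (.keep [0,6,7] (.node (.cons (.keep [3,6] (.node (.cons (.leaf 4
[(5,5),(6,1)]) (.cons (.leaf 4 [(5,5),(2,5),(6,1)]) (.cons (.leaf 4 [(5,5),(2,5),(6,1)]) .nil))))) (.cons (.keep
[5,6,7] (.node (.cons (.leaf 1 [(5,1),(7,1)]) (.cons (.leaf 2 [(5,1),(6,1),(2,3)]) (.cons (.leaf 2
[(5,1),(6,1),(2,3)]) .nil))))) (.cons (.keep [0,2,3,5,6] (.node (.cons (.leaf 2 [(8,1),(9,1),(7,2)]) (.cons (.leaf 3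
[(7,5),(9,2),(6,1)]) (.cons (.leaf 2 [(5,1),(9,1),(7,3),(2,3)]) .nil))))) .nil))))) (.cons (.keep [0,5,6,7] (.node
(.cons (.keep [3] (.node (.cons (.leaf 1 [(5,2)]) (.cons (.leaf 1 [(2,1),(5,2)]) (.cons (.leaf 1 [(2,1),(5,2)])
.nil))))) (.cons (.keep [5,7,8] (.node (.cons (.leaf 1 [(5,2),(7,1)]) (.cons (.leaf 2 [(5,2),(6,1),(2,3)]) (.cons
(.leaf 2 [(5,2),(6,1),(2,3)]) .nil))))) (.cons (.keep [3,6,7] (.node (.cons (.leaf 2 [(7,1),(3,2),(5,3)]) (.cons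
(.leaf 1 [(6,1),(5,1)]) (.cons (.leaf 2 [(2,1),(3,2),(7,1),(5,3)]) .nil))))) .nil))))) .nil))))) (.cons (.keep
[3,5,6,9] (.node (.cons (.leaf 2 [(6,1),(3,1),(8,3)]) (.cons (.keep [6] (.node (.cons (.keep [3] (.node (.cons (.leaf
1 [(5,1)]) (.cons (.leaf 1 [(5,1),(2,1)]) (.cons (.leaf 1 [(5,1),(2,1)]) .nil))))) (.cons (.keep [] (.node (.cons
(.leaf 1 []) (.cons (.leaf 1 [(2,1)]) (.cons (.leaf 1 [(2,1)]) .nil))))) (.cons (.keep [2,3,5] (.node (.cons (.leaf 1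
[(6,1)]) (.cons (.leaf 2 [(7,1),(6,2),(5,1)]) (.cons (.leaf 1 [(2,1),(6,1)]) .nil))))) .nil))))) (.cons (.keep [0,5,7]
(.node (.cons (.keep [3,6,7] (.node (.cons (.leaf 1 [(6,1),(5,2)]) (.cons (.leaf 1 [(7,2),(2,3),(6,3)]) (.cons (.leaf
1 [(7,2),(2,3),(6,3)]) .nil))))) (.cons (.keep [5,6] (.node (.cons (.leaf 1 [(6,1),(5,1)]) (.cons (.leaf 1
[(6,1),(5,1),(2,1)]) (.cons (.leaf 1 [(6,1),(5,1),(2,1)]) .nil))))) (.cons (.keep [3,6,7] (.node (.cons (.leaf 1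
[(3,1),(5,2)]) (.cons (.leaf 1 [(5,2)]) (.cons (.leaf 1 [(6,2),(3,1),(7,2),(2,2)]) .nil))))) .nil))))) .nil)))))
.nil))))) .nil))))) (.cons (.keep [3,5,7,8] (.node (.cons (.leaf 4 [(8,5),(6,2),(5,2)]) (.cons (.leaf 1 [(8,1)])
(.cons (.keep [5,6,7,8] (.node (.cons (.leaf 1 [(3,2),(7,1)]) (.cons (.keep [5,7,8] (.node (.cons (.leaf 1
[(6,1),(7,1)]) (.cons (.keep [0,5] (.node (.cons (.keep [3,6] (.node (.cons (.leaf 2 [(6,1),(5,2)]) (.cons (.leaf 2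
[(6,1),(5,2),(2,2)]) (.cons (.leaf 2 [(6,1),(5,2),(2,2)]) .nil))))) (.cons (.keep [5,6] (.node (.cons (.leaf 2
[(6,1),(5,1)]) (.cons (.leaf 2 [(6,1),(5,1),(2,2)]) (.cons (.leaf 2 [(6,1),(5,1),(2,2)]) .nil))))) (.cons (.keep
[0,3,6] (.node (.cons (.leaf 2 [(7,1),(5,1),(6,2)]) (.cons (.leaf 1 [(6,1)]) (.cons (.leaf 2
[(7,1),(5,1),(6,2),(2,2)]) .nil))))) .nil))))) (.cons (.keep [0,5] (.node (.cons (.keep [3,6] (.node (.cons (.leaf 1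
[(6,1),(5,2)]) (.cons (.leaf 1 [(6,1),(5,2),(2,1)]) (.cons (.leaf 1 [(6,1),(5,2),(2,1)]) .nil))))) (.cons (.keep [5,6]
(.node (.cons (.leaf 1 [(6,1),(5,1)]) (.cons (.leaf 1 [(6,1),(5,1),(2,1)]) (.cons (.leaf 1 [(6,1),(5,1),(2,1)])
.nil))))) (.cons (.keep [3] (.node (.cons (.leaf 1 [(3,1),(5,1)]) (.cons (.leaf 1 [(5,1)]) (.cons (.leaf 1
[(3,1),(5,1)]) .nil))))) .nil))))) .nil))))) (.cons (.keep [2,3,5,6,8] (.node (.cons (.leaf 2 [(5,1),(3,2),(9,3)])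
(.cons (.keep [4,5,7] (.node (.cons (.keep [5,6] (.node (.cons (.leaf 2 [(6,1),(5,3)]) (.cons (.leaf 2
[(6,1),(5,3),(2,3)]) (.cons (.leaf 2 [(6,1),(5,3),(2,3)]) .nil))))) (.cons (.keep [7] (.node (.cons (.leaf 1 [(5,1)])
(.cons (.leaf 1 [(5,1),(2,1)]) (.cons (.leaf 1 [(5,1),(2,1)]) .nil))))) (.cons (.keep [2,3,5,7] (.node (.cons (.leaf 1
[(8,1),(6,1)]) (.cons (.leaf 1 [(7,1),(5,1)]) (.cons (.leaf 1 [(7,1),(5,1),(3,1)]) .nil))))) .nil))))) (.cons (.keep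
[0,6,7,8] (.node (.cons (.keep [3,7] (.node (.cons (.leaf 1 [(6,2),(5,3)]) (.cons (.leaf 1 [(5,3),(2,1),(6,2)]) (.cons
(.leaf 1 [(5,3),(2,1),(6,2)]) .nil))))) (.cons (.keep [5,6] (.node (.cons (.leaf 1 [(6,3),(5,1)]) (.cons (.leaf 1
[(6,3),(5,1),(2,1)]) (.cons (.leaf 1 [(6,3),(5,1),(2,1)]) .nil))))) (.cons (.keep [2,3,6,8] (.node (.cons (.leaf 1
[(3,2),(6,1),(5,1)]) (.cons (.leaf 1 [(7,1),(6,1)]) (.cons (.leaf 1 [(8,1),(6,1),(5,1),(3,2)]) .nil))))) .nil)))))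
.nil))))) .nil))))) .nil))))) .nil))))) .nil))))) (.cons (.keep [2,4,6] (.node (.cons (.leaf 1 [(7,2),(5,2)]) (.cons
(.leaf 1 [(5,1),(6,1),(7,1)]) (.cons (.keep [2,3,5,6] (.node (.cons (.leaf 1 [(3,2),(5,1)]) (.cons (.keep [4,5,7,8]
(.node (.cons (.leaf 3 [(8,4),(6,1)]) (.cons (.leaf 1 [(8,1),(5,1)]) (.cons (.keep [0,3,5,6,7] (.node (.cons (.leaf 1
[(3,3),(6,1)]) (.cons (.keep [4,5,7,8,9] (.node (.cons (.leaf 1 [(6,1),(7,3)]) (.cons (.keep [0,5,8] (.node (.cons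
(.keep [3,7] (.node (.cons (.leaf 2 [(5,3),(6,1)]) (.cons (.leaf 2 [(5,3),(2,3),(6,1)]) (.cons (.leaf 2
[(5,3),(2,3),(6,1)]) .nil))))) (.cons (.keep [5,6,7] (.node (.cons (.leaf 1 [(6,2)]) (.cons (.leaf 1
[(5,2),(2,3),(7,2)]) (.cons (.leaf 1 [(5,2),(2,3),(7,2)]) .nil))))) (.cons (.keep [3,7] (.node (.cons (.leaf 1
[(3,2),(6,1),(5,2)]) (.cons (.leaf 1 [(5,2),(6,1)]) (.cons (.leaf 1 [(3,2),(5,2),(6,1)]) .nil))))) .nil))))) (.cons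
(.keep [8,9] (.node (.cons (.keep [3] (.node (.cons (.leaf 1 [(5,3)]) (.cons (.leaf 1 [(2,1),(5,3)]) (.cons (.leaf 1
[(2,1),(5,3)]) .nil))))) (.cons (.keep [6] (.node (.cons (.leaf 1 [(5,2)]) (.cons (.leaf 1 [(2,1),(5,2)]) (.cons
(.leaf 1 [(2,1),(5,2)]) .nil))))) (.cons (.keep [3,5] (.node (.cons (.leaf 1 [(6,1),(3,2),(5,2)]) (.cons (.leaf 1
[(6,1),(5,2)]) (.cons (.leaf 1 [(3,2),(5,2),(6,1)]) .nil))))) .nil))))) .nil))))) (.cons (.keep [3,7,8,9] (.node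
(.cons (.leaf 1 [(3,1),(6,2),(5,2)]) (.cons (.keep [0,6,7] (.node (.cons (.keep [3,7] (.node (.cons (.leaf 3
[(5,4),(6,1)]) (.cons (.leaf 3 [(5,4),(2,4),(6,1)]) (.cons (.leaf 3 [(5,4),(2,4),(6,1)]) .nil))))) (.cons (.keep
[5,6,7] (.node (.cons (.leaf 1 [(5,1),(7,1)]) (.cons (.leaf 2 [(5,1),(6,2),(2,2)]) (.cons (.leaf 2
[(5,1),(6,2),(2,2)]) .nil))))) (.cons (.keep [0,3,5,6,7] (.node (.cons (.leaf 1 [(7,1),(9,1),(6,1)]) (.cons (.leaf 1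
[(6,1),(8,1)]) (.cons (.leaf 2 [(5,1),(8,2),(6,2),(2,2)]) .nil))))) .nil))))) (.cons (.keep [5,6,7,8] (.node (.cons
(.keep [3,5,7] (.node (.cons (.leaf 1 [(5,3),(6,1)]) (.cons (.leaf 1 [(6,4),(2,4),(7,3)]) (.cons (.leaf 1
[(6,4),(2,4),(7,3)]) .nil))))) (.cons (.keep [5,8] (.node (.cons (.leaf 1 [(5,1),(6,2)]) (.cons (.leaf 1
[(6,2),(2,1),(5,1)]) (.cons (.leaf 1 [(6,2),(2,1),(5,1)]) .nil))))) (.cons (.keep [2,3,5,6,7] (.node (.cons (.leaf 1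
[(5,2),(3,4),(8,3)]) (.cons (.leaf 1 [(9,1),(6,2)]) (.cons (.leaf 1 [(7,2),(3,2),(9,3),(2,2)]) .nil))))) .nil)))))
.nil))))) .nil))))) .nil))))) (.cons (.keep [3,5,6,7,8] (.node (.cons (.leaf 3 [(5,2),(9,4),(6,1)]) (.cons (.leaf 1
[(9,1)]) (.cons (.keep [0,5,6,7,8,9] (.node (.cons (.leaf 1 [(3,2)]) (.cons (.keep [4,5,6,7,8,9,10] (.node (.cons
(.leaf 1 [(6,1),(11,1)]) (.cons (.keep [0,5,9] (.node (.cons (.keep [3] (.node (.cons (.leaf 1 [(5,1)]) (.cons (.leaf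
1 [(5,1),(2,1)]) (.cons (.leaf 1 [(5,1),(2,1)]) .nil))))) (.cons (.keep [5,6] (.node (.cons (.leaf 1 [(5,1),(6,1)])
(.cons (.leaf 1 [(5,1),(6,1),(2,1)]) (.cons (.leaf 1 [(5,1),(6,1),(2,1)]) .nil))))) (.cons (.keep [0,3,7] (.node
(.cons (.leaf 1 [(6,2),(3,3),(7,1)]) (.cons (.leaf 1 [(5,1),(7,1),(6,2)]) (.cons (.leaf 1 [(0,1),(3,3),(7,1),(6,2)])
.nil))))) .nil))))) (.cons (.keep [5,7,8,10] (.node (.cons (.keep [3,6] (.node (.cons (.leaf 1 [(6,1),(5,3)]) (.cons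
(.leaf 1 [(5,3),(2,1),(6,1)]) (.cons (.leaf 1 [(5,3),(2,1),(6,1)]) .nil))))) (.cons (.keep [6,8] (.node (.cons (.leaf
1 [(5,1),(6,2)]) (.cons (.leaf 1 [(6,2),(2,1),(5,1)]) (.cons (.leaf 1 [(6,2),(2,1),(5,1)]) .nil))))) (.cons (.keep
[3,5,7] (.node (.cons (.leaf 1 [(3,2),(6,1),(5,2)]) (.cons (.leaf 1 [(7,1),(5,2)]) (.cons (.leaf 1
[(3,2),(7,1),(5,2)]) .nil))))) .nil))))) .nil))))) (.cons (.keep [2,3,6,7,9,10] (.node (.cons (.leaf 1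
[(10,2),(3,2),(5,1)]) (.cons (.keep [0,4,7] (.node (.cons (.keep [6] (.node (.cons (.leaf 1 [(5,1)]) (.cons (.leaf 1
[(5,1),(2,1)]) (.cons (.leaf 1 [(5,1),(2,1)]) .nil))))) (.cons (.keep [5,7] (.node (.cons (.leaf 2 [(6,1),(5,1)])
(.cons (.leaf 2 [(6,1),(5,1),(2,2)]) (.cons (.leaf 2 [(6,1),(5,1),(2,2)]) .nil))))) (.cons (.keep [0,3,6,7] (.node
(.cons (.leaf 2 [(8,1),(5,1),(6,2)]) (.cons (.leaf 1 [(7,1),(2,1)]) (.cons (.leaf 1 [(7,1),(2,1)]) .nil))))) .nil)))))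
(.cons (.keep [6,7,8,9] (.node (.cons (.keep [3,6] (.node (.cons (.leaf 1 [(6,2),(5,4)]) (.cons (.leaf 1
[(5,4),(2,1),(6,2)]) (.cons (.leaf 1 [(5,4),(2,1),(6,2)]) .nil))))) (.cons (.keep [5,8] (.node (.cons (.leaf 1
[(5,2),(6,2)]) (.cons (.leaf 1 [(6,2),(2,1),(5,2)]) (.cons (.leaf 1 [(6,2),(2,1),(5,2)]) .nil))))) (.cons (.keep [3,7]
(.node (.cons (.leaf 1 [(3,2),(5,2)]) (.cons (.leaf 1 [(6,1),(5,2)]) (.cons (.leaf 1 [(6,1),(5,2),(3,2)]) .nil)))))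
.nil))))) .nil))))) .nil))))) .nil))))) .nil))))) .nil))))) (.cons (.keep [2,3,5,6] (.node (.cons (.keep [4,5,8]
(.node (.cons (.leaf 2 [(6,3),(7,4)]) (.cons (.leaf 1 [(5,1),(7,3),(6,2)]) (.cons (.keep [2,3,6,7] (.node (.cons
(.leaf 1 [(8,2),(3,1),(7,1)]) (.cons (.keep [4,5,7,8] (.node (.cons (.leaf 5 [(8,4),(6,2)]) (.cons (.leaf 1
[(5,1),(8,1)]) (.cons (.keep [0,5,6,7,8] (.node (.cons (.leaf 1 [(3,1),(9,1)]) (.cons (.keep [2,5,7,8,9] (.node (.cons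
(.leaf 1 [(5,1)]) (.cons (.keep [0,6,9] (.node (.cons (.leaf 1 [(6,1),(7,1)]) (.cons (.leaf 1 [(7,1),(5,1)]) (.cons
(.leaf 1 [(7,1),(0,1)]) .nil))))) (.cons (.keep [7,8,9] (.node (.cons (.keep [3,5,7] (.spl 16 (.cons (.leaf 3
[(0,1),(1,3),(3,3)]) (.cons (.leaf 2 [(0,1),(1,2),(3,2)]) (.cons (.leaf 4 [(0,3),(2,1),(3,5)]) (.cons (.leaf 1
[(0,1),(3,1)]) (.cons (.leaf 3 [(0,1),(2,1),(3,3)]) (.cons (.leaf 8 [(0,3),(2,2),(3,7)]) (.cons (.leaf 8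
[(0,3),(2,2),(3,7)]) (.cons (.leaf 7 [(0,3),(2,1),(3,5)]) .nil)))))))))) (.cons (.keep [5,6,7] (.spl 16 (.cons (.leaf
1 [(1,1),(3,2),(0,1)]) (.cons (.leaf 2 [(1,2),(3,4),(0,3)]) (.cons (.leaf 4 [(1,1),(3,5),(0,3)]) (.cons (.leaf 1
[(2,1),(3,2),(0,1)]) (.cons (.leaf 3 [(1,1),(3,3),(0,1)]) (.cons (.leaf 2 [(1,1),(3,2),(0,1)]) (.cons (.leaf 8
[(1,2),(3,7),(0,3)]) (.cons (.leaf 5 [(1,2),(3,4),(0,3)]) .nil)))))))))) (.cons (.keep [0,5,6,7] (.spl 16 (.cons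
(.leaf 1 [(2,1),(4,2),(0,1)]) (.cons (.leaf 2 [(2,2),(4,4),(0,3)]) (.cons (.leaf 4 [(2,1),(4,5),(0,3)]) (.cons (.leaf
1 [(3,1),(0,1),(4,3),(1,1)]) (.cons (.leaf 3 [(2,1),(4,3),(0,1)]) (.cons (.leaf 2 [(2,1),(0,1),(4,3),(1,1)]) (.cons
(.leaf 8 [(2,2),(4,7),(0,3)]) (.cons (.leaf 5 [(2,2),(0,3),(4,7),(1,3)]) .nil)))))))))) .nil))))) .nil))))) (.cons
(.keep [6,7,8,9] (.node (.cons (.leaf 3 [(8,2),(5,1),(3,1)]) (.cons (.keep [0,7,8] (.node (.cons (.leaf 1 []) (.cons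
(.leaf 1 [(6,1),(7,2),(5,1)]) (.cons (.leaf 1 [(6,1),(7,2),(0,1)]) .nil))))) (.cons (.keep [6,7,8] (.node (.cons
(.leaf 1 []) (.cons (.leaf 2 [(5,1),(6,1)]) (.cons (.leaf 1 [(6,1),(7,2),(0,1)]) .nil))))) .nil))))) .nil)))))
.nil))))) (.cons (.keep [2,5,6,7,8] (.node (.cons (.leaf 1 [(9,1),(7,1)]) (.cons (.keep [0,2,5,8,9] (.node (.cons
(.leaf 2 [(6,1),(7,1)]) (.cons (.leaf 1 [(8,2),(9,3),(5,1)]) (.cons (.leaf 1 [(8,2),(9,3),(0,1)]) .nil))))) (.cons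
(.keep [2,5,6,8,9] (.node (.cons (.leaf 2 [(6,1),(5,1)]) (.cons (.leaf 2 [(8,1),(7,1)]) (.cons (.leaf 1
[(8,2),(9,3),(0,1)]) .nil))))) .nil))))) .nil))))) .nil))))) (.cons (.keep [2,4,7,8] (.node (.cons (.leaf 2
[(5,2),(8,1)]) (.cons (.leaf 1 [(6,1),(8,1),(5,1)]) (.cons (.keep [2,5,7,8] (.node (.cons (.leaf 1
[(8,1),(3,1),(6,1)]) (.cons (.keep [4,5,6,8] (.node (.cons (.leaf 4 [(6,1),(8,3)]) (.cons (.leaf 1 [(5,1),(8,1)])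
(.cons (.keep [0,6,7,8] (.node (.cons (.leaf 1 [(3,1),(8,1)]) (.cons (.keep [5,6,7,8] (.node (.cons (.leaf 2
[(8,2),(5,1)]) (.cons (.keep [0,5,8] (.node (.cons (.leaf 1 [(6,2),(7,2)]) (.cons (.leaf 1 [(2,1),(7,2),(5,2)]) (.cons
(.leaf 1 [(2,1),(7,2),(0,2)]) .nil))))) (.cons (.keep [3,6,7,8] (.node (.cons (.keep [3,5,6,8] (.spl 16 (.cons (.leaf
3 [(0,1),(1,2),(4,3)]) (.cons (.leaf 2 [(0,1),(1,1),(4,2)]) (.cons (.leaf 2 [(0,1),(4,2)]) (.cons (.leaf 1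
[(2,1),(0,2),(4,2)]) (.cons (.leaf 8 [(0,2),(3,1),(4,7)]) (.cons (.leaf 4 [(0,1),(4,3)]) (.cons (.leaf 4
[(0,1),(4,3)]) (.cons (.leaf 5 [(2,1),(0,2),(4,4)]) .nil)))))))))) (.cons (.keep [6,7,8] (.spl 16 (.cons (.leaf 3
[(0,1),(2,2),(3,3)]) (.cons (.leaf 2 [(0,2),(1,1),(3,3)]) (.cons (.leaf 2 [(0,1),(3,2)]) (.cons (.leaf 1
[(0,1),(3,1)]) (.cons (.leaf 8 [(0,2),(1,1),(3,7)]) (.cons (.leaf 6 [(0,2),(1,1),(3,5)]) (.cons (.leaf 4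
[(0,1),(3,3)]) (.cons (.leaf 3 [(0,1),(3,2)]) .nil)))))))))) (.cons (.keep [0,6,7,8] (.spl 16 (.cons (.leaf 3
[(0,1),(4,3),(3,2)]) (.cons (.leaf 2 [(0,2),(4,3),(2,1)]) (.cons (.leaf 2 [(4,2),(0,1)]) (.cons (.leaf 1
[(0,1),(4,2),(1,1)]) (.cons (.leaf 8 [(0,2),(4,7),(2,1)]) (.cons (.leaf 6 [(0,2),(2,1),(4,7),(1,2)]) (.cons (.leaf 4
[(4,3),(0,1)]) (.cons (.leaf 3 [(0,1),(4,3),(1,1)]) .nil)))))))))) .nil))))) .nil))))) (.cons (.keep [3,8] (.node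
(.cons (.leaf 2 [(6,1),(3,1)]) (.cons (.keep [0,5,6] (.node (.cons (.leaf 1 [(6,1)]) (.cons (.leaf 1 [(7,1),(5,1)])
(.cons (.leaf 1 [(7,1),(0,1)]) .nil))))) (.cons (.keep [3,5,6] (.node (.cons (.leaf 1 [(6,1),(5,1)]) (.cons (.leaf 1
[]) (.cons (.leaf 1 [(7,1),(0,1)]) .nil))))) .nil))))) .nil))))) .nil))))) (.cons (.keep [2,5,6,7,8] (.node (.cons
(.leaf 2 [(9,1),(6,1),(3,2)]) (.cons (.keep [4,5,7,8,9] (.node (.cons (.leaf 2 [(8,1),(6,1)]) (.cons (.leaf 1 [(5,1)])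
(.cons (.leaf 1 [(7,1),(9,1),(0,1)]) .nil))))) (.cons (.keep [3,5,7,8,9] (.node (.cons (.leaf 2 [(8,1),(6,1),(5,1)])
(.cons (.leaf 1 []) (.cons (.leaf 1 [(7,1),(9,1),(0,1)]) .nil))))) .nil))))) .nil))))) .nil))))) (.cons (.keep
[2,5,6,8] (.node (.cons (.leaf 2 [(5,1),(6,1),(3,4)]) (.cons (.keep [4,5,6,7,8] (.node (.cons (.leaf 3 [(9,1),(6,1)])
(.cons (.leaf 1 [(5,1)]) (.cons (.keep [0,5,6,7,8] (.node (.cons (.leaf 1 [(3,1)]) (.cons (.keep [4,5,6,7,8,9] (.node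
(.cons (.leaf 1 [(6,1),(7,1)]) (.cons (.keep [0,5,8] (.node (.cons (.keep [3] (.node (.cons (.leaf 1 [(5,1)]) (.cons
(.leaf 1 [(5,1),(2,1)]) (.cons (.leaf 1 [(5,1),(2,1)]) .nil))))) (.cons (.keep [5,6,7] (.node (.cons (.leaf 1
[(5,1),(6,1)]) (.cons (.leaf 2 [(5,4),(7,1),(2,3)]) (.cons (.leaf 2 [(5,4),(7,1),(2,3)]) .nil))))) (.cons (.keep
[0,3,7] (.node (.cons (.leaf 2 [(6,3),(3,4),(7,1)]) (.cons (.leaf 2 [(5,1),(7,1),(6,3)]) (.cons (.leaf 2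
[(0,1),(3,4),(7,1),(6,3)]) .nil))))) .nil))))) (.cons (.keep [5,8,9,10] (.node (.cons (.keep [3,8] (.node (.cons
(.leaf 1 [(6,1),(5,3)]) (.cons (.leaf 1 [(5,3),(2,1),(6,1)]) (.cons (.leaf 1 [(5,3),(2,1),(6,1)]) .nil))))) (.cons
(.keep [5,6,7] (.node (.cons (.leaf 1 [(7,2),(5,1)]) (.cons (.leaf 2 [(6,1),(2,3),(7,4)]) (.cons (.leaf 2
[(6,1),(2,3),(7,4)]) .nil))))) (.cons (.keep [2,3,6,7] (.node (.cons (.leaf 2 [(3,4),(7,1),(6,3)]) (.cons (.leaf 2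
[(8,1),(7,1),(6,3)]) (.cons (.leaf 1 [(8,5),(2,3),(7,2),(5,3)]) .nil))))) .nil))))) .nil))))) (.cons (.keep [3,6,7,8]
(.node (.cons (.leaf 1 [(3,1),(6,1),(5,1)]) (.cons (.keep [6,8] (.node (.cons (.keep [3] (.node (.cons (.leaf 1
[(5,1)]) (.cons (.leaf 1 [(5,1),(2,1)]) (.cons (.leaf 1 [(5,1),(2,1)]) .nil))))) (.cons (.keep [6] (.node (.cons
(.leaf 1 [(5,1)]) (.cons (.leaf 1 [(5,1),(2,1)]) (.cons (.leaf 1 [(5,1),(2,1)]) .nil))))) (.cons (.keep [3,5,6] (.node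
(.cons (.leaf 1 [(5,1),(7,1)]) (.cons (.leaf 2 [(7,1),(6,1),(5,2)]) (.cons (.leaf 2 [(7,1),(3,2),(6,1),(5,2)])
.nil))))) .nil))))) (.cons (.keep [5,6,7,8] (.node (.cons (.keep [3,5,7] (.node (.cons (.leaf 1 [(6,1),(5,2)]) (.cons
(.leaf 1 [(7,2),(2,3),(6,3)]) (.cons (.leaf 1 [(7,2),(2,3),(6,3)]) .nil))))) (.cons (.keep [5,8] (.node (.cons (.leaf
1 [(5,1),(6,2)]) (.cons (.leaf 1 [(6,2),(2,1),(5,1)]) (.cons (.leaf 1 [(6,2),(2,1),(5,1)]) .nil))))) (.cons (.keep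
[3,5,6,7] (.node (.cons (.leaf 1 [(3,2),(7,1),(5,1)]) (.cons (.leaf 1 [(8,1),(5,1)]) (.cons (.leaf 1
[(6,1),(3,2),(8,2),(2,1)]) .nil))))) .nil))))) .nil))))) .nil))))) .nil))))) (.cons (.keep [3,5,6,8] (.node (.cons
(.leaf 3 [(8,1),(6,1),(5,1)]) (.cons (.leaf 1 []) (.cons (.keep [0,5,6,7] (.node (.cons (.leaf 1 [(3,1),(6,1)]) (.cons
(.keep [5,6,7,8] (.node (.cons (.leaf 1 [(6,1),(5,1)]) (.cons (.keep [0,6] (.node (.cons (.keep [3,6] (.node (.cons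
(.leaf 1 [(6,1),(5,1)]) (.cons (.leaf 1 [(6,1),(5,1),(2,1)]) (.cons (.leaf 1 [(6,1),(5,1),(2,1)]) .nil))))) (.cons
(.keep [5,6] (.node (.cons (.leaf 1 [(6,2),(5,2)]) (.cons (.leaf 1 [(6,2),(5,2),(2,1)]) (.cons (.leaf 1
[(6,2),(5,2),(2,1)]) .nil))))) (.cons (.keep [0,3,6] (.node (.cons (.leaf 1 [(6,1),(3,2)]) (.cons (.leaf 1
[(7,1),(5,1),(6,1)]) (.cons (.leaf 1 [(7,1),(0,1),(3,2),(6,1)]) .nil))))) .nil))))) (.cons (.keep [6,7,8] (.node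
(.cons (.keep [3,5] (.node (.cons (.leaf 1 [(6,2),(5,3)]) (.cons (.leaf 1 [(5,3),(2,1),(6,2)]) (.cons (.leaf 1
[(5,3),(2,1),(6,2)]) .nil))))) (.cons (.keep [7] (.node (.cons (.leaf 1 [(5,2)]) (.cons (.leaf 1 [(5,2),(2,1)]) (.cons
(.leaf 1 [(5,2),(2,1)]) .nil))))) (.cons (.keep [3,5,6,7] (.node (.cons (.leaf 1 [(5,1),(3,2)]) (.cons (.leaf 1
[(8,1),(5,1)]) (.cons (.leaf 1 [(5,2),(3,2),(7,1),(6,1)]) .nil))))) .nil))))) .nil))))) (.cons (.keep [2,3,6,7,8]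
(.node (.cons (.leaf 1 [(3,1),(6,1)]) (.cons (.keep [4,5,7,9] (.node (.cons (.keep [5,6] (.node (.cons (.leaf 2
[(6,1),(5,3)]) (.cons (.leaf 2 [(6,1),(5,3),(2,3)]) (.cons (.leaf 2 [(6,1),(5,3),(2,3)]) .nil))))) (.cons (.keep [7,8]
(.node (.cons (.leaf 1 [(5,1),(6,1)]) (.cons (.leaf 1 [(5,1),(6,1),(2,1)]) (.cons (.leaf 1 [(5,1),(6,1),(2,1)])
.nil))))) (.cons (.keep [3,5,7,8] (.node (.cons (.leaf 1 [(7,1),(5,1),(8,1)]) (.cons (.leaf 1 [(6,1)]) (.cons (.leaf 1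
[(7,1),(5,1),(8,1),(2,1)]) .nil))))) .nil))))) (.cons (.keep [6,7,8,9] (.node (.cons (.keep [3,6] (.node (.cons (.leaf
1 [(6,2),(5,3)]) (.cons (.leaf 1 [(5,3),(2,1),(6,2)]) (.cons (.leaf 1 [(5,3),(2,1),(6,2)]) .nil))))) (.cons (.keep
[5,8] (.node (.cons (.leaf 1 [(5,2),(6,2)]) (.cons (.leaf 1 [(6,2),(2,1),(5,2)]) (.cons (.leaf 1 [(6,2),(2,1),(5,2)])
.nil))))) (.cons (.keep [3,7] (.node (.cons (.leaf 1 [(3,2),(5,1)]) (.cons (.leaf 1 [(6,1),(5,1)]) (.cons (.leaf 1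
[(3,2),(6,1),(5,1)]) .nil))))) .nil))))) .nil))))) .nil))))) .nil))))) .nil))))) .nil))))) .nil))))) (.cons (.leaf 1
[(6,1),(2,1)]) (.cons (.keep [2,5,6] (.node (.cons (.leaf 1 [(3,1),(5,1)]) (.cons (.leaf 1 [(6,1),(7,1)]) (.cons
(.leaf 1 [(6,1),(7,1),(3,1)]) .nil))))) .nil))))) (.cons (.keep [2,3,5] (.node (.cons (.keep [4,5,6,7] (.node (.cons
(.keep [3,4,6] (.node (.cons (.keep [3,5,6] (.node (.cons (.keep [3,4,6] (.node (.cons (.keep [3,4,6,7] (.node (.cons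
(.keep [8] (.spl 7 (.cons (.leaf 1 [(0,1),(1,3)]) (.cons (.leaf 2 [(0,1),(1,5)]) .nil)))) (.cons (.keep [6,8] (.spl 7
(.cons (.leaf 1 [(0,1),(2,3)]) (.cons (.leaf 1 [(0,1),(1,1),(2,4)]) .nil)))) (.cons (.keep [2,5,7,8] (.node (.cons
(.leaf 1 [(3,1),(8,2)]) (.cons (.keep [4,5,7,8] (.node (.cons (.leaf 1 [(6,1),(7,2)]) (.cons (.leaf 2
[(5,4),(7,5),(6,1)]) (.cons (.keep [2,6,7,8] (.node (.cons (.leaf 2 [(7,5),(3,4),(6,1)]) (.cons (.keep [4,5,7,8]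
(.node (.cons (.leaf 5 [(6,1),(7,7)]) (.cons (.keep [5,7] (.spl 17 (.cons (.leaf 1 [(1,5),(0,1),(2,4)]) (.cons (.leaf
1 [(1,4),(0,1),(2,4)]) (.cons (.leaf 2 [(1,5),(0,1),(2,6)]) (.cons (.leaf 1 [(1,3),(0,1),(2,4)]) (.cons (.leaf 4
[(1,9),(0,1),(2,9)]) (.cons (.leaf 3 [(1,7),(0,1),(2,7)]) (.cons (.leaf 4 [(1,8),(0,1),(2,9)]) (.cons (.leaf 3
[(1,6),(0,1),(2,7)]) .nil)))))))))) (.cons (.keep [0,7,8] (.spl 17 (.cons (.leaf 1 [(1,1),(0,1),(3,6)]) (.cons (.leaf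
1 [(3,4),(0,1)]) (.cons (.leaf 2 [(3,5),(0,1),(2,1)]) (.cons (.leaf 1 [(3,3),(0,1),(2,1)]) (.cons (.leaf 4
[(3,9),(0,1)]) (.cons (.leaf 3 [(3,7),(0,1)]) (.cons (.leaf 4 [(3,8),(0,1),(2,1)]) (.cons (.leaf 3
[(3,6),(0,1),(2,1)]) .nil)))))))))) .nil))))) (.cons (.keep [0,2,6,7,8] (.node (.cons (.leaf 2 [(8,3),(7,1),(3,2)])
(.cons (.keep [5,6,9] (.spl 17 (.cons (.leaf 1 [(0,1),(1,1),(3,6)]) (.cons (.leaf 1 [(0,1),(3,4)]) (.cons (.leaf 3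
[(2,1),(0,2),(3,10)]) (.cons (.leaf 1 [(0,1),(3,4)]) (.cons (.leaf 4 [(0,1),(3,9)]) (.cons (.leaf 3
[(0,1),(1,1),(3,9)]) (.cons (.leaf 7 [(2,1),(0,2),(3,16)]) (.cons (.leaf 3 [(0,1),(3,7)]) .nil)))))))))) (.cons (.keep
[0,3,8,9] (.spl 17 (.cons (.leaf 1 [(4,6),(1,1),(0,1)]) (.cons (.leaf 1 [(4,4),(0,1)]) (.cons (.leaf 2
[(4,5),(0,1),(3,1)]) (.cons (.leaf 1 [(0,1),(4,4),(2,1)]) (.cons (.leaf 4 [(4,9),(0,1)]) (.cons (.leaf 3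
[(0,1),(4,9),(1,1),(2,1)]) (.cons (.leaf 4 [(4,8),(0,1),(3,1)]) (.cons (.leaf 3 [(0,1),(4,7),(2,1)]) .nil))))))))))
.nil))))) .nil))))) .nil))))) (.cons (.keep [2,5,6,7,8] (.node (.cons (.leaf 2 [(9,3),(3,1)]) (.cons (.keep [0,5,7,9]
(.node (.cons (.leaf 2 [(7,1),(6,3)]) (.cons (.leaf 1 [(8,3),(5,1)]) (.cons (.leaf 1 [(8,3),(0,1)]) .nil))))) (.cons
(.keep [2,5,6,8,9] (.node (.cons (.leaf 2 [(8,3),(7,1)]) (.cons (.leaf 4 [(7,1),(6,1),(5,1)]) (.cons (.leaf 1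
[(9,3),(0,1)]) .nil))))) .nil))))) .nil))))) .nil))))) (.cons (.keep [2,4,6,7] (.node (.cons (.leaf 2 [(8,3)]) (.cons
(.leaf 1 [(6,1),(8,2)]) (.cons (.keep [0,5,7,8] (.node (.cons (.leaf 1 [(3,1),(8,2)]) (.cons (.keep [2,4,5,6,7,8]
(.node (.cons (.leaf 1 [(10,5),(7,2)]) (.cons (.leaf 1 [(6,2),(9,2),(5,1)]) (.cons (.keep [5,6,8,9] (.spl 18 (.cons
(.leaf 2 [(0,1),(4,5),(3,5)]) (.cons (.leaf 2 [(0,1),(4,5),(3,4)]) (.cons (.leaf 1 [(0,2),(4,4),(1,5)]) (.cons (.leaf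
1 [(2,1),(4,4),(0,1),(3,3)]) (.cons (.leaf 1 [(0,1),(4,2),(1,4)]) (.cons (.leaf 3 [(2,1),(4,7),(0,1),(3,6)]) (.cons
(.leaf 3 [(0,2),(4,6),(1,7)]) (.cons (.leaf 1 [(2,2),(4,4),(0,2),(1,5)]) .nil)))))))))) .nil))))) (.cons (.keep
[2,6,7] (.node (.cons (.leaf 2 [(5,2),(7,1),(3,5)]) (.cons (.keep [4,5,6,7] (.node (.cons (.leaf 4 [(8,5),(6,1)])
(.cons (.leaf 1 [(8,1),(5,1)]) (.cons (.leaf 1 [(8,3),(7,2),(0,1)]) .nil))))) (.cons (.keep [2,5,6,7] (.node (.cons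
(.leaf 6 [(8,8),(6,1),(5,1)]) (.cons (.leaf 1 [(8,1)]) (.cons (.leaf 1 [(8,3),(7,2),(0,1)]) .nil))))) .nil)))))
.nil))))) .nil))))) (.cons (.keep [2,3,5,6,7] (.node (.cons (.leaf 1 [(9,1),(3,1)]) (.cons (.keep [4,5,6,7,8] (.node
(.cons (.leaf 4 [(9,5),(6,2)]) (.cons (.leaf 1 [(9,1),(5,1)]) (.cons (.keep [5,6,7,8,9] (.node (.cons (.leaf 1
[(9,1),(3,1)]) (.cons (.keep [5,6,7,8] (.node (.cons (.leaf 1 [(8,2),(5,2)]) (.cons (.keep [0,6,7] (.node (.cons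
(.keep [3,6] (.node (.cons (.leaf 4 [(5,5),(6,1)]) (.cons (.leaf 4 [(5,5),(2,5),(6,1)]) (.cons (.leaf 4
[(5,5),(2,5),(6,1)]) .nil))))) (.cons (.keep [5,6,7] (.node (.cons (.leaf 1 [(5,1),(7,1)]) (.cons (.leaf 2
[(5,1),(6,1),(2,3)]) (.cons (.leaf 2 [(5,1),(6,1),(2,3)]) .nil))))) (.cons (.keep [0,2,3,5,6] (.node (.cons (.leaf 2
[(8,1),(9,1),(7,2)]) (.cons (.leaf 3 [(7,5),(9,2),(6,1)]) (.cons (.leaf 2 [(5,1),(9,1),(7,3),(2,3)]) .nil)))))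
.nil))))) (.cons (.keep [0,5,6,7] (.node (.cons (.keep [3] (.node (.cons (.leaf 1 [(5,2)]) (.cons (.leaf 1
[(2,1),(5,2)]) (.cons (.leaf 1 [(2,1),(5,2)]) .nil))))) (.cons (.keep [5,7,8] (.node (.cons (.leaf 1 [(5,2),(7,1)])
(.cons (.leaf 2 [(5,2),(6,1),(2,3)]) (.cons (.leaf 2 [(5,2),(6,1),(2,3)]) .nil))))) (.cons (.keep [3,6,7] (.node
(.cons (.leaf 2 [(7,1),(3,2),(5,3)]) (.cons (.leaf 1 [(6,1),(5,1)]) (.cons (.leaf 2 [(2,1),(3,2),(7,1),(5,3)])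
.nil))))) .nil))))) .nil))))) (.cons (.keep [3,5,6,9] (.node (.cons (.leaf 2 [(6,1),(3,1),(8,3)]) (.cons (.keep [6]
(.node (.cons (.keep [3] (.node (.cons (.leaf 1 [(5,1)]) (.cons (.leaf 1 [(5,1),(2,1)]) (.cons (.leaf 1 [(5,1),(2,1)])
.nil))))) (.cons (.keep [] (.node (.cons (.leaf 1 []) (.cons (.leaf 1 [(2,1)]) (.cons (.leaf 1 [(2,1)]) .nil)))))
(.cons (.keep [2,3,5] (.node (.cons (.leaf 1 [(6,1)]) (.cons (.leaf 2 [(7,1),(6,2),(5,1)]) (.cons (.leaf 1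
[(2,1),(6,1)]) .nil))))) .nil))))) (.cons (.keep [0,5,7] (.node (.cons (.keep [3,6,7] (.node (.cons (.leaf 1
[(6,1),(5,2)]) (.cons (.leaf 1 [(7,2),(2,3),(6,3)]) (.cons (.leaf 1 [(7,2),(2,3),(6,3)]) .nil))))) (.cons (.keep [5,6]
(.node (.cons (.leaf 1 [(6,1),(5,1)]) (.cons (.leaf 1 [(6,1),(5,1),(2,1)]) (.cons (.leaf 1 [(6,1),(5,1),(2,1)])
.nil))))) (.cons (.keep [3,6,7] (.node (.cons (.leaf 1 [(3,1),(5,2)]) (.cons (.leaf 1 [(5,2)]) (.cons (.leaf 1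
[(6,2),(3,1),(7,2),(2,2)]) .nil))))) .nil))))) .nil))))) .nil))))) .nil))))) (.cons (.keep [3,5,7,8] (.node (.cons
(.leaf 4 [(8,5),(6,2),(5,2)]) (.cons (.leaf 1 [(8,1)]) (.cons (.keep [5,6,7,8] (.node (.cons (.leaf 1 [(3,2),(7,1)])
(.cons (.keep [5,7,8] (.node (.cons (.leaf 1 [(6,1),(7,1)]) (.cons (.keep [0,5] (.node (.cons (.keep [3,6] (.node
(.cons (.leaf 2 [(6,1),(5,2)]) (.cons (.leaf 2 [(6,1),(5,2),(2,2)]) (.cons (.leaf 2 [(6,1),(5,2),(2,2)]) .nil)))))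
(.cons (.keep [5,6] (.node (.cons (.leaf 2 [(6,1),(5,1)]) (.cons (.leaf 2 [(6,1),(5,1),(2,2)]) (.cons (.leaf 2
[(6,1),(5,1),(2,2)]) .nil))))) (.cons (.keep [0,3,6] (.node (.cons (.leaf 2 [(7,1),(5,1),(6,2)]) (.cons (.leaf 1
[(6,1)]) (.cons (.leaf 2 [(7,1),(5,1),(6,2),(2,2)]) .nil))))) .nil))))) (.cons (.keep [0,5] (.node (.cons (.keep [3,6]
(.node (.cons (.leaf 1 [(6,1),(5,2)]) (.cons (.leaf 1 [(6,1),(5,2),(2,1)]) (.cons (.leaf 1 [(6,1),(5,2),(2,1)])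
.nil))))) (.cons (.keep [5,6] (.node (.cons (.leaf 1 [(6,1),(5,1)]) (.cons (.leaf 1 [(6,1),(5,1),(2,1)]) (.cons (.leaf
1 [(6,1),(5,1),(2,1)]) .nil))))) (.cons (.keep [3] (.node (.cons (.leaf 1 [(3,1),(5,1)]) (.cons (.leaf 1 [(5,1)])
(.cons (.leaf 1 [(3,1),(5,1)]) .nil))))) .nil))))) .nil))))) (.cons (.keep [2,3,5,6,8] (.node (.cons (.leaf 2
[(5,1),(3,2),(9,3)]) (.cons (.keep [4,5,7] (.node (.cons (.keep [5,6] (.node (.cons (.leaf 2 [(6,1),(5,3)]) (.cons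
(.leaf 2 [(6,1),(5,3),(2,3)]) (.cons (.leaf 2 [(6,1),(5,3),(2,3)]) .nil))))) (.cons (.keep [7] (.node (.cons (.leaf 1
[(5,1)]) (.cons (.leaf 1 [(5,1),(2,1)]) (.cons (.leaf 1 [(5,1),(2,1)]) .nil))))) (.cons (.keep [2,3,5,7] (.node (.cons
(.leaf 1 [(8,1),(6,1)]) (.cons (.leaf 1 [(7,1),(5,1)]) (.cons (.leaf 1 [(7,1),(5,1),(3,1)]) .nil))))) .nil))))) (.cons
(.keep [0,6,7,8] (.node (.cons (.keep [3,7] (.node (.cons (.leaf 1 [(6,2),(5,3)]) (.cons (.leaf 1 [(5,3),(2,1),(6,2)])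
(.cons (.leaf 1 [(5,3),(2,1),(6,2)]) .nil))))) (.cons (.keep [5,6] (.node (.cons (.leaf 1 [(6,3),(5,1)]) (.cons (.leaf
1 [(6,3),(5,1),(2,1)]) (.cons (.leaf 1 [(6,3),(5,1),(2,1)]) .nil))))) (.cons (.keep [2,3,6,8] (.node (.cons (.leaf 1
[(3,2),(6,1),(5,1)]) (.cons (.leaf 1 [(7,1),(6,1)]) (.cons (.leaf 1 [(8,1),(6,1),(5,1),(3,2)]) .nil))))) .nil)))))
.nil))))) .nil))))) .nil))))) .nil))))) .nil))))) (.cons (.keep [2,4,7] (.node (.cons (.leaf 1 [(7,1),(5,1)]) (.cons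
(.leaf 2 [(7,1),(5,1),(6,2)]) (.cons (.keep [0,2,3,5,6,7] (.node (.cons (.leaf 2 [(8,1),(10,1),(3,2)]) (.cons (.keep
[0,4,5,6,8,10] (.node (.cons (.leaf 3 [(7,1),(10,3)]) (.cons (.leaf 1 [(10,1),(6,1),(5,1)]) (.cons (.keep [0,5,8,9,10]
(.node (.cons (.leaf 2 [(3,4),(9,1),(6,1)]) (.cons (.keep [5,7,8,9] (.node (.cons (.leaf 1 [(5,4),(8,3)]) (.cons
(.keep [0,6,8] (.node (.cons (.keep [3,6] (.node (.cons (.leaf 2 [(5,3),(6,1)]) (.cons (.leaf 2 [(5,3),(2,3),(6,1)])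
(.cons (.leaf 2 [(5,3),(2,3),(6,1)]) .nil))))) (.cons (.keep [5,7] (.node (.cons (.leaf 1 [(5,1),(6,1)]) (.cons (.leaf
1 [(5,1),(2,1),(6,1)]) (.cons (.leaf 1 [(5,1),(2,1),(6,1)]) .nil))))) (.cons (.keep [0,3,7] (.node (.cons (.leaf 1
[(5,1),(7,1),(6,1)]) (.cons (.leaf 4 [(5,1),(7,3),(6,4)]) (.cons (.leaf 1 [(5,1),(2,1),(6,1),(7,1)]) .nil)))))
.nil))))) (.cons (.keep [7,8] (.node (.cons (.keep [3] (.node (.cons (.leaf 1 [(5,3)]) (.cons (.leaf 1 [(2,1),(5,3)])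
(.cons (.leaf 1 [(2,1),(5,3)]) .nil))))) (.cons (.keep [5] (.node (.cons (.leaf 1 [(5,2)]) (.cons (.leaf 1
[(2,1),(5,2)]) (.cons (.leaf 1 [(2,1),(5,2)]) .nil))))) (.cons (.keep [2,3,5,6] (.node (.cons (.leaf 1
[(8,1),(3,2),(5,1)]) (.cons (.leaf 2 [(8,1),(7,1),(6,2)]) (.cons (.leaf 2 [(3,2),(7,1),(6,2),(8,1)]) .nil)))))
.nil))))) .nil))))) (.cons (.keep [3,7,8,9] (.node (.cons (.leaf 1 [(3,2),(8,1),(5,1)]) (.cons (.keep [0,6,8] (.node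
(.cons (.keep [3,6] (.node (.cons (.leaf 3 [(5,4),(6,1)]) (.cons (.leaf 3 [(5,4),(2,4),(6,1)]) (.cons (.leaf 3
[(5,4),(2,4),(6,1)]) .nil))))) (.cons (.keep [5,6,7] (.node (.cons (.leaf 1 [(5,1),(6,1)]) (.cons (.leaf 1
[(5,1),(7,1),(2,1)]) (.cons (.leaf 1 [(5,1),(7,1),(2,1)]) .nil))))) (.cons (.keep [0,3,5,6,7] (.node (.cons (.leaf 1
[(7,1),(8,1),(6,1)]) (.cons (.leaf 2 [(5,1),(9,2),(6,2)]) (.cons (.leaf 1 [(5,1),(9,1),(6,1),(2,1)]) .nil)))))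
.nil))))) (.cons (.keep [5,6,7,8] (.node (.cons (.keep [3,5,6] (.node (.cons (.leaf 1 [(5,3),(6,1)]) (.cons (.leaf 1
[(6,4),(2,4),(7,3)]) (.cons (.leaf 1 [(6,4),(2,4),(7,3)]) .nil))))) (.cons (.keep [5,7] (.node (.cons (.leaf 1
[(5,1),(6,2)]) (.cons (.leaf 1 [(6,2),(2,1),(5,1)]) (.cons (.leaf 1 [(6,2),(2,1),(5,1)]) .nil))))) (.cons (.keep [8]
(.node (.cons (.leaf 1 [(3,1),(5,1)]) (.cons (.leaf 1 [(5,1)]) (.cons (.leaf 1 [(3,1),(5,1)]) .nil))))) .nil)))))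
.nil))))) .nil))))) .nil))))) (.cons (.keep [3,6,7,8,9,10] (.node (.cons (.leaf 2 [(9,1),(10,1)]) (.cons (.leaf 1
[(9,1)]) (.cons (.keep [0,5,6,7,8,9,10] (.node (.cons (.leaf 1 [(3,2)]) (.cons (.keep [4,5,6,7,8,9,10] (.node (.cons
(.leaf 1 [(6,1),(11,1)]) (.cons (.keep [0,5,9] (.node (.cons (.keep [3] (.node (.cons (.leaf 1 [(5,1)]) (.cons (.leaf
1 [(5,1),(2,1)]) (.cons (.leaf 1 [(5,1),(2,1)]) .nil))))) (.cons (.keep [5,6] (.node (.cons (.leaf 1 [(5,1),(6,1)])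
(.cons (.leaf 1 [(5,1),(6,1),(2,1)]) (.cons (.leaf 1 [(5,1),(6,1),(2,1)]) .nil))))) (.cons (.keep [0,3,7] (.node
(.cons (.leaf 1 [(6,2),(3,3),(7,1)]) (.cons (.leaf 1 [(5,1),(7,1),(6,2)]) (.cons (.leaf 1 [(0,1),(3,3),(7,1),(6,2)])
.nil))))) .nil))))) (.cons (.keep [5,7,8,10] (.node (.cons (.keep [3,6] (.node (.cons (.leaf 1 [(6,1),(5,3)]) (.cons
(.leaf 1 [(5,3),(2,1),(6,1)]) (.cons (.leaf 1 [(5,3),(2,1),(6,1)]) .nil))))) (.cons (.keep [6,8] (.node (.cons (.leaf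
1 [(5,1),(6,2)]) (.cons (.leaf 1 [(6,2),(2,1),(5,1)]) (.cons (.leaf 1 [(6,2),(2,1),(5,1)]) .nil))))) (.cons (.keep
[3,5,7] (.node (.cons (.leaf 1 [(3,2),(6,1),(5,2)]) (.cons (.leaf 1 [(7,1),(5,2)]) (.cons (.leaf 1
[(3,2),(7,1),(5,2)]) .nil))))) .nil))))) .nil))))) (.cons (.keep [6,9,10,11] (.node (.cons (.leaf 1
[(7,1),(3,2),(8,1)]) (.cons (.keep [0,4,5] (.node (.cons (.keep [6] (.node (.cons (.leaf 1 [(5,1)]) (.cons (.leaf 1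
[(5,1),(2,1)]) (.cons (.leaf 1 [(5,1),(2,1)]) .nil))))) (.cons (.keep [5,7] (.node (.cons (.leaf 2 [(6,1),(5,1)])
(.cons (.leaf 2 [(6,1),(5,1),(2,2)]) (.cons (.leaf 2 [(6,1),(5,1),(2,2)]) .nil))))) (.cons (.keep [0,3,6,7] (.node
(.cons (.leaf 2 [(8,1),(5,1),(6,2)]) (.cons (.leaf 1 [(7,1),(2,1)]) (.cons (.leaf 1 [(7,1),(2,1)]) .nil))))) .nil)))))
(.cons (.keep [6,8] (.node (.cons (.keep [3,6] (.node (.cons (.leaf 1 [(6,1),(5,1)]) (.cons (.leaf 1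
[(6,1),(5,1),(2,1)]) (.cons (.leaf 1 [(6,1),(5,1),(2,1)]) .nil))))) (.cons (.keep [5,6] (.node (.cons (.leaf 1
[(6,1),(5,1)]) (.cons (.leaf 1 [(6,1),(5,1),(2,1)]) (.cons (.leaf 1 [(6,1),(5,1),(2,1)]) .nil))))) (.cons (.keep
[3,5,6] (.node (.cons (.leaf 1 [(7,1),(6,1)]) (.cons (.leaf 2 [(7,1),(6,1),(5,2)]) (.cons (.leaf 2
[(7,1),(6,1),(5,2),(3,2)]) .nil))))) .nil))))) .nil))))) .nil))))) .nil))))) .nil))))) .nil))))) (.cons (.keep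
[2,3,5,7] (.node (.cons (.keep [3,4,5,8] (.node (.cons (.leaf 2 [(7,1),(8,2)]) (.cons (.leaf 2 [(6,2),(8,3),(7,1)])
(.cons (.keep [2,5,7,8] (.node (.cons (.leaf 1 [(3,1),(8,1)]) (.cons (.keep [2,4,6,7,8] (.node (.cons (.leaf 1
[(5,2)]) (.cons (.leaf 1 [(7,1),(6,1),(9,1)]) (.cons (.keep [6,7,8,9] (.spl 18 (.cons (.leaf 2 [(0,1),(3,1),(4,3)])
(.cons (.leaf 4 [(0,2),(3,1),(4,5)]) (.cons (.leaf 3 [(0,1),(4,3)]) (.cons (.leaf 1 [(2,1),(1,1),(0,1),(4,2)]) (.cons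
(.leaf 5 [(0,1),(3,1),(4,5)]) (.cons (.leaf 6 [(1,2),(3,1),(0,2),(4,7)]) (.cons (.leaf 10 [(0,2),(3,1),(4,9)]) (.cons
(.leaf 3 [(1,1),(0,1),(4,3)]) .nil)))))))))) .nil))))) (.cons (.keep [2,5,7,8] (.node (.cons (.leaf 4
[(8,3),(7,1),(3,2)]) (.cons (.keep [0,7,8] (.node (.cons (.leaf 2 [(7,1)]) (.cons (.leaf 2 [(6,1),(7,3),(5,2)]) (.cons
(.leaf 2 [(6,1),(7,3),(0,2)]) .nil))))) (.cons (.keep [2,5,6,7,8] (.node (.cons (.leaf 2 [(6,1),(5,1)]) (.cons (.leaf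
2 [(8,1),(7,1)]) (.cons (.leaf 2 [(8,1),(9,3),(0,2)]) .nil))))) .nil))))) .nil))))) .nil))))) (.cons (.keep [4,5,8]
(.node (.cons (.leaf 4 [(6,1),(7,3)]) (.cons (.leaf 1 [(5,1),(7,1)]) (.cons (.keep [0,6,7] (.node (.cons (.leaf 1
[(3,1),(7,1)]) (.cons (.keep [5,6,7] (.node (.cons (.leaf 2 [(7,2),(5,1)]) (.cons (.keep [0,5,7] (.node (.cons (.leaf
1 [(6,2),(7,2)]) (.cons (.leaf 1 [(2,1),(7,2),(5,2)]) (.cons (.leaf 1 [(2,1),(7,2),(0,2)]) .nil))))) (.cons (.keep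
[6,7] (.node (.cons (.keep [3,5,6] (.spl 16 (.cons (.leaf 3 [(0,1),(1,3),(3,4)]) (.cons (.leaf 2 [(0,1),(1,2),(3,3)])
(.cons (.leaf 2 [(0,1),(1,1),(3,3)]) (.cons (.leaf 1 [(0,1),(3,2)]) (.cons (.leaf 3 [(0,1),(2,1),(3,4)]) (.cons (.leaf
6 [(0,2),(2,1),(3,7)]) (.cons (.leaf 6 [(0,2),(2,1),(3,7)]) (.cons (.leaf 3 [(0,1),(3,3)]) .nil)))))))))) (.cons
(.keep [5,6] (.spl 17 (.cons (.leaf 1 [(0,1),(1,1),(2,2)]) (.cons (.leaf 2 [(0,2),(1,1),(2,3)]) (.cons (.leaf 2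
[(0,1),(2,2)]) (.cons (.leaf 1 [(0,1),(2,1)]) (.cons (.leaf 8 [(0,2),(1,1),(2,7)]) (.cons (.leaf 6
[(0,2),(1,1),(2,5)]) (.cons (.leaf 4 [(0,1),(2,3)]) (.cons (.leaf 3 [(0,1),(2,2)]) .nil)))))))))) (.cons (.keep
[0,5,6] (.spl 17 (.cons (.leaf 1 [(0,1),(3,2),(2,1)]) (.cons (.leaf 2 [(0,2),(3,3),(2,1)]) (.cons (.leaf 2
[(3,2),(0,1)]) (.cons (.leaf 1 [(0,1),(3,2),(1,1)]) (.cons (.leaf 8 [(0,2),(3,7),(2,1)]) (.cons (.leaf 6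
[(0,2),(2,1),(3,7),(1,2)]) (.cons (.leaf 4 [(3,3),(0,1)]) (.cons (.leaf 3 [(0,1),(3,3),(1,1)]) .nil))))))))))
.nil))))) .nil))))) (.cons (.keep [3,7] (.node (.cons (.leaf 2 [(6,1),(3,1)]) (.cons (.keep [0,5,6] (.node (.cons
(.leaf 1 [(6,1)]) (.cons (.leaf 1 [(7,1),(5,1)]) (.cons (.leaf 1 [(7,1),(0,1)]) .nil))))) (.cons (.keep [3,5,6] (.node
(.cons (.leaf 1 [(6,1),(5,1)]) (.cons (.leaf 1 []) (.cons (.leaf 1 [(7,1),(0,1)]) .nil))))) .nil))))) .nil)))))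
.nil))))) (.cons (.keep [2,5,6,7,8] (.node (.cons (.leaf 2 [(9,1),(6,1),(3,2)]) (.cons (.keep [4,5,6,7,8,9] (.node
(.cons (.leaf 2 [(9,1),(6,1)]) (.cons (.leaf 1 [(5,1)]) (.cons (.keep [0,5,6,7,8,10] (.node (.cons (.leaf 1 [(3,1)])
(.cons (.keep [5,7,8,9,10] (.node (.cons (.leaf 1 [(5,2),(9,1)]) (.cons (.keep [0,6,9] (.node (.cons (.keep [3] (.node
(.cons (.leaf 1 [(5,1)]) (.cons (.leaf 1 [(5,1),(2,1)]) (.cons (.leaf 1 [(5,1),(2,1)]) .nil))))) (.cons (.keep [5,6,7]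
(.node (.cons (.leaf 2 [(5,3),(7,1)]) (.cons (.leaf 2 [(5,4),(6,1),(2,3)]) (.cons (.leaf 2 [(5,4),(6,1),(2,3)])
.nil))))) (.cons (.keep [0,3,6] (.node (.cons (.leaf 2 [(6,3),(3,4),(7,1)]) (.cons (.leaf 2 [(5,1),(7,1),(6,3)])
(.cons (.leaf 2 [(0,1),(3,4),(7,1),(6,3)]) .nil))))) .nil))))) (.cons (.keep [6,7,8,9] (.node (.cons (.keep [3,7]
(.node (.cons (.leaf 1 [(6,1),(5,3)]) (.cons (.leaf 1 [(5,3),(2,1),(6,1)]) (.cons (.leaf 1 [(5,3),(2,1),(6,1)])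
.nil))))) (.cons (.keep [5,6,8] (.node (.cons (.leaf 2 [(6,3),(7,1)]) (.cons (.leaf 2 [(5,1),(2,3),(6,4)]) (.cons
(.leaf 2 [(5,1),(2,3),(6,4)]) .nil))))) (.cons (.keep [2,6,8] (.node (.cons (.leaf 1 [(3,2),(7,1),(5,1)]) (.cons
(.leaf 1 [(6,1),(7,1),(5,1)]) (.cons (.leaf 1 [(6,2),(2,1),(7,1),(5,1)]) .nil))))) .nil))))) .nil))))) (.cons (.keep
[3,6,7,8,10] (.node (.cons (.leaf 1 [(3,1),(6,1),(5,1)]) (.cons (.keep [6,8] (.node (.cons (.keep [3] (.node (.cons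
(.leaf 1 [(5,1)]) (.cons (.leaf 1 [(5,1),(2,1)]) (.cons (.leaf 1 [(5,1),(2,1)]) .nil))))) (.cons (.keep [6] (.node
(.cons (.leaf 1 [(5,1)]) (.cons (.leaf 1 [(5,1),(2,1)]) (.cons (.leaf 1 [(5,1),(2,1)]) .nil))))) (.cons (.keep [3,5,6]
(.node (.cons (.leaf 1 [(5,1),(7,1)]) (.cons (.leaf 2 [(7,1),(6,1),(5,2)]) (.cons (.leaf 2 [(7,1),(3,2),(6,1),(5,2)])
.nil))))) .nil))))) (.cons (.keep [5,7,8,9] (.node (.cons (.keep [3,5,6] (.node (.cons (.leaf 1 [(6,1),(5,2)]) (.cons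
(.leaf 1 [(7,2),(2,3),(6,3)]) (.cons (.leaf 1 [(7,2),(2,3),(6,3)]) .nil))))) (.cons (.keep [5,7] (.node (.cons (.leaf
1 [(5,1),(6,2)]) (.cons (.leaf 1 [(6,2),(2,1),(5,1)]) (.cons (.leaf 1 [(6,2),(2,1),(5,1)]) .nil))))) (.cons (.keep [8]
(.node (.cons (.leaf 1 [(3,1),(5,1)]) (.cons (.leaf 1 [(5,1)]) (.cons (.leaf 1 [(3,1),(5,1)]) .nil))))) .nil)))))
.nil))))) .nil))))) .nil))))) (.cons (.keep [3,5,6,7,9] (.node (.cons (.leaf 2 [(9,1)]) (.cons (.leaf 1 []) (.cons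
(.keep [0,5,6,7,8,9] (.node (.cons (.leaf 1 [(9,1),(3,2)]) (.cons (.keep [5,6,7,8] (.node (.cons (.leaf 1
[(6,1),(5,1)]) (.cons (.keep [0,6] (.node (.cons (.keep [3,6] (.node (.cons (.leaf 1 [(6,1),(5,1)]) (.cons (.leaf 1
[(6,1),(5,1),(2,1)]) (.cons (.leaf 1 [(6,1),(5,1),(2,1)]) .nil))))) (.cons (.keep [5,6] (.node (.cons (.leaf 1
[(6,2),(5,2)]) (.cons (.leaf 1 [(6,2),(5,2),(2,1)]) (.cons (.leaf 1 [(6,2),(5,2),(2,1)]) .nil))))) (.cons (.keep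
[0,3,6] (.node (.cons (.leaf 1 [(6,1),(3,2)]) (.cons (.leaf 1 [(7,1),(5,1),(6,1)]) (.cons (.leaf 1
[(7,1),(0,1),(3,2),(6,1)]) .nil))))) .nil))))) (.cons (.keep [6,7,8] (.node (.cons (.keep [3,5] (.node (.cons (.leaf 1
[(6,2),(5,3)]) (.cons (.leaf 1 [(5,3),(2,1),(6,2)]) (.cons (.leaf 1 [(5,3),(2,1),(6,2)]) .nil))))) (.cons (.keep [7]
(.node (.cons (.leaf 1 [(5,2)]) (.cons (.leaf 1 [(5,2),(2,1)]) (.cons (.leaf 1 [(5,2),(2,1)]) .nil))))) (.cons (.keep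
[3,5,6,7] (.node (.cons (.leaf 1 [(5,1),(3,2)]) (.cons (.leaf 1 [(8,1),(5,1)]) (.cons (.leaf 1
[(5,2),(3,2),(7,1),(6,1)]) .nil))))) .nil))))) .nil))))) (.cons (.keep [2,3,6,8,10] (.node (.cons (.leaf 1
[(3,1),(6,1)]) (.cons (.keep [4,5,7,8] (.node (.cons (.keep [5,6] (.node (.cons (.leaf 2 [(6,1),(5,3)]) (.cons (.leaf
2 [(6,1),(5,3),(2,3)]) (.cons (.leaf 2 [(6,1),(5,3),(2,3)]) .nil))))) (.cons (.keep [7,8] (.node (.cons (.leaf 1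
[(5,1),(6,1)]) (.cons (.leaf 1 [(5,1),(6,1),(2,1)]) (.cons (.leaf 1 [(5,1),(6,1),(2,1)]) .nil))))) (.cons (.keep
[3,5,7,8] (.node (.cons (.leaf 1 [(7,1),(5,1),(8,1)]) (.cons (.leaf 1 [(6,1)]) (.cons (.leaf 1
[(7,1),(5,1),(8,1),(2,1)]) .nil))))) .nil))))) (.cons (.keep [7,8,9] (.node (.cons (.keep [3,5] (.node (.cons (.leaf 1
[(6,2),(5,3)]) (.cons (.leaf 1 [(5,3),(2,1),(6,2)]) (.cons (.leaf 1 [(5,3),(2,1),(6,2)]) .nil))))) (.cons (.keep [6,7]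
(.node (.cons (.leaf 1 [(6,1),(5,1)]) (.cons (.leaf 1 [(6,1),(5,1),(2,1)]) (.cons (.leaf 1 [(6,1),(5,1),(2,1)])
.nil))))) (.cons (.keep [3,6,7] (.node (.cons (.leaf 1 [(7,1),(5,1),(6,1)]) (.cons (.leaf 2 [(7,1),(6,1),(5,2)])
(.cons (.leaf 1 [(7,1),(5,1),(6,1),(2,1)]) .nil))))) .nil))))) .nil))))) .nil))))) .nil))))) .nil))))) .nil)))))
.nil))))) (.cons (.keep [2,4,5,6] (.node (.cons (.leaf 2 [(5,1),(8,1)]) (.cons (.leaf 1 [(6,1),(8,1),(5,1)]) (.cons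
(.keep [5,7,8] (.node (.cons (.leaf 1 [(7,1),(3,1),(5,1)]) (.cons (.keep [4,5,6,7] (.node (.cons (.leaf 1 [(7,2)])
(.cons (.leaf 1 [(5,1),(8,1)]) (.cons (.keep [0,6,8] (.node (.cons (.leaf 1 [(3,1),(7,1)]) (.cons (.keep [5,6,7]
(.node (.cons (.leaf 2 [(7,3),(5,2)]) (.cons (.keep [0,5,7] (.node (.cons (.leaf 1 [(6,3),(7,3)]) (.cons (.leaf 1
[(2,2),(7,3),(5,3)]) (.cons (.leaf 1 [(2,2),(7,3),(0,3)]) .nil))))) (.cons (.keep [3,6,7] (.node (.cons (.keep [3,5,7]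
(.spl 16 (.cons (.leaf 3 [(0,1),(1,2),(3,4)]) (.cons (.leaf 2 [(0,1),(1,1),(3,3)]) (.cons (.leaf 2 [(0,1),(3,3)])
(.cons (.leaf 2 [(2,1),(0,3),(3,6)]) (.cons (.leaf 5 [(0,1),(3,5)]) (.cons (.leaf 11 [(2,1),(0,3),(3,12)]) (.cons
(.leaf 11 [(2,1),(0,3),(3,12)]) (.cons (.leaf 7 [(2,2),(0,3),(3,9)]) .nil)))))))))) (.cons (.keep [5,6,7] (.spl 16
(.cons (.leaf 3 [(0,1),(2,2),(3,4)]) (.cons (.leaf 2 [(0,1),(2,1),(3,3)]) (.cons (.leaf 2 [(0,1),(3,3)]) (.cons (.leaf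
1 [(0,1),(3,2)]) (.cons (.leaf 5 [(0,1),(3,5)]) (.cons (.leaf 4 [(0,1),(3,4)]) (.cons (.leaf 7 [(1,1),(0,2),(3,8)])
(.cons (.leaf 5 [(1,1),(0,2),(3,6)]) .nil)))))))))) (.cons (.keep [0,2,5,6,7] (.spl 16 (.cons (.leaf 3
[(0,1),(5,4),(4,2)]) (.cons (.leaf 2 [(0,1),(5,3),(4,1)]) (.cons (.leaf 2 [(5,3),(0,1)]) (.cons (.leaf 1
[(0,1),(5,3),(1,1)]) (.cons (.leaf 5 [(5,5),(0,1)]) (.cons (.leaf 4 [(0,1),(5,5),(1,1)]) (.cons (.leaf 11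
[(3,1),(2,1),(5,12),(0,3)]) (.cons (.leaf 5 [(3,1),(0,2),(5,7),(1,1)]) .nil)))))))))) .nil))))) .nil))))) (.cons
(.keep [3,7] (.node (.cons (.leaf 2 [(6,1),(5,1),(3,2)]) (.cons (.keep [0,5,6] (.node (.cons (.leaf 1 [(6,2)]) (.cons
(.leaf 1 [(2,1),(7,2),(5,2)]) (.cons (.leaf 1 [(2,1),(7,2),(0,2)]) .nil))))) (.cons (.keep [3,5,6] (.node (.cons
(.leaf 1 [(5,2),(6,2)]) (.cons (.leaf 1 [(2,1)]) (.cons (.leaf 1 [(2,1),(7,2),(0,2)]) .nil))))) .nil))))) .nil)))))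
.nil))))) (.cons (.keep [0,7] (.node (.cons (.leaf 2 [(6,1),(3,1)]) (.cons (.keep [0,5,6] (.node (.cons (.leaf 2
[(6,1),(7,2)]) (.cons (.leaf 1 [(7,1),(5,1)]) (.cons (.leaf 1 [(7,1),(0,1)]) .nil))))) (.cons (.keep [0,6] (.node
(.cons (.leaf 1 [(3,1),(6,1)]) (.cons (.leaf 1 [(5,1),(6,1)]) (.cons (.leaf 1 [(6,1),(0,1)]) .nil))))) .nil)))))
.nil))))) .nil))))) (.cons (.keep [5,6,7] (.node (.cons (.leaf 1 [(3,1)]) (.cons (.keep [4,5,6,7] (.node (.cons (.leaf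
2 [(7,1)]) (.cons (.leaf 1 [(5,1),(6,1)]) (.cons (.keep [5,6,7,8] (.node (.cons (.leaf 1 [(3,1),(6,1)]) (.cons (.keep
[5,6,8] (.node (.cons (.leaf 1 [(6,2),(5,1)]) (.cons (.keep [0,4,7] (.node (.cons (.keep [6] (.node (.cons (.leaf 1
[(5,1)]) (.cons (.leaf 1 [(5,1),(2,1)]) (.cons (.leaf 1 [(5,1),(2,1)]) .nil))))) (.cons (.keep [5,7] (.node (.cons
(.leaf 4 [(6,1),(5,2)]) (.cons (.leaf 4 [(6,1),(5,2),(2,4)]) (.cons (.leaf 4 [(6,1),(5,2),(2,4)]) .nil))))) (.cons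
(.keep [0,3,7] (.node (.cons (.leaf 4 [(7,1),(5,2),(6,4)]) (.cons (.leaf 1 [(6,1)]) (.cons (.leaf 4
[(7,1),(5,2),(6,4),(2,4)]) .nil))))) .nil))))) (.cons (.keep [0,7] (.node (.cons (.keep [3,6] (.node (.cons (.leaf 2
[(6,1),(5,4)]) (.cons (.leaf 2 [(6,1),(5,4),(2,2)]) (.cons (.leaf 2 [(6,1),(5,4),(2,2)]) .nil))))) (.cons (.keep [5,6]
(.node (.cons (.leaf 2 [(6,1),(5,2)]) (.cons (.leaf 2 [(6,1),(5,2),(2,2)]) (.cons (.leaf 2 [(6,1),(5,2),(2,2)])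
.nil))))) (.cons (.keep [3] (.node (.cons (.leaf 1 [(3,1),(5,1)]) (.cons (.leaf 1 [(5,1)]) (.cons (.leaf 1
[(3,1),(5,1)]) .nil))))) .nil))))) .nil))))) (.cons (.keep [3,5,7] (.node (.cons (.leaf 1 [(3,1),(7,1)]) (.cons (.keep
[4,6] (.node (.cons (.keep [5] (.node (.cons (.leaf 1 [(5,1)]) (.cons (.leaf 1 [(5,1),(2,1)]) (.cons (.leaf 1
[(5,1),(2,1)]) .nil))))) (.cons (.keep [5] (.node (.cons (.leaf 1 [(5,1)]) (.cons (.leaf 1 [(5,1),(2,1)]) (.cons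
(.leaf 1 [(5,1),(2,1)]) .nil))))) (.cons (.keep [2,3,5,6] (.node (.cons (.leaf 1 [(3,1),(6,1)]) (.cons (.leaf 2
[(7,2),(8,1),(5,1)]) (.cons (.leaf 2 [(7,2),(8,1),(5,1),(3,2)]) .nil))))) .nil))))) (.cons (.keep [0,5] (.node (.cons
(.keep [3,6] (.node (.cons (.leaf 1 [(6,1),(5,1)]) (.cons (.leaf 1 [(6,1),(5,1),(2,1)]) (.cons (.leaf 1
[(6,1),(5,1),(2,1)]) .nil))))) (.cons (.keep [5,6] (.node (.cons (.leaf 1 [(6,1),(5,1)]) (.cons (.leaf 1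
[(6,1),(5,1),(2,1)]) (.cons (.leaf 1 [(6,1),(5,1),(2,1)]) .nil))))) (.cons (.keep [3] (.node (.cons (.leaf 1
[(3,1),(5,1)]) (.cons (.leaf 1 [(5,1)]) (.cons (.leaf 1 [(5,1),(3,1)]) .nil))))) .nil))))) .nil))))) .nil)))))
.nil))))) (.cons (.keep [3,5,6,7] (.node (.cons (.leaf 2 [(7,1)]) (.cons (.leaf 2 [(8,1),(7,2)]) (.cons (.keep [5,6,7]
(.node (.cons (.leaf 1 [(3,1),(6,1)]) (.cons (.keep [5,6,7] (.node (.cons (.leaf 1 [(6,1),(7,1)]) (.cons (.keep [0,5]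
(.node (.cons (.keep [3,6] (.node (.cons (.leaf 2 [(6,1),(5,2)]) (.cons (.leaf 2 [(6,1),(5,2),(2,2)]) (.cons (.leaf 2
[(6,1),(5,2),(2,2)]) .nil))))) (.cons (.keep [5,6] (.node (.cons (.leaf 2 [(6,1),(5,1)]) (.cons (.leaf 2
[(6,1),(5,1),(2,2)]) (.cons (.leaf 2 [(6,1),(5,1),(2,2)]) .nil))))) (.cons (.keep [0,3,6] (.node (.cons (.leaf 2
[(7,1),(5,1),(6,2)]) (.cons (.leaf 1 [(6,1)]) (.cons (.leaf 2 [(7,1),(5,1),(6,2),(2,2)]) .nil))))) .nil))))) (.cons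
(.keep [0,5] (.node (.cons (.keep [3,6] (.node (.cons (.leaf 1 [(6,1),(5,2)]) (.cons (.leaf 1 [(6,1),(5,2),(2,1)])
(.cons (.leaf 1 [(6,1),(5,2),(2,1)]) .nil))))) (.cons (.keep [5,6] (.node (.cons (.leaf 1 [(6,1),(5,1)]) (.cons (.leaf
1 [(6,1),(5,1),(2,1)]) (.cons (.leaf 1 [(6,1),(5,1),(2,1)]) .nil))))) (.cons (.keep [3] (.node (.cons (.leaf 1
[(3,1),(5,1)]) (.cons (.leaf 1 [(5,1)]) (.cons (.leaf 1 [(3,1),(5,1)]) .nil))))) .nil))))) .nil))))) (.cons (.keep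
[3,5,7] (.node (.cons (.leaf 1 [(3,1),(7,1)]) (.cons (.keep [0,4,6] (.node (.cons (.keep [6] (.node (.cons (.leaf 1
[(5,1)]) (.cons (.leaf 1 [(5,1),(2,1)]) (.cons (.leaf 1 [(5,1),(2,1)]) .nil))))) (.cons (.keep [5,7] (.node (.cons
(.leaf 2 [(6,1),(5,1)]) (.cons (.leaf 2 [(6,1),(5,1),(2,2)]) (.cons (.leaf 2 [(6,1),(5,1),(2,2)]) .nil))))) (.cons
(.keep [0,3,6,7] (.node (.cons (.leaf 2 [(8,1),(5,1),(6,2)]) (.cons (.leaf 1 [(7,1),(2,1)]) (.cons (.leaf 1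
[(7,1),(2,1)]) .nil))))) .nil))))) (.cons (.keep [0,5,6] (.node (.cons (.keep [3,7] (.node (.cons (.leaf 1
[(6,1),(5,2)]) (.cons (.leaf 1 [(6,1),(5,2),(2,1)]) (.cons (.leaf 1 [(6,1),(5,2),(2,1)]) .nil))))) (.cons (.keep [5,6]
(.node (.cons (.leaf 1 [(6,1),(5,1)]) (.cons (.leaf 1 [(6,1),(5,1),(2,1)]) (.cons (.leaf 1 [(6,1),(5,1),(2,1)])
.nil))))) (.cons (.keep [3] (.node (.cons (.leaf 1 [(3,1),(5,1)]) (.cons (.leaf 1 [(5,1)]) (.cons (.leaf 1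
[(3,1),(5,1)]) .nil))))) .nil))))) .nil))))) .nil))))) .nil))))) .nil))))) .nil))))) (.cons (.keep [2,4,6,8] (.node
(.cons (.keep [4,5,6,7,8] (.node (.cons (.keep [3,4,6,7,8] (.node (.cons (.keep [3,4,6,8,9] (.node (.cons (.keep [8]
(.spl 7 (.cons (.leaf 1 [(0,1),(1,1)]) (.cons (.leaf 2 [(0,1),(1,2)]) .nil)))) (.cons (.keep [6,8] (.spl 7 (.cons
(.leaf 1 [(0,1),(2,1)]) (.cons (.leaf 1 [(0,1),(1,1),(2,2)]) .nil)))) (.cons (.keep [2,5,7,8,9] (.node (.cons (.leaf 1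
[(3,1),(8,1)]) (.cons (.keep [4,5,7,8,9] (.node (.cons (.leaf 4 [(6,1),(7,3)]) (.cons (.leaf 1 [(5,1),(7,1)]) (.cons
(.keep [7,8,9] (.node (.cons (.leaf 1 [(3,1),(5,1)]) (.cons (.keep [4,5,6,7] (.node (.cons (.leaf 4 [(6,6),(8,1)])
(.cons (.keep [5,6] (.spl 17 (.cons (.leaf 1 [(1,4),(0,1),(2,3)]) (.cons (.leaf 1 [(1,3),(0,1),(2,3)]) (.cons (.leaf 2
[(1,3),(0,1),(2,4)]) (.cons (.leaf 1 [(1,2),(0,1),(2,3)]) (.cons (.leaf 4 [(1,5),(0,1),(2,5)]) (.cons (.leaf 3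
[(1,4),(0,1),(2,4)]) (.cons (.leaf 4 [(1,4),(0,1),(2,5)]) (.cons (.leaf 3 [(1,3),(0,1),(2,4)]) .nil)))))))))) (.cons
(.keep [0,6,7] (.spl 17 (.cons (.leaf 1 [(1,1),(0,1),(3,4)]) (.cons (.leaf 1 [(3,3),(0,1)]) (.cons (.leaf 2
[(3,3),(0,1),(2,1)]) (.cons (.leaf 1 [(3,2),(0,1),(2,1)]) (.cons (.leaf 4 [(3,5),(0,1)]) (.cons (.leaf 3
[(3,4),(0,1)]) (.cons (.leaf 4 [(3,4),(0,1),(2,1)]) (.cons (.leaf 3 [(3,3),(0,1),(2,1)]) .nil)))))))))) .nil)))))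
(.cons (.keep [0,2,5,6] (.node (.cons (.leaf 2 [(7,1),(3,1)]) (.cons (.keep [5,6,8] (.spl 17 (.cons (.leaf 1
[(0,1),(1,1),(3,4)]) (.cons (.leaf 1 [(0,1),(3,3)]) (.cons (.leaf 3 [(2,1),(0,2),(3,7)]) (.cons (.leaf 1
[(0,1),(3,3)]) (.cons (.leaf 4 [(0,1),(3,5)]) (.cons (.leaf 3 [(0,1),(1,1),(3,5)]) (.cons (.leaf 7
[(2,1),(0,2),(3,9)]) (.cons (.leaf 3 [(0,1),(3,4)]) .nil)))))))))) (.cons (.keep [0,3,7,8] (.spl 17 (.cons (.leaf 1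
[(4,4),(1,1),(0,1)]) (.cons (.leaf 1 [(4,3),(0,1)]) (.cons (.leaf 2 [(4,3),(0,1),(3,1)]) (.cons (.leaf 1
[(0,1),(4,3),(2,1)]) (.cons (.leaf 4 [(4,5),(0,1)]) (.cons (.leaf 3 [(0,1),(4,5),(1,1),(2,1)]) (.cons (.leaf 4
[(4,4),(0,1),(3,1)]) (.cons (.leaf 3 [(0,1),(4,4),(2,1)]) .nil)))))))))) .nil))))) .nil))))) .nil))))) (.cons (.keep
[2,6,7,8] (.node (.cons (.leaf 2 [(8,1),(3,1)]) (.cons (.keep [0,5,6,8] (.node (.cons (.leaf 2 [(7,1),(6,1)]) (.cons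
(.leaf 1 [(8,1),(5,1)]) (.cons (.leaf 1 [(8,1),(0,1)]) .nil))))) (.cons (.keep [7,8] (.node (.cons (.leaf 2 [(5,1)])
(.cons (.leaf 1 []) (.cons (.leaf 1 [(6,1),(0,1)]) .nil))))) .nil))))) .nil))))) .nil))))) (.cons (.keep [2,4,6,8,9]
(.node (.cons (.leaf 2 [(8,1)]) (.cons (.leaf 1 [(6,1),(8,1)]) (.cons (.keep [0,5,7,8,9] (.node (.cons (.leaf 1
[(3,1),(8,1)]) (.cons (.keep [4,5,6,7,8] (.node (.cons (.leaf 1 [(9,2),(6,2)]) (.cons (.leaf 1 [(5,1),(8,1)]) (.cons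
(.keep [5,7,8] (.spl 18 (.cons (.leaf 2 [(2,3),(0,1),(3,3)]) (.cons (.leaf 2 [(2,2),(0,1),(3,3)]) (.cons (.leaf 3
[(2,2),(0,1),(3,4)]) (.cons (.leaf 1 [(2,2),(1,1),(0,1),(3,3)]) (.cons (.leaf 5 [(2,3),(0,1),(3,5)]) (.cons (.leaf 3
[(2,3),(1,1),(0,1),(3,4)]) (.cons (.leaf 5 [(2,2),(0,1),(3,5)]) (.cons (.leaf 3 [(2,2),(1,1),(0,1),(3,4)])
.nil)))))))))) .nil))))) (.cons (.keep [7,9] (.node (.cons (.leaf 2 [(5,1),(3,1)]) (.cons (.keep [0,5,6] (.node (.cons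
(.leaf 4 [(7,1),(6,6)]) (.cons (.leaf 1 [(6,1),(5,1)]) (.cons (.leaf 1 [(6,1),(0,1)]) .nil))))) (.cons (.keep [0,5,6]
(.node (.cons (.leaf 4 [(7,1),(6,6)]) (.cons (.leaf 1 [(5,1),(6,1)]) (.cons (.leaf 1 [(6,1),(0,1)]) .nil)))))
.nil))))) .nil))))) .nil))))) (.cons (.keep [5,6,7,9] (.node (.cons (.leaf 1 [(3,1)]) (.cons (.keep [4,5,6,7,8] (.node
(.cons (.leaf 2 [(7,1)]) (.cons (.leaf 1 [(5,1),(6,1)]) (.cons (.keep [5,6,7,8,9] (.node (.cons (.leaf 1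
[(3,1),(6,1)]) (.cons (.keep [5,6,8,9] (.node (.cons (.leaf 1 [(6,2),(5,1)]) (.cons (.keep [0,4,5,8] (.node (.cons
(.keep [6] (.node (.cons (.leaf 1 [(5,1)]) (.cons (.leaf 1 [(5,1),(2,1)]) (.cons (.leaf 1 [(5,1),(2,1)]) .nil)))))
(.cons (.keep [5,8] (.node (.cons (.leaf 4 [(6,1),(5,3)]) (.cons (.leaf 4 [(6,1),(5,3),(2,6)]) (.cons (.leaf 4
[(6,1),(5,3),(2,6)]) .nil))))) (.cons (.keep [2,6,7] (.node (.cons (.leaf 1 [(6,1)]) (.cons (.leaf 2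
[(6,2),(7,1),(5,1)]) (.cons (.leaf 2 [(6,2),(7,1),(5,1),(3,2)]) .nil))))) .nil))))) (.cons (.keep [0,7] (.node (.cons
(.keep [3,6] (.node (.cons (.leaf 1 [(6,1),(5,2)]) (.cons (.leaf 1 [(6,1),(5,2),(2,1)]) (.cons (.leaf 1
[(6,1),(5,2),(2,1)]) .nil))))) (.cons (.keep [5,6] (.node (.cons (.leaf 1 [(6,1),(5,1)]) (.cons (.leaf 1
[(6,1),(5,1),(2,1)]) (.cons (.leaf 1 [(6,1),(5,1),(2,1)]) .nil))))) (.cons (.keep [3] (.node (.cons (.leaf 1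
[(3,1),(5,1)]) (.cons (.leaf 1 [(5,1)]) (.cons (.leaf 1 [(5,1),(3,1)]) .nil))))) .nil))))) .nil))))) (.cons (.keep
[3,5,7] (.node (.cons (.leaf 1 [(3,1),(7,1)]) (.cons (.keep [4,6] (.node (.cons (.keep [5] (.node (.cons (.leaf 1
[(5,1)]) (.cons (.leaf 1 [(5,1),(2,1)]) (.cons (.leaf 1 [(5,1),(2,1)]) .nil))))) (.cons (.keep [5] (.node (.cons
(.leaf 1 [(5,1)]) (.cons (.leaf 1 [(5,1),(2,1)]) (.cons (.leaf 1 [(5,1),(2,1)]) .nil))))) (.cons (.keep [2,3,5,6]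
(.node (.cons (.leaf 1 [(3,1),(6,1)]) (.cons (.leaf 2 [(7,2),(8,1),(5,1)]) (.cons (.leaf 2 [(7,2),(8,1),(5,1),(3,2)])
.nil))))) .nil))))) (.cons (.keep [0,5] (.node (.cons (.keep [3,6] (.node (.cons (.leaf 1 [(6,1),(5,1)]) (.cons (.leaf
1 [(6,1),(5,1),(2,1)]) (.cons (.leaf 1 [(6,1),(5,1),(2,1)]) .nil))))) (.cons (.keep [5,6] (.node (.cons (.leaf 1
[(6,1),(5,1)]) (.cons (.leaf 1 [(6,1),(5,1),(2,1)]) (.cons (.leaf 1 [(6,1),(5,1),(2,1)]) .nil))))) (.cons (.keep [3]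
(.node (.cons (.leaf 1 [(3,1),(5,1)]) (.cons (.leaf 1 [(5,1)]) (.cons (.leaf 1 [(5,1),(3,1)]) .nil))))) .nil)))))
.nil))))) .nil))))) .nil))))) (.cons (.keep [3,5,6,7] (.node (.cons (.leaf 2 [(7,1)]) (.cons (.leaf 1 [(8,1),(7,1)])
(.cons (.keep [5,6,7] (.node (.cons (.leaf 1 [(3,1),(6,1)]) (.cons (.keep [5,6,7] (.node (.cons (.leaf 1
[(6,1),(7,1)]) (.cons (.keep [0,5] (.node (.cons (.keep [3,6] (.node (.cons (.leaf 2 [(6,1),(5,2)]) (.cons (.leaf 2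
[(6,1),(5,2),(2,2)]) (.cons (.leaf 2 [(6,1),(5,2),(2,2)]) .nil))))) (.cons (.keep [5,6] (.node (.cons (.leaf 2
[(6,1),(5,1)]) (.cons (.leaf 2 [(6,1),(5,1),(2,2)]) (.cons (.leaf 2 [(6,1),(5,1),(2,2)]) .nil))))) (.cons (.keep
[0,3,6] (.node (.cons (.leaf 2 [(7,1),(5,1),(6,2)]) (.cons (.leaf 1 [(6,1)]) (.cons (.leaf 2
[(7,1),(5,1),(6,2),(2,2)]) .nil))))) .nil))))) (.cons (.keep [0,5] (.node (.cons (.keep [3,6] (.node (.cons (.leaf 1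
[(6,1),(5,2)]) (.cons (.leaf 1 [(6,1),(5,2),(2,1)]) (.cons (.leaf 1 [(6,1),(5,2),(2,1)]) .nil))))) (.cons (.keep [5,6]
(.node (.cons (.leaf 1 [(6,1),(5,1)]) (.cons (.leaf 1 [(6,1),(5,1),(2,1)]) (.cons (.leaf 1 [(6,1),(5,1),(2,1)])
.nil))))) (.cons (.keep [3] (.node (.cons (.leaf 1 [(3,1),(5,1)]) (.cons (.leaf 1 [(5,1)]) (.cons (.leaf 1
[(3,1),(5,1)]) .nil))))) .nil))))) .nil))))) (.cons (.keep [3,5,7] (.node (.cons (.leaf 1 [(3,1),(7,1)]) (.cons (.keep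
[0,4,6] (.node (.cons (.keep [6] (.node (.cons (.leaf 1 [(5,1)]) (.cons (.leaf 1 [(5,1),(2,1)]) (.cons (.leaf 1
[(5,1),(2,1)]) .nil))))) (.cons (.keep [5,7] (.node (.cons (.leaf 2 [(6,1),(5,1)]) (.cons (.leaf 2
[(6,1),(5,1),(2,2)]) (.cons (.leaf 2 [(6,1),(5,1),(2,2)]) .nil))))) (.cons (.keep [0,3,6,7] (.node (.cons (.leaf 2
[(8,1),(5,1),(6,2)]) (.cons (.leaf 1 [(7,1),(2,1)]) (.cons (.leaf 1 [(7,1),(2,1)]) .nil))))) .nil))))) (.cons (.keep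
[0,5,6] (.node (.cons (.keep [3,7] (.node (.cons (.leaf 1 [(6,1),(5,2)]) (.cons (.leaf 1 [(6,1),(5,2),(2,1)]) (.cons
(.leaf 1 [(6,1),(5,2),(2,1)]) .nil))))) (.cons (.keep [5,6] (.node (.cons (.leaf 1 [(6,1),(5,1)]) (.cons (.leaf 1
[(6,1),(5,1),(2,1)]) (.cons (.leaf 1 [(6,1),(5,1),(2,1)]) .nil))))) (.cons (.keep [3] (.node (.cons (.leaf 1
[(3,1),(5,1)]) (.cons (.leaf 1 [(5,1)]) (.cons (.leaf 1 [(3,1),(5,1)]) .nil))))) .nil))))) .nil))))) .nil)))))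
.nil))))) .nil))))) .nil))))) (.cons (.keep [2,4,5,6,7,8,9] (.node (.cons (.leaf 1 [(9,1),(5,1)]) (.cons (.leaf 1
[(6,1)]) (.cons (.keep [6,7,8,10,11] (.node (.cons (.leaf 1 [(3,1)]) (.cons (.keep [4,5,6,7,8,9] (.node (.cons (.leaf
4 [(9,1),(6,6)]) (.cons (.leaf 1 [(7,1),(5,2),(6,1)]) (.cons (.keep [3,5,7,8,9,10] (.node (.cons (.leaf 1
[(5,1),(3,4),(7,1)]) (.cons (.keep [6,8,9,10] (.node (.cons (.leaf 1 [(6,2),(5,3)]) (.cons (.keep [0,4,7,8] (.node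
(.cons (.keep [6] (.node (.cons (.leaf 1 [(5,1)]) (.cons (.leaf 1 [(5,1),(2,1)]) (.cons (.leaf 1 [(5,1),(2,1)])
.nil))))) (.cons (.keep [5,7] (.node (.cons (.leaf 7 [(6,1),(5,6)]) (.cons (.leaf 7 [(6,1),(5,6),(2,9)]) (.cons (.leaf
7 [(6,1),(5,6),(2,9)]) .nil))))) (.cons (.keep [0,2,3,6,7,8] (.node (.cons (.leaf 7 [(9,1),(5,6),(7,9)]) (.cons (.leaf
3 [(8,3),(10,1),(6,2)]) (.cons (.leaf 3 [(8,3),(10,1),(6,2),(3,3)]) .nil))))) .nil))))) (.cons (.keep [0,6,8] (.node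
(.cons (.keep [3,6] (.node (.cons (.leaf 1 [(6,1),(5,3)]) (.cons (.leaf 1 [(6,1),(5,3),(2,1)]) (.cons (.leaf 1
[(6,1),(5,3),(2,1)]) .nil))))) (.cons (.keep [5,6] (.node (.cons (.leaf 1 [(6,1),(5,2)]) (.cons (.leaf 1
[(6,1),(5,2),(2,1)]) (.cons (.leaf 1 [(6,1),(5,2),(2,1)]) .nil))))) (.cons (.keep [2,3,7] (.node (.cons (.leaf 2
[(3,3),(7,1),(5,2)]) (.cons (.leaf 1 [(6,1)]) (.cons (.leaf 1 [(3,1),(6,1)]) .nil))))) .nil))))) .nil))))) (.cons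
(.keep [3,6,9,10] (.node (.cons (.leaf 1 [(3,2),(6,1),(5,2)]) (.cons (.keep [0,4,6,7] (.node (.cons (.keep [6] (.node
(.cons (.leaf 1 [(5,1)]) (.cons (.leaf 1 [(5,1),(2,1)]) (.cons (.leaf 1 [(5,1),(2,1)]) .nil))))) (.cons (.keep [5,8]
(.node (.cons (.leaf 4 [(6,1),(5,3)]) (.cons (.leaf 4 [(6,1),(5,3),(2,6)]) (.cons (.leaf 4 [(6,1),(5,3),(2,6)])
.nil))))) (.cons (.keep [2,6,7] (.node (.cons (.leaf 1 [(6,1)]) (.cons (.leaf 2 [(6,2),(7,1),(5,1)]) (.cons (.leaf 2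
[(6,2),(7,1),(5,1),(3,2)]) .nil))))) .nil))))) (.cons (.keep [0,5,8] (.node (.cons (.keep [3,6] (.node (.cons (.leaf 1
[(6,1),(5,1)]) (.cons (.leaf 1 [(6,1),(5,1),(2,1)]) (.cons (.leaf 1 [(6,1),(5,1),(2,1)]) .nil))))) (.cons (.keep [5,6]
(.node (.cons (.leaf 1 [(6,1),(5,1)]) (.cons (.leaf 1 [(6,1),(5,1),(2,1)]) (.cons (.leaf 1 [(6,1),(5,1),(2,1)])
.nil))))) (.cons (.keep [2,7] (.node (.cons (.leaf 2 [(3,2),(6,1),(5,1)]) (.cons (.leaf 2 [(6,1),(5,1)]) (.cons (.leaf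
2 [(6,1),(5,1),(3,2)]) .nil))))) .nil))))) .nil))))) .nil))))) .nil))))) (.cons (.keep [3,5,6,7,8,9] (.node (.cons
(.leaf 4 [(9,1),(6,6),(5,3)]) (.cons (.leaf 1 [(8,1),(6,1)]) (.cons (.keep [5,6,7,8,10] (.node (.cons (.leaf 1
[(3,3),(7,1)]) (.cons (.keep [5,6,8] (.node (.cons (.leaf 1 [(7,2),(6,1)]) (.cons (.keep [0,4,5,6] (.node (.cons
(.keep [3,7] (.node (.cons (.leaf 2 [(6,1),(5,2)]) (.cons (.leaf 2 [(6,1),(5,2),(2,2)]) (.cons (.leaf 2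
[(6,1),(5,2),(2,2)]) .nil))))) (.cons (.keep [5,7] (.node (.cons (.leaf 2 [(6,1),(5,1)]) (.cons (.leaf 2
[(6,1),(5,1),(2,2)]) (.cons (.leaf 2 [(6,1),(5,1),(2,2)]) .nil))))) (.cons (.keep [0,2,3,6,7,8] (.node (.cons (.leaf 2
[(9,1),(5,1),(7,2)]) (.cons (.leaf 2 [(8,2),(10,1),(6,1)]) (.cons (.leaf 2 [(8,2),(10,1),(6,1),(3,2)]) .nil)))))
.nil))))) (.cons (.keep [0,5] (.node (.cons (.keep [3,6] (.node (.cons (.leaf 1 [(6,1),(5,2)]) (.cons (.leaf 1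
[(6,1),(5,2),(2,1)]) (.cons (.leaf 1 [(6,1),(5,2),(2,1)]) .nil))))) (.cons (.keep [5,6] (.node (.cons (.leaf 1
[(6,1),(5,1)]) (.cons (.leaf 1 [(6,1),(5,1),(2,1)]) (.cons (.leaf 1 [(6,1),(5,1),(2,1)]) .nil))))) (.cons (.keep [3]
(.node (.cons (.leaf 1 [(3,1),(5,1)]) (.cons (.leaf 1 [(5,1)]) (.cons (.leaf 1 [(3,1),(5,1)]) .nil))))) .nil)))))
.nil))))) (.cons (.keep [3,5,6,9] (.node (.cons (.leaf 1 [(3,2),(7,1),(5,1)]) (.cons (.keep [0,4,6] (.node (.cons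
(.keep [6] (.node (.cons (.leaf 1 [(5,1)]) (.cons (.leaf 1 [(5,1),(2,1)]) (.cons (.leaf 1 [(5,1),(2,1)]) .nil)))))
(.cons (.keep [5,7] (.node (.cons (.leaf 2 [(6,1),(5,1)]) (.cons (.leaf 2 [(6,1),(5,1),(2,2)]) (.cons (.leaf 2
[(6,1),(5,1),(2,2)]) .nil))))) (.cons (.keep [0,3,6,7] (.node (.cons (.leaf 2 [(8,1),(5,1),(6,2)]) (.cons (.leaf 1
[(7,1),(2,1)]) (.cons (.leaf 1 [(7,1),(2,1)]) .nil))))) .nil))))) (.cons (.keep [0,5,8] (.node (.cons (.keep [7]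
(.node (.cons (.leaf 1 [(5,1)]) (.cons (.leaf 1 [(5,1),(2,1)]) (.cons (.leaf 1 [(5,1),(2,1)]) .nil))))) (.cons (.keep
[5,6] (.node (.cons (.leaf 1 [(6,1),(5,1)]) (.cons (.leaf 1 [(6,1),(5,1),(2,1)]) (.cons (.leaf 1 [(6,1),(5,1),(2,1)])
.nil))))) (.cons (.keep [7] (.node (.cons (.leaf 1 [(5,1)]) (.cons (.leaf 1 [(5,1),(2,1)]) (.cons (.leaf 1
[(5,1),(2,1)]) .nil))))) .nil))))) .nil))))) .nil))))) .nil))))) .nil))))) .nil))))) (.cons (.keep [2,3,5,6,7,8]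
(.node (.cons (.keep [3,4,5,9,10] (.node (.cons (.leaf 2 [(7,1),(8,2)]) (.cons (.leaf 1 [(7,1),(6,1),(8,2)]) (.cons
(.keep [5,7,8,9] (.node (.cons (.leaf 1 [(3,1),(7,1)]) (.cons (.keep [4,5,6,7,8] (.node (.cons (.leaf 7 [(8,6),(9,1)])
(.cons (.leaf 1 [(5,1),(6,1),(8,1)]) (.cons (.keep [5,7,8] (.spl 18 (.cons (.leaf 2 [(2,2),(0,1),(3,4)]) (.cons (.leaf
2 [(2,1),(0,1),(3,3)]) (.cons (.leaf 3 [(0,1),(3,3)]) (.cons (.leaf 1 [(1,1),(0,1),(3,2)]) (.cons (.leaf 5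
[(2,1),(0,1),(3,5)]) (.cons (.leaf 3 [(2,1),(1,1),(0,1),(3,4)]) (.cons (.leaf 5 [(0,1),(3,4)]) (.cons (.leaf 3
[(1,1),(0,1),(3,3)]) .nil)))))))))) .nil))))) (.cons (.keep [2,7,8] (.node (.cons (.leaf 2 [(6,1),(3,1)]) (.cons
(.keep [0,5,6,7] (.node (.cons (.leaf 4 [(8,1),(6,3)]) (.cons (.leaf 1 [(7,1),(5,1)]) (.cons (.leaf 1 [(7,1),(0,1)])
.nil))))) (.cons (.keep [3,5,6,7] (.node (.cons (.leaf 4 [(8,1),(6,3),(5,3)]) (.cons (.leaf 1 []) (.cons (.leaf 1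
[(7,1),(0,1)]) .nil))))) .nil))))) .nil))))) .nil))))) (.cons (.keep [2,4,8,9,10] (.node (.cons (.leaf 2 [(8,1)])
(.cons (.leaf 1 [(6,1),(8,1)]) (.cons (.keep [5,7,8,9] (.node (.cons (.leaf 1 [(3,1),(7,1)]) (.cons (.keep [4,5,6,7,8]
(.node (.cons (.leaf 5 [(8,6),(9,2)]) (.cons (.leaf 1 [(5,1),(7,1),(8,1)]) (.cons (.keep [5,6,8,9] (.spl 18 (.cons
(.leaf 2 [(2,1),(0,1),(3,2)]) (.cons (.leaf 2 [(0,1),(3,2)]) (.cons (.leaf 7 [(0,3),(4,1),(3,9)]) (.cons (.leaf 1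
[(1,1),(0,1),(3,2)]) (.cons (.leaf 13 [(0,3),(4,1),(3,12)]) (.cons (.leaf 3 [(1,1),(0,1),(3,3)]) (.cons (.leaf 11
[(0,3),(4,2),(3,12)]) (.cons (.leaf 7 [(1,3),(4,1),(0,3),(3,9)]) .nil)))))))))) .nil))))) (.cons (.keep [2,6,7,8]
(.node (.cons (.leaf 4 [(7,3),(8,1),(3,3)]) (.cons (.keep [0,5,6,7] (.node (.cons (.leaf 2 [(7,3),(6,1)]) (.cons
(.leaf 1 [(7,1),(8,1),(5,1)]) (.cons (.leaf 1 [(7,1),(8,1),(0,1)]) .nil))))) (.cons (.keep [3,5,6,7] (.node (.cons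
(.leaf 2 [(7,3),(6,1),(5,1)]) (.cons (.leaf 1 [(7,1)]) (.cons (.leaf 1 [(7,1),(8,1),(0,1)]) .nil))))) .nil)))))
.nil))))) .nil))))) (.cons (.keep [6,7,8,9,10] (.node (.cons (.leaf 1 [(3,1)]) (.cons (.keep [4,5,6,7,8,9] (.node
(.cons (.leaf 4 [(10,1),(9,3)]) (.cons (.leaf 1 [(5,2),(7,1)]) (.cons (.keep [5,6,7,8] (.node (.cons (.leaf 1
[(3,2),(7,1)]) (.cons (.keep [5,6,8] (.node (.cons (.leaf 1 [(7,2),(5,1)]) (.cons (.keep [0,4,5,6] (.node (.cons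
(.keep [6] (.node (.cons (.leaf 1 [(5,1)]) (.cons (.leaf 1 [(5,1),(2,1)]) (.cons (.leaf 1 [(5,1),(2,1)]) .nil)))))
(.cons (.keep [5,8] (.node (.cons (.leaf 2 [(6,1),(5,1)]) (.cons (.leaf 2 [(6,1),(5,1),(2,2)]) (.cons (.leaf 2
[(6,1),(5,1),(2,2)]) .nil))))) (.cons (.keep [0,2,3,6,7,8] (.node (.cons (.leaf 2 [(10,1),(5,1),(7,2)]) (.cons (.leaf
2 [(8,2),(9,1),(6,1)]) (.cons (.leaf 2 [(8,2),(9,1),(6,1),(3,2)]) .nil))))) .nil))))) (.cons (.keep [0,6] (.node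
(.cons (.keep [3,6] (.node (.cons (.leaf 1 [(6,1),(5,2)]) (.cons (.leaf 1 [(6,1),(5,2),(2,1)]) (.cons (.leaf 1
[(6,1),(5,2),(2,1)]) .nil))))) (.cons (.keep [5,6] (.node (.cons (.leaf 1 [(6,1),(5,1)]) (.cons (.leaf 1
[(6,1),(5,1),(2,1)]) (.cons (.leaf 1 [(6,1),(5,1),(2,1)]) .nil))))) (.cons (.keep [3] (.node (.cons (.leaf 1
[(3,1),(5,1)]) (.cons (.leaf 1 [(5,1)]) (.cons (.leaf 1 [(3,1),(5,1)]) .nil))))) .nil))))) .nil))))) (.cons (.keep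
[3,5] (.node (.cons (.leaf 1 [(3,2),(6,1),(5,2)]) (.cons (.keep [4,6] (.node (.cons (.keep [5] (.node (.cons (.leaf 1
[(5,1)]) (.cons (.leaf 1 [(5,1),(2,1)]) (.cons (.leaf 1 [(5,1),(2,1)]) .nil))))) (.cons (.keep [5] (.node (.cons
(.leaf 1 [(5,1)]) (.cons (.leaf 1 [(5,1),(2,1)]) (.cons (.leaf 1 [(5,1),(2,1)]) .nil))))) (.cons (.keep [2,3,5,6]
(.node (.cons (.leaf 1 [(3,1),(6,1)]) (.cons (.leaf 2 [(7,2),(8,1),(5,1)]) (.cons (.leaf 2 [(7,2),(8,1),(5,1),(3,2)])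
.nil))))) .nil))))) (.cons (.keep [0,5] (.node (.cons (.keep [3,6] (.node (.cons (.leaf 1 [(6,1),(5,1)]) (.cons (.leaf
1 [(6,1),(5,1),(2,1)]) (.cons (.leaf 1 [(6,1),(5,1),(2,1)]) .nil))))) (.cons (.keep [5,6] (.node (.cons (.leaf 1
[(6,1),(5,1)]) (.cons (.leaf 1 [(6,1),(5,1),(2,1)]) (.cons (.leaf 1 [(6,1),(5,1),(2,1)]) .nil))))) (.cons (.keep [3]
(.node (.cons (.leaf 1 [(3,1),(5,1)]) (.cons (.leaf 1 [(5,1)]) (.cons (.leaf 1 [(5,1),(3,1)]) .nil))))) .nil)))))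
.nil))))) .nil))))) .nil))))) (.cons (.keep [3,6,7,8,9] (.node (.cons (.leaf 4 [(8,3),(9,1)]) (.cons (.leaf 1 [(7,1)])
(.cons (.keep [5,6,7] (.node (.cons (.leaf 1 [(3,2),(5,1),(6,1)]) (.cons (.keep [5,7] (.node (.cons (.leaf 1
[(5,1),(6,2)]) (.cons (.keep [0,5] (.node (.cons (.keep [3,6] (.node (.cons (.leaf 2 [(6,1),(5,2)]) (.cons (.leaf 2
[(6,1),(5,2),(2,2)]) (.cons (.leaf 2 [(6,1),(5,2),(2,2)]) .nil))))) (.cons (.keep [5,6] (.node (.cons (.leaf 2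
[(6,1),(5,1)]) (.cons (.leaf 2 [(6,1),(5,1),(2,2)]) (.cons (.leaf 2 [(6,1),(5,1),(2,2)]) .nil))))) (.cons (.keep
[0,3,6] (.node (.cons (.leaf 2 [(7,1),(5,1),(6,2)]) (.cons (.leaf 1 [(6,1)]) (.cons (.leaf 2
[(7,1),(5,1),(6,2),(2,2)]) .nil))))) .nil))))) (.cons (.keep [0,5] (.node (.cons (.keep [3,6] (.node (.cons (.leaf 1
[(6,1),(5,2)]) (.cons (.leaf 1 [(6,1),(5,2),(2,1)]) (.cons (.leaf 1 [(6,1),(5,2),(2,1)]) .nil))))) (.cons (.keep [5,6]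
(.node (.cons (.leaf 1 [(6,1),(5,1)]) (.cons (.leaf 1 [(6,1),(5,1),(2,1)]) (.cons (.leaf 1 [(6,1),(5,1),(2,1)])
.nil))))) (.cons (.keep [3] (.node (.cons (.leaf 1 [(3,1),(5,1)]) (.cons (.leaf 1 [(5,1)]) (.cons (.leaf 1
[(3,1),(5,1)]) .nil))))) .nil))))) .nil))))) (.cons (.keep [3,5,7] (.node (.cons (.leaf 1 [(3,1),(7,1),(5,1)]) (.cons
(.keep [0,4,6] (.node (.cons (.keep [6] (.node (.cons (.leaf 1 [(5,1)]) (.cons (.leaf 1 [(5,1),(2,1)]) (.cons (.leaf 1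
[(5,1),(2,1)]) .nil))))) (.cons (.keep [5,7] (.node (.cons (.leaf 2 [(6,1),(5,1)]) (.cons (.leaf 2
[(6,1),(5,1),(2,2)]) (.cons (.leaf 2 [(6,1),(5,1),(2,2)]) .nil))))) (.cons (.keep [0,3,6,7] (.node (.cons (.leaf 2
[(8,1),(5,1),(6,2)]) (.cons (.leaf 1 [(7,1),(2,1)]) (.cons (.leaf 1 [(7,1),(2,1)]) .nil))))) .nil))))) (.cons (.keep
[0,5,6] (.node (.cons (.keep [3,7] (.node (.cons (.leaf 1 [(6,1),(5,2)]) (.cons (.leaf 1 [(6,1),(5,2),(2,1)]) (.cons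
(.leaf 1 [(6,1),(5,2),(2,1)]) .nil))))) (.cons (.keep [5,6] (.node (.cons (.leaf 1 [(6,1),(5,1)]) (.cons (.leaf 1
[(6,1),(5,1),(2,1)]) (.cons (.leaf 1 [(6,1),(5,1),(2,1)]) .nil))))) (.cons (.keep [3] (.node (.cons (.leaf 1
[(3,1),(5,1)]) (.cons (.leaf 1 [(5,1)]) (.cons (.leaf 1 [(3,1),(5,1)]) .nil))))) .nil))))) .nil))))) .nil)))))
.nil))))) .nil))))) .nil))))) .nil))))) (.cons (.leaf 1 [(6,1),(5,1)]) (.cons (.keep [2,3,5,6,7] (.node (.cons (.leaf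
1 [(3,1),(7,1)]) (.cons (.keep [4,5,7,8,9] (.node (.cons (.leaf 3 [(8,1),(6,1)]) (.cons (.leaf 1 [(5,1)]) (.cons
(.keep [0,5,6,7,9] (.node (.cons (.leaf 1 [(3,1)]) (.cons (.keep [4,5,6,7,8,9] (.node (.cons (.leaf 1 [(6,1),(7,1)])
(.cons (.keep [0,5,8,10] (.node (.cons (.keep [3] (.node (.cons (.leaf 1 [(5,1)]) (.cons (.leaf 1 [(5,1),(2,1)])
(.cons (.leaf 1 [(5,1),(2,1)]) .nil))))) (.cons (.keep [5,6,7,8] (.node (.cons (.leaf 2 [(8,1),(6,5)]) (.cons (.leaf 2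
[(5,4),(7,1),(2,3)]) (.cons (.leaf 2 [(5,4),(7,1),(2,3)]) .nil))))) (.cons (.keep [0,3,7] (.node (.cons (.leaf 2
[(6,3),(3,4),(7,1)]) (.cons (.leaf 2 [(5,1),(7,1),(6,3)]) (.cons (.leaf 2 [(0,1),(3,4),(7,1),(6,3)]) .nil)))))
.nil))))) (.cons (.keep [8,9,10] (.node (.cons (.keep [3,7] (.node (.cons (.leaf 2 [(6,1),(5,7)]) (.cons (.leaf 2
[(5,7),(2,2),(6,1)]) (.cons (.leaf 2 [(5,7),(2,2),(6,1)]) .nil))))) (.cons (.keep [6,7] (.node (.cons (.leaf 2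
[(6,1),(5,5)]) (.cons (.leaf 2 [(5,5),(2,2),(6,1)]) (.cons (.leaf 2 [(5,5),(2,2),(6,1)]) .nil))))) (.cons (.keep
[3,5,6] (.node (.cons (.leaf 2 [(3,4),(6,1),(5,3)]) (.cons (.leaf 1 [(7,1),(5,1)]) (.cons (.leaf 1
[(5,1),(7,1),(3,1)]) .nil))))) .nil))))) .nil))))) (.cons (.keep [3,6,7,8,9] (.node (.cons (.leaf 1
[(5,1),(3,1),(6,1)]) (.cons (.keep [0,6,8,9] (.node (.cons (.keep [3] (.node (.cons (.leaf 1 [(5,1)]) (.cons (.leaf 1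
[(5,1),(2,1)]) (.cons (.leaf 1 [(5,1),(2,1)]) .nil))))) (.cons (.keep [5,6,7,8] (.node (.cons (.leaf 2 [(8,1),(7,3)])
(.cons (.leaf 1 [(5,2),(6,1),(2,1)]) (.cons (.leaf 1 [(5,2),(6,1),(2,1)]) .nil))))) (.cons (.keep [0,3,6,7,8] (.node
(.cons (.leaf 2 [(9,1),(8,3),(6,2)]) (.cons (.leaf 1 [(5,1),(7,1),(6,1)]) (.cons (.leaf 1 [(0,1),(3,2),(7,1),(6,1)])
.nil))))) .nil))))) (.cons (.keep [5,6,7,8] (.node (.cons (.keep [3,5,7] (.node (.cons (.leaf 1 [(6,1),(5,2)]) (.cons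
(.leaf 1 [(7,2),(2,3),(6,3)]) (.cons (.leaf 1 [(7,2),(2,3),(6,3)]) .nil))))) (.cons (.keep [5,8] (.node (.cons (.leaf
1 [(5,1),(6,2)]) (.cons (.leaf 1 [(6,2),(2,1),(5,1)]) (.cons (.leaf 1 [(6,2),(2,1),(5,1)]) .nil))))) (.cons (.keep
[3,5,6,7] (.node (.cons (.leaf 1 [(3,2),(7,1),(5,1)]) (.cons (.leaf 1 [(8,1),(5,1)]) (.cons (.leaf 1
[(6,1),(3,2),(8,2),(2,1)]) .nil))))) .nil))))) .nil))))) .nil))))) .nil))))) (.cons (.keep [3,5,6,7,8,9] (.node (.cons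
(.leaf 4 [(9,3),(10,1),(6,2)]) (.cons (.leaf 2 [(10,1),(8,1),(9,2)]) (.cons (.keep [0,5,6,7,8,9,10] (.node (.cons
(.leaf 1 [(3,1)]) (.cons (.keep [4,5,6,7,8,9,10] (.node (.cons (.leaf 1 [(6,1),(11,1)]) (.cons (.keep [0,5,9] (.node
(.cons (.keep [3] (.node (.cons (.leaf 1 [(5,1)]) (.cons (.leaf 1 [(5,1),(2,1)]) (.cons (.leaf 1 [(5,1),(2,1)])
.nil))))) (.cons (.keep [5,6] (.node (.cons (.leaf 1 [(5,1),(6,1)]) (.cons (.leaf 1 [(5,1),(6,1),(2,1)]) (.cons (.leaf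
1 [(5,1),(6,1),(2,1)]) .nil))))) (.cons (.keep [0,3,7] (.node (.cons (.leaf 1 [(6,2),(3,3),(7,1)]) (.cons (.leaf 1
[(5,1),(7,1),(6,2)]) (.cons (.leaf 1 [(0,1),(3,3),(7,1),(6,2)]) .nil))))) .nil))))) (.cons (.keep [5,7,8,10] (.node
(.cons (.keep [3,6] (.node (.cons (.leaf 1 [(6,1),(5,3)]) (.cons (.leaf 1 [(5,3),(2,1),(6,1)]) (.cons (.leaf 1
[(5,3),(2,1),(6,1)]) .nil))))) (.cons (.keep [6,8] (.node (.cons (.leaf 1 [(5,1),(6,2)]) (.cons (.leaf 1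
[(6,2),(2,1),(5,1)]) (.cons (.leaf 1 [(6,2),(2,1),(5,1)]) .nil))))) (.cons (.keep [3,5,7] (.node (.cons (.leaf 1
[(3,2),(6,1),(5,2)]) (.cons (.leaf 1 [(7,1),(5,2)]) (.cons (.leaf 1 [(3,2),(7,1),(5,2)]) .nil))))) .nil))))) .nil)))))
(.cons (.keep [3,5,6,9,10,11] (.node (.cons (.leaf 2 [(6,1),(10,1),(9,2)]) (.cons (.keep [0,8] (.node (.cons (.keep
[3] (.node (.cons (.leaf 1 [(5,1)]) (.cons (.leaf 1 [(5,1),(2,1)]) (.cons (.leaf 1 [(5,1),(2,1)]) .nil))))) (.cons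
(.keep [5,6] (.node (.cons (.leaf 1 [(5,1),(6,1)]) (.cons (.leaf 1 [(5,1),(6,1),(2,1)]) (.cons (.leaf 1
[(5,1),(6,1),(2,1)]) .nil))))) (.cons (.keep [3,6] (.node (.cons (.leaf 1 [(3,1),(6,1),(5,1)]) (.cons (.leaf 1
[(5,1),(6,1)]) (.cons (.leaf 1 [(3,1),(6,1),(5,1)]) .nil))))) .nil))))) (.cons (.keep [5,7,8] (.node (.cons (.keep
[3,6] (.node (.cons (.leaf 1 [(6,1),(5,3)]) (.cons (.leaf 1 [(5,3),(2,1),(6,1)]) (.cons (.leaf 1 [(5,3),(2,1),(6,1)])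
.nil))))) (.cons (.keep [5,7] (.node (.cons (.leaf 1 [(5,1),(6,2)]) (.cons (.leaf 1 [(6,2),(2,1),(5,1)]) (.cons (.leaf
1 [(6,2),(2,1),(5,1)]) .nil))))) (.cons (.keep [3,7] (.node (.cons (.leaf 1 [(3,1),(6,1),(5,1)]) (.cons (.leaf 1
[(6,1),(5,1)]) (.cons (.leaf 1 [(3,1),(6,1),(5,1)]) .nil))))) .nil))))) .nil))))) .nil))))) .nil))))) .nil)))))
.nil))))) (.cons (.keep [2,3,5,6,7,8] (.node (.cons (.keep [4,5,6,8,9,10] (.node (.cons (.keep [3,4,5,6,8,9] (.node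
(.cons (.keep [3,4,6,8,9,10] (.node (.cons (.keep [8,9] (.spl 7 (.cons (.leaf 2 [(1,1),(0,2)]) (.cons (.leaf 6
[(2,1),(0,4)]) .nil)))) (.cons (.keep [6,8] (.spl 7 (.cons (.leaf 2 [(0,2),(2,1)]) (.cons (.leaf 1 [(1,1),(0,1)])
.nil)))) (.cons (.keep [5,6,7,8,9,10] (.node (.cons (.leaf 1 [(3,1)]) (.cons (.keep [4,5,7,8,9,10] (.node (.cons
(.leaf 10 [(6,4),(9,1)]) (.cons (.leaf 1 [(5,1),(6,1)]) (.cons (.keep [6,7,8,10] (.node (.cons (.leaf 1 [(3,1),(5,1)])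
(.cons (.keep [0,6,8] (.node (.cons (.leaf 1 [(6,2),(7,1)]) (.cons (.keep [5,6] (.spl 17 (.cons (.leaf 1
[(1,3),(0,1),(2,2)]) (.cons (.leaf 1 [(1,2),(0,1),(2,2)]) (.cons (.leaf 2 [(1,1),(0,1),(2,2)]) (.cons (.leaf 1
[(1,1),(0,1),(2,2)]) (.cons (.leaf 4 [(1,1),(0,1),(2,1)]) (.cons (.leaf 3 [(1,1),(0,1),(2,1)]) (.cons (.leaf 4
[(0,1),(2,1)]) (.cons (.leaf 3 [(0,1),(2,1)]) .nil)))))))))) (.cons (.keep [0,6] (.spl 17 (.cons (.leaf 1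
[(1,3),(0,1),(2,2)]) (.cons (.leaf 1 [(1,2),(0,1),(2,2)]) (.cons (.leaf 2 [(1,1),(0,1),(2,2)]) (.cons (.leaf 1
[(1,1),(0,1),(2,2)]) (.cons (.leaf 4 [(1,1),(0,1),(2,1)]) (.cons (.leaf 3 [(1,1),(0,1),(2,1)]) (.cons (.leaf 4
[(0,1),(2,1)]) (.cons (.leaf 3 [(0,1),(2,1)]) .nil)))))))))) .nil))))) (.cons (.keep [0,6,7] (.node (.cons (.leaf 2
[(6,1),(3,1),(7,1)]) (.cons (.keep [5,6] (.spl 17 (.cons (.leaf 1 [(2,2),(1,3),(0,1)]) (.cons (.leaf 1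
[(1,2),(0,1),(2,2)]) (.cons (.leaf 2 [(1,1),(0,1),(2,2)]) (.cons (.leaf 1 [(1,2),(0,1),(2,2)]) (.cons (.leaf 4
[(1,1),(0,1),(2,1)]) (.cons (.leaf 3 [(2,1),(1,2),(0,1)]) (.cons (.leaf 4 [(2,1),(0,1)]) (.cons (.leaf 3
[(1,1),(0,1),(2,1)]) .nil)))))))))) (.cons (.keep [0,5,6] (.spl 17 (.cons (.leaf 1 [(1,3),(0,1),(3,2)]) (.cons (.leaf
1 [(1,2),(0,1),(3,2)]) (.cons (.leaf 2 [(0,1),(1,1),(3,2)]) (.cons (.leaf 1 [(1,1),(2,1),(0,1),(3,2)]) (.cons (.leaf 4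
[(1,1),(0,1),(3,1)]) (.cons (.leaf 3 [(1,1),(2,1),(0,1),(3,1)]) (.cons (.leaf 4 [(0,1),(3,1)]) (.cons (.leaf 3
[(2,1),(0,1),(3,1)]) .nil)))))))))) .nil))))) .nil))))) .nil))))) (.cons (.keep [5,6,8,9] (.node (.cons (.leaf 2
[(6,1)]) (.cons (.keep [0,5,8] (.node (.cons (.leaf 6 [(7,1),(6,4)]) (.cons (.leaf 2 [(5,4),(7,1)]) (.cons (.leaf 2
[(0,4),(7,1)]) .nil))))) (.cons (.keep [5,7,8] (.node (.cons (.leaf 6 [(7,1),(5,4)]) (.cons (.leaf 2 [(6,1)]) (.cons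
(.leaf 2 [(0,2),(6,1)]) .nil))))) .nil))))) .nil))))) .nil))))) (.cons (.keep [2,4,6,7,8,10] (.node (.cons (.leaf 2
[(8,1),(5,1)]) (.cons (.leaf 1 [(6,1)]) (.cons (.keep [0,5,6,7,9,10] (.node (.cons (.leaf 1 [(3,1)]) (.cons (.keep
[4,5,6,7,8,9] (.node (.cons (.leaf 2 [(6,4),(10,1)]) (.cons (.leaf 2 [(5,2),(10,1),(9,2)]) (.cons (.keep [2,5,7,8,9]
(.spl 18 (.cons (.leaf 2 [(3,1),(0,1),(5,1)]) (.cons (.leaf 2 [(0,1),(5,1)]) (.cons (.leaf 5 [(0,2),(4,1),(5,3)])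
(.cons (.leaf 1 [(2,1),(5,2),(0,1),(3,1)]) (.cons (.leaf 9 [(0,3),(1,2),(5,2)]) (.cons (.leaf 3 [(2,1),(0,1),(5,1)])
(.cons (.leaf 7 [(0,2),(4,3),(5,3)]) (.cons (.leaf 5 [(2,2),(4,1),(0,2),(5,3)]) .nil)))))))))) .nil))))) (.cons (.keep
[3,7,8,9,10] (.node (.cons (.leaf 3 [(7,1),(6,3),(5,1)]) (.cons (.keep [0,6,7] (.node (.cons (.leaf 2 [(6,3),(7,2)])
(.cons (.leaf 1 [(5,1),(7,1),(6,2)]) (.cons (.leaf 1 [(0,1),(7,1),(6,2)]) .nil))))) (.cons (.keep [7,8,9] (.node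
(.cons (.leaf 1 [(7,1),(5,2)]) (.cons (.leaf 1 [(6,1),(5,1)]) (.cons (.leaf 1 [(0,1),(5,1),(6,1)]) .nil))))) .nil)))))
.nil))))) .nil))))) (.cons (.keep [5,6,8,9,10] (.node (.cons (.leaf 2 [(3,2),(7,1)]) (.cons (.keep [4,5,7,8,9] (.node
(.cons (.leaf 6 [(8,1),(6,4)]) (.cons (.leaf 2 [(5,2),(6,2),(7,1)]) (.cons (.keep [6,7,9] (.node (.cons (.leaf 2
[(5,2),(3,2),(6,1)]) (.cons (.keep [5,6,7] (.node (.cons (.leaf 1 [(5,2)]) (.cons (.keep [0,4,6,7] (.node (.cons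
(.keep [6,8] (.node (.cons (.leaf 2 [(6,1),(5,3)]) (.cons (.leaf 2 [(6,1),(5,3),(2,3)]) (.cons (.leaf 2
[(6,1),(5,3),(2,3)]) .nil))))) (.cons (.keep [5,7] (.node (.cons (.leaf 2 [(6,2),(5,1)]) (.cons (.leaf 2
[(6,2),(5,1),(2,2)]) (.cons (.leaf 2 [(6,2),(5,1),(2,2)]) .nil))))) (.cons (.keep [0,3,7] (.node (.cons (.leaf 2
[(6,2),(5,1),(7,2)]) (.cons (.leaf 2 [(7,1),(6,2)]) (.cons (.leaf 2 [(6,2),(5,1),(7,2),(2,2)]) .nil))))) .nil)))))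
(.cons (.keep [0,6] (.node (.cons (.keep [3,6] (.node (.cons (.leaf 1 [(6,1),(5,2)]) (.cons (.leaf 1
[(6,1),(5,2),(2,1)]) (.cons (.leaf 1 [(6,1),(5,2),(2,1)]) .nil))))) (.cons (.keep [5,6] (.node (.cons (.leaf 2
[(6,3),(5,2)]) (.cons (.leaf 2 [(6,3),(5,2),(2,2)]) (.cons (.leaf 2 [(6,3),(5,2),(2,2)]) .nil))))) (.cons (.keep
[2,3,6] (.node (.cons (.leaf 1 [(5,1),(3,2)]) (.cons (.leaf 2 [(7,1),(6,2)]) (.cons (.leaf 2 [(6,2),(7,1),(3,2)])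
.nil))))) .nil))))) .nil))))) (.cons (.keep [2,3,5,6] (.node (.cons (.leaf 1 [(7,1),(3,1)]) (.cons (.keep [4,5,8]
(.node (.cons (.keep [5,6] (.node (.cons (.leaf 2 [(6,1),(5,3)]) (.cons (.leaf 2 [(6,1),(5,3),(2,3)]) (.cons (.leaf 2
[(6,1),(5,3),(2,3)]) .nil))))) (.cons (.keep [5] (.node (.cons (.leaf 1 [(5,2)]) (.cons (.leaf 1 [(5,2),(2,1)]) (.cons
(.leaf 1 [(5,2),(2,1)]) .nil))))) (.cons (.keep [3,5,7] (.node (.cons (.leaf 1 [(5,1),(3,2)]) (.cons (.leaf 1 [(6,1)])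
(.cons (.leaf 1 [(5,1),(7,1),(2,1)]) .nil))))) .nil))))) (.cons (.keep [0,6] (.node (.cons (.keep [6] (.node (.cons
(.leaf 1 [(5,1)]) (.cons (.leaf 1 [(5,1),(2,1)]) (.cons (.leaf 1 [(5,1),(2,1)]) .nil))))) (.cons (.keep [5,6] (.node
(.cons (.leaf 1 [(6,1),(5,1)]) (.cons (.leaf 1 [(6,1),(5,1),(2,1)]) (.cons (.leaf 1 [(6,1),(5,1),(2,1)]) .nil)))))
(.cons (.keep [] (.node (.cons (.leaf 1 [(3,1)]) (.cons (.leaf 1 []) (.cons (.leaf 1 [(3,1)]) .nil))))) .nil)))))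
.nil))))) .nil))))) .nil))))) (.cons (.keep [3,5,6,7] (.node (.cons (.leaf 1 [(3,1)]) (.cons (.leaf 1 [(8,1),(7,1)])
(.cons (.keep [5,6,7,8] (.node (.cons (.leaf 1 [(6,1)]) (.cons (.keep [5,6,7] (.node (.cons (.leaf 1 [(6,1),(7,1)])
(.cons (.keep [0,5] (.node (.cons (.keep [3,6] (.node (.cons (.leaf 2 [(6,1),(5,2)]) (.cons (.leaf 2
[(6,1),(5,2),(2,2)]) (.cons (.leaf 2 [(6,1),(5,2),(2,2)]) .nil))))) (.cons (.keep [5,6] (.node (.cons (.leaf 2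
[(6,1),(5,1)]) (.cons (.leaf 2 [(6,1),(5,1),(2,2)]) (.cons (.leaf 2 [(6,1),(5,1),(2,2)]) .nil))))) (.cons (.keep
[0,3,6] (.node (.cons (.leaf 2 [(7,1),(5,1),(6,2)]) (.cons (.leaf 1 [(6,1)]) (.cons (.leaf 2
[(7,1),(5,1),(6,2),(2,2)]) .nil))))) .nil))))) (.cons (.keep [0,5] (.node (.cons (.keep [3,6] (.node (.cons (.leaf 1
[(6,1),(5,2)]) (.cons (.leaf 1 [(6,1),(5,2),(2,1)]) (.cons (.leaf 1 [(6,1),(5,2),(2,1)]) .nil))))) (.cons (.keep [5,6]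
(.node (.cons (.leaf 1 [(6,1),(5,1)]) (.cons (.leaf 1 [(6,1),(5,1),(2,1)]) (.cons (.leaf 1 [(6,1),(5,1),(2,1)])
.nil))))) (.cons (.keep [3] (.node (.cons (.leaf 1 [(3,1),(5,1)]) (.cons (.leaf 1 [(5,1)]) (.cons (.leaf 1
[(3,1),(5,1)]) .nil))))) .nil))))) .nil))))) (.cons (.keep [7,8] (.node (.cons (.leaf 2 [(5,2),(3,2),(6,1)]) (.cons
(.keep [0,6] (.node (.cons (.keep [3] (.node (.cons (.leaf 1 [(5,1)]) (.cons (.leaf 1 [(5,1),(2,1)]) (.cons (.leaf 1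
[(5,1),(2,1)]) .nil))))) (.cons (.keep [5,6] (.node (.cons (.leaf 2 [(5,2),(6,1)]) (.cons (.leaf 2
[(5,2),(6,1),(2,2)]) (.cons (.leaf 2 [(5,2),(6,1),(2,2)]) .nil))))) (.cons (.keep [3,6] (.node (.cons (.leaf 2
[(3,2),(6,1),(5,2)]) (.cons (.leaf 2 [(5,2),(6,1)]) (.cons (.leaf 2 [(3,2),(6,1),(5,2)]) .nil))))) .nil))))) (.cons
(.keep [0,6] (.node (.cons (.keep [3] (.node (.cons (.leaf 1 [(5,1)]) (.cons (.leaf 1 [(5,1),(2,1)]) (.cons (.leaf 1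
[(5,1),(2,1)]) .nil))))) (.cons (.keep [5,6] (.node (.cons (.leaf 2 [(5,2),(6,1)]) (.cons (.leaf 2
[(5,2),(6,1),(2,2)]) (.cons (.leaf 2 [(5,2),(6,1),(2,2)]) .nil))))) (.cons (.keep [3,6] (.node (.cons (.leaf 2
[(3,2),(6,1),(5,2)]) (.cons (.leaf 2 [(5,2),(6,1)]) (.cons (.leaf 2 [(5,2),(6,1),(3,2)]) .nil))))) .nil))))) .nil)))))
.nil))))) .nil))))) .nil))))) .nil))))) (.cons (.keep [2,4,5,6,8] (.node (.cons (.leaf 1 [(5,1)]) (.cons (.leaf 2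
[(8,1),(6,2),(5,1)]) (.cons (.keep [0,5,6,7,8,9] (.node (.cons (.leaf 2 [(3,2),(6,1),(9,1)]) (.cons (.keep
[0,4,5,6,9,10] (.node (.cons (.leaf 5 [(10,1),(7,1)]) (.cons (.leaf 1 [(6,1),(5,1),(9,1)]) (.cons (.keep [0,5,8,9,10]
(.node (.cons (.leaf 2 [(6,1),(3,4),(8,2)]) (.cons (.keep [5,7,8] (.node (.cons (.leaf 1 [(7,2),(5,4)]) (.cons (.keep
[0,7] (.node (.cons (.keep [3,6] (.node (.cons (.leaf 5 [(6,3),(5,5)]) (.cons (.leaf 5 [(6,3),(5,5),(2,5)]) (.cons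
(.leaf 5 [(6,3),(5,5),(2,5)]) .nil))))) (.cons (.keep [5,6] (.node (.cons (.leaf 1 [(6,1),(5,1)]) (.cons (.leaf 1
[(6,1),(5,1),(2,1)]) (.cons (.leaf 1 [(6,1),(5,1),(2,1)]) .nil))))) (.cons (.keep [0,3,6] (.node (.cons (.leaf 1
[(6,1),(5,1),(7,1)]) (.cons (.leaf 4 [(7,2),(5,1),(6,4)]) (.cons (.leaf 1 [(7,1),(6,1),(5,1),(2,1)]) .nil)))))
.nil))))) (.cons (.keep [6,7] (.node (.cons (.keep [3,6] (.node (.cons (.leaf 1 [(6,1),(5,3)]) (.cons (.leaf 1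
[(6,1),(5,3),(2,1)]) (.cons (.leaf 1 [(6,1),(5,3),(2,1)]) .nil))))) (.cons (.keep [5,6] (.node (.cons (.leaf 1
[(6,1),(5,2)]) (.cons (.leaf 1 [(6,1),(5,2),(2,1)]) (.cons (.leaf 1 [(6,1),(5,2),(2,1)]) .nil))))) (.cons (.keep
[2,3,5,6] (.node (.cons (.leaf 1 [(5,1),(3,2)]) (.cons (.leaf 2 [(8,1),(7,1),(6,2)]) (.cons (.leaf 2
[(6,2),(7,1),(8,1),(3,2)]) .nil))))) .nil))))) .nil))))) (.cons (.keep [3,8,9] (.node (.cons (.leaf 1 [(5,1),(3,2)])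
(.cons (.keep [0,4,6,7] (.node (.cons (.keep [6,8] (.node (.cons (.leaf 5 [(6,1),(5,7)]) (.cons (.leaf 5
[(6,1),(5,7),(2,7)]) (.cons (.leaf 5 [(6,1),(5,7),(2,7)]) .nil))))) (.cons (.keep [5,7] (.node (.cons (.leaf 1
[(6,1),(5,1)]) (.cons (.leaf 1 [(6,1),(5,1),(2,1)]) (.cons (.leaf 1 [(6,1),(5,1),(2,1)]) .nil))))) (.cons (.keep
[0,3,6,7] (.node (.cons (.leaf 1 [(6,1),(5,1),(8,1)]) (.cons (.leaf 1 [(7,1)]) (.cons (.leaf 1 [(7,1),(3,1)])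
.nil))))) .nil))))) (.cons (.keep [0,5] (.node (.cons (.keep [6] (.node (.cons (.leaf 1 [(5,1)]) (.cons (.leaf 1
[(5,1),(2,1)]) (.cons (.leaf 1 [(5,1),(2,1)]) .nil))))) (.cons (.keep [5,6] (.node (.cons (.leaf 1 [(6,1),(5,1)])
(.cons (.leaf 1 [(6,1),(5,1),(2,1)]) (.cons (.leaf 1 [(6,1),(5,1),(2,1)]) .nil))))) (.cons (.keep [] (.node (.cons
(.leaf 1 [(3,1)]) (.cons (.leaf 1 []) (.cons (.leaf 1 [(3,1)]) .nil))))) .nil))))) .nil))))) .nil))))) .nil)))))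
(.cons (.keep [3,6,7,8,9] (.node (.cons (.leaf 2 [(9,1),(7,1)]) (.cons (.leaf 1 [(9,1),(7,1)]) (.cons (.keep
[5,6,7,8,9] (.node (.cons (.leaf 1 [(3,2),(8,1)]) (.cons (.keep [5,7,9] (.node (.cons (.leaf 1 [(7,2),(6,1)]) (.cons
(.keep [0,4,5,6] (.node (.cons (.keep [3,7] (.node (.cons (.leaf 2 [(6,1),(5,2)]) (.cons (.leaf 2 [(6,1),(5,2),(2,2)])
(.cons (.leaf 2 [(6,1),(5,2),(2,2)]) .nil))))) (.cons (.keep [5,7] (.node (.cons (.leaf 2 [(6,1),(5,1)]) (.cons (.leaf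
2 [(6,1),(5,1),(2,2)]) (.cons (.leaf 2 [(6,1),(5,1),(2,2)]) .nil))))) (.cons (.keep [0,2,3,6,7,8] (.node (.cons (.leaf
2 [(9,1),(5,1),(7,2)]) (.cons (.leaf 2 [(8,2),(10,1),(6,1)]) (.cons (.leaf 2 [(8,2),(10,1),(6,1),(3,2)]) .nil)))))
.nil))))) (.cons (.keep [0,5] (.node (.cons (.keep [3,6] (.node (.cons (.leaf 1 [(6,1),(5,2)]) (.cons (.leaf 1
[(6,1),(5,2),(2,1)]) (.cons (.leaf 1 [(6,1),(5,2),(2,1)]) .nil))))) (.cons (.keep [5,6] (.node (.cons (.leaf 1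
[(6,1),(5,1)]) (.cons (.leaf 1 [(6,1),(5,1),(2,1)]) (.cons (.leaf 1 [(6,1),(5,1),(2,1)]) .nil))))) (.cons (.keep [3]
(.node (.cons (.leaf 1 [(3,1),(5,1)]) (.cons (.leaf 1 [(5,1)]) (.cons (.leaf 1 [(3,1),(5,1)]) .nil))))) .nil)))))
.nil))))) (.cons (.keep [6,7,9] (.node (.cons (.leaf 1 [(3,2),(6,1)]) (.cons (.keep [0,5] (.node (.cons (.keep [3]
(.node (.cons (.leaf 1 [(5,1)]) (.cons (.leaf 1 [(5,1),(2,1)]) (.cons (.leaf 1 [(5,1),(2,1)]) .nil))))) (.cons (.keep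
[5,6] (.node (.cons (.leaf 1 [(5,1),(6,1)]) (.cons (.leaf 1 [(5,1),(6,1),(2,1)]) (.cons (.leaf 1 [(5,1),(6,1),(2,1)])
.nil))))) (.cons (.keep [3,6] (.node (.cons (.leaf 1 [(3,1),(6,1),(5,1)]) (.cons (.leaf 1 [(5,1),(6,1)]) (.cons (.leaf
1 [(3,1),(6,1),(5,1)]) .nil))))) .nil))))) (.cons (.keep [5,7] (.node (.cons (.keep [3] (.node (.cons (.leaf 1
[(5,1)]) (.cons (.leaf 1 [(5,1),(2,1)]) (.cons (.leaf 1 [(5,1),(2,1)]) .nil))))) (.cons (.keep [5] (.node (.cons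
(.leaf 1 [(5,1)]) (.cons (.leaf 1 [(5,1),(2,1)]) (.cons (.leaf 1 [(5,1),(2,1)]) .nil))))) (.cons (.keep [3,5,6] (.node
(.cons (.leaf 1 [(6,1)]) (.cons (.leaf 2 [(6,1),(7,1),(5,2)]) (.cons (.leaf 1 [(6,1),(2,1)]) .nil))))) .nil)))))
.nil))))) .nil))))) .nil))))) .nil))))) .nil))))) (.cons (.keep [2,3,5,6,7,8,10] (.node (.cons (.keep [3,4,5,8,10,11]
(.node (.cons (.leaf 2 [(7,1)]) (.cons (.leaf 1 [(10,1),(6,1)]) (.cons (.keep [5,7,8,9,10] (.node (.cons (.leaf 1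
[(3,1)]) (.cons (.keep [4,5,6,8,9] (.node (.cons (.leaf 4 [(8,1),(7,1)]) (.cons (.leaf 1 [(6,1),(5,1)]) (.cons (.keep
[6,7,9] (.node (.cons (.leaf 1 [(3,1),(5,1)]) (.cons (.keep [6,7] (.spl 17 (.cons (.leaf 1 [(2,3),(0,1)]) (.cons
(.leaf 1 [(2,2),(0,1)]) (.cons (.leaf 2 [(2,1),(0,1)]) (.cons (.leaf 1 [(2,1),(0,1)]) (.cons (.leaf 4
[(1,1),(2,1),(0,1)]) (.cons (.leaf 3 [(1,1),(2,1),(0,1)]) (.cons (.leaf 4 [(0,1),(1,1)]) (.cons (.leaf 3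
[(1,1),(0,1)]) .nil)))))))))) (.cons (.keep [0,6,7] (.spl 17 (.cons (.leaf 1 [(3,3),(0,1)]) (.cons (.leaf 1
[(3,2),(0,1)]) (.cons (.leaf 2 [(3,1),(0,1)]) (.cons (.leaf 1 [(1,1),(3,1),(0,1)]) (.cons (.leaf 4
[(3,1),(0,1),(2,1)]) (.cons (.leaf 3 [(1,1),(3,1),(0,1),(2,1)]) (.cons (.leaf 4 [(0,1),(2,1)]) (.cons (.leaf 3
[(1,1),(0,1),(2,1)]) .nil)))))))))) .nil))))) .nil))))) (.cons (.keep [6,7,8] (.node (.cons (.leaf 6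
[(7,1),(3,4),(5,3)]) (.cons (.keep [0,5,6] (.node (.cons (.leaf 2 [(7,1)]) (.cons (.leaf 2 [(5,2),(7,1),(6,1)]) (.cons
(.leaf 2 [(0,2),(7,1),(6,1)]) .nil))))) (.cons (.keep [5,6] (.node (.cons (.leaf 2 [(6,1)]) (.cons (.leaf 2
[(5,1),(6,1)]) (.cons (.leaf 2 [(0,2),(6,1),(5,1)]) .nil))))) .nil))))) .nil))))) .nil))))) (.cons (.keep
[2,4,5,8,9,10] (.node (.cons (.leaf 4 [(8,1),(7,1)]) (.cons (.leaf 1 [(6,1)]) (.cons (.keep [5,7,8,9,10] (.node (.cons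
(.leaf 1 [(3,1)]) (.cons (.keep [5,6,7,8,9] (.node (.cons (.leaf 5 [(9,2),(8,1)]) (.cons (.keep [0,7,9] (.node (.cons
(.leaf 1 [(7,1)]) (.cons (.leaf 2 [(5,2),(7,1),(6,1)]) (.cons (.leaf 2 [(0,2),(7,1),(6,1)]) .nil))))) (.cons (.keep
[5,6,9] (.node (.cons (.keep [3,6,7] (.spl 16 (.cons (.leaf 3 [(1,3),(0,1)]) (.cons (.leaf 2 [(1,2),(0,1)]) (.cons
(.leaf 2 [(1,1),(0,1)]) (.cons (.leaf 1 [(0,1)]) (.cons (.leaf 3 [(2,1),(0,1)]) (.cons (.leaf 10 [(2,3),(0,4),(3,1)])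
(.cons (.leaf 10 [(2,3),(0,4),(3,1)]) (.cons (.leaf 4 [(2,1),(0,2),(3,1)]) .nil)))))))))) (.cons (.keep [5,6,7] (.spl
17 (.cons (.leaf 1 [(1,2),(0,1)]) (.cons (.leaf 1 [(1,1),(0,1)]) (.cons (.leaf 2 [(0,1)]) (.cons (.leaf 1 [(0,1)])
(.cons (.leaf 14 [(2,3),(0,4),(3,1)]) (.cons (.leaf 10 [(2,3),(0,4),(3,1)]) (.cons (.leaf 6 [(2,1),(0,2),(3,1)])
(.cons (.leaf 4 [(2,1),(0,2),(3,1)]) .nil)))))))))) (.cons (.keep [0,5,6,7] (.spl 17 (.cons (.leaf 1 [(2,2),(0,1)])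
(.cons (.leaf 1 [(2,1),(0,1)]) (.cons (.leaf 2 [(0,1)]) (.cons (.leaf 1 [(1,1),(0,1)]) (.cons (.leaf 14
[(0,4),(4,1),(3,3)]) (.cons (.leaf 10 [(1,4),(0,4),(4,1),(3,3)]) (.cons (.leaf 6 [(0,2),(4,1),(3,1)]) (.cons (.leaf 4
[(1,2),(0,2),(4,1),(3,1)]) .nil)))))))))) .nil))))) .nil))))) (.cons (.keep [7,9] (.node (.cons (.leaf 2
[(5,1),(3,1)]) (.cons (.keep [0,5,6] (.node (.cons (.leaf 2 [(6,1),(7,1)]) (.cons (.leaf 1 [(5,1),(6,1)]) (.cons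
(.leaf 1 [(0,1),(6,1)]) .nil))))) (.cons (.keep [5,6] (.node (.cons (.leaf 2 [(5,1),(6,1)]) (.cons (.leaf 1 [(5,1)])
(.cons (.leaf 1 [(0,1),(5,1)]) .nil))))) .nil))))) .nil))))) .nil))))) (.cons (.keep [5,6,7,8,9,10] (.node (.cons
(.leaf 2 [(3,2),(5,1),(8,1)]) (.cons (.keep [4,5,7,8] (.node (.cons (.leaf 2 [(8,1)]) (.cons (.leaf 1 [(5,1),(8,1)])
(.cons (.keep [0,6,7,8] (.node (.cons (.leaf 1 [(3,1),(8,1)]) (.cons (.keep [5,6,7,8] (.node (.cons (.leaf 1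
[(8,2),(5,2)]) (.cons (.keep [0,4,7,8] (.node (.cons (.keep [6,7] (.node (.cons (.leaf 1 [(6,1),(5,2)]) (.cons (.leaf
1 [(6,1),(5,2),(2,2)]) (.cons (.leaf 1 [(6,1),(5,2),(2,2)]) .nil))))) (.cons (.keep [5,8] (.node (.cons (.leaf 2
[(6,4),(5,3)]) (.cons (.leaf 2 [(6,4),(5,3),(2,2)]) (.cons (.leaf 2 [(6,4),(5,3),(2,2)]) .nil))))) (.cons (.keep
[0,3,8] (.node (.cons (.leaf 2 [(7,1),(6,2),(3,3)]) (.cons (.leaf 2 [(7,2),(5,1),(6,2)]) (.cons (.leaf 2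
[(7,2),(0,1),(3,3),(6,2)]) .nil))))) .nil))))) (.cons (.keep [6,8] (.node (.cons (.keep [5] (.node (.cons (.leaf 1
[(5,2)]) (.cons (.leaf 1 [(5,2),(2,1)]) (.cons (.leaf 1 [(5,2),(2,1)]) .nil))))) (.cons (.keep [5,6] (.node (.cons
(.leaf 2 [(6,1),(5,3)]) (.cons (.leaf 2 [(5,3),(2,2),(6,1)]) (.cons (.leaf 2 [(5,3),(2,2),(6,1)]) .nil))))) (.cons
(.keep [2,5] (.node (.cons (.leaf 1 [(5,1),(3,2)]) (.cons (.leaf 1 [(6,1),(5,1)]) (.cons (.leaf 1 [(5,1),(2,1),(6,2)])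
.nil))))) .nil))))) .nil))))) (.cons (.keep [2,3,6,8] (.node (.cons (.leaf 1 [(6,1),(3,2)]) (.cons (.keep [4,5,7,8]
(.node (.cons (.keep [5,6] (.node (.cons (.leaf 2 [(6,1),(5,3)]) (.cons (.leaf 2 [(6,1),(5,3),(2,3)]) (.cons (.leaf 2
[(6,1),(5,3),(2,3)]) .nil))))) (.cons (.keep [7,8] (.node (.cons (.leaf 1 [(6,1),(5,1)]) (.cons (.leaf 1
[(6,1),(5,1),(2,1)]) (.cons (.leaf 1 [(6,1),(5,1),(2,1)]) .nil))))) (.cons (.keep [3,7,8] (.node (.cons (.leaf 1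
[(7,1),(5,1),(6,1)]) (.cons (.leaf 2 [(7,1),(6,1),(5,2)]) (.cons (.leaf 1 [(7,1),(5,1),(6,1),(2,1)]) .nil)))))
.nil))))) (.cons (.keep [0,6] (.node (.cons (.keep [6] (.node (.cons (.leaf 1 [(5,1)]) (.cons (.leaf 1 [(5,1),(2,1)])
(.cons (.leaf 1 [(5,1),(2,1)]) .nil))))) (.cons (.keep [5,6] (.node (.cons (.leaf 1 [(6,1),(5,1)]) (.cons (.leaf 1
[(6,1),(5,1),(2,1)]) (.cons (.leaf 1 [(6,1),(5,1),(2,1)]) .nil))))) (.cons (.keep [] (.node (.cons (.leaf 1 [(3,1)])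
(.cons (.leaf 1 []) (.cons (.leaf 1 [(3,1)]) .nil))))) .nil))))) .nil))))) .nil))))) .nil))))) (.cons (.keep
[3,5,6,7,8,9,10] (.node (.cons (.leaf 4 [(10,2),(11,1)]) (.cons (.leaf 1 [(9,1)]) (.cons (.keep [5,6,7,8,9] (.node
(.cons (.leaf 1 [(8,1),(3,2),(7,1)]) (.cons (.keep [5,9] (.node (.cons (.leaf 1 [(5,1),(6,2)]) (.cons (.keep [0,5]
(.node (.cons (.keep [3,6] (.node (.cons (.leaf 2 [(6,1),(5,2)]) (.cons (.leaf 2 [(6,1),(5,2),(2,2)]) (.cons (.leaf 2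
[(6,1),(5,2),(2,2)]) .nil))))) (.cons (.keep [5,6] (.node (.cons (.leaf 2 [(6,1),(5,1)]) (.cons (.leaf 2
[(6,1),(5,1),(2,2)]) (.cons (.leaf 2 [(6,1),(5,1),(2,2)]) .nil))))) (.cons (.keep [0,3,6] (.node (.cons (.leaf 2
[(7,1),(5,1),(6,2)]) (.cons (.leaf 1 [(6,1)]) (.cons (.leaf 2 [(7,1),(5,1),(6,2),(2,2)]) .nil))))) .nil))))) (.cons
(.keep [0,5] (.node (.cons (.keep [3,6] (.node (.cons (.leaf 1 [(6,1),(5,2)]) (.cons (.leaf 1 [(6,1),(5,2),(2,1)])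
(.cons (.leaf 1 [(6,1),(5,2),(2,1)]) .nil))))) (.cons (.keep [5,6] (.node (.cons (.leaf 1 [(6,1),(5,1)]) (.cons (.leaf
1 [(6,1),(5,1),(2,1)]) (.cons (.leaf 1 [(6,1),(5,1),(2,1)]) .nil))))) (.cons (.keep [3] (.node (.cons (.leaf 1
[(3,1),(5,1)]) (.cons (.leaf 1 [(5,1)]) (.cons (.leaf 1 [(3,1),(5,1)]) .nil))))) .nil))))) .nil))))) (.cons (.keep
[3,6,9] (.node (.cons (.leaf 1 [(5,1),(3,1),(7,1)]) (.cons (.keep [6,7] (.node (.cons (.keep [3] (.node (.cons (.leaf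
1 [(5,1)]) (.cons (.leaf 1 [(5,1),(2,1)]) (.cons (.leaf 1 [(5,1),(2,1)]) .nil))))) (.cons (.keep [5] (.node (.cons
(.leaf 1 [(5,1)]) (.cons (.leaf 1 [(5,1),(2,1)]) (.cons (.leaf 1 [(5,1),(2,1)]) .nil))))) (.cons (.keep [3,5,6] (.node
(.cons (.leaf 1 [(5,1),(6,1)]) (.cons (.leaf 2 [(5,2),(6,1),(7,1)]) (.cons (.leaf 1 [(5,1),(6,1),(2,1)]) .nil)))))
.nil))))) (.cons (.keep [6,7] (.node (.cons (.keep [3] (.node (.cons (.leaf 1 [(5,1)]) (.cons (.leaf 1 [(5,1),(2,1)])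
(.cons (.leaf 1 [(5,1),(2,1)]) .nil))))) (.cons (.keep [5] (.node (.cons (.leaf 1 [(5,1)]) (.cons (.leaf 1
[(5,1),(2,1)]) (.cons (.leaf 1 [(5,1),(2,1)]) .nil))))) (.cons (.keep [3,5,6] (.node (.cons (.leaf 1 [(5,1),(6,1)])
(.cons (.leaf 2 [(5,2),(6,1),(7,1)]) (.cons (.leaf 1 [(5,1),(6,1),(2,1)]) .nil))))) .nil))))) .nil))))) .nil)))))
.nil))))) .nil))))) .nil))))) .nil))))) (.cons (.keep [2,4,5,8,9] (.node (.cons (.leaf 2 [(5,1),(7,1)]) (.cons (.leaf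
1 [(6,1),(5,1)]) (.cons (.keep [2,5,7,8,9] (.node (.cons (.leaf 1 [(3,1),(6,1)]) (.cons (.keep [4,5,6,7,8,9] (.node
(.cons (.leaf 4 [(10,1),(6,1)]) (.cons (.leaf 1 [(5,1)]) (.cons (.keep [0,6,7,8,9] (.node (.cons (.leaf 1 [(3,1)])
(.cons (.keep [5,6,7,9] (.node (.cons (.leaf 2 [(8,1)]) (.cons (.keep [0,5,8] (.node (.cons (.leaf 1 [(7,1),(6,1)])
(.cons (.leaf 1 [(5,1),(7,1)]) (.cons (.leaf 1 [(0,1),(7,1)]) .nil))))) (.cons (.keep [3,5,6,7,8] (.node (.cons (.keep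
[3,5,6,7,9] (.spl 16 (.cons (.leaf 3 [(1,2),(0,1)]) (.cons (.leaf 2 [(1,1),(0,1)]) (.cons (.leaf 2 [(0,1)]) (.cons
(.leaf 1 [(0,1),(3,1)]) (.cons (.leaf 13 [(4,3),(0,4),(2,1)]) (.cons (.leaf 5 [(4,1),(0,2),(2,1)]) (.cons (.leaf 5
[(4,1),(0,2),(2,1)]) (.cons (.leaf 3 [(0,1),(5,1)]) .nil)))))))))) (.cons (.keep [7,8,9] (.spl 16 (.cons (.leaf 3
[(2,2),(0,1)]) (.cons (.leaf 2 [(2,1),(0,1)]) (.cons (.leaf 2 [(0,1)]) (.cons (.leaf 1 [(0,1)]) (.cons (.leaf 11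
[(1,2),(0,3),(3,1)]) (.cons (.leaf 8 [(1,2),(0,3),(3,1)]) (.cons (.leaf 10 [(1,1),(0,3),(3,2)]) (.cons (.leaf 7
[(1,1),(0,3),(3,2)]) .nil)))))))))) (.cons (.keep [0,2,5,7,8,9] (.spl 16 (.cons (.leaf 3 [(5,2),(0,1)]) (.cons (.leaf
2 [(5,1),(0,1)]) (.cons (.leaf 2 [(0,1)]) (.cons (.leaf 1 [(1,1),(0,1)]) (.cons (.leaf 13 [(0,4),(2,1),(3,1),(4,3)])
(.cons (.leaf 8 [(1,3),(0,3),(6,1),(4,2)]) (.cons (.leaf 5 [(0,2),(2,1),(3,1),(4,1)]) (.cons (.leaf 7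
[(1,3),(0,3),(6,2),(4,1)]) .nil)))))))))) .nil))))) .nil))))) (.cons (.keep [8,9] (.node (.cons (.leaf 4
[(6,1),(3,2),(5,1)]) (.cons (.keep [0,5,6] (.node (.cons (.leaf 1 [(7,1)]) (.cons (.leaf 2 [(5,2),(7,1),(6,1)]) (.cons
(.leaf 2 [(0,2),(7,1),(6,1)]) .nil))))) (.cons (.keep [5,6] (.node (.cons (.leaf 1 [(6,1)]) (.cons (.leaf 2
[(5,1),(6,1)]) (.cons (.leaf 2 [(0,2),(6,1),(5,1)]) .nil))))) .nil))))) .nil))))) .nil))))) (.cons (.keep [7,8] (.node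
(.cons (.leaf 2 [(3,1),(5,1)]) (.cons (.keep [4,5,6] (.node (.cons (.leaf 4 [(6,1),(7,1)]) (.cons (.leaf 2
[(5,2),(7,1),(6,1)]) (.cons (.leaf 1 [(0,1),(6,1)]) .nil))))) (.cons (.keep [5,6] (.node (.cons (.leaf 4
[(5,1),(6,1)]) (.cons (.leaf 2 [(5,1),(6,1)]) (.cons (.leaf 1 [(0,1),(5,1)]) .nil))))) .nil))))) .nil))))) .nil)))))
(.cons (.keep [2,5,6,7,8] (.node (.cons (.leaf 1 [(3,1),(6,1)]) (.cons (.keep [2,4,6,8,9] (.node (.cons (.leaf 1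
[(5,1)]) (.cons (.leaf 2 [(9,1),(6,2),(7,1)]) (.cons (.keep [0,6,7,8,9] (.node (.cons (.leaf 2 [(3,2),(7,1),(9,1)])
(.cons (.keep [5,7,8,9] (.node (.cons (.leaf 2 [(8,1),(5,1)]) (.cons (.keep [4,6,7] (.node (.cons (.keep [5,7] (.node
(.cons (.leaf 2 [(6,1),(5,3)]) (.cons (.leaf 2 [(6,1),(5,3),(2,3)]) (.cons (.leaf 2 [(6,1),(5,3),(2,3)]) .nil)))))
(.cons (.keep [5] (.node (.cons (.leaf 1 [(5,2)]) (.cons (.leaf 1 [(5,2),(2,1)]) (.cons (.leaf 1 [(5,2),(2,1)])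
.nil))))) (.cons (.keep [3,5,6] (.node (.cons (.leaf 1 [(5,1),(3,2)]) (.cons (.leaf 1 [(7,1),(5,1)]) (.cons (.leaf 1
[(6,1),(3,1)]) .nil))))) .nil))))) (.cons (.keep [6] (.node (.cons (.keep [3,5] (.node (.cons (.leaf 1 [(6,2),(5,1)])
(.cons (.leaf 1 [(6,2),(5,1),(2,1)]) (.cons (.leaf 1 [(6,2),(5,1),(2,1)]) .nil))))) (.cons (.keep [5] (.node (.cons
(.leaf 1 [(5,2)]) (.cons (.leaf 1 [(5,2),(2,1)]) (.cons (.leaf 1 [(5,2),(2,1)]) .nil))))) (.cons (.keep [3,5] (.node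
(.cons (.leaf 1 [(5,1),(3,2)]) (.cons (.leaf 1 [(6,1),(5,1)]) (.cons (.leaf 1 [(5,1),(6,2),(2,1)]) .nil))))) .nil)))))
.nil))))) (.cons (.keep [3,6,7,9] (.node (.cons (.leaf 1 [(3,1)]) (.cons (.keep [4,7,8] (.node (.cons (.keep [5]
(.node (.cons (.leaf 1 [(5,1)]) (.cons (.leaf 1 [(5,1),(2,1)]) (.cons (.leaf 1 [(5,1),(2,1)]) .nil))))) (.cons (.keep
[6,7] (.node (.cons (.leaf 2 [(6,1),(5,3)]) (.cons (.leaf 2 [(5,3),(2,2),(6,1)]) (.cons (.leaf 2 [(5,3),(2,2),(6,1)])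
.nil))))) (.cons (.keep [3,6,7] (.node (.cons (.leaf 2 [(7,1),(6,3),(5,2)]) (.cons (.leaf 1 [(6,1),(5,1)]) (.cons
(.leaf 2 [(6,3),(2,2),(5,2),(7,1)]) .nil))))) .nil))))) (.cons (.keep [5,6,7] (.node (.cons (.keep [3,5] (.node (.cons
(.leaf 1 [(6,1),(5,1)]) (.cons (.leaf 1 [(6,1),(5,1),(2,1)]) (.cons (.leaf 1 [(6,1),(5,1),(2,1)]) .nil))))) (.cons
(.keep [5,7] (.node (.cons (.leaf 1 [(5,1),(6,2)]) (.cons (.leaf 1 [(6,2),(2,1),(5,1)]) (.cons (.leaf 1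
[(6,2),(2,1),(5,1)]) .nil))))) (.cons (.keep [3,5,6,7] (.node (.cons (.leaf 1 [(3,2),(7,1)]) (.cons (.leaf 1
[(8,1),(5,1)]) (.cons (.leaf 1 [(6,1),(8,2),(5,1),(2,1)]) .nil))))) .nil))))) .nil))))) .nil))))) .nil))))) (.cons
(.keep [3,5,6,7,9] (.node (.cons (.leaf 2 [(7,1)]) (.cons (.leaf 2 [(9,1),(7,1)]) (.cons (.keep [0,5,6,7,8,9] (.node
(.cons (.leaf 1 [(3,1),(9,1)]) (.cons (.keep [5,6,7,8] (.node (.cons (.leaf 1 [(6,1),(5,1)]) (.cons (.keep [0,6]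
(.node (.cons (.keep [3,6] (.node (.cons (.leaf 1 [(6,1),(5,1)]) (.cons (.leaf 1 [(6,1),(5,1),(2,1)]) (.cons (.leaf 1
[(6,1),(5,1),(2,1)]) .nil))))) (.cons (.keep [5,6] (.node (.cons (.leaf 1 [(6,2),(5,2)]) (.cons (.leaf 1
[(6,2),(5,2),(2,1)]) (.cons (.leaf 1 [(6,2),(5,2),(2,1)]) .nil))))) (.cons (.keep [0,3,6] (.node (.cons (.leaf 1
[(6,1),(3,2)]) (.cons (.leaf 1 [(7,1),(5,1),(6,1)]) (.cons (.leaf 1 [(7,1),(0,1),(3,2),(6,1)]) .nil))))) .nil)))))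
(.cons (.keep [6,7,8] (.node (.cons (.keep [3,5] (.node (.cons (.leaf 1 [(6,2),(5,3)]) (.cons (.leaf 1
[(5,3),(2,1),(6,2)]) (.cons (.leaf 1 [(5,3),(2,1),(6,2)]) .nil))))) (.cons (.keep [7] (.node (.cons (.leaf 1 [(5,2)])
(.cons (.leaf 1 [(5,2),(2,1)]) (.cons (.leaf 1 [(5,2),(2,1)]) .nil))))) (.cons (.keep [3,5,6,7] (.node (.cons (.leaf 1
[(5,1),(3,2)]) (.cons (.leaf 1 [(8,1),(5,1)]) (.cons (.leaf 1 [(5,2),(3,2),(7,1),(6,1)]) .nil))))) .nil))))) .nil)))))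
(.cons (.keep [3,6,8,10] (.node (.cons (.leaf 1 [(3,1)]) (.cons (.keep [4,6,7,8] (.node (.cons (.keep [5] (.node
(.cons (.leaf 1 [(5,1)]) (.cons (.leaf 1 [(5,1),(2,1)]) (.cons (.leaf 1 [(5,1),(2,1)]) .nil))))) (.cons (.keep [6,7]
(.node (.cons (.leaf 2 [(5,1),(6,3)]) (.cons (.leaf 2 [(6,3),(2,2),(5,1)]) (.cons (.leaf 2 [(6,3),(2,2),(5,1)])
.nil))))) (.cons (.keep [5,7,8] (.node (.cons (.leaf 1 [(6,1),(5,1)]) (.cons (.leaf 2 [(5,2),(6,1),(7,1)]) (.cons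
(.leaf 2 [(5,2),(6,1),(7,1),(3,2)]) .nil))))) .nil))))) (.cons (.keep [5,6,7] (.node (.cons (.keep [3,6] (.node (.cons
(.leaf 1 [(6,1),(5,2)]) (.cons (.leaf 1 [(6,1),(5,2),(2,1)]) (.cons (.leaf 1 [(6,1),(5,2),(2,1)]) .nil))))) (.cons
(.keep [5,7] (.node (.cons (.leaf 1 [(5,1),(6,2)]) (.cons (.leaf 1 [(6,2),(2,1),(5,1)]) (.cons (.leaf 1
[(6,2),(2,1),(5,1)]) .nil))))) (.cons (.keep [3,7] (.node (.cons (.leaf 1 [(5,1),(3,1),(6,1)]) (.cons (.leaf 1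
[(5,1),(6,1)]) (.cons (.leaf 1 [(3,1),(6,1),(5,1)]) .nil))))) .nil))))) .nil))))) .nil))))) .nil))))) .nil)))))
.nil))))) .nil))))) (.cons (.leaf 1 [(2,1)]) (.cons (.keep [2,5] (.node (.cons (.leaf 2 [(3,2),(6,1),(5,1)]) (.cons
(.keep [5,6] (.spl 3 (.cons (.leaf 2 [(0,1),(2,1),(1,1)]) (.cons (.leaf 1 [(0,1),(1,1)]) .nil)))) (.cons (.keep
[3,5,6] (.spl 3 (.cons (.leaf 2 [(0,1),(3,1),(2,1),(1,2)]) (.cons (.leaf 1 [(0,1),(2,1),(1,1)]) .nil)))) .nil)))))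
.nil))))) .nil)))))

theorem chk : ok4 4 26 dj t = true := by decide +kernel

end Pool.Agent.H50.K4.C426
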