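import Pool.Agent.H4.RD4.Shp

/-!
# Certificates with disjunctions

As `Pool/Agent/H50/Rdb/Check.lean`, but a node of the tree may also split according to a disjunction of inequalities between the
terms `w 0, w 1, ...` (given in a list `Dj`, and assumed for the orbit).
-/

namespace Pool.Agent.H50.K4

open Filter Topology Real
open Pool.Agent.H50.Rdb
open Pool.Agent.H4.RD4 (Near NearL vF negOk negOk_ev nearL_tr stepAt_shift)
open Pool.Agent.H81.RDE (bitsL ESB caseOf)

/-- certificate trees -/
inductive Tr where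
  | leaf (n : ℕ) (l : List (ℕ × ℕ))
  | keep (l : List ℕ) (t : Tr)
  | node (cs : Tr)
  | spl (k : ℕ) (cs : Tr)
  | cons (t rest : Tr)
  | nil

/-- state of the checker -/
inductive Md where
  | nd
  | ch (todo : List (ℕ × ℕ))
  | sp (todo : List (List (ℕ × ℤ)))

/-- a combination of the terms `w i` as a form of the window, with slack one -/
def wf (Ws : List F) : List (ℕ × ℤ) → F
  | [] => ⟨0, 0, 0, 0, 1⟩
  | (i, z) :: l =>
    let f := getF Ws i
    let r := wf Ws l
    ⟨z * f.a + r.a, z * f.b + r.b, z * f.c + r.c, z * f.d + r.d, z.natAbs * f.s + r.s⟩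

/-- the value of a combination of the terms -/
def wv (w : ℕ → ℝ) : List (ℕ × ℤ) → ℝ
  | [] => 0
  | (i, z) :: l => z * w i + wv w l

def inR (n : ℕ) : List (ℕ × ℤ) → Bool
  | [] => true
  | (i, _) :: l => Nat.blt i n && inR n l

def getD (Dj : List (List (List (ℕ × ℤ)))) (k : ℕ) : List (List (ℕ × ℤ)) := Dj.getD k []

def check4 (N D : ℕ) (prs : List (ℕ × ℕ)) (Dj : List (List (List (ℕ × ℤ)))) :
    Tr → F → List F → List F → Md → Bool
  | .leaf n l, Z, H, _, .nd => negOk H Z (n, l)
  | .keep l t, Z, H, Ws, .nd => check4 N D prs Dj t Z (l.map (getF H)) Ws .nd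
  | .node cs, Z, H, Ws, .nd => check4 N D prs Dj cs Z H Ws (.ch prs)
  | .spl k cs, Z, H, Ws, .nd => Nat.blt k Dj.length && check4 N D prs Dj cs Z H Ws (.sp (getD Dj k))
  | .cons t rest, Z, H, Ws, .ch ((s, u) :: todo) =>
    check4 N D prs Dj t (Z.tr s u) (newH N D s u Z H) (Ws.map (F.tr s u) ++ [vF]) .nd &&
      check4 N D prs Dj rest Z H Ws (.ch todo)
  | .cons t rest, Z, H, Ws, .sp (f :: todo) =>
    inR Ws.length f && check4 N D prs Dj t Z (wf Ws f :: H) Ws .nd && check4 N D prs Dj rest Z H Ws (.sp todo)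
  | .nil, _, _, _, .ch [] => true
  | .nil, _, _, _, .sp [] => true
  | _, _, _, _, _ => false

/-- the claim proved by a certificate for the current window -/
def Concl4 (N D : ℕ) (Dj : List (List (List (ℕ × ℤ)))) (Z : F) (H Ws : List F) (md : Md) : Prop :=
  ∃ Q L : ℕ, ∀ (C : ℝ) (w : ℕ → ℝ) (j : ℕ), 0 ≤ C → (∀ i, w i ≤ w 0) →
    (∀ i, j ≤ i → i < j + L → StepAt N D C w i) → (∀ ds ∈ Dj, ∃ f ∈ ds, 0 ≤ wv w f + C) →
    w 0 ≤ Z.ev w j + Z.s * C → (∀ f ∈ H, f.Holds C w j) → Ws.length = j + 4 → NearL C w j 0 Ws →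
    (match md with
      | .nd => True
      | .ch todo => ∃ p ∈ todo, p.1 ∈ bitsL N ∧ p.2 ∈ bitsL D ∧
          (∀ s' ∈ bitsL N, ent w j s' ≤ ent w j p.1) ∧
          (∀ t' ∈ bitsL D, ent w j t' ≤ ent w j p.2) ∧ |w j - (ent w j p.1 - ent w j p.2)| ≤ C
      | .sp todo => ∃ f ∈ todo, 0 ≤ wv w f + C) →
    w 0 ≤ Q * C

theorem near_getF {C : ℝ} {w : ℕ → ℝ} {j : ℕ} : ∀ {Ws : List F} {k i : ℕ}, NearL C w j k Ws → i < Ws.length →
    Near C w j (w (k + i)) (getF Ws i)
  | [], _, _, _, h => by simp at h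
  | _ :: _, _, 0, h, _ => h.1
  | _ :: Ws, k, i + 1, h, hi => by
    have h1 := near_getF (k := k + 1) (i := i) h.2 (by simpa using hi)
    have e : k + 1 + i = k + (i + 1) := by omega
    rwa [e] at h1

theorem wf_ev {C : ℝ} {w : ℕ → ℝ} {j : ℕ} {Ws : List F} (hW : NearL C w j 0 Ws) :
    ∀ f : List (ℕ × ℤ), inR Ws.length f = true → wv w f + C ≤ (wf Ws f).ev w j + (wf Ws f).s * C
  | [], _ => by simp [wv, wf, F.ev]
  | (i, z) :: l, h => by
    simp only [inR, Bool.and_eq_true, Nat.blt_eq] at h
    have h1 := wf_ev hW l h.2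
    have h2 := near_getF hW h.1
    rw [zero_add] at h2
    unfold Near at h2
    have h3 : (z : ℝ) * (w i - (getF Ws i).ev w j) ≤ z.natAbs * ((getF Ws i).s * C) := by
      have e : (z.natAbs : ℝ) = |(z : ℝ)| := by rw [Nat.cast_natAbs, Int.cast_abs]
      rw [e]
      calc (z : ℝ) * (w i - (getF Ws i).ev w j) ≤ |(z : ℝ) * (w i - (getF Ws i).ev w j)| := le_abs_self _
        _ = |(z : ℝ)| * |w i - (getF Ws i).ev w j| := abs_mul _ _
        _ ≤ |(z : ℝ)| * ((getF Ws i).s * C) := mul_le_mul_of_nonneg_left h2 (abs_nonneg _)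
    have e1 : (wf Ws ((i, z) :: l)).ev w j = z * (getF Ws i).ev w j + (wf Ws l).ev w j := by
      simp only [wf, F.ev]
      push_cast
      ring
    have e2 : ((wf Ws ((i, z) :: l)).s : ℝ) = z.natAbs * (getF Ws i).s + (wf Ws l).s := by
      simp only [wf]
      push_cast
      ring
    have e3 : wv w ((i, z) :: l) = z * w i + wv w l := rfl
    rw [e1, e2, e3]
    linarith

theorem check4_sound (N D : ℕ) (Dj : List (List (List (ℕ × ℤ)))) :
    ∀ (t : Tr) (Z : F) (H Ws : List F) (md : Md), check4 N D (pairs N D) Dj t Z H Ws md = true →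
      Concl4 N D Dj Z H Ws md := by
  intro t
  induction t with
  | leaf n l =>
    intro Z H Ws md h
    cases md with
    | nd =>
      simp only [check4] at h
      refine ⟨(combF H l).s + Z.s, 0, fun C w j hC _ _ _ hZ hH _ _ _ => ?_⟩
      have h1 := negOk_ev h hC hH
      simp only at h1
      push_cast
      linarith
    | ch todo => simp [check4] at h
    | sp todo => simp [check4] at h
  | keep l t ih =>
    intro Z H Ws md h
    cases md with
    | ch todo => simp [check4] at h
    | sp todo => simp [check4] at h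
    | nd =>
      simp only [check4] at h
      obtain ⟨Q, L, hQ⟩ := ih Z _ Ws .nd h
      refine ⟨Q, L, fun C w j hC hr hst hd hZ hH hl hW hm => hQ C w j hC hr hst hd hZ ?_ hl hW hm⟩
      intro f hf
      obtain ⟨i, -, rfl⟩ := List.mem_map.1 hf
      exact holds_getF H hH i
  | node ts ih =>
    intro Z H Ws md h
    cases md with
    | ch todo => simp [check4] at h
    | sp todo => simp [check4] at h
    | nd =>
      simp only [check4] at h
      obtain ⟨Q, L, hQ⟩ := ih Z H Ws _ h
      refine ⟨Q, L + 1, fun C w j hC hr hst hd hZ hH hl hW _ => hQ C w j hC hr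
        (fun i h1 h2 => hst i h1 (by omega)) hd hZ hH hl hW ?_⟩
      obtain ⟨s, hs, t, ht, h1, h2, h3⟩ := hst j le_rfl (by omega)
      refine ⟨(s, t), ?_, hs, ht, h1, h2, h3⟩
      unfold pairs
      rw [List.mem_flatMap]
      exact ⟨s, hs, List.mem_map.2 ⟨t, ht, rfl⟩⟩
  | spl k ts ih =>
    intro Z H Ws md h
    cases md with
    | ch todo => simp [check4] at h
    | sp todo => simp [check4] at h
    | nd =>
      simp only [check4, Bool.and_eq_true, Nat.blt_eq] at h
      obtain ⟨Q, L, hQ⟩ := ih Z H Ws _ h.2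
      refine ⟨Q, L, fun C w j hC hr hst hd hZ hH hl hW _ => hQ C w j hC hr hst hd hZ hH hl hW ?_⟩
      have e : getD Dj k = Dj[k] := by
        unfold getD
        rw [List.getD_eq_getElem?_getD, List.getElem?_eq_getElem h.1]
        rfl
      rw [e]
      exact hd _ (List.getElem_mem h.1)
  | cons t rest iht ihr =>
    intro Z H Ws md h
    cases md with
    | nd => simp [check4] at h
    | sp todo =>
      cases todo with
      | nil => simp [check4] at h
      | cons f todo =>
        simp only [check4, Bool.and_eq_true] at h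
        obtain ⟨Q1, L1, h1⟩ := iht _ _ _ _ h.1.2
        obtain ⟨Q2, L2, h2⟩ := ihr _ _ _ _ h.2
        refine ⟨Q1 + Q2, L1 + L2, fun C w j hC hr hst hd hZ hH hl hW hm => ?_⟩
        obtain ⟨g, hg, hg2⟩ := hm
        have q1 : 0 ≤ (Q1 : ℝ) * C := mul_nonneg (Nat.cast_nonneg _) hC
        have q2 : 0 ≤ (Q2 : ℝ) * C := mul_nonneg (Nat.cast_nonneg _) hC
        rcases List.mem_cons.1 hg with rfl | hg
        · have h3 := h1 C w j hC hr (fun i h1 h2 => hst i h1 (by omega)) hd hZ (by
            intro f hf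
            rcases List.mem_cons.1 hf with rfl | hf
            · unfold F.Holds
              exact hg2.trans (wf_ev hW g h.1.1)
            · exact hH f hf) hl hW trivial
          push_cast
          linarith
        · have h3 := h2 C w j hC hr (fun i h1 h2 => hst i h1 (by omega)) hd hZ hH hl hW ⟨g, hg, hg2⟩
          push_cast
          linarith
    | ch todo =>
      cases todo with
      | nil => simp [check4] at h
      | cons p todo =>
        obtain ⟨s, u⟩ := p
        simp only [check4, Bool.and_eq_true] at h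
        obtain ⟨Q1, L1, h1⟩ := iht _ _ _ _ h.1
        obtain ⟨Q2, L2, h2⟩ := ihr _ _ _ _ h.2
        refine ⟨Q1 + Q2, L1 + L2 + 1, fun C w j hC hr hst hd hZ hH hl hW hm => ?_⟩
        obtain ⟨p, hp, hp1, hp2, hp3, hp4, hp5⟩ := hm
        rcases List.mem_cons.1 hp with rfl | hp
        · have hs5 := (mem_bitsL.1 hp1).1
          have hu5 := (mem_bitsL.1 hp2).1
          have hZ' : w 0 ≤ (Z.tr s u).ev w (j + 1) + (Z.tr s u).s * C := by
            have := ev_tr Z hs5 hu5 hp5
            have e : ((Z.tr s u).s : ℝ) = Z.s + Z.a.natAbs := by simp [F.tr]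
            rw [e]
            linarith
          have := h1 C w (j + 1) hC hr (fun i h1 h2 => hst i (by omega) (by omega)) hd hZ' (by
            intro f hf
            unfold newH at hf
            simp only [List.mem_append, List.mem_cons, List.mem_map] at hf
            rcases hf with (rfl | ⟨s', hs', rfl⟩) | ⟨t', ht', rfl⟩ | ⟨g, hg, rfl⟩
            · have h4 := hr (j + 1 + 3)
              unfold F.Holds
              have e : (recF (Z.tr s u)).ev w (j + 1) = (Z.tr s u).ev w (j + 1) - w (j + 1 + 3) := by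
                simp only [recF, F.ev]
                push_cast
                ring
              have e2 : (recF (Z.tr s u)).s = (Z.tr s u).s := rfl
              rw [e, e2]
              linarith
            · unfold F.Holds
              rw [ev_dif s s' w j hs5 (mem_bitsL.1 hs').1]
              have := hp3 s' hs'
              have e2 : (dif s s').s = 0 := rfl
              rw [e2]
              push_cast
              linarith
            · unfold F.Holds
              rw [ev_dif u t' w j hu5 (mem_bitsL.1 ht').1]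
              have := hp4 t' ht'
              have e2 : (dif u t').s = 0 := rfl
              rw [e2]
              push_cast
              linarith
            · exact holds_tr hs5 hu5 hp5 (hH g hg)) (by
              simp only [List.length_append, List.length_map, List.length_cons, List.length_nil]
              omega) (nearL_tr hs5 hu5 hC hp5 Ws 0 (by omega) hW) trivial
          have h0 : 0 ≤ (Q2 : ℝ) * C := mul_nonneg (Nat.cast_nonneg _) hC
          push_cast
          linarith
        · have := h2 C w j hC hr (fun i h1 h2 => hst i h1 (by omega)) hd hZ hH hl hW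
            ⟨p, hp, hp1, hp2, hp3, hp4, hp5⟩
          have h0 : 0 ≤ (Q1 : ℝ) * C := mul_nonneg (Nat.cast_nonneg _) hC
          push_cast
          linarith
  | nil =>
    intro Z H Ws md h
    cases md with
    | nd => simp [check4] at h
    | ch todo =>
      cases todo with
      | nil =>
        refine ⟨0, 0, fun C w j hC hr hst hd hZ hH hl hW hm => ?_⟩
        obtain ⟨p, hp, -⟩ := hm
        simp at hp
      | cons p todo => simp [check4] at h
    | sp todo =>
      cases todo with
      | nil =>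
        refine ⟨0, 0, fun C w j hC hr hst hd hZ hH hl hW hm => ?_⟩
        obtain ⟨p, hp, -⟩ := hm
        simp at hp
      | cons p todo => simp [check4] at h

def W0 : List F := [⟨1, 0, 0, 0, 0⟩, ⟨0, 1, 0, 0, 0⟩, ⟨0, 0, 1, 0, 0⟩, ⟨0, 0, 0, 1, 0⟩]

/-- the whole check -/
def ok4 (N D : ℕ) (Dj : List (List (List (ℕ × ℤ)))) (t : Tr) : Bool :=
  Nat.blt N 32 && Nat.blt D 32 && Nat.blt 0 N && Nat.blt 0 D && check4 N D (pairs N D) Dj t Z0 H0 W0 .nd

/-- **The certificates are sound.** -/
theorem false_of_ok4 {N D : ℕ} {Dj : List (List (List (ℕ × ℤ)))} {t : Tr} (h : ok4 N D Dj t = true)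
    {a b : ℕ → ℝ} (ha : Pat N a) (hb : Pat D b) {l : Ultrafilter ℕ} {X : ℕ → ℕ → ℝ} (hX : Back a b l X)
    (hD : ∀ ds ∈ Dj, ∃ B : ℝ, ∀ᶠ i in (l : Filter ℕ), ∃ f ∈ ds, 0 ≤ wv (fun j => log (X i j)) f + B) : False := by
  simp only [ok4, Bool.and_eq_true, Nat.blt_eq] at h
  obtain ⟨⟨⟨⟨hN, hDD⟩, hN1⟩, hD1⟩, hc⟩ := h
  obtain ⟨C1, hC1, hstep⟩ := exists_stepAt hN hN1.ne' hDD hD1.ne' ha hb
  obtain ⟨Q, L, hQ⟩ := check4_sound N D Dj t _ _ _ _ hc
  have hB : ∃ B : ℝ, ∀ ds ∈ Dj, ∀ᶠ i in (l : Filter ℕ), ∃ f ∈ ds, 0 ≤ wv (fun j => log (X i j)) f + B := by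
    clear hQ hc
    induction Dj with
    | nil => exact ⟨0, fun ds hds => by simp at hds⟩
    | cons d Dj ih =>
      obtain ⟨B1, h1⟩ := ih fun ds hds => hD ds (List.mem_cons_of_mem _ hds)
      obtain ⟨B2, h2⟩ := hD d List.mem_cons_self
      refine ⟨max B1 B2, fun ds hds => ?_⟩
      rcases List.mem_cons.1 hds with rfl | hds
      · filter_upwards [h2] with i hi
        obtain ⟨f, hf, hf2⟩ := hi
        exact ⟨f, hf, hf2.trans (by linarith [le_max_right B1 B2])⟩
      · filter_upwards [h1 ds hds] with i hi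
        obtain ⟨f, hf, hf2⟩ := hi
        exact ⟨f, hf, hf2.trans (by linarith [le_max_left B1 B2])⟩
  obtain ⟨B, hB⟩ := hB
  obtain ⟨C, hCd⟩ : ∃ C : ℝ, C = max C1 B := ⟨_, rfl⟩
  have hCC : C1 ≤ C := by rw [hCd]; exact le_max_left _ _
  have hCB : B ≤ C := by rw [hCd]; exact le_max_right _ _
  have hC : 0 ≤ C := hC1.trans hCC
  have e1 : ∀ᶠ i in (l : Filter ℕ), ∀ j ∈ Finset.range L,
      X i j * lin b (X i (j + 1)) (X i (j + 2)) (X i (j + 3)) (X i (j + 4)) =
        lin a (X i (j + 1)) (X i (j + 2)) (X i (j + 3)) (X i (j + 4)) :=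
    (Finset.eventually_all _).2 fun j _ => hX.step j
  have e2 : ∀ᶠ i in (l : Filter ℕ), exp (Q * C) < X i 0 := hX.top.eventually_gt_atTop _
  have e3 : ∀ᶠ i in (l : Filter ℕ), ∀ ds ∈ Dj, ∃ f ∈ ds, 0 ≤ wv (fun j => log (X i j)) f + B := by
    clear hQ hc hD
    induction Dj with
    | nil => exact Eventually.of_forall fun i ds hds => by simp at hds
    | cons d Dj ih =>
      filter_upwards [ih fun ds hds => hB ds (List.mem_cons_of_mem _ hds), hB d List.mem_cons_self] with i h1 h2
      intro ds hds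
      rcases List.mem_cons.1 hds with rfl | hds
      · exact h2
      · exact h1 ds hds
  obtain ⟨i, h1, h2, h3⟩ := (e1.and (e2.and e3)).exists
  have hle : ∀ n, log (X i n) ≤ log (X i 0) := fun n => log_le_log (hX.pos i n) (hX.le i n)
  have h4 := hQ C (fun n => log (X i n)) 0 hC hle
    (fun j _ hj => by
      have := hstep (X i) j (hX.pos i) (h1 j (Finset.mem_range.2 (by omega)))
      obtain ⟨s, hs, t, ht, g1, g2, g3⟩ := this
      exact ⟨s, hs, t, ht, g1, g2, g3.trans hCC⟩)
    (fun ds hds => by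
      obtain ⟨f, hf, hf2⟩ := h3 ds hds
      exact ⟨f, hf, hf2.trans (by linarith)⟩)
    (by simp [Z0, F.ev]) (by
      intro f hf
      unfold H0 at hf
      simp only [List.mem_cons, List.not_mem_nil, or_false] at hf
      rcases hf with rfl | rfl | rfl
      · have := hle 1; simp [F.Holds, F.ev]; linarith
      · have := hle 2; simp [F.Holds, F.ev]; linarith
      · have := hle 3; simp [F.Holds, F.ev]; linarith) rfl (by
      simp only [W0, NearL, Near, F.ev]
      simp) trivial
  have h5 : (Q : ℝ) * C < log (X i 0) := by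
    rw [lt_log_iff_exp_lt (hX.pos i 0)]
    exact h2
  linarith

end Pool.Agent.H50.K4
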