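import Pool.Agent.H50.Rdb.Misc
import Pool.Agent.H50.K4.C418
import Pool.Agent.H50.K4.C424
import Pool.Agent.H50.K4.C426
import Pool.Agent.H50.K4.C1226

/-!
# The cases `(4, 18)`, `(4, 24)`, `(4, 26)`, `(12, 26)`

Every solution is bounded.
-/

namespace Pool.Agent.H50.K4

open Filter Topology Real
open Pool.Agent.H50.Rdb
open Pool.Agent.H81.RDE (bitsL ESB caseOf)

theorem fam_of {N D : ℕ} {a b : ℕ → ℝ} (ha : Pat N a) (hb : Pat D b) (h0 : N.testBit 0 = false)
    (h1 : N.testBit 1 = false) (h2 : N.testBit 2 = true) (k0 : D.testBit 0 = false) (k2 : D.testBit 2 = false)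
    (k4 : D.testBit 4 = true) : Fam a b where
  a0 := ha.zero (by norm_num) h0
  a1 := ha.zero (by norm_num) h1
  a2 := ha.pos (by norm_num) h2
  a3 := ha.nonneg (by norm_num)
  a4 := ha.nonneg (by norm_num)
  b0 := hb.zero (by norm_num) k0
  b1 := hb.nonneg (by norm_num)
  b2 := hb.zero (by norm_num) k2
  b3 := hb.nonneg (by norm_num)
  b4 := hb.pos (by norm_num) k4

/-- positive solutions are bounded, from a certificate -/
theorem pos_bdd {N D : ℕ} {dj : List (List (List (ℕ × ℤ)))} {t : Tr} (h : ok4 N D dj t = true) {a b : ℕ → ℝ}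
    (ha : Pat N a) (hb : Pat D b) (hf : Fam a b)
    (hd : ∀ ds ∈ dj, (∃ j, ds = low j) ∨ ∀ (l : Ultrafilter ℕ) (X : ℕ → ℕ → ℝ), Back a b l X →
      ∃ B : ℝ, ∀ᶠ i in (l : Filter ℕ), ∃ f ∈ ds, 0 ≤ wv (fun j => log (X i j)) f + B) {x : ℕ → ℝ}
    (hx : PosSol a b x) : ∃ M, ∀ n, x n ≤ M := by
  by_contra hu
  obtain ⟨l, N', hN', hX⟩ := exists_back hx hu
  refine false_of_ok4 h ha hb hX fun ds hds => ?_
  rcases hd ds hds with ⟨j, rfl⟩ | h1
  · exact low_holds hf hx hN' hX j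
  · exact h1 l _ hX

theorem pos_of_den {b x : ℕ → ℝ} {n : ℕ} (h : 0 < lin b (x (n + 3)) (x (n + 2)) (x (n + 1)) (x n)) :
    lin b (x (n + 3)) (x (n + 2)) (x (n + 1)) (x n) ≠ 0 := h.ne'

/-- eventually positive solutions -/
theorem bdd_of_ev {a b : ℕ → ℝ} (hp : ∀ x, PosSol a b x → ∃ M, ∀ n, x n ≤ M) {x : ℕ → ℝ} (hx : NonnegSol a b x)
    {k : ℕ} (hk : ∀ n, k ≤ n → 0 < x n) : ∃ M, ∀ n, x n ≤ M := by
  obtain ⟨M, hM⟩ := hp (fun n => x (n + k)) ⟨fun n => hk _ (by omega), fun n => by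
    have h := hx.2 (n + k)
    have e4 : n + 4 + k = n + k + 4 := by omega
    have e3 : n + 3 + k = n + k + 3 := by omega
    have e2 : n + 2 + k = n + k + 2 := by omega
    have e1 : n + 1 + k = n + k + 1 := by omega
    show x (n + 4 + k) * lin b (x (n + 3 + k)) (x (n + 2 + k)) (x (n + 1 + k)) (x (n + k)) =
      lin a (x (n + 3 + k)) (x (n + 2 + k)) (x (n + 1 + k)) (x (n + k))
    rw [e4, e3, e2, e1, h.2]
    exact div_mul_cancel₀ _ h.1.ne'⟩
  exact bdd_of_tail hx.1 (k := k) (M := M) fun n hn => by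
    have := hM (n - k)
    rwa [show n - k + k = n by omega] at this

/-- a sequence of period six -/
theorem per6 {a2 b4 : ℝ} (hb4 : 0 < b4) {y : ℕ → ℝ} (hy : ∀ k, 0 < y k)
    (h : ∀ k, y (k + 2) * (b4 * y k) = a2 * y (k + 1)) : ∀ k, y k ≤ ∑ t ∈ Finset.range 6, y t := by
  have h3 : ∀ k, y (k + 3) * y k * b4 ^ 2 = a2 ^ 2 := by
    intro k
    have h1 := h k
    have h2 := h (k + 1)
    rw [show k + 1 + 2 = k + 3 from rfl, show k + 1 + 1 = k + 2 from rfl] at h2
    have p1 := hy (k + 1)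
    have p2 := hy (k + 2)
    have : (y (k + 3) * y k * b4 ^ 2) * (y (k + 1) * y (k + 2)) = a2 ^ 2 * (y (k + 1) * y (k + 2)) := by
      linear_combination (y (k + 2) * (b4 * y k)) * h2 + (a2 * y (k + 2)) * h1
    exact mul_right_cancel₀ (mul_pos p1 p2).ne' this
  have h6 : ∀ k, y (k + 6) = y k := by
    intro k
    have h1 := h3 k
    have h2 := h3 (k + 3)
    rw [show k + 3 + 3 = k + 6 from rfl] at h2
    have p := hy (k + 3)
    have : y (k + 6) * (y (k + 3) * b4 ^ 2) = y k * (y (k + 3) * b4 ^ 2) := by linarith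
    exact mul_right_cancel₀ (mul_pos p (by positivity)).ne' this
  intro k
  induction k using Nat.strong_induction_on with
  | _ k ih =>
    by_cases hk : k < 6
    · exact Finset.single_le_sum (f := y) (fun i _ => (hy i).le) (Finset.mem_range.2 hk)
    · obtain ⟨j, rfl⟩ : ∃ j, k = j + 6 := ⟨k - 6, by omega⟩
      rw [h6]
      exact ih j (by omega)

/-- the numerator `a₂ x_(n-2)`: a zero in the initial window -/
theorem bdd_of_zero {a b : ℕ → ℝ} (hf : Fam a b) (ha3 : a 3 = 0) (ha4 : a 4 = 0) {x : ℕ → ℝ} (hx : NonnegSol a b x)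
    {p : ℕ} (hp2 : 2 ≤ p) (hp : x p = 0) : ∃ M, ∀ n, x n ≤ M := by
  have hs : ∀ n, x (n + 4) * lin b (x (n + 3)) (x (n + 2)) (x (n + 1)) (x n) = a 2 * x (n + 2) := by
    intro n
    have h := hx.2 n
    rw [h.2, div_mul_cancel₀ _ h.1.ne']
    unfold lin
    rw [hf.a0, hf.a1, ha3, ha4]
    ring
  have hz : ∀ k, x (p + 2 * k) = 0 := by
    intro k
    induction k with
    | zero => exact hp
    | succ k ih =>
      obtain ⟨m, hm⟩ : ∃ m, p + 2 * k = m + 2 := ⟨p + 2 * k - 2, by omega⟩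
      have h2 := (hx.2 m).1
      have h0 : x (m + 2) = 0 := by rw [← hm]; exact ih
      have h1 : x (m + 4) * lin b (x (m + 3)) (x (m + 2)) (x (m + 1)) (x m) = 0 := by
        rw [hs m, h0, mul_zero]
      have e : p + 2 * (k + 1) = m + 4 := by omega
      rw [e]
      exact (mul_eq_zero.1 h1).resolve_right h2.ne'
  have hD : ∀ k, 0 < x (p + 1 + 2 * k) ∧
      x (p + 1 + 2 * (k + 2)) * (b 4 * x (p + 1 + 2 * k)) = a 2 * x (p + 1 + 2 * (k + 1)) := by
    intro k
    have h1 := hs (p + 1 + 2 * k)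
    have h2 := (hx.2 (p + 1 + 2 * k)).1
    have z3 : x (p + 1 + 2 * k + 3) = 0 := by
      have := hz (k + 2)
      rwa [show p + 2 * (k + 2) = p + 1 + 2 * k + 3 by ring] at this
    have z1 : x (p + 1 + 2 * k + 1) = 0 := by
      have := hz (k + 1)
      rwa [show p + 2 * (k + 1) = p + 1 + 2 * k + 1 by ring] at this
    unfold lin at h1 h2
    rw [z3, z1, hf.b0, hf.b2] at h1 h2
    have e1 : p + 1 + 2 * (k + 2) = p + 1 + 2 * k + 4 := by ring
    have e2 : p + 1 + 2 * (k + 1) = p + 1 + 2 * k + 2 := by ring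
    rw [e1, e2]
    refine ⟨?_, by linarith⟩
    have h3 : 0 < b 4 * x (p + 1 + 2 * k) := by linarith
    exact pos_of_mul_pos_right h3 hf.b4.le
  have hper := per6 hf.b4 (y := fun k => x (p + 1 + 2 * k)) (fun k => (hD k).1) (fun k => (hD k).2)
  refine bdd_of_tail hx.1 (k := p) (M := ∑ t ∈ Finset.range 6, x (p + 1 + 2 * t)) fun n hn => ?_
  obtain ⟨m, rfl⟩ : ∃ m, n = p + m := ⟨n - p, by omega⟩
  rcases Nat.even_or_odd m with ⟨k, hk⟩ | ⟨k, hk⟩
  · rw [show p + m = p + 2 * k by omega, hz k]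
    exact Finset.sum_nonneg fun t _ => hx.1 _
  · rw [show p + m = p + 1 + 2 * k by omega]
    exact hper k

/-- numerator `a₂ x_(n-2)` -/
theorem bdd_four {a b : ℕ → ℝ} (hf : Fam a b) (ha3 : a 3 = 0) (ha4 : a 4 = 0)
    (hp : ∀ x, PosSol a b x → ∃ M, ∀ n, x n ≤ M) {x : ℕ → ℝ} (hx : NonnegSol a b x) : ∃ M, ∀ n, x n ≤ M := by
  by_cases h2 : x 2 = 0
  · exact bdd_of_zero hf ha3 ha4 hx le_rfl h2
  by_cases h3 : x 3 = 0
  · exact bdd_of_zero hf ha3 ha4 hx (by norm_num) h3
  have p2 : 0 < x 2 := lt_of_le_of_ne (hx.1 2) (Ne.symm h2)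
  have p3 : 0 < x 3 := lt_of_le_of_ne (hx.1 3) (Ne.symm h3)
  refine bdd_of_ev hp hx (k := 2) fun n hn => ?_
  obtain ⟨k, rfl⟩ : ∃ k, n = k + 2 := ⟨n - 2, by omega⟩
  clear hn
  induction k using Nat.strong_induction_on with
  | _ k ih =>
    by_cases hk : k < 2
    · have : k = 0 ∨ k = 1 := by omega
      rcases this with rfl | rfl
      · exact p2
      · exact p3
    · obtain ⟨j, rfl⟩ : ∃ j, k = j + 2 := ⟨k - 2, by omega⟩
      have h := hx.2 j
      rw [show j + 2 + 2 = j + 4 from rfl, h.2]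
      refine div_pos ?_ h.1
      unfold lin
      rw [hf.a0, hf.a1, ha3, ha4]
      have := mul_pos hf.a2 (ih j (by omega))
      linarith

/-- numerator `a₂ x_(n-2) + a₃ x_(n-3)` -/
theorem bdd_twelve {a b : ℕ → ℝ} (hf : Fam a b) (ha3 : 0 < a 3)
    (hp : ∀ x, PosSol a b x → ∃ M, ∀ n, x n ≤ M) {x : ℕ → ℝ} (hx : NonnegSol a b x) : ∃ M, ∀ n, x n ≤ M := by
  have hst : ∀ n, (0 < x (n + 2) ∨ 0 < x (n + 1)) → 0 < x (n + 4) := by
    intro n hn
    have h := hx.2 n
    rw [h.2]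
    refine div_pos ?_ h.1
    unfold lin
    rw [hf.a0, hf.a1]
    have q2 := mul_nonneg hf.a2.le (hx.1 (n + 2))
    have q3 := mul_nonneg ha3.le (hx.1 (n + 1))
    have q4 := mul_nonneg hf.a4 (hx.1 n)
    rcases hn with h1 | h1
    · have := mul_pos hf.a2 h1
      linarith
    · have := mul_pos ha3 h1
      linarith
  have hex : ∃ p, 1 ≤ p ∧ 0 < x p := by
    by_contra hcon
    push Not at hcon
    have hz : ∀ p, 1 ≤ p → x p = 0 := fun p hp => le_antisymm (hcon p hp) (hx.1 p)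
    have h := (hx.2 1).1
    unfold lin at h
    rw [hf.b0, hz (1 + 3) (by norm_num), hz (1 + 2) (by norm_num), hz (1 + 1) (by norm_num), hz 1 le_rfl] at h
    linarith
  obtain ⟨p, hp1, hp0⟩ := hex
  have h3 : 0 < x (p + 3) := by
    obtain ⟨m, rfl⟩ : ∃ m, p = m + 1 := ⟨p - 1, by omega⟩
    exact hst m (Or.inr hp0)
  refine bdd_of_ev hp hx (k := p + 5) fun n hn => ?_
  obtain ⟨k, rfl⟩ : ∃ k, n = p + 5 + k := ⟨n - (p + 5), by omega⟩
  clear hn
  induction k using Nat.strong_induction_on with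
  | _ k ih =>
    by_cases hk : k < 2
    · have : k = 0 ∨ k = 1 := by omega
      rcases this with rfl | rfl
      · have := hst (p + 1) (Or.inl h3)
        exact this
      · have := hst (p + 2) (Or.inr h3)
        exact this
    · obtain ⟨j, rfl⟩ : ∃ j, k = j + 2 := ⟨k - 2, by omega⟩
      have h4 := hst (p + 5 + j - 2) (Or.inl (by
        rw [show p + 5 + j - 2 + 2 = p + 5 + j by omega]
        exact ih j (by omega)))
      rwa [show p + 5 + j - 2 + 4 = p + 5 + (j + 2) by omega] at h4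

theorem low_mem {n : ℕ} {ds : List (List (ℕ × ℤ))} (h : ds ∈ (List.range n).map low) : ∃ j, ds = low j := by
  obtain ⟨j, -, rfl⟩ := List.mem_map.1 h
  exact ⟨j, rfl⟩

/-- **the case `(4, 18)`** -/
theorem esb_4_18 : ESB (caseOf 4 4 18) := by
  refine esb_of_nonneg fun a b x ha hb hx => ?_
  have hf := fam_of ha hb (by decide) (by decide) (by decide) (by decide) (by decide) (by decide)
  have ha3 : a 3 = 0 := ha.zero (by norm_num) (by decide)
  have ha4 : a 4 = 0 := ha.zero (by norm_num) (by decide)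
  have hb3 : b 3 = 0 := hb.zero (by norm_num) (by decide)
  have hb1 : 0 < b 1 := hb.pos (by norm_num) (by decide)
  refine bdd_four hf ha3 ha4 (fun y hy => pos_bdd C418.chk ha hb hf (fun ds hds => ?_) hy) hx
  unfold C418.dj at hds
  rcases List.mem_append.1 hds with h | h
  · exact Or.inl (low_mem h)
  · refine Or.inr fun l X hX => ?_
    simp only [List.mem_cons, List.not_mem_nil, or_false] at h
    rcases h with rfl | rfl
    · exact sec_holds hf.a1 hf.a0 hf.a2 ha3 ha4 hf.b0 hf.b1 hf.b2 hf.b3 hf.b4 (by simp) (by simp) (Or.inr hb3) hX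
        (Or.inl rfl) (by simp) hb1
    · exact sec_holds hf.a1 hf.a0 hf.a2 ha3 ha4 hf.b0 hf.b1 hf.b2 hf.b3 hf.b4 (by simp) (by simp) (Or.inr hb3) hX
        (Or.inr rfl) (by simp) hb1

/-- **the case `(4, 24)`** -/
theorem esb_4_24 : ESB (caseOf 4 4 24) := by
  refine esb_of_nonneg fun a b x ha hb hx => ?_
  have hf := fam_of ha hb (by decide) (by decide) (by decide) (by decide) (by decide) (by decide)
  have ha3 : a 3 = 0 := ha.zero (by norm_num) (by decide)
  have ha4 : a 4 = 0 := ha.zero (by norm_num) (by decide)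
  have hb1 : b 1 = 0 := hb.zero (by norm_num) (by decide)
  have hb3 : 0 < b 3 := hb.pos (by norm_num) (by decide)
  refine bdd_four hf ha3 ha4 (fun y hy => pos_bdd C424.chk ha hb hf (fun ds hds => ?_) hy) hx
  unfold C424.dj at hds
  rcases List.mem_append.1 hds with h | h
  · exact Or.inl (low_mem h)
  · refine Or.inr fun l X hX => ?_
    simp only [List.mem_cons, List.not_mem_nil, or_false] at h
    rcases h with rfl | rfl
    · exact sec_holds hf.a1 hf.a0 hf.a2 ha3 ha4 hf.b0 hf.b1 hf.b2 hf.b3 hf.b4 (by simp) (Or.inr hb1) (by simp) hX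
        (Or.inl rfl) (by simp) hb3
    · exact sec_holds hf.a1 hf.a0 hf.a2 ha3 ha4 hf.b0 hf.b1 hf.b2 hf.b3 hf.b4 (by simp) (Or.inr hb1) (by simp) hX
        (Or.inr rfl) (by simp) hb3

/-- **the case `(4, 26)`** -/
theorem esb_4_26 : ESB (caseOf 4 4 26) := by
  refine esb_of_nonneg fun a b x ha hb hx => ?_
  have hf := fam_of ha hb (by decide) (by decide) (by decide) (by decide) (by decide) (by decide)
  have ha3 : a 3 = 0 := ha.zero (by norm_num) (by decide)
  have ha4 : a 4 = 0 := ha.zero (by norm_num) (by decide)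
  have hb1 : 0 < b 1 := hb.pos (by norm_num) (by decide)
  have hb3 : 0 < b 3 := hb.pos (by norm_num) (by decide)
  refine bdd_four hf ha3 ha4 (fun y hy => pos_bdd C426.chk ha hb hf (fun ds hds => ?_) hy) hx
  unfold C426.dj at hds
  rcases List.mem_append.1 hds with h | h
  · exact Or.inl (low_mem h)
  · refine Or.inr fun l X hX => ?_
    simp only [List.mem_cons, List.not_mem_nil, or_false] at h
    rcases h with rfl | rfl | rfl | rfl
    · exact sec_holds hf.a1 hf.a0 hf.a2 ha3 ha4 hf.b0 hf.b1 hf.b2 hf.b3 hf.b4 (by simp) (by simp) (by simp) hX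
        (Or.inl rfl) (by simp) hb1
    · exact sec_holds hf.a1 hf.a0 hf.a2 ha3 ha4 hf.b0 hf.b1 hf.b2 hf.b3 hf.b4 (by simp) (by simp) (by simp) hX
        (Or.inl rfl) (by simp) hb3
    · exact sec_holds hf.a1 hf.a0 hf.a2 ha3 ha4 hf.b0 hf.b1 hf.b2 hf.b3 hf.b4 (by simp) (by simp) (by simp) hX
        (Or.inr rfl) (by simp) hb1
    · exact sec_holds hf.a1 hf.a0 hf.a2 ha3 ha4 hf.b0 hf.b1 hf.b2 hf.b3 hf.b4 (by simp) (by simp) (by simp) hX
        (Or.inr rfl) (by simp) hb3

/-- **the case `(12, 26)`** -/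
theorem esb_12_26 : ESB (caseOf 4 12 26) := by
  refine esb_of_nonneg fun a b x ha hb hx => ?_
  have hf := fam_of ha hb (by decide) (by decide) (by decide) (by decide) (by decide) (by decide)
  have ha3 : 0 < a 3 := ha.pos (by norm_num) (by decide)
  refine bdd_twelve hf ha3 (fun y hy => pos_bdd C1226.chk ha hb hf (fun ds hds => ?_) hy) hx
  exact Or.inl (low_mem hds)

end Pool.Agent.H50.K4
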