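import Pool.Agent.H50.K4.Chk

/-!
# Backward orbits of a fixed solution

If a positive solution is unbounded there is a backward orbit made of its records. If moreover `a₀ = a₁ = b₀ = b₂ = 0` and
`a₂, b₄ > 0` then two consecutive terms of the backward orbit are never both smaller than `c / X_0`
(otherwise all earlier terms of the solution would be small, down to the initial window).
-/

namespace Pool.Agent.H50.K4

open Filter Topology Real
open Pool.Agent.H50.Rdb
open Pool.Agent.H81.RDE (bitsL ESB caseOf)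

/-- the records of an unbounded positive solution -/
theorem exists_back {a b : ℕ → ℝ} {x : ℕ → ℝ} (hx : PosSol a b x) (hu : ¬ ∃ M, ∀ n, x n ≤ M) :
    ∃ (l : Ultrafilter ℕ) (N : ℕ → ℕ), Tendsto N l atTop ∧ Back a b l (fun i j => x (N i - j)) := by
  push Not at hu
  have key : ∀ i : ℕ, ∃ N : ℕ, i ≤ N ∧ (i : ℝ) < x N ∧ ∀ t ≤ N, x t ≤ x N := by
    intro i
    obtain ⟨n, hn⟩ := hu (i + ∑ t ∈ Finset.range i, x t)
    have hs : 0 ≤ ∑ t ∈ Finset.range i, x t := Finset.sum_nonneg fun t _ => (hx.1 t).le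
    have hi0 : (0 : ℝ) ≤ i := Nat.cast_nonneg i
    obtain ⟨N, hN, hmax⟩ := Finset.exists_max_image (Finset.range (n + 1)) x ⟨0, by simp⟩
    rw [Finset.mem_range] at hN
    have hnN : x n ≤ x N := hmax n (by simp)
    refine ⟨N, ?_, by linarith, fun t ht' => hmax t (by rw [Finset.mem_range]; omega)⟩
    by_contra hlt
    push Not at hlt
    have h1 : x N ≤ ∑ t ∈ Finset.range i, x t :=
      Finset.single_le_sum (f := x) (fun t _ => (hx.1 t).le) (Finset.mem_range.2 hlt)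
    linarith
  choose N hN hi hmax using key
  have hl : ((hyperfilter ℕ : Ultrafilter ℕ) : Filter ℕ) ≤ atTop := Nat.hyperfilter_le_atTop
  have hNt : Tendsto N (hyperfilter ℕ : Filter ℕ) atTop := (tendsto_atTop_mono hN tendsto_id).mono_left hl
  refine ⟨hyperfilter ℕ, N, hNt, ⟨?_, ?_, ?_, ?_⟩⟩
  · intro j
    filter_upwards [hNt.eventually (eventually_ge_atTop (j + 4))] with i hij
    have e0 : N i - j = (N i - j - 4) + 4 := by omega
    have e1 : N i - (j + 1) = (N i - j - 4) + 3 := by omega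
    have e2 : N i - (j + 2) = (N i - j - 4) + 2 := by omega
    have e3 : N i - (j + 3) = (N i - j - 4) + 1 := by omega
    have e4 : N i - (j + 4) = (N i - j - 4) := by omega
    have := hx.2 (N i - j - 4)
    rw [e0, e1, e2, e3, e4]
    exact this
  · exact fun i j => hx.1 _
  · exact fun i j => hmax i _ (Nat.sub_le _ _)
  · refine tendsto_atTop_mono (fun i => (hi i).le) ?_
    exact (tendsto_natCast_atTop_atTop).mono_left hl

/-- the coefficients of the family -/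
structure Fam (a b : ℕ → ℝ) : Prop where
  a0 : a 0 = 0
  a1 : a 1 = 0
  a2 : 0 < a 2
  a3 : 0 ≤ a 3
  a4 : 0 ≤ a 4
  b0 : b 0 = 0
  b1 : 0 ≤ b 1
  b2 : b 2 = 0
  b3 : 0 ≤ b 3
  b4 : 0 < b 4

/-- one step down -/
theorem low_step {a b : ℕ → ℝ} (hf : Fam a b) : ∃ c : ℝ, 0 < c ∧ ∀ x, PosSol a b x → ∀ M : ℝ, 1 ≤ M → ∀ n,
    (∀ m ≤ n + 6, x m ≤ M) → x (n + 6) ≤ c / M → x (n + 5) ≤ c / M → x (n + 4) ≤ c / M := by
  obtain ⟨a0, a1, a2, a3, a4, b0, b1, b2, b3, b4⟩ := hf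
  obtain ⟨B, hB⟩ : ∃ B : ℝ, B = b 1 + b 3 + b 4 := ⟨_, rfl⟩
  have hB0 : 0 < B := by rw [hB]; linarith
  have hK0 : 0 < b 1 + b 3 * B / a 2 + 1 := by positivity
  obtain ⟨c, hc⟩ : ∃ c : ℝ, c = min (a 2 ^ 2 / (2 * b 4 * B)) (a 2 / (2 * (b 1 + b 3 * B / a 2 + 1))) := ⟨_, rfl⟩
  have hc0 : 0 < c := by rw [hc]; exact lt_min (by positivity) (by positivity)
  have hc1 : c * (2 * b 4 * B) ≤ a 2 ^ 2 := by
    rw [← le_div_iff₀ (by positivity), hc]
    exact min_le_left _ _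
  have hc2 : c * (2 * (b 1 + b 3 * B / a 2 + 1)) ≤ a 2 := by
    rw [← le_div_iff₀ (by positivity), hc]
    exact min_le_right _ _
  refine ⟨c, hc0, fun x hx M hM n hle h0 h1 => ?_⟩
  have hM0 : 0 < M := by linarith
  have p0 := hx.1 n
  have p1 := hx.1 (n + 1)
  have p2 := hx.1 (n + 2)
  have p3 := hx.1 (n + 3)
  have p4 := hx.1 (n + 4)
  have p5 := hx.1 (n + 5)
  have p6 := hx.1 (n + 6)
  have l0 := hle n (by omega)
  have l1 := hle (n + 1) (by omega)
  have l2 := hle (n + 2) (by omega)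
  have l3 := hle (n + 3) (by omega)
  have l4 := hle (n + 4) (by omega)
  have E0 := hx.2 (n + 2)
  have E1 := hx.2 (n + 1)
  have E2 := hx.2 n
  unfold lin at E0 E1 E2
  rw [a0, a1, b0, b2] at E0 E1 E2
  rw [show n + 2 + 4 = n + 6 from rfl, show n + 2 + 3 = n + 5 from rfl, show n + 2 + 2 = n + 4 from rfl,
    show n + 2 + 1 = n + 3 from rfl] at E0
  rw [show n + 1 + 4 = n + 5 from rfl, show n + 1 + 3 = n + 4 from rfl, show n + 1 + 2 = n + 3 from rfl,
    show n + 1 + 1 = n + 2 from rfl] at E1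
  obtain ⟨D0, hD0⟩ : ∃ D0 : ℝ, D0 = b 1 * x (n + 5) + b 3 * x (n + 3) + b 4 * x (n + 2) := ⟨_, rfl⟩
  obtain ⟨D1, hD1⟩ : ∃ D1 : ℝ, D1 = b 1 * x (n + 4) + b 3 * x (n + 2) + b 4 * x (n + 1) := ⟨_, rfl⟩
  obtain ⟨D2, hD2⟩ : ∃ D2 : ℝ, D2 = b 1 * x (n + 3) + b 3 * x (n + 1) + b 4 * x n := ⟨_, rfl⟩
  have F0 : x (n + 6) * D0 = a 2 * x (n + 4) + a 3 * x (n + 3) + a 4 * x (n + 2) := by
    rw [hD0]; linarith
  have F1 : x (n + 5) * D1 = a 2 * x (n + 3) + a 3 * x (n + 2) + a 4 * x (n + 1) := by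
    rw [hD1]; linarith
  have F2 : x (n + 4) * D2 = a 2 * x (n + 2) + a 3 * x (n + 1) + a 4 * x n := by
    rw [hD2]; linarith
  have D0p : 0 < D0 := by
    have := mul_pos b4 p2
    have := mul_nonneg b1 p5.le
    have := mul_nonneg b3 p3.le
    rw [hD0]; linarith
  have D1M : D1 ≤ B * M := by
    have := mul_le_mul_of_nonneg_left l4 b1
    have := mul_le_mul_of_nonneg_left l2 b3
    have := mul_le_mul_of_nonneg_left l1 b4.le
    rw [hD1, hB]; linarith
  have D2M : D2 ≤ B * M := by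
    have := mul_le_mul_of_nonneg_left l3 b1
    have := mul_le_mul_of_nonneg_left l1 b3
    have := mul_le_mul_of_nonneg_left l0 b4.le
    rw [hD2, hB]; linarith
  -- `a₂ x_(n+3) ≤ c B`
  have g3 : a 2 * x (n + 3) ≤ c * B := by
    have q1 := mul_nonneg a3 p2.le
    have q2 := mul_nonneg a4 p1.le
    have q3 : x (n + 5) * D1 ≤ x (n + 5) * (B * M) := mul_le_mul_of_nonneg_left D1M p5.le
    have q4 : x (n + 5) * (B * M) ≤ c / M * (B * M) := mul_le_mul_of_nonneg_right h1 (by positivity)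
    have q5 : c / M * (B * M) = c * B := by field_simp
    linarith
  -- `a₂² x_(n+2) ≤ B c D0`
  have g4 : 2 * (b 4 * x (n + 2)) ≤ D0 := by
    have q1 := mul_nonneg a3 p3.le
    have q2 := mul_nonneg a4 p2.le
    have q3 := mul_nonneg a3 p1.le
    have q4 := mul_nonneg a4 p0.le
    have q5 : a 2 * x (n + 2) ≤ x (n + 4) * (B * M) := by
      have := mul_le_mul_of_nonneg_left D2M p4.le
      linarith
    have q6 : a 2 * x (n + 4) ≤ x (n + 6) * D0 := by linarith
    have q7 : a 2 * (a 2 * x (n + 2)) ≤ a 2 * (x (n + 4) * (B * M)) := mul_le_mul_of_nonneg_left q5 a2.le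
    have q8 : (a 2 * x (n + 4)) * (B * M) ≤ (x (n + 6) * D0) * (B * M) :=
      mul_le_mul_of_nonneg_right q6 (by positivity)
    have q9 : x (n + 6) * (D0 * (B * M)) ≤ c / M * (D0 * (B * M)) := mul_le_mul_of_nonneg_right h0 (by positivity)
    have q10 : c / M * (D0 * (B * M)) = c * B * D0 := by field_simp
    have q11 : a 2 ^ 2 * x (n + 2) ≤ c * B * D0 := by
      have e : a 2 ^ 2 * x (n + 2) = a 2 * (a 2 * x (n + 2)) := by ring
      rw [e]
      linarith
    have q12 : 2 * b 4 * (a 2 ^ 2 * x (n + 2)) ≤ 2 * b 4 * (c * B * D0) :=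
      mul_le_mul_of_nonneg_left q11 (by positivity)
    have q13 : c * (2 * b 4 * B) * D0 ≤ a 2 ^ 2 * D0 := mul_le_mul_of_nonneg_right hc1 D0p.le
    have q14 : a 2 ^ 2 * (2 * (b 4 * x (n + 2))) ≤ a 2 ^ 2 * D0 := by linarith
    exact le_of_mul_le_mul_left q14 (by positivity)
  have g5 : D0 ≤ 2 * (b 1 * x (n + 5) + b 3 * x (n + 3)) := by
    rw [hD0] at g4 ⊢
    linarith
  have g6 : b 1 * x (n + 5) + b 3 * x (n + 3) ≤ c * (b 1 + b 3 * B / a 2 + 1) := by
    have q1 : b 1 * x (n + 5) ≤ b 1 * (c / M) := mul_le_mul_of_nonneg_left h1 b1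
    have q2 : c / M ≤ c := div_le_self hc0.le hM
    have q3 : b 1 * (c / M) ≤ b 1 * c := mul_le_mul_of_nonneg_left q2 b1
    have q4 : x (n + 3) ≤ c * B / a 2 := by
      rw [le_div_iff₀ a2]
      linarith
    have q5 : b 3 * x (n + 3) ≤ b 3 * (c * B / a 2) := mul_le_mul_of_nonneg_left q4 b3
    have e : c * (b 1 + b 3 * B / a 2 + 1) = b 1 * c + b 3 * (c * B / a 2) + c := by ring
    rw [e]
    linarith
  have g7 : D0 ≤ a 2 := by
    have : c * (2 * (b 1 + b 3 * B / a 2 + 1)) = 2 * (c * (b 1 + b 3 * B / a 2 + 1)) := by ring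
    linarith
  have g8 : a 2 * x (n + 4) ≤ a 2 * x (n + 6) := by
    have q1 := mul_nonneg a3 p3.le
    have q2 := mul_nonneg a4 p2.le
    have q3 : x (n + 6) * D0 ≤ x (n + 6) * a 2 := mul_le_mul_of_nonneg_left g7 p6.le
    linarith
  exact (le_of_mul_le_mul_left g8 a2).trans h0

/-- two consecutive small terms lead down to the initial window -/
theorem low_all {a b : ℕ → ℝ} (hf : Fam a b) : ∃ c : ℝ, 0 < c ∧ ∀ x, PosSol a b x → ∀ M : ℝ, 1 ≤ M → ∀ n,
    (∀ m ≤ n + 6, x m ≤ M) → x (n + 6) ≤ c / M → x (n + 5) ≤ c / M → x 6 ≤ c / M := by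
  obtain ⟨c, hc, h⟩ := low_step hf
  refine ⟨c, hc, fun x hx M hM n => ?_⟩
  induction n with
  | zero => exact fun _ h0 _ => h0
  | succ n ih =>
    intro hle h0 h1
    refine ih (fun m hm => hle m (by omega)) h1 ?_
    exact h x hx M hM (n + 1) hle h0 h1

/-- the disjunction `Low` -/
def low (j : ℕ) : List (List (ℕ × ℤ)) := [[(j, 1), (0, 1)], [(j + 1, 1), (0, 1)]]

theorem low_holds {a b : ℕ → ℝ} (hf : Fam a b) {x : ℕ → ℝ} (hx : PosSol a b x) {l : Ultrafilter ℕ} {N : ℕ → ℕ}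
    (hN : Tendsto N l atTop) (hX : Back a b l (fun i j => x (N i - j))) (j : ℕ) :
    ∃ B : ℝ, ∀ᶠ i in (l : Filter ℕ), ∃ f ∈ low j, 0 ≤ wv (fun j => log (x (N i - j))) f + B := by
  obtain ⟨c, hc, h⟩ := low_all hf
  refine ⟨|log c|, ?_⟩
  have t1 := hX.top
  simp only [Nat.sub_zero] at t1
  filter_upwards [hN.eventually (eventually_ge_atTop (j + 6)), t1.eventually_gt_atTop (c / x 6),
    t1.eventually_ge_atTop 1] with i h1 h2 h3
  have hle : ∀ m ≤ N i - j, x m ≤ x (N i) := by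
    intro m hm
    have := hX.le i (N i - m)
    simp only [Nat.sub_zero] at this
    rwa [show N i - (N i - m) = m by omega] at this
  have hp : 0 < x (N i) := hx.1 _
  by_contra hcon
  push Not at hcon
  have c1 := hcon [(j, 1), (0, 1)] (by simp [low])
  have c2 := hcon [(j + 1, 1), (0, 1)] (by simp [low])
  simp only [wv, Nat.sub_zero, Int.cast_one, one_mul, add_zero] at c1 c2
  have key : ∀ m, log (x m) + log (x (N i)) + |log c| < 0 → x m ≤ c / x (N i) := by
    intro m hm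
    have q1 := neg_abs_le (log c)
    have q2 : log (x m) ≤ log (c / x (N i)) := by
      rw [log_div hc.ne' hp.ne']
      linarith
    exact (log_le_log_iff (hx.1 m) (div_pos hc hp)).1 q2
  obtain ⟨n, hn⟩ : ∃ n, N i - j = n + 6 := ⟨N i - j - 6, by omega⟩
  have hn1 : N i - (j + 1) = n + 5 := by omega
  have k1 := key _ c1
  have k2 := key _ c2
  rw [hn] at k1
  rw [hn1] at k2
  have h6 := h x hx (x (N i)) h3 n (fun m hm => hle m (by omega)) k1 k2
  rw [le_div_iff₀ hp] at h6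
  rw [div_lt_iff₀ (hx.1 6)] at h2
  linarith

end Pool.Agent.H50.K4
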