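import Pool.Agent.H50.K4.Fix

/-!
# The second order comparison

For `x_n (b₁ x_(n-1) + b₃ x_(n-3) + b₄ x_(n-4)) = a₂ x_(n-2)` put `h_n = (b₁ x_(n-1) + b₃ x_(n-3)) / (b₄ x_(n-4))`. Then
`x_n x_(n-6) (1 + h_n) (1 + h_(n-2))` is constant, so a record satisfies `(1 + h_0) (1 + h_2) ≤ (1 + h_6) (1 + h_8)` (backwards).
-/

namespace Pool.Agent.H50.K4

open Filter Topology Real
open Pool.Agent.H50.Rdb
open Pool.Agent.H81.RDE (bitsL ESB caseOf)

/-- the disjunction given by the second order comparison for the term `b0` of `h_(k0)` -/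
def sec (Dp : List ℕ) (k0 b0 : ℕ) : List (List (ℕ × ℤ)) :=
  (Dp.map fun c => [(6 + c, 1), (10, -1), (k0 + b0, -1), (k0 + 4, 1)]) ++
    ((Dp.map fun c => [(8 + c, 1), (12, -1), (k0 + b0, -1), (k0 + 4, 1)]) ++
      (Dp.flatMap fun c => Dp.map fun c' => [(6 + c, 1), (10, -1), (8 + c', 1), (12, -1), (k0 + b0, -1), (k0 + 4, 1)]))

/-- the quotient `h` -/
noncomputable def hq (b : ℕ → ℝ) (X : ℕ → ℝ) (k : ℕ) : ℝ :=
  b 1 / b 4 * (X (k + 1) / X (k + 4)) + b 3 / b 4 * (X (k + 3) / X (k + 4))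

theorem second {a b : ℕ → ℝ} {X : ℕ → ℝ} (hp : ∀ j, 0 < X j) (ha2 : 0 < a 2) (hb4 : 0 < b 4)
    (h : ∀ j ≤ 8, X j * (b 1 * X (j + 1) + b 3 * X (j + 3) + b 4 * X (j + 4)) = a 2 * X (j + 2))
    (hle : X 12 ≤ X 0) : (1 + hq b X 0) * (1 + hq b X 2) ≤ (1 + hq b X 6) * (1 + hq b X 8) := by
  have key : ∀ j ≤ 8, X j * (b 4 * X (j + 4) * (1 + hq b X j)) = a 2 * X (j + 2) := by
    intro j hj
    have h1 := hp (j + 4)
    rw [← h j hj]
    unfold hq
    field_simp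
    ring
  have p : ∀ j ≤ 6, X j * X (j + 6) * (b 4 ^ 2 * ((1 + hq b X j) * (1 + hq b X (j + 2)))) = a 2 ^ 2 := by
    intro j hj
    have h1 := key j (by omega)
    have h2 := key (j + 2) (by omega)
    rw [show j + 2 + 4 = j + 6 from rfl, show j + 2 + 2 = j + 4 from rfl] at h2
    have h3 := hp (j + 4)
    have h4 := hp (j + 2)
    have h5 : (X j * X (j + 6) * (b 4 ^ 2 * ((1 + hq b X j) * (1 + hq b X (j + 2))))) * (X (j + 2) * X (j + 4)) =
        a 2 ^ 2 * (X (j + 2) * X (j + 4)) := by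
      linear_combination (X (j + 2) * (b 4 * X (j + 6) * (1 + hq b X (j + 2)))) * h1 + (a 2 * X (j + 2)) * h2
    exact mul_right_cancel₀ (mul_pos h4 h3).ne' h5
  have h0 := p 0 (by norm_num)
  have h6 := p 6 (by norm_num)
  rw [zero_add, zero_add] at h0
  rw [show 6 + 6 = 12 from rfl, show 6 + 2 = 8 from rfl] at h6
  have q0 := hp 0
  have q6 := hp 6
  have q12 := hp 12
  have h1 : (X 6 * b 4 ^ 2 * X 0) * ((1 + hq b X 0) * (1 + hq b X 2)) =
      (X 6 * b 4 ^ 2 * X 12) * ((1 + hq b X 6) * (1 + hq b X 8)) := by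
    linear_combination h0 - h6
  have h2 : 0 < X 6 * b 4 ^ 2 := by positivity
  have h4 : 0 < (1 + hq b X 6) * (1 + hq b X 8) := by
    have q1 : 0 < a 2 ^ 2 := by positivity
    rw [← h6] at q1
    have q2 : 0 < X 6 * X 12 * b 4 ^ 2 := by positivity
    have q3 : X 6 * X 12 * (b 4 ^ 2 * ((1 + hq b X 6) * (1 + hq b X 8))) =
        (X 6 * X 12 * b 4 ^ 2) * ((1 + hq b X 6) * (1 + hq b X 8)) := by ring
    rw [q3] at q1
    exact pos_of_mul_pos_right q1 q2.le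
  have h3 : (X 6 * b 4 ^ 2 * X 12) * ((1 + hq b X 6) * (1 + hq b X 8)) ≤
      (X 6 * b 4 ^ 2 * X 0) * ((1 + hq b X 6) * (1 + hq b X 8)) := by
    refine mul_le_mul_of_nonneg_right ?_ h4.le
    exact mul_le_mul_of_nonneg_left hle h2.le
  have h5 : (X 6 * b 4 ^ 2 * X 0) * ((1 + hq b X 0) * (1 + hq b X 2)) ≤
      (X 6 * b 4 ^ 2 * X 0) * ((1 + hq b X 6) * (1 + hq b X 8)) := by
    rw [h1]
    exact h3
  exact le_of_mul_le_mul_left h5 (mul_pos h2 q0)

/-- the bound of `h` by its terms -/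
theorem hq_le {b X : ℕ → ℝ} (hb1 : 0 ≤ b 1) (hb3 : 0 ≤ b 3) (hb4 : 0 < b 4) {Dp : List ℕ} (hDp : ∀ c ∈ Dp, c = 1 ∨ c = 3)
    (h1 : 1 ∈ Dp ∨ b 1 = 0) (h3 : 3 ∈ Dp ∨ b 3 = 0) {k : ℕ} {u : ℝ}
    (hu : ∀ c ∈ Dp, X (k + c) / X (k + 4) ≤ u) : hq b X k ≤ (b 1 + b 3) / b 4 * u := by
  have e1 : b 1 / b 4 * (X (k + 1) / X (k + 4)) ≤ b 1 / b 4 * u := by
    rcases h1 with h | h
    · exact mul_le_mul_of_nonneg_left (hu 1 h) (by positivity)
    · simp [h]
  have e3 : b 3 / b 4 * (X (k + 3) / X (k + 4)) ≤ b 3 / b 4 * u := by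
    rcases h3 with h | h
    · exact mul_le_mul_of_nonneg_left (hu 3 h) (by positivity)
    · simp [h]
  unfold hq
  have e : (b 1 + b 3) / b 4 * u = b 1 / b 4 * u + b 3 / b 4 * u := by ring
  rw [e]
  exact add_le_add e1 e3

/-- `h` is at least each of its terms -/
theorem le_hq {b X : ℕ → ℝ} (hp : ∀ j, 0 < X j) (hb1 : 0 ≤ b 1) (hb3 : 0 ≤ b 3) (hb4 : 0 < b 4) {c : ℕ} (hc : c = 1 ∨ c = 3)
    (k : ℕ) : b c / b 4 * (X (k + c) / X (k + 4)) ≤ hq b X k := by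
  have h1 := hp (k + 1)
  have h3 := hp (k + 3)
  have h4 := hp (k + 4)
  have e1 : 0 ≤ b 1 / b 4 * (X (k + 1) / X (k + 4)) := by positivity
  have e3 : 0 ≤ b 3 / b 4 * (X (k + 3) / X (k + 4)) := by positivity
  unfold hq
  rcases hc with rfl | rfl <;> linarith

theorem hq_nonneg {b X : ℕ → ℝ} (hp : ∀ j, 0 < X j) (hb1 : 0 ≤ b 1) (hb3 : 0 ≤ b 3) (hb4 : 0 < b 4) (k : ℕ) :
    0 ≤ hq b X k := by
  have h1 := hp (k + 1)
  have h3 := hp (k + 3)
  have h4 := hp (k + 4)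
  unfold hq
  positivity

theorem sec_holds {a b : ℕ → ℝ} (ha1 : a 1 = 0) (ha0 : a 0 = 0) (ha2 : 0 < a 2) (ha3 : a 3 = 0) (ha4 : a 4 = 0)
    (hb0 : b 0 = 0) (hb1 : 0 ≤ b 1) (hb2 : b 2 = 0) (hb3 : 0 ≤ b 3) (hb4 : 0 < b 4) {Dp : List ℕ}
    (hDp : ∀ c ∈ Dp, c = 1 ∨ c = 3) (h1 : 1 ∈ Dp ∨ b 1 = 0) (h3 : 3 ∈ Dp ∨ b 3 = 0)
    {l : Ultrafilter ℕ} {X : ℕ → ℕ → ℝ} (hX : Back a b l X) {k0 b0 : ℕ} (hk : k0 = 0 ∨ k0 = 2) (hb : b0 ∈ Dp)
    (hbp : 0 < b b0) :
    ∃ B : ℝ, ∀ᶠ i in (l : Filter ℕ), ∃ f ∈ sec Dp k0 b0, 0 ≤ wv (fun j => log (X i j)) f + B := by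
  obtain ⟨s, hs⟩ : ∃ s : ℝ, s = (b 1 + b 3) / b 4 := ⟨_, rfl⟩
  have hs0 : 0 ≤ s := by rw [hs]; positivity
  obtain ⟨K, hK⟩ : ∃ K : ℝ, K = 2 * s + s * s + 1 := ⟨_, rfl⟩
  have hK1 : 1 ≤ K := by rw [hK]; nlinarith
  obtain ⟨β, hβ⟩ : ∃ β : ℝ, β = b b0 / b 4 := ⟨_, rfl⟩
  have hβ0 : 0 < β := by rw [hβ]; positivity
  -- the bound
  obtain ⟨E, hE⟩ : ∃ E : ℝ, E = min 1 (β / K) := ⟨_, rfl⟩
  have hE0 : 0 < E := by rw [hE]; exact lt_min one_pos (by positivity)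
  refine ⟨-log E, ?_⟩
  have hev : ∀ᶠ i in (l : Filter ℕ), ∀ j ∈ Finset.range 9,
      X i j * lin b (X i (j + 1)) (X i (j + 2)) (X i (j + 3)) (X i (j + 4)) =
        lin a (X i (j + 1)) (X i (j + 2)) (X i (j + 3)) (X i (j + 4)) :=
    (Finset.eventually_all _).2 fun j _ => hX.step j
  filter_upwards [hev] with i hi
  have hp := hX.pos i
  have hsec := second (a := a) (b := b) (X := X i) hp ha2 hb4 (fun j hj => by
    have h := hi j (Finset.mem_range.2 (by omega))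
    unfold lin at h
    rw [ha0, ha1, ha3, ha4, hb0, hb2] at h
    linarith) (hX.le i 12)
  by_contra hcon
  push Not at hcon
  have hc0 := hDp b0 hb
  obtain ⟨v, hv⟩ : ∃ v : ℝ, v = X i (k0 + b0) / X i (k0 + 4) := ⟨_, rfl⟩
  have hv0 : 0 < v := by
    rw [hv]
    exact div_pos (hp _) (hp _)
  have hlv : log v = log (X i (k0 + b0)) - log (X i (k0 + 4)) := by
    rw [hv, log_div (hp _).ne' (hp _).ne']
  have hl : ∀ z : ℝ, 0 < z → log z - log v - log E < 0 → z ≤ E * v := by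
    intro z hz h
    have : log z ≤ log (E * v) := by
      rw [log_mul hE0.ne' hv0.ne']
      linarith
    exact (log_le_log_iff hz (mul_pos hE0 hv0)).1 this
  have u6 : ∀ c ∈ Dp, X i (6 + c) / X i (6 + 4) ≤ E * v := by
    intro c hc
    refine hl _ (div_pos (hp _) (hp _)) ?_
    have := hcon [(6 + c, 1), (10, -1), (k0 + b0, -1), (k0 + 4, 1)] (by
      unfold sec
      exact List.mem_append_left _ (List.mem_map.2 ⟨c, hc, rfl⟩))
    simp only [wv, Int.cast_one, Int.cast_neg, one_mul, neg_mul, add_zero] at this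
    rw [log_div (hp _).ne' (hp _).ne', hlv]
    norm_num at this ⊢
    linarith
  have u8 : ∀ c ∈ Dp, X i (8 + c) / X i (8 + 4) ≤ E * v := by
    intro c hc
    refine hl _ (div_pos (hp _) (hp _)) ?_
    have := hcon [(8 + c, 1), (12, -1), (k0 + b0, -1), (k0 + 4, 1)] (by
      unfold sec
      exact List.mem_append_right _ (List.mem_append_left _ (List.mem_map.2 ⟨c, hc, rfl⟩)))
    simp only [wv, Int.cast_one, Int.cast_neg, one_mul, neg_mul, add_zero] at this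
    rw [log_div (hp _).ne' (hp _).ne', hlv]
    norm_num at this ⊢
    linarith
  have u68 : ∀ c ∈ Dp, ∀ c' ∈ Dp, X i (6 + c) / X i (6 + 4) * (X i (8 + c') / X i (8 + 4)) ≤ E * v := by
    intro c hc c' hc'
    refine hl _ (mul_pos (div_pos (hp _) (hp _)) (div_pos (hp _) (hp _))) ?_
    have := hcon [(6 + c, 1), (10, -1), (8 + c', 1), (12, -1), (k0 + b0, -1), (k0 + 4, 1)] (by
      unfold sec
      exact List.mem_append_right _ (List.mem_append_right _ (List.mem_flatMap.2 ⟨c, hc, List.mem_map.2 ⟨c', hc', rfl⟩⟩)))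
    simp only [wv, Int.cast_one, Int.cast_neg, one_mul, neg_mul, add_zero] at this
    rw [log_mul (div_pos (hp _) (hp _)).ne' (div_pos (hp _) (hp _)).ne', log_div (hp _).ne' (hp _).ne',
      log_div (hp _).ne' (hp _).ne', hlv]
    norm_num at this ⊢
    linarith
  have v6 : hq b (X i) 6 ≤ s * (E * v) := by
    rw [hs]
    exact hq_le hb1 hb3 hb4 hDp h1 h3 u6
  have v8 : hq b (X i) 8 ≤ s * (E * v) := by
    rw [hs]
    exact hq_le hb1 hb3 hb4 hDp h1 h3 u8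
  have v68 : hq b (X i) 6 * hq b (X i) 8 ≤ s * s * (E * v) := by
    -- expand `h_8` for a fixed term of `h_6`
    have w8 : ∀ c ∈ Dp, X i (6 + c) / X i (6 + 4) * hq b (X i) 8 ≤ s * (E * v) := by
      intro c hc
      obtain ⟨z, hz⟩ : ∃ z : ℝ, z = X i (6 + c) / X i (6 + 4) := ⟨_, rfl⟩
      have hz0 : 0 < z := by rw [hz]; exact div_pos (hp _) (hp _)
      have g := hq_le (b := b) (X := X i) (k := 8) (u := E * v / z) hb1 hb3 hb4 hDp h1 h3 (fun c' hc' => by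
        rw [le_div_iff₀ hz0, mul_comm, hz]
        exact u68 c hc c' hc')
      rw [← hz]
      have g2 := mul_le_mul_of_nonneg_left g hz0.le
      have e : z * ((b 1 + b 3) / b 4 * (E * v / z)) = s * (E * v) := by
        rw [hs]
        field_simp
      rwa [e] at g2
    rcases (hq_nonneg (b := b) (X := X i) hp hb1 hb3 hb4 8).eq_or_lt with h0 | h0
    · rw [← h0, mul_zero]
      positivity
    · have g := hq_le (b := b) (X := X i) (k := 6) (u := s * (E * v) / hq b (X i) 8) hb1 hb3 hb4 hDp h1 h3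
        (fun c hc => by
          rw [le_div_iff₀ h0]
          exact w8 c hc)
      have g2 := mul_le_mul_of_nonneg_right g h0.le
      have e : (b 1 + b 3) / b 4 * (s * (E * v) / hq b (X i) 8) * hq b (X i) 8 = s * s * (E * v) := by
        rw [← hs]
        field_simp
      rwa [e] at g2
  have v0 : β * v ≤ hq b (X i) k0 := by
    rw [hβ, hv]
    exact le_hq hp hb1 hb3 hb4 hc0 k0
  have n0 := hq_nonneg (b := b) (X := X i) hp hb1 hb3 hb4 0
  have n2 := hq_nonneg (b := b) (X := X i) hp hb1 hb3 hb4 2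
  have v02 : hq b (X i) k0 ≤ hq b (X i) 0 + hq b (X i) 2 := by
    rcases hk with rfl | rfl <;> linarith
  have hEv : 0 < E * v := mul_pos hE0 hv0
  have hfin : β * v ≤ (2 * s + s * s) * (E * v) := by nlinarith [mul_nonneg n0 n2]
  have hEK : K * E ≤ β := by
    have : E ≤ β / K := by rw [hE]; exact min_le_right _ _
    rw [le_div_iff₀ (by linarith)] at this
    linarith
  have hfin2 : K * (E * v) ≤ β * v := by
    calc K * (E * v) = K * E * v := by ring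
      _ ≤ β * v := mul_le_mul_of_nonneg_right hEK hv0.le
  have : K * (E * v) = (2 * s + s * s) * (E * v) + E * v := by rw [hK]; ring
  linarith

end Pool.Agent.H50.K4
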